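import Mathlib

/-!
Calculus of a family of commuting derivations on a field of characteristic 2.
-/

namespace CSLef

open Finset

section tcalc

variable {F : Type*} [Field F]

/-- all `m`-fold derivatives vanish -/
def DegLT (T : ℕ → Derivation ℤ F F) : ℕ → F → Prop
  | 0, g => g = 0
  | (m + 1), g => ∀ l, DegLT T m (T l g)

/-- iterated derivative along a list -/
def CC (T : ℕ → Derivation ℤ F F) (L : List ℕ) (g : F) : F :=
  L.foldr (fun l x => T l x) g

variable {T : ℕ → Derivation ℤ F F}

theorem CC_nil (g : F) : CC T [] g = g := rfl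

theorem CC_cons (l : ℕ) (L : List ℕ) (g : F) : CC T (l :: L) g = T l (CC T L g) := rfl

theorem CC_add (L : List ℕ) (g h : F) : CC T L (g + h) = CC T L g + CC T L h := by
  induction L with
  | nil => rfl
  | cons l L ih => rw [CC_cons, CC_cons, CC_cons, ih, map_add]

theorem CC_zero (L : List ℕ) : CC T L 0 = 0 := by
  induction L with
  | nil => rfl
  | cons l L ih => rw [CC_cons, ih, map_zero]

theorem CC_neg (L : List ℕ) (g : F) : CC T L (-g) = -CC T L g := by
  induction L with
  | nil => rfl
  | cons l L ih => rw [CC_cons, CC_cons, ih, map_neg]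

theorem CC_sub (L : List ℕ) (g h : F) : CC T L (g - h) = CC T L g - CC T L h := by
  rw [sub_eq_add_neg, CC_add, CC_neg, ← sub_eq_add_neg]

theorem CC_sum {ι : Type*} (L : List ℕ) (I : Finset ι) (g : ι → F) :
    CC T L (∑ i ∈ I, g i) = ∑ i ∈ I, CC T L (g i) := by
  classical
  induction I using Finset.induction_on with
  | empty => simp [CC_zero]
  | insert i I hi ih => rw [Finset.sum_insert hi, Finset.sum_insert hi, CC_add, ih]

/-- constants -/
def Cst (T : ℕ → Derivation ℤ F F) (c : F) : Prop := ∀ l, T l c = 0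

theorem CC_const_mul (L : List ℕ) {c : F} (hc : Cst T c) (g : F) :
    CC T L (c * g) = c * CC T L g := by
  induction L with
  | nil => rfl
  | cons l L ih => rw [CC_cons, CC_cons, ih, Derivation.leibniz, hc l, smul_zero, add_zero,
      smul_eq_mul]

theorem CC_const_mul' (L : List ℕ) {c : F} (hc : ∀ l ∈ L, T l c = 0) (g : F) :
    CC T L (c * g) = c * CC T L g := by
  induction L with
  | nil => rfl
  | cons l L ih => rw [CC_cons, CC_cons, ih (fun l' hl' => hc l' (List.mem_cons_of_mem _ hl')),
      Derivation.leibniz, hc l List.mem_cons_self, smul_zero, add_zero, smul_eq_mul]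

theorem Cst.mul {c c' : F} (h : Cst T c) (h' : Cst T c') : Cst T (c * c') := by
  intro l
  rw [Derivation.leibniz, h l, h' l, smul_zero, smul_zero, add_zero]

theorem Cst.inv {c : F} (h : Cst T c) : Cst T c⁻¹ := by
  intro l
  rw [Derivation.leibniz_inv, h l, smul_zero]

theorem Cst.sum {ι : Type*} (I : Finset ι) (g : ι → F) (h : ∀ i ∈ I, Cst T (g i)) :
    Cst T (∑ i ∈ I, g i) := by
  intro l
  rw [map_sum]
  exact Finset.sum_eq_zero (fun i hi => h i hi l)

theorem Cst.prod {ι : Type*} (I : Finset ι) (g : ι → F) (h : ∀ i ∈ I, Cst T (g i)) :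
    Cst T (∏ i ∈ I, g i) := by
  classical
  induction I using Finset.induction_on with
  | empty =>
    intro l
    rw [Finset.prod_empty]
    exact Derivation.map_one_eq_zero _
  | insert i I hi ih =>
    rw [Finset.prod_insert hi]
    exact (h i (Finset.mem_insert_self i I)).mul
      (ih (fun j hj => h j (Finset.mem_insert_of_mem hj)))

theorem DegLT.zero (m : ℕ) : DegLT T m 0 := by
  induction m with
  | zero => rfl
  | succ m ih => intro l; rw [map_zero]; exact ih

theorem DegLT.succ {m : ℕ} : ∀ {g : F}, DegLT T m g → DegLT T (m + 1) g := by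
  induction m with
  | zero => intro g hg l; rw [show g = 0 from hg, map_zero]; rfl
  | succ m ih => intro g hg l; exact ih (hg l)

theorem DegLT.mono {m m' : ℕ} (h : m ≤ m') {g : F} (hg : DegLT T m g) : DegLT T m' g := by
  induction h with
  | refl => exact hg
  | step _ ih => exact ih.succ

theorem DegLT.add {m : ℕ} : ∀ {g h : F}, DegLT T m g → DegLT T m h → DegLT T m (g + h) := by
  induction m with
  | zero =>
    intro g h hg hh
    rw [show g = 0 from hg, show h = 0 from hh, add_zero]
    rfl
  | succ m ih => intro g h hg hh l; rw [map_add]; exact ih (hg l) (hh l)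

theorem DegLT.const_mul {m : ℕ} {c : F} (hc : Cst T c) :
    ∀ {g : F}, DegLT T m g → DegLT T m (c * g) := by
  induction m with
  | zero => intro g hg; rw [show g = 0 from hg, mul_zero]; rfl
  | succ m ih =>
    intro g hg l
    rw [Derivation.leibniz, hc l, smul_zero, add_zero, smul_eq_mul]
    exact ih (hg l)

/-- linear elements -/
def Lin (T : ℕ → Derivation ℤ F F) (x : F) : Prop := ∀ l, Cst T (T l x)

theorem DegLT.lin_mul {m : ℕ} {x : F} (hx : Lin T x) :
    ∀ {g : F}, DegLT T m g → DegLT T (m + 1) (x * g) := by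
  induction m with
  | zero => intro g hg; rw [show g = 0 from hg, mul_zero]; exact DegLT.zero _
  | succ m ih =>
    intro g hg l
    rw [Derivation.leibniz, smul_eq_mul, smul_eq_mul]
    apply DegLT.add
    · exact ih (hg l)
    · rw [mul_comm]
      exact DegLT.const_mul (hx l) hg

theorem DegLT.one : DegLT T 1 1 := fun l => Derivation.map_one_eq_zero (T l)

theorem DegLT.prod {ι : Type*} (I : Finset ι) (g : ι → F) (h : ∀ i ∈ I, Lin T (g i)) :
    DegLT T (I.card + 1) (∏ i ∈ I, g i) := by
  classical
  induction I using Finset.induction_on with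
  | empty => rw [Finset.prod_empty, Finset.card_empty]; exact DegLT.one
  | insert i I hi ih =>
    rw [Finset.prod_insert hi, Finset.card_insert_of_notMem hi]
    exact (ih (fun j hj => h j (Finset.mem_insert_of_mem hj))).lin_mul
      (h i (Finset.mem_insert_self i I))

theorem CC_comm (δ : F → F) (L : List ℕ) (hδ : ∀ l ∈ L, ∀ x, T l (δ x) = δ (T l x)) (g : F) :
    CC T L (δ g) = δ (CC T L g) := by
  induction L with
  | nil => rfl
  | cons l L ih =>
    rw [CC_cons, CC_cons, ih (fun l' hl' => hδ l' (List.mem_cons_of_mem _ hl')),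
      hδ l List.mem_cons_self]

theorem CC_append (L L' : List ℕ) (g : F) : CC T (L ++ L') g = CC T L (CC T L' g) := by
  unfold CC
  rw [List.foldr_append]

variable (hT : ∀ l l' x, T l (T l' x) = T l' (T l x))

include hT

theorem CC_degLT {m : ℕ} {g : F} (L : List ℕ) (hL : L.length = m) (hg : DegLT T m g) :
    CC T L g = 0 := by
  induction L generalizing m g with
  | nil =>
    subst hL
    exact hg
  | cons l L ih =>
    subst hL
    rw [CC_cons, ← CC_comm (fun x => T l x) L (fun l' _ x => hT l' l x)]
    exact ih rfl (hg l)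

theorem CC_T_zero {g : F} (L : List ℕ) {l : ℕ} (hl : l ∈ L) (hg : T l (T l g) = 0) :
    T l (CC T L g) = 0 := by
  induction L with
  | nil => exact absurd hl List.not_mem_nil
  | cons l' L ih =>
    rw [CC_cons]
    by_cases h : l = l'
    · subst h
      rw [← CC_comm (fun x => T l x) L (fun l' _ x => hT l' l x),
        ← CC_comm (fun x => T l x) L (fun l' _ x => hT l' l x), hg, CC_zero]
    · rw [hT, ih (by
        rcases List.mem_cons.mp hl with h' | h'
        · exact absurd h' h
        · exact h'), map_zero]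

theorem CC_T_zero' {g : F} (L : List ℕ) {l : ℕ} (hl : l ∈ L) (hg : T l (T l g) = 0) :
    CC T L (T l g) = 0 := by
  rw [CC_comm (fun x => T l x) L (fun l' _ x => hT l' l x)]
  exact CC_T_zero hT L hl hg

omit hT

section char2

variable [CharP F 2]

/-- second derivatives in each direction vanish -/
def Sq (T : ℕ → Derivation ℤ F F) (g : F) : Prop := ∀ l, T l (T l g) = 0

theorem Sq.mul {g h : F} (hg : Sq T g) (hh : Sq T h) : Sq T (g * h) := by
  intro l
  rw [Derivation.leibniz, map_add, smul_eq_mul, smul_eq_mul, Derivation.leibniz,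
    Derivation.leibniz, hg l, hh l]
  simp only [smul_eq_mul, mul_zero, zero_add, add_zero]
  rw [mul_comm]
  exact CharTwo.add_self_eq_zero _

theorem Sq.of_cst {g : F} (hg : Cst T g) : Sq T g := by
  intro l; rw [hg l, map_zero]

theorem Sq.of_lin {g : F} (hg : Lin T g) : Sq T g := fun l => hg l l

theorem cst_sq (g : F) : Cst T (g ^ 2) := by
  intro l
  rw [Derivation.leibniz_pow]
  simp only [smul_eq_mul, nsmul_eq_mul]
  rw [show ((2 : ℕ) : F) = 0 from CharP.cast_eq_zero F 2]
  ring

theorem Sq.inv {g : F} (hg : Sq T g) : Sq T g⁻¹ := by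
  by_cases h : g = 0
  · subst h; rw [inv_zero]; exact hg
  · have : g⁻¹ = (g⁻¹) ^ 2 * g := by field_simp
    rw [this]
    exact (Sq.of_cst (cst_sq _)).mul hg

theorem Sq.add {g h : F} (hg : Sq T g) (hh : Sq T h) : Sq T (g + h) := by
  intro l; rw [map_add, map_add, hg l, hh l, add_zero]

theorem Sq.sum {ι : Type*} (I : Finset ι) (g : ι → F) (h : ∀ i ∈ I, Sq T (g i)) :
    Sq T (∑ i ∈ I, g i) := by
  intro l
  rw [map_sum, map_sum]
  exact Finset.sum_eq_zero (fun i hi => h i hi l)

theorem Sq.prod {ι : Type*} (I : Finset ι) (g : ι → F) (h : ∀ i ∈ I, Sq T (g i)) :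
    Sq T (∏ i ∈ I, g i) := by
  classical
  induction I using Finset.induction_on with
  | empty =>
    rw [Finset.prod_empty]
    exact Sq.of_cst (fun l => Derivation.map_one_eq_zero (T l))
  | insert i I hi ih =>
    rw [Finset.prod_insert hi]
    exact (h i (Finset.mem_insert_self i I)).mul
      (ih (fun j hj => h j (Finset.mem_insert_of_mem hj)))

theorem Sq.pow {g : F} (hg : Sq T g) (n : ℕ) : Sq T (g ^ n) := by
  induction n with
  | zero => rw [pow_zero]; exact Sq.of_cst (fun l => Derivation.map_one_eq_zero (T l))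
  | succ n ih => rw [pow_succ]; exact ih.mul hg

end char2

/-- the product of the coordinates has derivative one -/
theorem CC_prod_t (L : List ℕ) (hL : L.Nodup) (t : ℕ → F)
    (ht : ∀ l ∈ L, ∀ l' ∈ L, T l (t l') = if l = l' then 1 else 0) :
    CC T L (∏ l ∈ L.toFinset, t l) = 1 := by
  classical
  induction L with
  | nil => simp [CC_nil]
  | cons l L ih =>
    rw [List.nodup_cons] at hL
    have hnot : l ∉ L.toFinset := by rw [List.mem_toFinset]; exact hL.1
    rw [List.toFinset_cons, Finset.prod_insert hnot, CC_cons, CC_const_mul', ih hL.2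
      (fun a ha b hb => ht a (List.mem_cons_of_mem _ ha) b (List.mem_cons_of_mem _ hb)), mul_one,
      ht l List.mem_cons_self l List.mem_cons_self, if_pos rfl]
    intro l' hl'
    rw [ht l' (List.mem_cons_of_mem _ hl') l List.mem_cons_self, if_neg]
    rintro rfl
    exact hL.1 hl'

end tcalc

end CSLef
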