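import Mathlib
import Pool.Agent.Work.MP_38c61c_al.TCalc

/-!
Coefficientwise derivations of polynomials.
-/

namespace CSLef

open MvPolynomial Finset

variable {V : Type} {F : Type*} [CommRing F]

/-- apply a derivation to all coefficients -/
noncomputable def dmap (δ : Derivation ℤ F F) (f : MvPolynomial V F) : MvPolynomial V F :=
  ∑ m ∈ f.support, monomial m (δ (coeff m f))

variable (δ : Derivation ℤ F F)

theorem coeff_dmap (f : MvPolynomial V F) (m : V →₀ ℕ) :
    coeff m (dmap δ f) = δ (coeff m f) := by
  classical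
  unfold dmap
  simp only [coeff_sum, coeff_monomial]
  rw [Finset.sum_ite_eq' f.support m]
  split_ifs with h
  · rfl
  · rw [notMem_support_iff.mp h, map_zero]

theorem dmap_add (f g : MvPolynomial V F) : dmap δ (f + g) = dmap δ f + dmap δ g := by
  ext m
  simp only [coeff_dmap, coeff_add, map_add]

theorem dmap_zero : dmap δ (0 : MvPolynomial V F) = 0 := by
  ext m
  simp only [coeff_dmap, coeff_zero, map_zero]

theorem dmap_sum {ι : Type*} (I : Finset ι) (f : ι → MvPolynomial V F) :
    dmap δ (∑ i ∈ I, f i) = ∑ i ∈ I, dmap δ (f i) := by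
  classical
  induction I using Finset.induction_on with
  | empty => simp [dmap_zero]
  | insert i I hi ih => rw [Finset.sum_insert hi, Finset.sum_insert hi, dmap_add, ih]

theorem dmap_C (b : F) : dmap δ (C b : MvPolynomial V F) = C (δ b) := by
  classical
  ext m
  rw [coeff_dmap, coeff_C, coeff_C]
  split_ifs
  · rfl
  · exact map_zero _

theorem dmap_X (v : V) : dmap δ (X v : MvPolynomial V F) = 0 := by
  classical
  ext m
  rw [coeff_dmap, coeff_X, coeff_zero]
  split_ifs
  · exact Derivation.map_one_eq_zero _
  · exact map_zero _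

theorem dmap_mul (f g : MvPolynomial V F) :
    dmap δ (f * g) = dmap δ f * g + f * dmap δ g := by
  classical
  ext m
  simp only [coeff_dmap, coeff_add, coeff_mul, map_sum]
  rw [← Finset.sum_add_distrib]
  apply Finset.sum_congr rfl
  intro x _
  rw [Derivation.leibniz, smul_eq_mul, smul_eq_mul]
  ring

theorem dmap_one : dmap δ (1 : MvPolynomial V F) = 0 := by
  rw [← C_1, dmap_C, Derivation.map_one_eq_zero, C_0]

theorem dmap_prod_zero {ι : Type*} (I : Finset ι) (f : ι → MvPolynomial V F)
    (h : ∀ i ∈ I, dmap δ (f i) = 0) : dmap δ (∏ i ∈ I, f i) = 0 := by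
  classical
  induction I using Finset.induction_on with
  | empty => rw [Finset.prod_empty, dmap_one]
  | insert i I hi ih =>
    rw [Finset.prod_insert hi, dmap_mul, h i (Finset.mem_insert_self i I),
      ih (fun j hj => h j (Finset.mem_insert_of_mem hj)), zero_mul, mul_zero, add_zero]

theorem dmap_pow_zero {f : MvPolynomial V F} (h : dmap δ f = 0) (n : ℕ) :
    dmap δ (f ^ n) = 0 := by
  induction n with
  | zero => rw [pow_zero, dmap_one]
  | succ n ih => rw [pow_succ, dmap_mul, h, ih, zero_mul, mul_zero, add_zero]

theorem dmap_pow (f : MvPolynomial V F) (n : ℕ) :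
    dmap δ (f ^ (n + 1)) = (n + 1 : ℕ) * (f ^ n * dmap δ f) := by
  induction n with
  | zero => simp
  | succ n ih =>
    rw [pow_succ, dmap_mul, ih]
    push_cast
    ring

theorem dmap_sq [CharP F 2] (f : MvPolynomial V F) : dmap δ (f ^ 2) = 0 := by
  rw [pow_two, dmap_mul, mul_comm]
  have : (2 : MvPolynomial V F) = 0 := by
    have h := CharP.cast_eq_zero F 2
    have h2 := congrArg (C : F → MvPolynomial V F) h
    rw [map_natCast, map_zero] at h2
    exact_mod_cast h2
  rw [← two_mul, this, zero_mul]

theorem dmap_hom {f : MvPolynomial V F} {n : ℕ} (hf : f.IsHomogeneous n) :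
    (dmap δ f).IsHomogeneous n := by
  intro m hm
  apply hf
  intro h0
  apply hm
  rw [coeff_dmap, h0, map_zero]

/-- if the point is killed by the derivation, evaluation commutes with derivation -/
theorem D_eval (ξ : V → F) (hξ : ∀ v, δ (ξ v) = 0) (f : MvPolynomial V F) :
    δ (eval ξ f) = eval ξ (dmap δ f) := by
  induction f using MvPolynomial.induction_on with
  | C b => rw [dmap_C, eval_C, eval_C]
  | add f g hf hg => rw [map_add, map_add, hf, hg, dmap_add, map_add]
  | mul_X f v hf =>
    rw [map_mul, eval_X, Derivation.leibniz, hξ v, smul_zero, zero_add, hf, dmap_mul, dmap_X,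
      mul_zero, add_zero, map_mul, eval_X, smul_eq_mul, mul_comm]

end CSLef
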