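import Mathlib
import Pool.Agent.Work.MP_38c61c_al.TCalc

/-!
Generic columns over a field, coordinates with respect to independent sets of columns.
-/

namespace CSLef

open Finset

variable {W : Type} [Fintype W] [DecidableEq W] {F : Type*} [Field F]

/-- generic columns `p · w` (`w : W`) of height `d` in a field with commuting derivations `D l w`,
where columns of related indices agree up to the effect of the derivations -/
structure Cols (d : ℕ) (rel : W → W → Prop) [DecidableRel rel] (p : ℕ → W → F)
    (D : ℕ → W → Derivation ℤ F F) : Prop where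
  refl : ∀ w, rel w w
  D_p : ∀ l w l' w', D l w (p l' w') = if l = l' ∧ l < d ∧ rel w w' then 1 else 0
  D_ge : ∀ l w x, d ≤ l → D l w x = 0
  comm : ∀ l w l' w' x, D l w (D l' w' x) = D l' w' (D l w x)

/-- a set of pairwise unrelated columns -/
def Valid (rel : W → W → Prop) (E : Finset W) : Prop := ∀ w ∈ E, ∀ w' ∈ E, rel w w' → w = w'

variable {d : ℕ} {rel : W → W → Prop} [DecidableRel rel] {p : ℕ → W → F}
  {D : ℕ → W → Derivation ℤ F F}

theorem indep (h : Cols d rel p D) {E : Finset W} (hE : Valid rel E) {s : ℕ} (hs : E.card = s)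
    (hsd : s ≤ d) : ∃ q : W → ℕ → F,
    (∀ u ∈ E, ∀ v ∈ E, ∑ l ∈ range s, q v l * p l u = if u = v then 1 else 0) ∧
    (∀ l < s, ∀ l' < s, ∑ v ∈ E, q v l * p l' v = if l = l' then 1 else 0) := by
  classical
  let e : Fin s ≃ E := (Finset.equivFinOfCardEq hs).symm
  let M : Matrix (Fin s) (Fin s) F := fun i j => p i (e j)
  have hdet : M.det ≠ 0 := by
    intro hdet
    obtain ⟨v, hv0, hv⟩ := Matrix.exists_mulVec_eq_zero_iff.mpr hdet
    obtain ⟨j0, hj0⟩ := Function.ne_iff.mp hv0
    simp only [Pi.zero_apply] at hj0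
    let v' : Fin s → F := fun j => v j / v j0
    have hv' : ∀ i, ∑ j, M i j * v' j = 0 := by
      intro i
      have h1 := congrFun hv i
      simp only [Matrix.mulVec, dotProduct, Pi.zero_apply] at h1
      have h2 : ∑ j, M i j * v' j = (∑ j, M i j * v j) / v j0 := by
        rw [Finset.sum_div]
        exact Finset.sum_congr rfl (fun j _ => by simp only [v']; ring)
      rw [h2, h1, zero_div]
    have hv'0 : v' j0 = 1 := div_self hj0
    let X : Matrix (Fin s) (Fin s) F := fun j l => - D l (e j0) (v' j)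
    have hMX : M * X = 1 := by
      ext i l
      rw [Matrix.mul_apply]
      have h1 := congrArg (D l (e j0)) (hv' i)
      rw [map_sum, map_zero] at h1
      simp only [Derivation.leibniz, smul_eq_mul] at h1
      rw [Finset.sum_add_distrib] at h1
      have h2 : ∑ j, v' j * D l (e j0) (M i j) = if i = l then 1 else 0 := by
        have h3 : ∀ j, D l (e j0) (M i j) = if i = l ∧ j = j0 then 1 else 0 := by
          intro j
          simp only [M]
          rw [h.D_p]
          have hiff : ((l : ℕ) = (i : ℕ) ∧ (l : ℕ) < d ∧ rel (e j0) (e j)) ↔ (i = l ∧ j = j0) := by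
            constructor
            · rintro ⟨h4, _, h5⟩
              refine ⟨(Fin.ext h4).symm, ?_⟩
              have := hE _ (e j0).2 _ (e j).2 h5
              exact (e.injective (Subtype.ext this)).symm
            · rintro ⟨h4, h5⟩
              subst h4
              subst h5
              exact ⟨rfl, lt_of_lt_of_le i.2 hsd, h.refl _⟩
          simp only [hiff]
        simp only [h3]
        by_cases hil : i = l
        · simp [hil, hv'0]
        · simp [hil]
      rw [h2] at h1
      simp only [X, mul_neg, Finset.sum_neg_distrib, Matrix.one_apply]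
      exact neg_eq_of_add_eq_zero_right h1
    have hXM : X * M = 1 := mul_eq_one_comm.mp hMX
    have h1 := congrFun (congrFun hXM j0) j0
    rw [Matrix.mul_apply, Matrix.one_apply_eq] at h1
    have h2 : ∀ l, X j0 l = 0 := by
      intro l
      simp only [X, hv'0]
      rw [Derivation.map_one_eq_zero, neg_zero]
    rw [Finset.sum_eq_zero (fun l _ => by rw [h2, zero_mul])] at h1
    exact zero_ne_one h1
  have hunit : IsUnit M.det := isUnit_iff_ne_zero.mpr hdet
  have h1 := Matrix.nonsing_inv_mul M hunit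
  have h2 := Matrix.mul_nonsing_inv M hunit
  refine ⟨fun w l => if hw : w ∈ E then (if hl : l < s then M⁻¹ (e.symm ⟨w, hw⟩) ⟨l, hl⟩ else 0)
    else 0, ?_, ?_⟩
  · intro u hu v hv
    rw [Finset.sum_range]
    have h3 := congrFun (congrFun h1 (e.symm ⟨v, hv⟩)) (e.symm ⟨u, hu⟩)
    rw [Matrix.mul_apply] at h3
    have h4 : ∀ i : Fin s, (if hw : v ∈ E then (if hl : (i : ℕ) < s then
        M⁻¹ (e.symm ⟨v, hw⟩) ⟨i, hl⟩ else 0) else 0) * p i u =
        M⁻¹ (e.symm ⟨v, hv⟩) i * M i (e.symm ⟨u, hu⟩) := by
      intro i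
      rw [dif_pos hv, dif_pos i.2]
      simp only [M, Equiv.apply_symm_apply]
    rw [Finset.sum_congr rfl (fun i _ => h4 i), h3, Matrix.one_apply]
    by_cases huv : u = v
    · subst huv; simp
    · rw [if_neg huv, if_neg]
      intro h5
      have := congrArg Subtype.val (e.symm.injective h5)
      exact huv this.symm
  · intro l hl l' hl'
    have h3 := congrFun (congrFun h2 ⟨l', hl'⟩) ⟨l, hl⟩
    rw [Matrix.mul_apply] at h3
    rw [← Finset.sum_coe_sort E, ← Equiv.sum_comp e]
    have h4 : ∀ j : Fin s, (if hw : (e j : W) ∈ E then (if hl : l < s then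
        M⁻¹ (e.symm ⟨(e j : W), hw⟩) ⟨l, hl⟩ else 0) else 0) * p l' (e j) =
        M ⟨l', hl'⟩ j * M⁻¹ j ⟨l, hl⟩ := by
      intro j
      rw [dif_pos (e j).2, dif_pos hl]
      simp only [M, Subtype.coe_eta, Equiv.symm_apply_apply]
      ring
    rw [Finset.sum_congr rfl (fun j _ => h4 j), h3, Matrix.one_apply]
    by_cases hll : l = l'
    · subst hll; simp
    · rw [if_neg hll, if_neg]
      intro h5
      exact hll (congrArg Fin.val h5).symm

theorem cols_uniq (h : Cols d rel p D) {E : Finset W} (hE : Valid rel E) (hs : E.card = d)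
    (z : W → F) (hz : ∀ l < d, ∑ w ∈ E, z w * p l w = 0) : ∀ w ∈ E, z w = 0 := by
  classical
  obtain ⟨q, hq1, _⟩ := indep h hE hs le_rfl
  intro w hw
  have h1 : ∑ l ∈ range d, q w l * (∑ u ∈ E, z u * p l u) = 0 := by
    apply Finset.sum_eq_zero
    intro l hl
    rw [hz l (Finset.mem_range.mp hl), mul_zero]
  simp only [Finset.mul_sum] at h1
  rw [Finset.sum_comm] at h1
  have h2 : ∀ u ∈ E, ∑ l ∈ range d, q w l * (z u * p l u) = if u = w then z u else 0 := by
    intro u hu
    have h3 : ∑ l ∈ range d, q w l * (z u * p l u) = z u * ∑ l ∈ range d, q w l * p l u := by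
      rw [Finset.mul_sum]
      exact Finset.sum_congr rfl (fun l _ => by ring)
    rw [h3, hq1 u hu w hw]
    split_ifs <;> simp
  rw [Finset.sum_congr rfl h2, Finset.sum_ite_eq' E w, if_pos hw] at h1
  exact h1

theorem cols_exists (h : Cols d rel p D) {E : Finset W} (hE : Valid rel E) (hs : E.card = d)
    (b : ℕ → F) : ∃ z : W → F, (∀ w, w ∉ E → z w = 0) ∧
      ∀ l < d, ∑ w ∈ E, z w * p l w = b l := by
  classical
  obtain ⟨q, _, hq2⟩ := indep h hE hs le_rfl
  refine ⟨fun w => if w ∈ E then ∑ l ∈ range d, b l * q w l else 0,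
    fun w hw => if_neg hw, ?_⟩
  intro l hl
  have h1 : ∀ w ∈ E, (if w ∈ E then ∑ l' ∈ range d, b l' * q w l' else 0) * p l w =
      ∑ l' ∈ range d, b l' * (q w l' * p l w) := by
    intro w hw
    rw [if_pos hw, Finset.sum_mul]
    exact Finset.sum_congr rfl (fun _ _ => by ring)
  rw [Finset.sum_congr rfl h1, Finset.sum_comm]
  have h2 : ∀ l' ∈ range d, ∑ w ∈ E, b l' * (q w l' * p l w) = if l' = l then b l' else 0 := by
    intro l' hl'
    rw [← Finset.mul_sum, hq2 l' (Finset.mem_range.mp hl') l hl]
    split_ifs <;> simp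
  rw [Finset.sum_congr rfl h2, Finset.sum_ite_eq' (range d) l, if_pos (Finset.mem_range.mpr hl)]

open Classical in
/-- coordinates of the vector `b` with respect to the columns in `E` -/
noncomputable def coord (d : ℕ) (p : ℕ → W → F) (E : Finset W) (b : ℕ → F) : W → F :=
  if h : ∃ z : W → F, (∀ w, w ∉ E → z w = 0) ∧ ∀ l < d, ∑ w ∈ E, z w * p l w = b l
  then Classical.choose h else 0

theorem coord_spec (h : Cols d rel p D) {E : Finset W} (hE : Valid rel E) (hs : E.card = d)
    (b : ℕ → F) : (∀ w, w ∉ E → coord d p E b w = 0) ∧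
      ∀ l < d, ∑ w ∈ E, coord d p E b w * p l w = b l := by
  have h1 := cols_exists h hE hs b
  unfold coord
  rw [dif_pos h1]
  exact Classical.choose_spec h1

theorem coord_uniq (h : Cols d rel p D) {E : Finset W} (hE : Valid rel E) (hs : E.card = d)
    (b : ℕ → F) (z : W → F) (hz0 : ∀ w, w ∉ E → z w = 0)
    (hz : ∀ l < d, ∑ w ∈ E, z w * p l w = b l) : z = coord d p E b := by
  funext w
  obtain ⟨h1, h2⟩ := coord_spec h hE hs b
  by_cases hw : w ∈ E
  · have := cols_uniq h hE hs (fun w => z w - coord d p E b w) (by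
      intro l hl
      simp only [sub_mul]
      rw [Finset.sum_sub_distrib, hz l hl, h2 l hl, sub_self]) w hw
    exact sub_eq_zero.mp this
  · rw [hz0 w hw, h1 w hw]

end CSLef
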