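import Mathlib
import Pool.Agent.Work.MP_38c61c_al.Cols

/-!
Coordinates of the generic vector and their derivatives.
-/

namespace CSLef

open Finset

variable {W : Type} [Fintype W] [DecidableEq W] {F : Type*} [Field F]
variable {d : ℕ} {rel : W → W → Prop} [DecidableRel rel] {p : ℕ → W → F}
  {D : ℕ → W → Derivation ℤ F F}

/-- coordinates of the column `τ` with respect to `E` -/
noncomputable def xi (d : ℕ) (p : ℕ → W → F) (τ : W) (E : Finset W) : W → F :=
  coord d p E (fun l => p l τ)

/-- the derivations along the column `τ` -/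
def TT (D : ℕ → W → Derivation ℤ F F) (τ : W) : ℕ → Derivation ℤ F F := fun l => D l τ

/-- the normalising factor of `E` -/
noncomputable def varpi (d : ℕ) (p : ℕ → W → F) (D : ℕ → W → Derivation ℤ F F) (τ : W)
    (E : Finset W) : F :=
  CC (TT D τ) (List.range d) (∏ w ∈ E, xi d p τ E w)

section local_

variable (h : Cols d rel p D) {E : Finset W} (hE : Valid rel E) (hs : E.card = d) {τ : W}
  (hτ : ∀ w ∈ E, ¬ rel τ w)

include h

theorem TT_comm (l l' : ℕ) (x : F) : TT D τ l (TT D τ l' x) = TT D τ l' (TT D τ l x) :=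
  h.comm l τ l' τ x

include hE hs

theorem xi_notMem {w : W} (hw : w ∉ E) : xi d p τ E w = 0 := (coord_spec h hE hs _).1 w hw

theorem xi_sum {l : ℕ} (hl : l < d) : ∑ w ∈ E, xi d p τ E w * p l w = p l τ :=
  (coord_spec h hE hs _).2 l hl

include hτ

theorem T_xi_sum (l l' : ℕ) (hl' : l' < d) :
    ∑ w ∈ E, D l τ (xi d p τ E w) * p l' w = if l = l' then 1 else 0 := by
  have h1 := congrArg (D l τ) (xi_sum h hE hs (τ := τ) hl')
  rw [map_sum] at h1
  have h2 : ∀ w ∈ E, D l τ (xi d p τ E w * p l' w) = D l τ (xi d p τ E w) * p l' w := by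
    intro w hw
    rw [Derivation.leibniz, h.D_p, if_neg (fun h3 => hτ w hw h3.2.2), smul_zero, zero_add,
      smul_eq_mul, mul_comm]
  rw [Finset.sum_congr rfl h2, h.D_p] at h1
  rw [h1]
  by_cases hll : l = l'
  · rw [if_pos hll, if_pos ⟨hll, hll ▸ hl', h.refl _⟩]
  · rw [if_neg hll, if_neg (fun h3 => hll h3.1)]

theorem xi_lin (w : W) : Lin (TT D τ) (xi d p τ E w) := by
  intro l l'
  change D l' τ (D l τ (xi d p τ E w)) = 0
  by_cases hw : w ∈ E
  · refine cols_uniq h hE hs (fun w => D l' τ (D l τ (xi d p τ E w))) ?_ w hw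
    intro l'' hl''
    have h1 := congrArg (D l' τ) (T_xi_sum h hE hs hτ l l'' hl'')
    rw [map_sum] at h1
    have h2 : ∀ w ∈ E, D l' τ (D l τ (xi d p τ E w) * p l'' w) =
        D l' τ (D l τ (xi d p τ E w)) * p l'' w := by
      intro w hw
      rw [Derivation.leibniz, h.D_p, if_neg (fun h3 => hτ w hw h3.2.2), smul_zero, zero_add,
        smul_eq_mul, mul_comm]
    rw [Finset.sum_congr rfl h2] at h1
    rw [h1]
    split_ifs
    · exact Derivation.map_one_eq_zero _
    · exact map_zero _
  · rw [xi_notMem h hE hs hw, map_zero, map_zero]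

/-- derivative of the coordinates along a column -/
theorem D_xi (l : ℕ) (u : W) (hu : ¬ rel u τ) (w : W) :
    D l u (xi d p τ E w) =
      - ((∑ w' ∈ E.filter (fun w' => rel u w'), xi d p τ E w') * D l τ (xi d p τ E w)) := by
  by_cases hld : d ≤ l
  · rw [h.D_ge l u _ hld, h.D_ge l τ _ hld, mul_zero, neg_zero]
  push Not at hld
  by_cases hw : w ∈ E
  swap
  · rw [xi_notMem h hE hs hw, map_zero, map_zero, mul_zero, neg_zero]
  set θ := ∑ w' ∈ E.filter (fun w' => rel u w'), xi d p τ E w' with hθ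
  have key := cols_uniq h hE hs
    (fun w => D l u (xi d p τ E w) + θ * D l τ (xi d p τ E w)) ?_ w hw
  · exact eq_neg_of_add_eq_zero_left key
  intro l' hl'
  simp only [add_mul, mul_assoc]
  rw [Finset.sum_add_distrib, ← Finset.mul_sum, T_xi_sum h hE hs hτ l l' hl']
  have h1 := congrArg (D l u) (xi_sum h hE hs (τ := τ) hl')
  rw [map_sum, h.D_p, if_neg (fun h3 => hu h3.2.2)] at h1
  simp only [Derivation.leibniz, smul_eq_mul] at h1
  rw [Finset.sum_add_distrib] at h1
  have h2 : ∑ w ∈ E, xi d p τ E w * D l u (p l' w) = θ * (if l = l' then 1 else 0) := by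
    rw [hθ, Finset.sum_mul, Finset.sum_filter]
    apply Finset.sum_congr rfl
    intro w' _
    rw [h.D_p]
    by_cases h3 : rel u w'
    · rw [if_pos h3]
      by_cases h4 : l = l'
      · rw [if_pos h4, if_pos ⟨h4, hld, h3⟩]
      · rw [if_neg h4, if_neg (fun h5 => h4 h5.1)]
    · rw [if_neg h3, if_neg (fun h5 => h3 h5.2.2), mul_zero]
  rw [h2] at h1
  have h3 : ∑ w ∈ E, D l u (xi d p τ E w) * p l' w = ∑ w ∈ E, p l' w * D l u (xi d p τ E w) :=
    Finset.sum_congr rfl (fun w' _ => mul_comm _ _)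
  rw [h3, add_comm]
  exact h1

omit hτ in
theorem xi_ne_zero {w : W} (hw : w ∈ E) (hτ' : ∀ w' ∈ E, ¬ rel τ w' ∧ ¬ rel w' τ) :
    xi d p τ E w ≠ 0 := by
  intro h0
  have hτE : τ ∉ E := fun h' => (hτ' τ h').1 (h.refl τ)
  have hval : Valid rel (insert τ (E.erase w)) := by
    intro a ha b hb hab
    rw [Finset.mem_insert] at ha hb
    rcases ha with rfl | ha <;> rcases hb with rfl | hb
    · rfl
    · exact absurd hab (hτ' b (Finset.mem_of_mem_erase hb)).1
    · exact absurd hab (hτ' a (Finset.mem_of_mem_erase ha)).2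
    · exact hE a (Finset.mem_of_mem_erase ha) b (Finset.mem_of_mem_erase hb) hab
  have hτE' : τ ∉ E.erase w := fun h' => hτE (Finset.mem_of_mem_erase h')
  have hcard : (insert τ (E.erase w)).card = d := by
    rw [Finset.card_insert_of_notMem hτE', Finset.card_erase_of_mem hw, hs]
    have : 0 < E.card := Finset.card_pos.mpr ⟨w, hw⟩
    omega
  have := cols_uniq h hval hcard (fun w' => if w' = τ then -1 else xi d p τ E w') (by
    intro l hl
    rw [Finset.sum_insert hτE', if_pos rfl, ← xi_sum h hE hs (τ := τ) hl,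
      ← Finset.add_sum_erase E _ hw, h0, zero_mul, zero_add]
    have : ∑ x ∈ E.erase w, (if x = τ then -1 else xi d p τ E x) * p l x =
        ∑ x ∈ E.erase w, xi d p τ E x * p l x := by
      apply Finset.sum_congr rfl
      intro x hx
      rw [if_neg]
      rintro rfl
      exact hτE' hx
    rw [this]
    ring) τ (Finset.mem_insert_self _ _)
  rw [if_pos rfl] at this
  exact one_ne_zero (neg_eq_zero.mp this)

section char2

variable [CharP F 2]

omit h hE hs hτ in
theorem CC_sq_zero {T : ℕ → Derivation ℤ F F} (hT : ∀ l l' x, T l (T l' x) = T l' (T l x))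
    {ι : Type*} (I : Finset ι) (g : ι → F) (hg : ∀ i ∈ I, Lin T (g i)) (x : F) (L : List ℕ)
    (hI : I.card < L.length) : CC T L (x ^ 2 * ∏ i ∈ I, g i) = 0 := by
  rw [CC_const_mul L (cst_sq x), CC_degLT hT L rfl ((DegLT.prod I g hg).mono hI), mul_zero]

theorem varpi_ne_zero : varpi d p D τ E ≠ 0 := by
  classical
  intro h0
  have hT := TT_comm h (τ := τ)
  have h1 := CC_prod_t (T := TT D τ) (List.range d) List.nodup_range (fun l => p l τ) (by
    intro l hl l' hl'
    change D l τ (p l' τ) = _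
    rw [h.D_p]
    by_cases hll : l = l'
    · rw [if_pos hll, if_pos ⟨hll, List.mem_range.mp hl, h.refl _⟩]
    · rw [if_neg hll, if_neg (fun h5 => hll h5.1)])
  rw [List.toFinset_range, Finset.prod_range] at h1
  have h2 : ∏ l : Fin d, p l τ = ∑ f ∈ Fintype.piFinset (fun _ : Fin d => E),
      (∏ l : Fin d, p l (f l)) * ∏ l : Fin d, xi d p τ E (f l) := by
    have h3 : ∏ l : Fin d, p l τ = ∏ l : Fin d, ∑ w ∈ E, xi d p τ E w * p l w :=
      Finset.prod_congr rfl (fun l _ => (xi_sum h hE hs l.2).symm)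
    rw [h3, Finset.prod_univ_sum]
    apply Finset.sum_congr rfl
    intro f _
    rw [Finset.prod_mul_distrib, mul_comm]
  rw [h2, CC_sum, Finset.sum_eq_zero] at h1
  · exact zero_ne_one h1
  intro f hf
  rw [Fintype.mem_piFinset] at hf
  have hcst : Cst (TT D τ) (∏ l, p (l : Fin d) (f l)) := by
    apply Cst.prod
    intro l _ l'
    change D l' τ (p l (f l)) = 0
    rw [h.D_p, if_neg (fun h5 => hτ _ (hf l) h5.2.2)]
  rw [CC_const_mul _ hcst]
  by_cases hinj : Function.Injective f
  · have h4 : ∏ l, xi d p τ E (f l) = ∏ w ∈ E, xi d p τ E w := by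
      have himg : Finset.univ.image f = E := by
        apply Finset.eq_of_subset_of_card_le
        · intro w hw
          obtain ⟨l, _, rfl⟩ := Finset.mem_image.mp hw
          exact hf l
        · rw [Finset.card_image_of_injective _ hinj, Finset.card_univ, Fintype.card_fin, hs]
      rw [← himg, Finset.prod_image (fun a _ b _ hab => hinj hab)]
    rw [h4]
    unfold varpi at h0
    rw [h0, mul_zero]
  · unfold Function.Injective at hinj
    push Not at hinj
    obtain ⟨l1, l2, h12, hne⟩ := hinj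
    have h5 : ∏ l, xi d p τ E (f l) = (xi d p τ E (f l1)) ^ 2 *
        ∏ l ∈ (Finset.univ.erase l1).erase l2, xi d p τ E (f l) := by
      rw [← Finset.mul_prod_erase Finset.univ _ (Finset.mem_univ l1),
        ← Finset.mul_prod_erase (Finset.univ.erase l1) _
          (Finset.mem_erase.mpr ⟨hne.symm, Finset.mem_univ l2⟩), ← h12]
      ring
    rw [h5, CC_sq_zero hT _ _ (fun l _ => xi_lin h hE hs hτ (f l)), mul_zero]
    rw [List.length_range, Finset.card_erase_of_mem
      (Finset.mem_erase.mpr ⟨hne.symm, Finset.mem_univ l2⟩),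
      Finset.card_erase_of_mem (Finset.mem_univ l1), Finset.card_univ, Fintype.card_fin]
    have := l1.2
    omega

theorem varpi_cst : Cst (TT D τ) (varpi d p D τ E) := by
  intro l
  by_cases hl : l < d
  · exact CC_T_zero (TT_comm h) (List.range d) (List.mem_range.mpr hl)
      (Sq.prod E _ (fun w _ => Sq.of_lin (xi_lin h hE hs hτ w)) l)
  · exact h.D_ge l τ _ (not_lt.mp hl)

/-- the derivation killing the coordinates -/
theorem D3_xi (l : ℕ) (u : W) (hu : ¬ rel u τ) (w : W) :
    (D l u - (∑ w' ∈ E.filter (fun w' => rel u w'), xi d p τ E w') • D l τ) (xi d p τ E w) = 0 := by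
  rw [Derivation.sub_apply, Derivation.smul_apply, D_xi h hE hs hτ l u hu, smul_eq_mul,
    CharTwo.neg_eq, sub_self]

theorem D_varpi (l : ℕ) (u : W) (hu : ¬ rel u τ) :
    D l u (varpi d p D τ E) =
      varpi d p D τ E * D l τ (∑ w' ∈ E.filter (fun w' => rel u w'), xi d p τ E w') := by
  classical
  by_cases hld : d ≤ l
  · rw [h.D_ge l u _ hld, h.D_ge l τ _ hld, mul_zero]
  push Not at hld
  set θ := ∑ w' ∈ E.filter (fun w' => rel u w'), xi d p τ E w' with hθ
  have hT := TT_comm h (τ := τ)
  have hlin : ∀ w ∈ E, Lin (TT D τ) (xi d p τ E w) := fun w _ => xi_lin h hE hs hτ w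
  have hθlin : Lin (TT D τ) θ := by
    intro l'
    rw [hθ, map_sum]
    exact Cst.sum _ _ (fun w _ => xi_lin h hE hs hτ w l')
  set B := ∏ w ∈ E, xi d p τ E w with hB
  have h1 : (D l u - θ • D l τ) B = 0 := by
    have : ∀ I : Finset W, (D l u - θ • D l τ) (∏ w ∈ I, xi d p τ E w) = 0 := by
      intro I
      induction I using Finset.induction_on with
      | empty => rw [Finset.prod_empty]; exact Derivation.map_one_eq_zero _
      | insert w I hw ih =>
        rw [Finset.prod_insert hw, Derivation.leibniz, ih, D3_xi h hE hs hτ l u hu w,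
          smul_zero, smul_zero, add_zero]
    exact this E
  rw [Derivation.sub_apply, Derivation.smul_apply, smul_eq_mul, sub_eq_zero] at h1
  have h2 : D l u (varpi d p D τ E) = CC (TT D τ) (List.range d) (D l u B) := by
    unfold varpi
    exact (CC_comm (T := TT D τ) (fun x => D l u x) (List.range d)
      (fun l' _ x => h.comm l' τ l u x) B).symm
  have h3 : θ * D l τ B = D l τ (θ * B) - D l τ θ * B := by
    rw [Derivation.leibniz, smul_eq_mul, smul_eq_mul]
    ring
  rw [h2, h1, h3, CC_sub]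
  have h4 : CC (TT D τ) (List.range d) (D l τ (θ * B)) = 0 := by
    apply CC_T_zero' hT (List.range d) (List.mem_range.mpr hld)
    exact ((Sq.of_lin hθlin).mul (Sq.prod E _ (fun w hw => Sq.of_lin (hlin w hw)))) l
  have h5 := CC_const_mul (List.range d) (hθlin l) B
  change CC (TT D τ) (List.range d) (D l τ θ * B) = D l τ θ * varpi d p D τ E at h5
  rw [h4, h5, zero_sub, CharTwo.neg_eq, mul_comm]

end char2

end local_

end CSLef
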