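import Mathlib

/-!
Basic definitions: homology spheres over the field with two elements, central symmetry.
-/

namespace CSLef

open MvPolynomial

variable {V : Type} [Fintype V] [DecidableEq V]

/-- The value at `H` of the boundary modulo 2 of the chain `c` on the faces of `Δ`:
the sum of `c` over all faces `H ∪ {v}`. -/
def bd (Δ : Finset (Finset V)) (c : Finset V → ZMod 2) (H : Finset V) : ZMod 2 :=
  ∑ v ∈ Finset.univ.filter (fun v => v ∉ H ∧ insert v H ∈ Δ), c (insert v H)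

/-- `Δ` is a simplicial complex all of whose links have the reduced homology modulo 2 of a
sphere of the right dimension: a `(d - 1)`-dimensional homology sphere over `ZMod 2`. -/
structure IsHomSphere (Δ : Finset (Finset V)) (d : ℕ) : Prop where
  empty_mem : ∅ ∈ Δ
  down : ∀ F ∈ Δ, ∀ G, G ⊆ F → G ∈ Δ
  card_le : ∀ F ∈ Δ, F.card ≤ d
  acyclic : ∀ G ∈ Δ, ∀ r, G.card ≤ r → r < d → ∀ c : Finset V → ZMod 2,
    (∀ H ∈ Δ, G ⊆ H → H.card + 1 = r → bd Δ c H = 0) →
    ∃ b : Finset V → ZMod 2, ∀ F ∈ Δ, G ⊆ F → F.card = r → bd Δ b F = c F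
  top : ∀ G ∈ Δ, ∀ c : Finset V → ZMod 2,
    (∀ H ∈ Δ, G ⊆ H → H.card + 1 = d → bd Δ c H = 0) ↔
    ∃ z, ∀ F ∈ Δ, G ⊆ F → F.card = d → c F = z

/-- `α` is a free involution of the complex `Δ`. -/
structure IsCS (Δ : Finset (Finset V)) (α : Equiv.Perm V) : Prop where
  invol : ∀ v, α (α v) = v
  fpf : ∀ v, α v ≠ v
  map_mem : ∀ F ∈ Δ, F.image α ∈ Δ
  no_pair : ∀ F ∈ Δ, ∀ v ∈ F, α v ∉ F

end CSLef
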