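import Mathlib
import Pool.Agent.Work.MP_38c61c_al.CSDefs

/-!
Families of polynomials on faces, and their exactness.
-/

namespace CSLef

open MvPolynomial Finset

variable {V : Type} [Fintype V] [DecidableEq V]

section rho

variable {F : Type*} [CommRing F]

/-- restriction of a polynomial to the coordinate subspace of `G` -/
noncomputable def rho (G : Finset V) : MvPolynomial V F →ₐ[F] MvPolynomial V F :=
  aeval (fun v => if v ∈ G then X v else 0)

theorem rho_X (G : Finset V) (v : V) :
    rho (F := F) G (X v) = if v ∈ G then X v else 0 := by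
  simp [rho]

theorem rho_C (G : Finset V) (a : F) : rho G (C a : MvPolynomial V F) = C a := by
  simp [rho]

theorem rho_rho (G H : Finset V) (h : H ⊆ G) (f : MvPolynomial V F) :
    rho H (rho G f) = rho H f := by
  have : (rho (F := F) H).comp (rho G) = rho H := by
    apply MvPolynomial.algHom_ext
    intro v
    simp only [AlgHom.comp_apply, rho_X]
    by_cases hv : v ∈ G
    · simp [hv, rho_X]
    · have : v ∉ H := fun h' => hv (h h')
      simp [hv, this]
  exact DFunLike.congr_fun this f

theorem rho_idem (G : Finset V) (f : MvPolynomial V F) : rho G (rho G f) = rho G f :=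
  rho_rho G G (Finset.Subset.refl _) f

theorem rho_monomial (G : Finset V) (m : V →₀ ℕ) (a : F) :
    rho G (monomial m a) = if m.support ⊆ G then monomial m a else 0 := by
  rw [monomial_eq, map_mul, rho_C]
  split_ifs with h
  · congr 1
    rw [Finsupp.prod, map_prod]
    apply Finset.prod_congr rfl
    intro v hv
    rw [map_pow, rho_X, if_pos (h hv)]
  · obtain ⟨v, hv, hvG⟩ := Finset.not_subset.mp h
    rw [Finsupp.prod, map_prod, Finset.prod_eq_zero hv, mul_zero]
    rw [map_pow, rho_X, if_neg hvG, zero_pow]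
    simpa using hv

theorem coeff_rho (G : Finset V) (m : V →₀ ℕ) (f : MvPolynomial V F) :
    coeff m (rho G f) = if m.support ⊆ G then coeff m f else 0 := by
  induction f using MvPolynomial.induction_on' with
  | monomial n a =>
    rw [rho_monomial]
    by_cases hn : n = m
    · subst hn
      split_ifs <;> simp
    · split_ifs <;> simp [coeff_monomial, hn]
  | add p q hp hq =>
    rw [map_add, coeff_add, hp, hq, coeff_add]
    split_ifs <;> simp

end rho

section basechange

variable {F : Type*} [Field F] [CharP F 2]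

/-- exactness over a field of characteristic 2 -/
theorem acyclic_F {Δ : Finset (Finset V)} {d : ℕ} (hΔ : IsHomSphere Δ d) (G : Finset V)
    (hG : G ∈ Δ) (r : ℕ) (h1 : G.card ≤ r) (h2 : r < d) (c : Finset V → F)
    (hc : ∀ H ∈ Δ, G ⊆ H → H.card + 1 = r →
      ∑ v ∈ univ.filter (fun v => v ∉ H ∧ insert v H ∈ Δ), c (insert v H) = 0) :
    ∃ b : Finset V → F, ∀ E ∈ Δ, G ⊆ E → E.card = r →
      ∑ v ∈ univ.filter (fun v => v ∉ E ∧ insert v E ∈ Δ), b (insert v E) = c E := by
  classical
  let _ : Algebra (ZMod 2) F := ZMod.algebra F 2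
  let B := Module.Basis.ofVectorSpace (ZMod 2) F
  have key : ∀ i, ∃ b : Finset V → ZMod 2, ∀ E ∈ Δ, G ⊆ E → E.card = r →
      bd Δ b E = B.repr (c E) i := by
    intro i
    apply hΔ.acyclic G hG r h1 h2 (fun E => B.repr (c E) i)
    intro H hH hGH hr
    have := congrArg (fun x => B.repr x i) (hc H hH hGH hr)
    simpa [bd, map_sum, Finsupp.finsetSum_apply] using this
  choose b hb using key
  let I : Finset _ := Δ.biUnion (fun E => (B.repr (c E)).support)
  refine ⟨fun E => ∑ i ∈ I, b i E • B i, ?_⟩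
  intro E hE hGE hr
  rw [Finset.sum_comm]
  have : ∀ i ∈ I, (∑ v ∈ univ.filter (fun v => v ∉ E ∧ insert v E ∈ Δ),
      b i (insert v E) • B i) = B.repr (c E) i • B i := by
    intro i _
    rw [← Finset.sum_smul]
    congr 1
    exact hb i E hE hGE hr
  rw [Finset.sum_congr rfl this]
  have h3 := B.linearCombination_repr (c E)
  rw [Finsupp.linearCombination_apply, Finsupp.sum] at h3
  rw [← Finset.sum_subset (s₁ := (B.repr (c E)).support)] 
  · exact h3
  · intro i hi
    exact Finset.mem_biUnion.mpr ⟨E, hE, hi⟩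
  · intro i _ hi
    rw [Finsupp.notMem_support_iff.mp hi, zero_smul]

theorem top_F {Δ : Finset (Finset V)} {d : ℕ} (hΔ : IsHomSphere Δ d) (G : Finset V)
    (hG : G ∈ Δ) (c : Finset V → F)
    (hc : ∀ H ∈ Δ, G ⊆ H → H.card + 1 = d →
      ∑ v ∈ univ.filter (fun v => v ∉ H ∧ insert v H ∈ Δ), c (insert v H) = 0) :
    ∃ z : F, ∀ E ∈ Δ, G ⊆ E → E.card = d → c E = z := by
  classical
  let _ : Algebra (ZMod 2) F := ZMod.algebra F 2
  let B := Module.Basis.ofVectorSpace (ZMod 2) F
  have key : ∀ i, ∃ z : ZMod 2, ∀ E ∈ Δ, G ⊆ E → E.card = d → B.repr (c E) i = z := by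
    intro i
    apply (hΔ.top G hG (fun E => B.repr (c E) i)).mp
    intro H hH hGH hr
    have := congrArg (fun x => B.repr x i) (hc H hH hGH hr)
    simpa [bd, map_sum, Finsupp.finsetSum_apply] using this
  by_cases hex : ∃ E ∈ Δ, G ⊆ E ∧ E.card = d
  · obtain ⟨E0, hE0, h1, h2⟩ := hex
    refine ⟨c E0, ?_⟩
    intro E hE hGE hr
    apply B.repr.injective
    ext i
    obtain ⟨z, hz⟩ := key i
    rw [hz E hE hGE hr, hz E0 hE0 h1 h2]
  · refine ⟨0, ?_⟩
    intro E hE hGE hr
    exact absurd ⟨E, hE, hGE, hr⟩ hex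

/-- every ridge lies in an even number of facets -/
theorem ridge_even {Δ : Finset (Finset V)} {d : ℕ} (hΔ : IsHomSphere Δ d) (H : Finset V)
    (hH : H ∈ Δ) (hd : H.card + 1 = d) :
    ((univ.filter (fun v => v ∉ H ∧ insert v H ∈ Δ)).card : F) = 0 := by
  have h := (hΔ.top ∅ hΔ.empty_mem (fun _ => 1)).mpr ⟨1, fun _ _ _ _ => rfl⟩ H hH
    (Finset.empty_subset _) hd
  simp only [bd, Finset.sum_const, nsmul_eq_mul, mul_one] at h
  have h2 := (ZMod.natCast_eq_zero_iff _ _).mp h
  exact (CharP.cast_eq_zero_iff F 2 _).mpr h2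

end basechange

end CSLef
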