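import Mathlib
import Pool.Agent.Work.MP_38c61c_al.Fam

/-!
Families of polynomials on faces: boundary operator and its exactness.
-/

namespace CSLef

open MvPolynomial Finset

variable {V : Type} [Fintype V] [DecidableEq V]

section basic

variable {F : Type*} [CommRing F]

/-- boundary of a family of polynomials -/
noncomputable def dd (Δ : Finset (Finset V)) (c : Finset V → MvPolynomial V F)
    (H : Finset V) : MvPolynomial V F :=
  ∑ v ∈ univ.filter (fun v => v ∉ H ∧ insert v H ∈ Δ), rho H (c (insert v H))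

structure IsFam (Δ : Finset (Finset V)) (s : ℕ) (c : Finset V → MvPolynomial V F) : Prop where
  fix : ∀ G, rho G (c G) = c G
  supp : ∀ G, ¬ (G ∈ Δ ∧ G.card = s) → c G = 0

structure IsCyc (Δ : Finset (Finset V)) (s : ℕ) (c : Finset V → MvPolynomial V F) : Prop
    extends IsFam Δ s c where
  cyc : ∀ H, dd Δ c H = 0

variable {Δ : Finset (Finset V)} {s : ℕ}

theorem IsFam.add {c c' : Finset V → MvPolynomial V F} (h : IsFam Δ s c) (h' : IsFam Δ s c') :
    IsFam Δ s (fun G => c G + c' G) :=
  ⟨fun G => by rw [map_add, h.fix, h'.fix], fun G hG => by rw [h.supp G hG, h'.supp G hG, add_zero]⟩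

theorem IsFam.sub {c c' : Finset V → MvPolynomial V F} (h : IsFam Δ s c) (h' : IsFam Δ s c') :
    IsFam Δ s (fun G => c G - c' G) :=
  ⟨fun G => by rw [map_sub, h.fix, h'.fix], fun G hG => by rw [h.supp G hG, h'.supp G hG, sub_zero]⟩

theorem IsFam.mul {c : Finset V → MvPolynomial V F} (h : IsFam Δ s c) (θ : MvPolynomial V F) :
    IsFam Δ s (fun G => rho G θ * c G) :=
  ⟨fun G => by rw [map_mul, h.fix, rho_idem], fun G hG => by rw [h.supp G hG, mul_zero]⟩

theorem IsFam.sum {ι : Type*} (I : Finset ι) (c : ι → Finset V → MvPolynomial V F)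
    (h : ∀ i ∈ I, IsFam Δ s (c i)) :
    IsFam Δ s (fun G => ∑ i ∈ I, c i G) :=
  ⟨fun G => by rw [map_sum]; exact Finset.sum_congr rfl (fun i hi => (h i hi).fix G),
   fun G hG => Finset.sum_eq_zero (fun i hi => (h i hi).supp G hG)⟩

theorem IsFam.zero : IsFam Δ s (fun _ => (0 : MvPolynomial V F)) :=
  ⟨fun _ => map_zero _, fun _ _ => rfl⟩

theorem dd_add (c c' : Finset V → MvPolynomial V F) (H : Finset V) :
    dd Δ (fun G => c G + c' G) H = dd Δ c H + dd Δ c' H := by
  simp [dd, Finset.sum_add_distrib]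

theorem dd_sub (c c' : Finset V → MvPolynomial V F) (H : Finset V) :
    dd Δ (fun G => c G - c' G) H = dd Δ c H - dd Δ c' H := by
  simp [dd, Finset.sum_sub_distrib]

theorem dd_mul (c : Finset V → MvPolynomial V F) (θ : MvPolynomial V F) (H : Finset V) :
    dd Δ (fun G => rho G θ * c G) H = rho H θ * dd Δ c H := by
  simp only [dd, map_mul, Finset.mul_sum]
  apply Finset.sum_congr rfl
  intro v _
  rw [rho_rho _ _ (Finset.subset_insert v H)]

theorem dd_sum {ι : Type*} (I : Finset ι) (c : ι → Finset V → MvPolynomial V F) (H : Finset V) :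
    dd Δ (fun G => ∑ i ∈ I, c i G) H = ∑ i ∈ I, dd Δ (c i) H := by
  simp only [dd, map_sum]
  rw [Finset.sum_comm]

theorem dd_zero (H : Finset V) : dd Δ (fun _ => (0 : MvPolynomial V F)) H = 0 := by
  simp [dd]

theorem rho_dd (c : Finset V → MvPolynomial V F) (H : Finset V) :
    rho H (dd Δ c H) = dd Δ c H := by
  simp [dd, map_sum, rho_idem]

theorem IsFam.dd {d : ℕ} (hΔ : IsHomSphere Δ d) {c : Finset V → MvPolynomial V F}
    (h : IsFam Δ (s + 1) c) : IsFam Δ s (dd Δ c) := by
  refine ⟨rho_dd c, ?_⟩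
  intro G hG
  apply Finset.sum_eq_zero
  intro v hv
  simp only [Finset.mem_filter, Finset.mem_univ, true_and] at hv
  rw [h.supp, map_zero]
  rintro ⟨h1, h2⟩
  apply hG
  rw [Finset.card_insert_of_notMem hv.1] at h2
  exact ⟨hΔ.down _ h1 _ (Finset.subset_insert v G), by omega⟩

theorem IsCyc.toFam {c : Finset V → MvPolynomial V F} (h : IsCyc Δ s c) : IsFam Δ s c :=
  h.toIsFam

theorem IsCyc.sum {ι : Type*} (I : Finset ι) (c : ι → Finset V → MvPolynomial V F)
    (h : ∀ i ∈ I, IsCyc Δ s (c i)) :
    IsCyc Δ s (fun G => ∑ i ∈ I, c i G) where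
  toIsFam := IsFam.sum I c (fun i hi => (h i hi).toFam)
  cyc := fun H => by
    rw [dd_sum]
    exact Finset.sum_eq_zero (fun i hi => (h i hi).cyc H)

theorem IsCyc.mul {c : Finset V → MvPolynomial V F} (h : IsCyc Δ s c) (θ : MvPolynomial V F) :
    IsCyc Δ s (fun G => rho G θ * c G) where
  toIsFam := h.toFam.mul θ
  cyc := fun H => by rw [dd_mul, h.cyc, mul_zero]

theorem IsCyc.add {c c' : Finset V → MvPolynomial V F} (h : IsCyc Δ s c) (h' : IsCyc Δ s c') :
    IsCyc Δ s (fun G => c G + c' G) where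
  toIsFam := h.toFam.add h'.toFam
  cyc := fun H => by rw [dd_add, h.cyc, h'.cyc, add_zero]

theorem IsCyc.sub {c c' : Finset V → MvPolynomial V F} (h : IsCyc Δ s c) (h' : IsCyc Δ s c') :
    IsCyc Δ s (fun G => c G - c' G) where
  toIsFam := h.toFam.sub h'.toFam
  cyc := fun H => by rw [dd_sub, h.cyc, h'.cyc, sub_zero]

end basic

section char2

variable {F : Type*} [Field F] [CharP F 2]

variable {Δ : Finset (Finset V)} {s : ℕ}

theorem dd_dd {d : ℕ} (hΔ : IsHomSphere Δ d) (c : Finset V → MvPolynomial V F) (H : Finset V) :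
    dd Δ (dd Δ c) H = 0 := by
  classical
  have h1 : dd Δ (dd Δ c) H = ∑ v, ∑ u, if (v ∉ H ∧ u ∉ H ∧ u ≠ v ∧ insert u (insert v H) ∈ Δ)
      then rho H (c (insert u (insert v H))) else 0 := by
    simp only [dd, map_sum]
    rw [Finset.sum_filter]
    apply Finset.sum_congr rfl
    intro v _
    split_ifs with hv
    · rw [Finset.sum_filter]
      apply Finset.sum_congr rfl
      intro u _
      by_cases hu : u ∉ insert v H ∧ insert u (insert v H) ∈ Δ
      · rw [if_pos hu, rho_rho _ _ (Finset.subset_insert v H), if_pos]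
        obtain ⟨h1, h2⟩ := hu
        rw [Finset.mem_insert] at h1
        push Not at h1
        exact ⟨hv.1, h1.2, h1.1, h2⟩
      · rw [if_neg hu, if_neg]
        rintro ⟨h1, h2, h3, h4⟩
        apply hu
        exact ⟨by rw [Finset.mem_insert]; push Not; exact ⟨h3, h2⟩, h4⟩
    · symm
      apply Finset.sum_eq_zero
      intro u _
      rw [if_neg]
      rintro ⟨h1, h2, h3, h4⟩
      exact hv ⟨h1, hΔ.down _ h4 _ (Finset.subset_insert _ _)⟩
  rw [h1, ← Finset.sum_product']
  apply Finset.sum_involution (fun p _ => (p.2, p.1))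
  · rintro ⟨v, u⟩ _
    simp only
    rw [Finset.insert_comm v u H]
    have : (v ∉ H ∧ u ∉ H ∧ u ≠ v ∧ insert u (insert v H) ∈ Δ) ↔
      (u ∉ H ∧ v ∉ H ∧ v ≠ u ∧ insert u (insert v H) ∈ Δ) := by
      constructor
      · rintro ⟨a, b, c, d⟩; exact ⟨b, a, c.symm, d⟩
      · rintro ⟨a, b, c, d⟩; exact ⟨b, a, c.symm, d⟩
    simp only [this]
    exact CharTwo.add_self_eq_zero _
  · rintro ⟨v, u⟩ _ hne
    simp only at hne ⊢
    intro heq
    have := (Prod.mk.injEq _ _ _ _).mp heq
    apply hne
    rw [if_neg]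
    rintro ⟨_, _, h3, _⟩
    exact h3 this.1
  · intro p _
    simp
  · intro p _
    rfl

theorem IsFam.ddcyc {d : ℕ} (hΔ : IsHomSphere Δ d) {c : Finset V → MvPolynomial V F}
    (h : IsFam Δ (s + 1) c) : IsCyc Δ s (CSLef.dd Δ c) where
  toIsFam := h.dd hΔ
  cyc := dd_dd hΔ c

theorem exact_lt {d : ℕ} (hΔ : IsHomSphere Δ d) (hs : s < d) {c : Finset V → MvPolynomial V F}
    (hc : IsCyc Δ s c) : ∃ b : Finset V → MvPolynomial V F, IsFam Δ (s + 1) b ∧
      ∀ H, dd Δ b H = c H := by
  classical
  have key : ∀ m : V →₀ ℕ, ∃ b : Finset V → F, (m.support ∈ Δ → m.support.card ≤ s →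
      ∀ E ∈ Δ, m.support ⊆ E → E.card = s →
      ∑ v ∈ univ.filter (fun v => v ∉ E ∧ insert v E ∈ Δ), b (insert v E) = coeff m (c E)) := by
    intro m
    by_cases h1 : m.support ∈ Δ
    · by_cases h2 : m.support.card ≤ s
      · obtain ⟨b, hb⟩ := acyclic_F hΔ m.support h1 s h2 hs (fun E => coeff m (c E)) (by
          intro H hH hGH hr
          have := congrArg (coeff m) (hc.cyc H)
          simp only [dd, coeff_sum, coeff_zero, coeff_rho, if_pos hGH] at this
          exact this)
        exact ⟨b, fun _ _ => hb⟩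
      · exact ⟨0, fun _ h => absurd h h2⟩
    · exact ⟨0, fun h => absurd h h1⟩
  choose b hb using key
  let M : Finset (V →₀ ℕ) := Δ.biUnion (fun E => (c E).support)
  have hM : ∀ E ∈ Δ, ∀ m ∉ M, coeff m (c E) = 0 := by
    intro E hE m hm
    by_contra h
    apply hm
    exact Finset.mem_biUnion.mpr ⟨E, hE, by rwa [mem_support_iff]⟩
  let bb : Finset V → MvPolynomial V F := fun E => if E ∈ Δ ∧ E.card = s + 1 then
    ∑ m ∈ M, monomial m (if m.support ⊆ E then b m E else 0) else 0
  have hbc : ∀ E m, coeff m (bb E) = if E ∈ Δ ∧ E.card = s + 1 then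
      (if m ∈ M then (if m.support ⊆ E then b m E else 0) else 0) else 0 := by
    intro E m
    simp only [bb]
    split_ifs with h1 h2 h3
    · simp only [coeff_sum, coeff_monomial]
      rw [Finset.sum_ite_eq' M m, if_pos h2, if_pos h3]
    · simp only [coeff_sum, coeff_monomial]
      rw [Finset.sum_ite_eq' M m, if_pos h2, if_neg h3]
    · simp only [coeff_sum, coeff_monomial]
      rw [Finset.sum_ite_eq' M m, if_neg h2]
    · simp
  refine ⟨bb, ⟨?_, ?_⟩, ?_⟩
  · intro G
    ext m
    rw [coeff_rho, hbc]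
    split_ifs <;> rfl
  · intro G hG
    simp only [bb]
    rw [if_neg hG]
  · intro H
    by_cases hH : H ∈ Δ ∧ H.card = s
    · obtain ⟨hH, hcard⟩ := hH
      ext m
      simp only [dd, coeff_sum, coeff_rho, hbc]
      by_cases hm : m.support ⊆ H
      · simp only [if_pos hm]
        have hmem : m.support ∈ Δ := hΔ.down _ hH _ hm
        have hle : m.support.card ≤ s := hcard ▸ Finset.card_le_card hm
        rw [← hb m hmem hle H hH hm hcard]
        by_cases hmM : m ∈ M
        · apply Finset.sum_congr rfl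
          intro v hv
          simp only [Finset.mem_filter, Finset.mem_univ, true_and] at hv
          rw [if_pos, if_pos hmM, if_pos (hm.trans (Finset.subset_insert v H))]
          exact ⟨hv.2, by rw [Finset.card_insert_of_notMem hv.1, hcard]⟩
        · simp only [if_neg hmM, ite_self, Finset.sum_const_zero]
          rw [hb m hmem hle H hH hm hcard]
          exact (hM H hH m hmM).symm
      · simp only [if_neg hm, Finset.sum_const_zero]
        rw [← hc.fix, coeff_rho, if_neg hm]
    · rw [hc.supp H hH]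
      apply Finset.sum_eq_zero
      intro v hv
      simp only [Finset.mem_filter, Finset.mem_univ, true_and] at hv
      simp only [bb]
      rw [if_neg, map_zero]
      rintro ⟨h1, h2⟩
      apply hH
      rw [Finset.card_insert_of_notMem hv.1] at h2
      exact ⟨hΔ.down _ h1 _ (Finset.subset_insert v H), by omega⟩

theorem exact_top {d : ℕ} (hΔ : IsHomSphere Δ d) {c : Finset V → MvPolynomial V F}
    (hc : IsCyc Δ d c) : ∃ f : MvPolynomial V F, ∀ G ∈ Δ, G.card = d → c G = rho G f := by
  classical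
  have key : ∀ m : V →₀ ℕ, ∃ z : F, (m.support ∈ Δ →
      ∀ E ∈ Δ, m.support ⊆ E → E.card = d → coeff m (c E) = z) := by
    intro m
    by_cases h1 : m.support ∈ Δ
    · obtain ⟨z, hz⟩ := top_F hΔ m.support h1 (fun E => coeff m (c E)) (by
          intro H hH hGH hr
          have := congrArg (coeff m) (hc.cyc H)
          simp only [dd, coeff_sum, coeff_zero, coeff_rho, if_pos hGH] at this
          exact this)
      exact ⟨z, fun _ => hz⟩
    · exact ⟨0, fun h => absurd h h1⟩
  choose z hz using key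
  let M : Finset (V →₀ ℕ) := Δ.biUnion (fun E => (c E).support)
  have hM : ∀ E ∈ Δ, ∀ m ∉ M, coeff m (c E) = 0 := by
    intro E hE m hm
    by_contra h
    apply hm
    exact Finset.mem_biUnion.mpr ⟨E, hE, by rwa [mem_support_iff]⟩
  refine ⟨∑ m ∈ M, monomial m (z m), ?_⟩
  intro G hG hcard
  ext m
  rw [coeff_rho]
  split_ifs with h1
  · simp only [coeff_sum, coeff_monomial]
    rw [Finset.sum_ite_eq' M m]
    split_ifs with h2
    · exact hz m (hΔ.down _ hG _ h1) G hG h1 hcard
    · exact hM G hG m h2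
  · rw [← hc.fix, coeff_rho, if_neg h1]

/-- the family of restrictions of a polynomial to the facets -/
noncomputable def fam (Δ : Finset (Finset V)) (d : ℕ) (f : MvPolynomial V F) (G : Finset V) :
    MvPolynomial V F := if G ∈ Δ ∧ G.card = d then rho G f else 0

theorem fam_cyc {d : ℕ} (hΔ : IsHomSphere Δ d) (f : MvPolynomial V F) :
    IsCyc Δ d (fam Δ d f) where
  fix := fun G => by
    unfold fam
    split_ifs
    · exact rho_idem G f
    · exact map_zero _
  supp := fun G hG => if_neg hG
  cyc := fun H => by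
    by_cases hH : H ∈ Δ ∧ H.card + 1 = d
    · have : dd Δ (fam Δ d f) H =
        ((univ.filter (fun v => v ∉ H ∧ insert v H ∈ Δ)).card : MvPolynomial V F) * rho H f := by
        rw [← nsmul_eq_mul, ← Finset.sum_const]
        apply Finset.sum_congr rfl
        intro v hv
        simp only [Finset.mem_filter, Finset.mem_univ, true_and] at hv
        unfold fam
        rw [if_pos, rho_rho _ _ (Finset.subset_insert v H)]
        exact ⟨hv.2, by rw [Finset.card_insert_of_notMem hv.1, hH.2]⟩
      rw [this]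
      have h2 := ridge_even (F := F) hΔ H hH.1 hH.2
      have h3 := congrArg (C : F → MvPolynomial V F) h2
      rw [map_natCast, map_zero] at h3
      rw [h3, zero_mul]
    · apply Finset.sum_eq_zero
      intro v hv
      simp only [Finset.mem_filter, Finset.mem_univ, true_and] at hv
      unfold fam
      rw [if_neg, map_zero]
      rintro ⟨h1, h2⟩
      apply hH
      rw [Finset.card_insert_of_notMem hv.1] at h2
      exact ⟨hΔ.down _ h1 _ (Finset.subset_insert v H), h2⟩

end char2

end CSLef
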