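import Mathlib
import Pool.Agent.Work.MP_38c61c_al.Fam2

/-!
Regularity of linear forms on families.
-/

namespace CSLef

open MvPolynomial Finset

variable {V : Type} [Fintype V] [DecidableEq V]

section lin

variable {F : Type*} [CommRing F]

/-- the linear form with coefficients `b` -/
noncomputable def lin (b : V → F) : MvPolynomial V F := ∑ v, C (b v) * X v

theorem rho_lin (G : Finset V) (b : V → F) : rho G (lin b) = ∑ v ∈ G, C (b v) * X v := by
  simp only [lin, map_sum, map_mul, rho_C, rho_X, mul_ite, mul_zero]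
  rw [Finset.sum_ite_mem, Finset.univ_inter]

theorem coeff_rho_lin (G : Finset V) (b : V → F) (u : V) :
    coeff (Finsupp.single u 1) (rho G (lin b)) = if u ∈ G then b u else 0 := by
  rw [rho_lin, coeff_sum]
  simp only [coeff_C_mul, coeff_X]
  rw [← Finset.sum_ite_eq G u b]
  apply Finset.sum_congr rfl
  intro v _
  by_cases h : v = u
  · subst h; simp
  · have : ¬ (Finsupp.single v 1 = Finsupp.single u (1:ℕ)) := by
      intro h'
      apply h
      exact (Finsupp.single_left_inj one_ne_zero).mp h'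
    simp [this, Ne.symm h]

/-- the first `|G|` rows restricted to a face `G` form an invertible matrix -/
def Ind (Δ : Finset (Finset V)) (a : ℕ → V → F) : Prop :=
  ∀ G ∈ Δ, ∃ q : V → ℕ → F,
    (∀ u ∈ G, ∀ v ∈ G, ∑ l ∈ range G.card, q v l * a l u = if u = v then 1 else 0) ∧
    (∀ l < G.card, ∀ l' < G.card, ∑ v ∈ G, q v l * a l' v = if l = l' then 1 else 0)

end lin

section regpoly

variable {F : Type*} [Field F]

theorem regPoly (G : Finset V) (a : ℕ → V → F) (q : V → ℕ → F)
    (hq : ∀ l < G.card, ∀ l' < G.card, ∑ v ∈ G, q v l * a l' v = if l = l' then 1 else 0)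
    (j : ℕ) (hj : j < G.card) (f : ℕ → MvPolynomial V F) (hf : rho G (f j) = f j)
    (h : ∑ l ∈ range (j + 1), rho G (lin (a l)) * f l = 0) :
    ∃ g : ℕ → MvPolynomial V F, (∀ l, rho G (g l) = g l) ∧
      f j = ∑ l ∈ range j, rho G (lin (a l)) * g l := by
  classical
  let E : MvPolynomial V F →ₐ[F] MvPolynomial V F :=
    aeval (fun v => X v - ∑ l ∈ range j, C (q v l) * rho G (lin (a l)))
  have hEX : ∀ v, E (X v) = X v - ∑ l ∈ range j, C (q v l) * rho G (lin (a l)) := by
    intro v; simp [E]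
  have hEC : ∀ b, E (C b) = C b := by intro b; simp [E]
  have hE : ∀ l < G.card, E (rho G (lin (a l))) = rho G (lin (a l)) -
      ∑ l' ∈ range j, (if l' = l then (1 : MvPolynomial V F) else 0) * rho G (lin (a l')) := by
    intro l hl
    conv_lhs => rw [rho_lin]
    rw [map_sum]
    simp only [map_mul, hEX, hEC, mul_sub]
    rw [Finset.sum_sub_distrib, ← rho_lin]
    congr 1
    simp only [Finset.mul_sum]
    rw [Finset.sum_comm]
    apply Finset.sum_congr rfl
    intro l' hl'
    rw [Finset.mem_range] at hl'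
    have := hq l' (lt_trans hl' hj) l hl
    have h2 : (if l' = l then (1 : MvPolynomial V F) else 0) = ∑ v ∈ G, C (a l v) * C (q v l') := by
      have h3 := congrArg (C : F → MvPolynomial V F) this
      rw [map_sum] at h3
      simp only [map_mul] at h3
      rw [Finset.sum_congr rfl (fun v _ => mul_comm (C (a l v)) (C (q v l')))]
      rw [h3]
      split_ifs <;> simp
    rw [h2, Finset.sum_mul]
    apply Finset.sum_congr rfl
    intro v _
    ring
  have hE0 : ∀ l < j, E (rho G (lin (a l))) = 0 := by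
    intro l hl
    rw [hE l (lt_trans hl hj)]
    simp only [ite_mul, one_mul, zero_mul]
    rw [Finset.sum_ite_eq' (range j) l, if_pos (Finset.mem_range.mpr hl), sub_self]
  have hEj : E (rho G (lin (a j))) = rho G (lin (a j)) := by
    rw [hE j hj]
    simp only [ite_mul, one_mul, zero_mul]
    rw [Finset.sum_ite_eq' (range j) j, if_neg (by simp), sub_zero]
  have hrep : ∀ p : MvPolynomial V F, ∃ g : ℕ → MvPolynomial V F,
      p - E p = ∑ l ∈ range j, rho G (lin (a l)) * g l := by
    intro p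
    induction p using MvPolynomial.induction_on with
    | C b => exact ⟨fun _ => 0, by simp [hEC]⟩
    | add p p' hp hp' =>
      obtain ⟨g, hg⟩ := hp
      obtain ⟨g', hg'⟩ := hp'
      refine ⟨fun l => g l + g' l, ?_⟩
      simp only [mul_add, Finset.sum_add_distrib]
      rw [← hg, ← hg', map_add]
      ring
    | mul_X p v hp =>
      obtain ⟨g, hg⟩ := hp
      refine ⟨fun l => g l * X v + E p * C (q v l), ?_⟩
      have h1 : p * X v - E (p * X v) = (p - E p) * X v + E p * (X v - E (X v)) := by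
        rw [map_mul]; ring
      rw [h1, hg, hEX, sub_sub_cancel, Finset.sum_mul, Finset.mul_sum, ← Finset.sum_add_distrib]
      apply Finset.sum_congr rfl
      intro l _
      ring
  have hne : rho G (lin (a j)) ≠ 0 := by
    intro h0
    have h1 := hq j hj j hj
    rw [if_pos rfl] at h1
    have h2 : ∀ v ∈ G, a j v = 0 := by
      intro v hv
      have := congrArg (coeff (Finsupp.single v 1)) h0
      rw [coeff_rho_lin, if_pos hv, coeff_zero] at this
      exact this
    rw [Finset.sum_eq_zero (fun v hv => by rw [h2 v hv, mul_zero])] at h1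
    exact zero_ne_one h1
  have hEf : E (f j) = 0 := by
    have h1 := congrArg E h
    rw [Finset.sum_range_succ, map_add, map_sum, map_mul, hEj, map_zero,
      Finset.sum_eq_zero, zero_add] at h1
    · exact (mul_eq_zero.mp h1).resolve_left hne
    · intro l hl
      rw [map_mul, hE0 l (Finset.mem_range.mp hl), zero_mul]
  obtain ⟨g, hg⟩ := hrep (f j)
  rw [hEf, sub_zero] at hg
  refine ⟨fun l => rho G (g l), fun l => rho_idem G _, ?_⟩
  have h2 := congrArg (rho G) hg
  rw [hf, map_sum] at h2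
  rw [h2]
  apply Finset.sum_congr rfl
  intro l _
  rw [map_mul, rho_idem]

/-- membership of a family in `(θ_0, ..., θ_{j-1}) C_s` -/
def InT (Δ : Finset (Finset V)) (a : ℕ → V → F) (s j : ℕ)
    (c : Finset V → MvPolynomial V F) : Prop :=
  ∃ e : ℕ → Finset V → MvPolynomial V F, (∀ l, IsFam Δ s (e l)) ∧
    ∀ G, c G = ∑ l ∈ range j, rho G (lin (a l)) * e l G

/-- membership of a family in `(θ_0, ..., θ_{j-1}) Z_s` -/
def InZ (Δ : Finset (Finset V)) (a : ℕ → V → F) (s j : ℕ)
    (c : Finset V → MvPolynomial V F) : Prop :=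
  ∃ e : ℕ → Finset V → MvPolynomial V F, (∀ l, IsCyc Δ s (e l)) ∧
    ∀ G, c G = ∑ l ∈ range j, rho G (lin (a l)) * e l G

variable {Δ : Finset (Finset V)} {a : ℕ → V → F}

theorem regC (ha : Ind Δ a) {s j : ℕ} (hj : j < s) (e : ℕ → Finset V → MvPolynomial V F)
    (he : ∀ l, IsFam Δ s (e l)) (h : ∀ G, ∑ l ∈ range (j + 1), rho G (lin (a l)) * e l G = 0) :
    InT Δ a s j (e j) := by
  classical
  have key : ∀ G, ∃ g : ℕ → MvPolynomial V F, ((∀ l, rho G (g l) = g l) ∧
      ∀ l, ¬ (G ∈ Δ ∧ G.card = s) → g l = 0) ∧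
      e j G = ∑ l ∈ range j, rho G (lin (a l)) * g l := by
    intro G
    by_cases hG : G ∈ Δ ∧ G.card = s
    · obtain ⟨q, _, hq⟩ := ha G hG.1
      obtain ⟨g, hg1, hg2⟩ := regPoly G a q hq j (by rw [hG.2]; exact hj) (fun l => e l G)
        ((he j).fix G) (h G)
      exact ⟨g, ⟨hg1, fun _ h' => absurd hG h'⟩, hg2⟩
    · refine ⟨fun _ => 0, ⟨fun _ => map_zero _, fun _ _ => rfl⟩, ?_⟩
      rw [(he j).supp G hG]
      simp
  choose g hg1 hg2 using key
  exact ⟨fun l G => g G l, fun l => ⟨fun G => (hg1 G).1 l, fun G hG => (hg1 G).2 l hG⟩, hg2⟩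

variable [CharP F 2]

theorem step_lemma {d : ℕ} (hΔ : IsHomSphere Δ d) {s j : ℕ} (hs : s + 1 ≤ d)
    (hP : ∀ c : Finset V → MvPolynomial V F, IsCyc Δ (s + 1) c → InT Δ a (s + 1) j c →
      InZ Δ a (s + 1) j c)
    {c : Finset V → MvPolynomial V F} (hc : IsCyc Δ (s + 1) c)
    (e : ℕ → Finset V → MvPolynomial V F) (he : ∀ l, IsFam Δ (s + 1) (e l))
    (h : ∀ G, c G = ∑ l ∈ range (j + 1), rho G (lin (a l)) * e l G)
    (hz : InZ Δ a s j (dd Δ (e j))) : InZ Δ a (s + 1) (j + 1) c := by
  classical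
  obtain ⟨z, hz1, hz2⟩ := hz
  have hb := fun l => exact_lt hΔ (Nat.lt_of_succ_le hs) (hz1 l)
  choose b hb1 hb2 using hb
  let e' : Finset V → MvPolynomial V F :=
    fun G => e j G - ∑ l ∈ range j, rho G (lin (a l)) * b l G
  have he' : IsCyc Δ (s + 1) e' := by
    refine ⟨(he j).sub (IsFam.sum _ _ (fun l _ => (hb1 l).mul _)), ?_⟩
    intro H
    rw [dd_sub, dd_sum, hz2, sub_eq_zero]
    apply Finset.sum_congr rfl
    intro l _
    rw [dd_mul, hb2]
  obtain ⟨z', hz'1, hz'2⟩ := hP (fun G => c G - rho G (lin (a j)) * e' G) (hc.sub (he'.mul _))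
    ⟨fun l G => e l G + rho G (lin (a j)) * b l G, fun l => (he l).add ((hb1 l).mul _), by
      intro G
      simp only [e']
      rw [h G, Finset.sum_range_succ, mul_sub, Finset.mul_sum]
      simp only [mul_add]
      rw [Finset.sum_add_distrib]
      have : ∀ l ∈ range j, rho G (lin (a l)) * (rho G (lin (a j)) * b l G) =
        rho G (lin (a j)) * (rho G (lin (a l)) * b l G) := fun l _ => by ring
      rw [Finset.sum_congr rfl this]
      ring⟩
  refine ⟨fun l => if l < j then z' l else e', ?_, ?_⟩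
  · intro l
    by_cases hl : l < j
    · simp only [hl, if_true]; exact hz'1 l
    · simp only [hl, if_false]; exact he'
  · intro G
    rw [Finset.sum_range_succ]
    have h2 := hz'2 G
    beta_reduce at h2 ⊢
    rw [if_neg (lt_irrefl j)]
    rw [sub_eq_iff_eq_add] at h2
    rw [h2]
    congr 1
    apply Finset.sum_congr rfl
    intro l hl
    rw [if_pos (Finset.mem_range.mp hl)]

theorem regZ {d : ℕ} (hΔ : IsHomSphere Δ d) (ha : Ind Δ a) (j : ℕ) :
    ∀ s, j < s → s ≤ d → ∀ c : Finset V → MvPolynomial V F, IsCyc Δ s c → InT Δ a s j c →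
      InZ Δ a s j c := by
  induction j with
  | zero =>
    intro s _ _ c _ hT
    obtain ⟨e, _, he⟩ := hT
    exact ⟨fun _ _ => 0, fun _ => ⟨IsFam.zero, dd_zero⟩, fun G => by rw [he G]; simp⟩
  | succ j ih =>
    intro s hj hs c hc hT
    obtain ⟨s, rfl⟩ : ∃ s', s = s' + 1 := ⟨s - 1, by omega⟩
    obtain ⟨e, he1, he2⟩ := hT
    apply step_lemma hΔ hs (ih (s + 1) (by omega) hs) hc e he1 he2
    apply ih s (by omega) (by omega) _ ((he1 j).ddcyc hΔ)
    apply regC ha (by omega) (fun l => dd Δ (e l)) (fun l => (he1 l).dd hΔ)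
    intro H
    have h1 := hc.cyc H
    have h2 : c = fun G => ∑ l ∈ range (j + 1), rho G (lin (a l)) * e l G := funext he2
    rw [h2, dd_sum] at h1
    rw [← h1]
    apply Finset.sum_congr rfl
    intro l _
    rw [dd_mul]

end regpoly

end CSLef
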