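import Mathlib
import Pool.Agent.Work.MP_38c61c_al.Reg

/-!
Socle and top degree of the Artinian reduction, on the level of families.
-/

namespace CSLef

open MvPolynomial Finset

variable {V : Type} [Fintype V] [DecidableEq V]

section split

variable {F : Type*} [CommRing F]

theorem hom_split {i : ℕ} {f : MvPolynomial V F} (hf : f.IsHomogeneous (i + 1)) :
    ∃ g : V → MvPolynomial V F, (∀ v, (g v).IsHomogeneous i) ∧ f = ∑ v, X v * g v := by
  classical
  have key : ∀ p : MvPolynomial V F, p = ∑ m ∈ f.support, monomial m (coeff m f) →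
      ∃ g : V → MvPolynomial V F, (∀ v, (g v).IsHomogeneous i) ∧ p = ∑ v, X v * g v := by
    intro p hp
    rw [hp]
    apply Finset.sum_induction (fun m => monomial m (coeff m f))
      (fun p => ∃ g : V → MvPolynomial V F, (∀ v, (g v).IsHomogeneous i) ∧ p = ∑ v, X v * g v)
    · rintro p p' ⟨g, hg1, hg2⟩ ⟨g', hg'1, hg'2⟩
      refine ⟨fun v => g v + g' v, fun v => (hg1 v).add (hg'1 v), ?_⟩
      simp only [mul_add, Finset.sum_add_distrib]
      rw [← hg2, ← hg'2]
    · exact ⟨fun _ => 0, fun _ => isHomogeneous_zero _ _ _, by simp⟩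
    · intro m hm
      have hdeg : m.degree = i + 1 := hf.degree_eq_sum_deg_support hm |>.symm ▸ rfl
      have hne : m ≠ 0 := by
        rintro rfl
        simp at hdeg
      obtain ⟨v, hv⟩ := Finsupp.ne_iff.mp hne
      simp only [Finsupp.coe_zero, Pi.zero_apply] at hv
      refine ⟨fun u => if u = v then monomial (m - Finsupp.single v 1) (coeff m f) else 0, ?_, ?_⟩
      · intro u
        beta_reduce
        split_ifs
        · apply isHomogeneous_monomial
          have h1 : m = (m - Finsupp.single v 1) + Finsupp.single v 1 := by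
            ext w
            by_cases hw : w = v
            · subst hw
              simp only [Finsupp.coe_add, Finsupp.coe_tsub, Pi.add_apply, Pi.sub_apply,
                Finsupp.single_eq_same]
              omega
            · simp [Finsupp.single_eq_of_ne hw]
          have h2 := congrArg Finsupp.degree h1
          rw [map_add, Finsupp.degree_single, hdeg] at h2
          omega
        · exact isHomogeneous_zero _ _ _
      · rw [Finset.sum_eq_single v]
        · beta_reduce
          have hsub : Finsupp.single v 1 + (m - Finsupp.single v 1) = m := by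
            ext w
            by_cases hw : w = v
            · subst hw
              simp only [Finsupp.coe_add, Finsupp.coe_tsub, Pi.add_apply, Pi.sub_apply,
                Finsupp.single_eq_same]
              omega
            · simp [Finsupp.single_eq_of_ne hw]
          rw [if_pos rfl, X, monomial_mul, one_mul, hsub]
        · intro u _ hu
          beta_reduce
          rw [if_neg hu, mul_zero]
        · intro h; exact absurd (Finset.mem_univ v) h
  exact key f (support_sum_monomial_coeff f).symm

theorem rho_hom (G : Finset V) {i : ℕ} {f : MvPolynomial V F} (hf : f.IsHomogeneous i) :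
    (rho G f).IsHomogeneous i := by
  intro m hm
  apply hf
  rw [coeff_rho] at hm
  split_ifs at hm with h
  · exact hm
  · exact absurd rfl hm

theorem dd_hom {Δ : Finset (Finset V)} {i : ℕ} {c : Finset V → MvPolynomial V F}
    (hc : ∀ G, (c G).IsHomogeneous i) (H : Finset V) : (dd Δ c H).IsHomogeneous i :=
  IsHomogeneous.sum _ _ _ (fun _ _ => rho_hom H (hc _))

theorem exists_split {Δ : Finset (Finset V)} {a : ℕ → V → F} (ha : Ind Δ a) {G : Finset V}
    (hG : G ∈ Δ) {i : ℕ} {f : MvPolynomial V F} (hf : f.IsHomogeneous (i + 1))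
    (hfix : rho G f = f) :
    ∃ g : ℕ → MvPolynomial V F, (∀ l, rho G (g l) = g l) ∧ (∀ l, (g l).IsHomogeneous i) ∧
      f = ∑ l ∈ range G.card, rho G (lin (a l)) * g l := by
  classical
  obtain ⟨q, hq, _⟩ := ha G hG
  obtain ⟨g, hg1, hg2⟩ := hom_split hf
  have hX : ∀ v ∈ G, (X v : MvPolynomial V F) =
      ∑ l ∈ range G.card, C (q v l) * rho G (lin (a l)) := by
    intro v hv
    simp only [rho_lin, Finset.mul_sum]
    rw [Finset.sum_comm]
    have : ∀ u ∈ G, ∑ l ∈ range G.card, C (q v l) * (C (a l u) * X u) =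
        (if u = v then (X u : MvPolynomial V F) else 0) := by
      intro u hu
      have h1 := congrArg (C : F → MvPolynomial V F) (hq u hu v hv)
      rw [map_sum] at h1
      simp only [map_mul] at h1
      have h2 : ∑ l ∈ range G.card, C (q v l) * (C (a l u) * X u) =
        (∑ l ∈ range G.card, C (q v l) * C (a l u)) * (X u : MvPolynomial V F) := by
        rw [Finset.sum_mul]
        exact Finset.sum_congr rfl (fun l _ => by ring)
      rw [h2, h1]
      split_ifs <;> simp
    rw [Finset.sum_congr rfl this, Finset.sum_ite_eq' G v, if_pos hv]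
  refine ⟨fun l => ∑ v ∈ G, C (q v l) * rho G (g v), ?_, ?_, ?_⟩
  · intro l
    simp only [map_sum, map_mul, rho_C, rho_idem]
  · intro l
    apply IsHomogeneous.sum
    intro v _
    have := (isHomogeneous_C V (q v l)).mul (rho_hom G (hg1 v))
    rwa [zero_add] at this
  · rw [← hfix]
    conv_lhs => rw [hg2]
    simp only [map_sum, map_mul, rho_X, ite_mul, zero_mul]
    rw [Finset.sum_ite_mem, Finset.univ_inter]
    simp only [Finset.mul_sum]
    rw [Finset.sum_comm]
    apply Finset.sum_congr rfl
    intro v hv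
    conv_lhs => rw [hX v hv]
    rw [Finset.sum_mul]
    exact Finset.sum_congr rfl (fun l _ => by ring)

theorem fam_split {Δ : Finset (Finset V)} {a : ℕ → V → F} (ha : Ind Δ a) {s i : ℕ}
    {c : Finset V → MvPolynomial V F} (hc : IsFam Δ s c) (hh : ∀ G, (c G).IsHomogeneous (i + 1)) :
    ∃ e : ℕ → Finset V → MvPolynomial V F, (∀ l, IsFam Δ s (e l)) ∧
      (∀ l G, (e l G).IsHomogeneous i) ∧
      ∀ G, c G = ∑ l ∈ range s, rho G (lin (a l)) * e l G := by
  classical
  have key : ∀ G, ∃ g : ℕ → MvPolynomial V F, ((∀ l, rho G (g l) = g l) ∧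
      ∀ l, ¬ (G ∈ Δ ∧ G.card = s) → g l = 0) ∧ (∀ l, (g l).IsHomogeneous i) ∧
      c G = ∑ l ∈ range s, rho G (lin (a l)) * g l := by
    intro G
    by_cases hG : G ∈ Δ ∧ G.card = s
    · obtain ⟨g, h1, h2, h3⟩ := exists_split ha hG.1 (hh G) (hc.fix G)
      rw [hG.2] at h3
      exact ⟨g, ⟨h1, fun _ h' => absurd hG h'⟩, h2, h3⟩
    · refine ⟨fun _ => 0, ⟨fun _ => map_zero _, fun _ _ => rfl⟩,
        fun _ => isHomogeneous_zero _ _ _, ?_⟩
      rw [hc.supp G hG]
      simp
  choose g hg1 hg2 hg3 using key
  exact ⟨fun l G => g G l, fun l => ⟨fun G => (hg1 G).1 l, fun G hG => (hg1 G).2 l hG⟩,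
    fun l G => hg2 G l, hg3⟩

end split

section socle

variable {F : Type*} [Field F] [CharP F 2]
variable {Δ : Finset (Finset V)} {a : ℕ → V → F}

theorem constantCoeff_rho (G : Finset V) (f : MvPolynomial V F) :
    coeff 0 (rho G f) = coeff 0 f := by
  rw [coeff_rho, if_pos (by simp)]

theorem socle {d : ℕ} (hΔ : IsHomSphere Δ d) (ha : Ind Δ a) (i : ℕ) :
    ∀ s, i < s → s ≤ d → ∀ c : Finset V → MvPolynomial V F, IsCyc Δ s c →
      (∀ G, (c G).IsHomogeneous i) →
      (∀ v, InZ Δ a s s (fun G => rho G (X v) * c G)) → InZ Δ a s s c := by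
  classical
  induction i with
  | zero =>
    intro s hs hsd c hc hh hv
    have hc0 : ∀ G, c G = C (coeff 0 (c G)) := by
      intro G
      exact totalDegree_eq_zero_iff_eq_C.mp (Nat.le_zero.mp (hh G).totalDegree_le)
    refine ⟨fun _ _ => 0, fun _ => ⟨IsFam.zero, dd_zero⟩, ?_⟩
    intro G
    simp only [mul_zero, Finset.sum_const_zero]
    by_cases hG : G ∈ Δ ∧ G.card = s
    swap
    · exact hc.supp G hG
    obtain ⟨hGm, hcard⟩ := hG
    obtain ⟨v, hvG⟩ : G.Nonempty := Finset.card_pos.mp (by omega)
    obtain ⟨z, hz1, hz2⟩ := hv v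
    -- degree one part of the relation
    have hrel : ∀ E u, u ∈ E → (if v ∈ E then (if v = u then coeff 0 (c E) else 0) else 0) =
        ∑ l ∈ range s, a l u * coeff 0 (z l E) := by
      intro E u hu
      have h1 := congrArg (coeff (Finsupp.single u 1)) (hz2 E)
      rw [coeff_sum] at h1
      have h2 : ∀ l ∈ range s, coeff (Finsupp.single u 1) (rho E (lin (a l)) * z l E) =
          a l u * coeff 0 (z l E) := by
        intro l _
        rw [rho_lin, Finset.sum_mul, coeff_sum]
        rw [Finset.sum_eq_single u]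
        · rw [mul_assoc, coeff_C_mul, ← add_zero (Finsupp.single u 1), coeff_X_mul]
        · intro w _ hw
          rw [mul_assoc, coeff_C_mul, coeff_X_mul', if_neg, mul_zero]
          rw [Finsupp.support_single _ one_ne_zero, Finset.mem_singleton]
          exact hw
        · intro h; exact absurd hu h
      rw [Finset.sum_congr rfl h2] at h1
      rw [← h1]
      beta_reduce
      rw [rho_X]
      split_ifs with h3 h4
      · subst h4
        rw [← add_zero (Finsupp.single v 1), coeff_X_mul]
      · rw [coeff_X_mul', if_neg]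
        rw [Finsupp.support_single _ one_ne_zero, Finset.mem_singleton]
        exact h4
      · simp
    have hz0 : ∀ E ∈ Δ, E.card = s → v ∉ E → ∀ l < s, coeff 0 (z l E) = 0 := by
      intro E hE hEs hvE l hl
      obtain ⟨q, _, hq⟩ := ha E hE
      have h1 : ∑ u ∈ E, q u l * (∑ l' ∈ range s, a l' u * coeff 0 (z l' E)) = 0 := by
        apply Finset.sum_eq_zero
        intro u hu
        rw [← hrel E u hu, if_neg hvE, mul_zero]
      simp only [Finset.mul_sum] at h1
      rw [Finset.sum_comm] at h1
      have h2 : ∀ l' ∈ range s, ∑ u ∈ E, q u l * (a l' u * coeff 0 (z l' E)) =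
          (if l = l' then coeff 0 (z l' E) else 0) := by
        intro l' hl'
        have h3 := hq l (by omega) l' (by rw [hEs]; exact Finset.mem_range.mp hl')
        have h4 : ∑ u ∈ E, q u l * (a l' u * coeff 0 (z l' E)) =
          (∑ u ∈ E, q u l * a l' u) * coeff 0 (z l' E) := by
          rw [Finset.sum_mul]
          exact Finset.sum_congr rfl (fun l _ => by ring)
        rw [h4, h3]
        split_ifs <;> simp
      rw [Finset.sum_congr rfl h2, Finset.sum_ite_eq (range s) l,
        if_pos (Finset.mem_range.mpr hl)] at h1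
      exact h1
    have hzG : ∀ l < s, coeff 0 (z l G) = 0 := by
      intro l hl
      have h1 := congrArg (coeff 0) ((hz1 l).cyc (G.erase v))
      rw [dd, coeff_sum, coeff_zero] at h1
      rw [Finset.sum_eq_single v] at h1
      · rw [constantCoeff_rho, Finset.insert_erase hvG] at h1
        exact h1
      · intro w hw hwv
        simp only [Finset.mem_filter, Finset.mem_univ, true_and] at hw
        rw [constantCoeff_rho]
        by_cases hcs : (insert w (G.erase v)).card = s
        · apply hz0 _ hw.2 hcs _ l hl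
          rw [Finset.mem_insert]
          push Not
          exact ⟨fun h => hwv h.symm, Finset.notMem_erase v G⟩
        · rw [(hz1 l).supp _ (fun h => hcs h.2), coeff_zero]
      · intro h
        exfalso
        apply h
        simp only [Finset.mem_filter, Finset.mem_univ, true_and]
        exact ⟨Finset.notMem_erase v G, by rw [Finset.insert_erase hvG]; exact hGm⟩
    have h5 := hrel G v hvG
    rw [if_pos hvG, if_pos rfl, Finset.sum_eq_zero] at h5
    · rw [hc0 G, h5, map_zero]
    · intro l hl
      rw [hzG l (Finset.mem_range.mp hl), mul_zero]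
  | succ i ih =>
    intro s hs hsd c hc hh hv
    obtain ⟨s, rfl⟩ : ∃ s', s = s' + 1 := ⟨s - 1, by omega⟩
    obtain ⟨e, he1, he2, he3⟩ := fam_split ha hc.toFam hh
    apply step_lemma hΔ hsd (regZ hΔ ha s (s + 1) (by omega) hsd) hc e he1 he3
    apply ih s (by omega) (by omega) _ ((he1 s).ddcyc hΔ) (dd_hom (he2 s))
    intro v
    obtain ⟨z, hz1, hz2⟩ := hv v
    have h1 : ∀ G, ∑ l ∈ range (s + 1), rho G (lin (a l)) *
        (rho G (X v) * e l G - z l G) = 0 := by
      intro G
      simp only [mul_sub]
      have h0 := hz2 G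
      beta_reduce at h0
      rw [Finset.sum_sub_distrib, ← h0, he3 G, Finset.mul_sum, sub_eq_zero]
      apply Finset.sum_congr rfl
      intro l _
      ring
    obtain ⟨g, hg1, hg2⟩ := regC ha (Nat.lt_succ_self s)
      (fun l G => rho G (X v) * e l G - z l G)
      (fun l => ((he1 l).mul _).sub (hz1 l).toFam) h1
    refine ⟨fun l => dd Δ (g l), fun l => (hg1 l).ddcyc hΔ, ?_⟩
    intro H
    have h2 : dd Δ (fun G => rho G (X v) * e s G - z s G) H =
        dd Δ (fun G => ∑ l ∈ range s, rho G (lin (a l)) * g l G) H := by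
      congr 1
      exact funext hg2
    rw [dd_sub, dd_mul, (hz1 s).cyc, sub_zero, dd_sum] at h2
    beta_reduce
    rw [h2]
    apply Finset.sum_congr rfl
    intro l _
    rw [dd_mul]

theorem topdim {d : ℕ} (hΔ : IsHomSphere Δ d) (ha : Ind Δ a) (s : ℕ) :
    s ≤ d → ∀ c c' : Finset V → MvPolynomial V F, IsCyc Δ s c → IsCyc Δ s c' →
      (∀ G, (c G).IsHomogeneous s) → (∀ G, (c' G).IsHomogeneous s) →
      ∃ r r' : F, (r ≠ 0 ∨ r' ≠ 0) ∧ InZ Δ a s s (fun G => C r * c G + C r' * c' G) := by
  classical
  induction s with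
  | zero =>
    intro _ c c' hc hc' hh hh'
    have hc0 : ∀ G, c G = C (coeff 0 (c G)) := by
      intro G
      exact totalDegree_eq_zero_iff_eq_C.mp (Nat.le_zero.mp (hh G).totalDegree_le)
    have hc0' : ∀ G, c' G = C (coeff 0 (c' G)) := by
      intro G
      exact totalDegree_eq_zero_iff_eq_C.mp (Nat.le_zero.mp (hh' G).totalDegree_le)
    have hsupp : ∀ G, G ≠ ∅ → c G = 0 ∧ c' G = 0 := by
      intro G hG
      exact ⟨hc.supp G (fun h => hG (Finset.card_eq_zero.mp h.2)),
        hc'.supp G (fun h => hG (Finset.card_eq_zero.mp h.2))⟩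
    by_cases h0 : coeff 0 (c ∅) = 0
    · refine ⟨1, 0, Or.inl one_ne_zero, fun _ _ => 0, fun _ => ⟨IsFam.zero, dd_zero⟩, ?_⟩
      intro G
      simp only [map_one, one_mul, map_zero, zero_mul, add_zero, mul_zero, Finset.sum_const_zero]
      by_cases hG : G = ∅
      · subst hG
        rw [hc0, h0, map_zero]
      · exact (hsupp G hG).1
    · refine ⟨coeff 0 (c' ∅), - coeff 0 (c ∅), Or.inr (neg_ne_zero.mpr h0), fun _ _ => 0,
        fun _ => ⟨IsFam.zero, dd_zero⟩, ?_⟩
      intro G
      simp only [mul_zero, Finset.sum_const_zero]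
      by_cases hG : G = ∅
      · subst hG
        have e1 := hc0 ∅
        have e2 := hc0' ∅
        generalize coeff 0 (c ∅) = x at *
        generalize coeff 0 (c' ∅) = y at *
        rw [e1, e2, map_neg]
        ring
      · rw [(hsupp G hG).1, (hsupp G hG).2]
        ring
  | succ s ih =>
    intro hsd c c' hc hc' hh hh'
    obtain ⟨e, he1, he2, he3⟩ := fam_split ha hc.toFam hh
    obtain ⟨e', he1', he2', he3'⟩ := fam_split ha hc'.toFam hh'
    obtain ⟨r, r', hr, hz⟩ := ih (by omega) (dd Δ (e s)) (dd Δ (e' s)) ((he1 s).ddcyc hΔ)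
      ((he1' s).ddcyc hΔ) (dd_hom (he2 s)) (dd_hom (he2' s))
    refine ⟨r, r', hr, ?_⟩
    have hCr : ∀ (r : F) (G : Finset V) (x : MvPolynomial V F), C r * x = rho G (C r) * x := by
      intro r G x; rw [rho_C]
    have hcomb : ∀ {t : ℕ} {x y : Finset V → MvPolynomial V F}, IsFam Δ t x → IsFam Δ t y →
        IsFam Δ t (fun G => C r * x G + C r' * y G) := by
      intro t x y hx hy
      have := (hx.mul (C r)).add (hy.mul (C r'))
      simpa only [rho_C] using this
    have hdd : ∀ (x y : Finset V → MvPolynomial V F) (H : Finset V),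
        dd Δ (fun G => C r * x G + C r' * y G) H = C r * dd Δ x H + C r' * dd Δ y H := by
      intro x y H
      have h1 : (fun G => C r * x G + C r' * y G) =
        fun G => rho G (C r) * x G + rho G (C r') * y G := by
        funext G; rw [rho_C, rho_C]
      rw [h1, dd_add, dd_mul, dd_mul, rho_C, rho_C]
    apply step_lemma hΔ hsd (regZ hΔ ha s (s + 1) (by omega) hsd)
      ⟨hcomb hc.toFam hc'.toFam, fun H => by rw [hdd, hc.cyc, hc'.cyc]; ring⟩
      (fun l G => C r * e l G + C r' * e' l G) (fun l => hcomb (he1 l) (he1' l))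
    · intro G
      rw [he3 G, he3' G, Finset.mul_sum, Finset.mul_sum, ← Finset.sum_add_distrib]
      apply Finset.sum_congr rfl
      intro l _
      ring
    · have h2 : dd Δ (fun G => C r * e s G + C r' * e' s G) =
        fun G => C r * dd Δ (e s) G + C r' * dd Δ (e' s) G := funext (hdd _ _)
      rw [h2]
      exact hz

end socle

end CSLef
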