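import Mathlib
import Pool.Agent.Work.MP_38c61c_al.Socle

/-!
Translation to ideals of the polynomial ring.
-/

namespace CSLef

open MvPolynomial Finset

variable {V : Type} [Fintype V] [DecidableEq V]

section general

variable {F : Type*} [CommRing F]

/-- The Stanley-Reisner ideal of `Δ`. -/
noncomputable def srIdeal (F : Type*) [CommRing F] (Δ : Finset (Finset V)) : Ideal (MvPolynomial V F) :=
  Ideal.span {f | ∃ G : Finset V, G ∉ Δ ∧ f = ∏ v ∈ G, X v}

/-- The ideal generated by the Stanley-Reisner ideal and the first `j` linear forms. -/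
noncomputable def Jid (Δ : Finset (Finset V)) (a : ℕ → V → F) (j : ℕ) : Ideal (MvPolynomial V F) :=
  srIdeal F Δ ⊔ Ideal.span {f | ∃ l < j, f = lin (a l)}

variable {Δ : Finset (Finset V)} {a : ℕ → V → F}

theorem sr_le_J (j : ℕ) : srIdeal F Δ ≤ Jid Δ a j := le_sup_left

theorem lin_mem_J {j l : ℕ} (h : l < j) : lin (a l) ∈ Jid Δ a j :=
  (le_sup_right : _ ≤ Jid Δ a j) (Ideal.subset_span ⟨l, h, rfl⟩)

theorem J_mono {j j' : ℕ} (h : j ≤ j') : Jid Δ a j ≤ Jid Δ a j' := by
  apply sup_le_sup_left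
  apply Ideal.span_mono
  rintro f ⟨l, hl, rfl⟩
  exact ⟨l, lt_of_lt_of_le hl h, rfl⟩

theorem rho_eq_zero_of_mem_sr (hdown : ∀ F ∈ Δ, ∀ G, G ⊆ F → G ∈ Δ)
    {f : MvPolynomial V F} (hf : f ∈ srIdeal F Δ) (G : Finset V) (hG : G ∈ Δ) :
    rho G f = 0 := by
  have h : srIdeal F Δ ≤ RingHom.ker (rho (F := F) G) := by
    apply Ideal.span_le.mpr
    rintro f ⟨H, hH, rfl⟩
    rw [SetLike.mem_coe, RingHom.mem_ker, map_prod]
    have : ¬ H ⊆ G := fun h => hH (hdown G hG H h)
    obtain ⟨v, hv, hvG⟩ := Finset.not_subset.mp this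
    apply Finset.prod_eq_zero hv
    rw [rho_X, if_neg hvG]
  exact h hf

theorem monomial_mem_sr (m : V →₀ ℕ) (b : F) (h : m.support ∉ Δ) :
    monomial m b ∈ srIdeal F Δ := by
  classical
  have h1 : monomial m b = (∏ v ∈ m.support, X v) * monomial (m - Finsupp.indicator m.support
      (fun _ _ => 1)) b := by
    have h2 : (∏ v ∈ m.support, (X v : MvPolynomial V F)) =
        monomial (Finsupp.indicator m.support (fun _ _ => 1)) 1 := by
      rw [monomial_eq, map_one, one_mul, Finsupp.prod]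
      have h4 : (Finsupp.indicator m.support (fun _ _ => (1 : ℕ))).support = m.support := by
        ext v
        simp [Finsupp.indicator_apply]
      rw [h4]
      apply Finset.prod_congr rfl
      intro v hv
      rw [Finsupp.indicator_apply, dif_pos hv, pow_one]
    have hsub : Finsupp.indicator m.support (fun _ _ => 1) +
        (m - Finsupp.indicator m.support (fun _ _ => 1)) = m := by
      ext v
      simp only [Finsupp.coe_add, Finsupp.coe_tsub, Pi.add_apply, Pi.sub_apply,
        Finsupp.indicator_apply]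
      by_cases hv : v ∈ m.support
      · rw [dif_pos hv]
        rw [Finsupp.mem_support_iff] at hv
        omega
      · rw [dif_neg hv]
        rw [Finsupp.notMem_support_iff] at hv
        omega
    rw [h2, monomial_mul, one_mul, hsub]
  rw [h1]
  apply Ideal.mul_mem_right
  exact Ideal.subset_span ⟨_, h, rfl⟩

theorem mem_sr_of_support {f : MvPolynomial V F} (h : ∀ m, coeff m f ≠ 0 → m.support ∉ Δ) :
    f ∈ srIdeal F Δ := by
  rw [← support_sum_monomial_coeff f]
  apply Ideal.sum_mem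
  intro m hm
  exact monomial_mem_sr m _ (h m (mem_support_iff.mp hm))

theorem mem_sr_iff (hdown : ∀ F ∈ Δ, ∀ G, G ⊆ F → G ∈ Δ) (f : MvPolynomial V F) :
    f ∈ srIdeal F Δ ↔ ∀ m, coeff m f ≠ 0 → m.support ∉ Δ := by
  constructor
  · intro hf m hm hmem
    have := rho_eq_zero_of_mem_sr hdown hf m.support hmem
    have h2 := congrArg (coeff m) this
    rw [coeff_rho, if_pos (Finset.Subset.refl _), coeff_zero] at h2
    exact hm h2
  · exact mem_sr_of_support

theorem exists_facet {d : ℕ} (hΔ : IsHomSphere Δ d) (G : Finset V) (hG : G ∈ Δ) :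
    ∃ E ∈ Δ, G ⊆ E ∧ E.card = d := by
  have key : ∀ n, ∀ G ∈ Δ, G.card + n = d → ∃ E ∈ Δ, G ⊆ E ∧ E.card = d := by
    intro n
    induction n with
    | zero => intro G hG h; exact ⟨G, hG, Finset.Subset.refl _, by omega⟩
    | succ n ih =>
      intro G hG h
      obtain ⟨b, hb⟩ := hΔ.acyclic G hG G.card le_rfl (by omega) (fun _ => 1) (by
        intro H _ hGH hr
        have := Finset.card_le_card hGH
        omega)
      have h1 := hb G hG (Finset.Subset.refl _) rfl
      have h2 : (univ.filter (fun v => v ∉ G ∧ insert v G ∈ Δ)).Nonempty := by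
        by_contra hne
        rw [Finset.not_nonempty_iff_eq_empty] at hne
        rw [bd, hne, Finset.sum_empty] at h1
        exact zero_ne_one h1
      obtain ⟨v, hv⟩ := h2
      simp only [Finset.mem_filter, Finset.mem_univ, true_and] at hv
      obtain ⟨E, hE, h3, h4⟩ := ih (insert v G) hv.2
        (by rw [Finset.card_insert_of_notMem hv.1]; omega)
      exact ⟨E, hE, (Finset.subset_insert v G).trans h3, h4⟩
  have := hΔ.card_le G hG
  exact key (d - G.card) G hG (by omega)

theorem mem_sr_of_facets {d : ℕ} (hΔ : IsHomSphere Δ d) {f : MvPolynomial V F}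
    (h : ∀ G ∈ Δ, G.card = d → rho G f = 0) : f ∈ srIdeal F Δ := by
  apply mem_sr_of_support
  intro m hm hmem
  obtain ⟨E, hE, h1, h2⟩ := exists_facet hΔ m.support hmem
  have h3 := congrArg (coeff m) (h E hE h2)
  rw [coeff_rho, if_pos h1, coeff_zero] at h3
  exact hm h3

/-- every element of `Jid` has an explicit expression -/
theorem mem_J_iff (j : ℕ) (f : MvPolynomial V F) :
    f ∈ Jid Δ a j ↔ ∃ g : ℕ → MvPolynomial V F,
      f - ∑ l ∈ range j, lin (a l) * g l ∈ srIdeal F Δ := by
  classical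
  constructor
  · intro hf
    obtain ⟨y, hy, z, hz, rfl⟩ := Submodule.mem_sup.mp hf
    have hz' : ∃ g : ℕ → MvPolynomial V F, z = ∑ l ∈ range j, lin (a l) * g l := by
      refine Submodule.span_induction (p := fun z _ => ∃ g : ℕ → MvPolynomial V F,
        z = ∑ l ∈ range j, lin (a l) * g l) ?_ ?_ ?_ ?_ hz
      · rintro x ⟨l, hl, rfl⟩
        refine ⟨fun l' => if l' = l then 1 else 0, ?_⟩
        simp only [mul_ite, mul_one, mul_zero]
        rw [Finset.sum_ite_eq' (range j) l, if_pos (Finset.mem_range.mpr hl)]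
      · exact ⟨fun _ => 0, by simp⟩
      · rintro x y _ _ ⟨g, hg⟩ ⟨g', hg'⟩
        refine ⟨fun l => g l + g' l, ?_⟩
        simp only [mul_add, Finset.sum_add_distrib]
        rw [hg, hg']
      · rintro r x _ ⟨g, hg⟩
        refine ⟨fun l => r * g l, ?_⟩
        rw [hg, smul_eq_mul, Finset.mul_sum]
        exact Finset.sum_congr rfl (fun l _ => by ring)
    obtain ⟨g, hg⟩ := hz'
    exact ⟨g, by rw [hg, add_sub_cancel_right]; exact hy⟩
  · rintro ⟨g, hg⟩
    have h1 : f = (f - ∑ l ∈ range j, lin (a l) * g l) + ∑ l ∈ range j, lin (a l) * g l := by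
      ring
    rw [h1]
    apply Ideal.add_mem _ (sr_le_J j hg)
    apply Ideal.sum_mem
    intro l hl
    exact Ideal.mul_mem_right _ _ (lin_mem_J (Finset.mem_range.mp hl))

end general

section field

variable {F : Type*} [Field F] [CharP F 2]
variable {Δ : Finset (Finset V)} {a : ℕ → V → F}

theorem fam_mul {d : ℕ} (f g : MvPolynomial V F) (G : Finset V) :
    fam Δ d (f * g) G = rho G f * fam Δ d g G := by
  unfold fam
  split_ifs
  · exact map_mul _ _ _
  · rw [mul_zero]

theorem mem_J_iff_InZ {d : ℕ} (hΔ : IsHomSphere Δ d) (j : ℕ)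
    (f : MvPolynomial V F) : f ∈ Jid Δ a j ↔ InZ Δ a d j (fam Δ d f) := by
  classical
  rw [mem_J_iff]
  constructor
  · rintro ⟨g, hg⟩
    refine ⟨fun l => fam Δ d (g l), fun l => fam_cyc hΔ (g l), ?_⟩
    intro G
    by_cases hG : G ∈ Δ ∧ G.card = d
    · simp only [fam, if_pos hG]
      have h1 := rho_eq_zero_of_mem_sr hΔ.down hg G hG.1
      rw [map_sub, map_sum, sub_eq_zero] at h1
      rw [h1]
      exact Finset.sum_congr rfl (fun l _ => map_mul _ _ _)
    · simp only [fam, if_neg hG, mul_zero, Finset.sum_const_zero]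
  · rintro ⟨e, he1, he2⟩
    have := fun l => exact_top hΔ (he1 l)
    choose g hg using this
    refine ⟨g, mem_sr_of_facets hΔ ?_⟩
    intro G hG hcard
    rw [map_sub, map_sum, sub_eq_zero]
    have h1 := he2 G
    unfold fam at h1
    rw [if_pos ⟨hG, hcard⟩] at h1
    rw [h1]
    apply Finset.sum_congr rfl
    intro l _
    rw [map_mul, hg l G hG hcard]

theorem reg_J {d : ℕ} (hΔ : IsHomSphere Δ d) (ha : Ind Δ a) {j : ℕ} (hj : j < d)
    {f : MvPolynomial V F} (hf : lin (a j) * f ∈ Jid Δ a j) : f ∈ Jid Δ a j := by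
  classical
  rw [mem_J_iff_InZ hΔ] at hf ⊢
  obtain ⟨z, hz1, hz2⟩ := hf
  apply regZ hΔ ha j d hj le_rfl _ (fam_cyc hΔ f)
  have := regC ha hj (fun l => if l < j then z l else fam Δ d f) (by
    intro l
    beta_reduce
    split_ifs
    · exact (hz1 l).toFam
    · exact (fam_cyc hΔ f).toFam) (by
    intro G
    rw [Finset.sum_range_succ]
    beta_reduce
    rw [if_neg (lt_irrefl j)]
    have h1 := hz2 G
    have h3 : ∑ x ∈ range j, (rho G) (lin (a x)) * (if x < j then z x else fam Δ d f) G =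
        ∑ l ∈ range j, (rho G) (lin (a l)) * z l G := by
      apply Finset.sum_congr rfl
      intro l hl
      rw [if_pos (Finset.mem_range.mp hl)]
    rw [← fam_mul, h1, h3]
    exact CharTwo.add_self_eq_zero _)
  beta_reduce at this
  rw [if_neg (lt_irrefl j)] at this
  exact this

theorem fam_hom {d i : ℕ} {f : MvPolynomial V F} (hf : f.IsHomogeneous i) (G : Finset V) :
    (fam Δ d f G).IsHomogeneous i := by
  unfold fam
  split_ifs
  · exact rho_hom G hf
  · exact isHomogeneous_zero _ _ _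

theorem socle_J {d : ℕ} (hΔ : IsHomSphere Δ d) (ha : Ind Δ a) {i : ℕ} (hi : i < d)
    {f : MvPolynomial V F} (hh : f.IsHomogeneous i) (hf : ∀ v, X v * f ∈ Jid Δ a d) :
    f ∈ Jid Δ a d := by
  rw [mem_J_iff_InZ hΔ]
  apply socle hΔ ha i d hi le_rfl _ (fam_cyc hΔ f) (fam_hom hh)
  intro v
  have := (mem_J_iff_InZ hΔ _ _).mp (hf v)
  have h2 : fam Δ d (X v * f) = fun G => rho G (X v) * fam Δ d f G := funext (fam_mul _ _)
  rwa [h2] at this

theorem topdim_J {d : ℕ} (hΔ : IsHomSphere Δ d) (ha : Ind Δ a)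
    {f g : MvPolynomial V F} (hf : f.IsHomogeneous d) (hg : g.IsHomogeneous d) :
    ∃ r r' : F, (r ≠ 0 ∨ r' ≠ 0) ∧ C r * f + C r' * g ∈ Jid Δ a d := by
  obtain ⟨r, r', h1, h2⟩ := topdim hΔ ha d le_rfl _ _ (fam_cyc hΔ f) (fam_cyc hΔ g)
    (fam_hom hf) (fam_hom hg)
  refine ⟨r, r', h1, ?_⟩
  rw [mem_J_iff_InZ hΔ]
  have h3 : fam Δ d (C r * f + C r' * g) = fun G => C r * fam Δ d f G + C r' * fam Δ d g G := by
    funext G
    unfold fam
    split_ifs
    · rw [map_add, map_mul, map_mul, rho_C, rho_C]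
    · simp
  rwa [h3]

end field

end CSLef
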