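import Mathlib
import Pool.Agent.Work.MP_38c61c_al.Ideals

/-!
Squarefree monomials span the Artinian reduction; nondegeneracy of the pairing.
-/

namespace CSLef

open MvPolynomial Finset

variable {V : Type} [Fintype V] [DecidableEq V]

section general

variable {F : Type*} [CommRing F]

/-- the squarefree monomial of a set -/
noncomputable def xm (F : Type*) [CommRing F] (G : Finset V) : MvPolynomial V F := ∏ v ∈ G, X v

theorem xm_hom (G : Finset V) : (xm F G).IsHomogeneous G.card := by
  unfold xm
  have := IsHomogeneous.prod G (fun v => (X v : MvPolynomial V F)) (fun _ => 1)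
    (fun v _ => isHomogeneous_X F v)
  simpa using this

theorem xm_mem_sr {Δ : Finset (Finset V)} {G : Finset V} (h : G ∉ Δ) : xm F G ∈ srIdeal F Δ :=
  Ideal.subset_span ⟨G, h, rfl⟩

variable {Δ : Finset (Finset V)} {a : ℕ → V → F}

/-- congruence to a combination of squarefree monomials of faces with `n` elements -/
def SQ (Δ : Finset (Finset V)) (a : ℕ → V → F) (d n : ℕ) (f : MvPolynomial V F) : Prop :=
  ∃ r : Finset V → F, f - ∑ G ∈ Δ.filter (fun G => G.card = n), C (r G) * xm F G ∈ Jid Δ a d

theorem SQ.add {d n : ℕ} {f g : MvPolynomial V F} (hf : SQ Δ a d n f) (hg : SQ Δ a d n g) :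
    SQ Δ a d n (f + g) := by
  obtain ⟨r, hr⟩ := hf
  obtain ⟨r', hr'⟩ := hg
  refine ⟨fun G => r G + r' G, ?_⟩
  have := Ideal.add_mem _ hr hr'
  convert this using 1
  simp only [map_add, add_mul, Finset.sum_add_distrib]
  ring

theorem SQ.smul {d n : ℕ} {f : MvPolynomial V F} (hf : SQ Δ a d n f) (b : F) :
    SQ Δ a d n (C b * f) := by
  obtain ⟨r, hr⟩ := hf
  refine ⟨fun G => b * r G, ?_⟩
  have := Ideal.mul_mem_left _ (C b) hr
  convert this using 1
  rw [mul_sub, Finset.mul_sum]
  congr 1
  apply Finset.sum_congr rfl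
  intro G _
  rw [map_mul]
  ring

theorem SQ.of_mem {d n : ℕ} {f : MvPolynomial V F} (hf : f ∈ Jid Δ a d) : SQ Δ a d n f :=
  ⟨fun _ => 0, by simpa using hf⟩

theorem SQ.of_congr {d n : ℕ} {f g : MvPolynomial V F} (hf : SQ Δ a d n f)
    (h : g - f ∈ Jid Δ a d) : SQ Δ a d n g := by
  obtain ⟨r, hr⟩ := hf
  refine ⟨r, ?_⟩
  have := Ideal.add_mem _ h hr
  convert this using 1
  ring

theorem SQ.sum {ι : Type*} {d n : ℕ} (I : Finset ι) (f : ι → MvPolynomial V F)
    (h : ∀ i ∈ I, SQ Δ a d n (f i)) : SQ Δ a d n (∑ i ∈ I, f i) :=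
  Finset.sum_induction f (SQ Δ a d n) (fun _ _ => SQ.add) (SQ.of_mem (Ideal.zero_mem _)) h

theorem SQ.xm {d n : ℕ} (G : Finset V) (hG : G.card = n) : SQ Δ a d n (xm F G) := by
  classical
  by_cases hm : G ∈ Δ
  · refine ⟨fun E => if E = G then 1 else 0, ?_⟩
    rw [Finset.sum_eq_single G]
    · simp
    · intro E _ hE
      simp [hE]
    · intro h
      exfalso
      apply h
      rw [Finset.mem_filter]
      exact ⟨hm, hG⟩
  · exact SQ.of_mem (sr_le_J d (xm_mem_sr hm))

theorem sq_monomial {d n : ℕ} (ha : Ind Δ a) (hcard : ∀ G ∈ Δ, G.card ≤ d) (k : ℕ) :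
    ∀ m : V →₀ ℕ, m.degree = n → m.support.card + k = n → SQ Δ a d n (monomial m 1) := by
  classical
  induction k with
  | zero =>
    intro m hm hk
    have h1 : ∀ v ∈ m.support, m v = 1 := by
      have h2 : ∑ v ∈ m.support, m v = ∑ v ∈ m.support, 1 := by
        rw [Finset.sum_const, smul_eq_mul, mul_one]
        rw [Finsupp.degree] at hm
        exact hm.trans hk.symm
      intro v hv
      exact ((Finset.sum_eq_sum_iff_of_le (fun v hv => by
        rw [Finsupp.mem_support_iff] at hv; omega)).mp h2.symm v hv).symm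
    have h3 : monomial m (1 : F) = CSLef.xm F m.support := by
      rw [monomial_eq, map_one, one_mul, Finsupp.prod, CSLef.xm]
      apply Finset.prod_congr rfl
      intro v hv
      rw [h1 v hv, pow_one]
    rw [h3]
    exact SQ.xm _ hk
  | succ k ih =>
    intro m hm hk
    by_cases hmem : m.support ∈ Δ
    swap
    · exact SQ.of_mem (sr_le_J d (monomial_mem_sr m 1 hmem))
    obtain ⟨v, hv, hv2⟩ : ∃ v ∈ m.support, 2 ≤ m v := by
      by_contra hcon
      push Not at hcon
      have h2 : ∑ v ∈ m.support, m v ≤ ∑ v ∈ m.support, 1 := by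
        apply Finset.sum_le_sum
        intro v hv
        have := hcon v hv
        omega
      rw [Finset.sum_const, smul_eq_mul, mul_one] at h2
      rw [Finsupp.degree] at hm
      change ∑ v ∈ m.support, m v = n at hm
      omega
    obtain ⟨q, hq, _⟩ := ha m.support hmem
    set m' : V →₀ ℕ := m - Finsupp.single v 1 with hm'
    have hmm : Finsupp.single v 1 + m' = m := by
      ext w
      by_cases hw : w = v
      · subst hw
        simp only [hm', Finsupp.coe_add, Finsupp.coe_tsub, Pi.add_apply, Pi.sub_apply,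
          Finsupp.single_eq_same]
        omega
      · simp [hm', Finsupp.single_eq_of_ne hw]
    have hm'v : m' v ≠ 0 := by
      simp only [hm', Finsupp.coe_tsub, Pi.sub_apply, Finsupp.single_eq_same]
      omega
    have hsupp' : m'.support = m.support := by
      ext w
      rw [Finsupp.mem_support_iff, Finsupp.mem_support_iff]
      by_cases hw : w = v
      · subst hw
        exact ⟨fun _ => by omega, fun _ => hm'v⟩
      · have : m' w = m w := by simp [hm', Finsupp.single_eq_of_ne hw]
        rw [this]
    let b : V → F := fun u => ∑ l ∈ range m.support.card, q v l * a l u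
    have hb : ∀ u ∈ m.support, b u = if u = v then 1 else 0 := fun u hu => hq u hu v hv
    have hlin : lin b = ∑ l ∈ range m.support.card, C (q v l) * lin (a l) := by
      simp only [lin, b, map_sum, map_mul, Finset.mul_sum, Finset.sum_mul]
      rw [Finset.sum_comm]
      apply Finset.sum_congr rfl
      intro l _
      apply Finset.sum_congr rfl
      intro u _
      ring
    have hlinJ : lin b ∈ Jid Δ a d := by
      rw [hlin]
      apply Ideal.sum_mem
      intro l hl
      apply Ideal.mul_mem_left
      apply lin_mem_J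
      exact lt_of_lt_of_le (Finset.mem_range.mp hl) (hcard _ hmem)
    have hdecomp : lin b = X v + ∑ u ∈ univ \ m.support, C (b u) * X u := by
      rw [lin, ← Finset.sum_sdiff (Finset.subset_univ m.support), add_comm]
      congr 1
      rw [Finset.sum_congr rfl (fun u hu => by rw [hb u hu])]
      rw [Finset.sum_eq_single v]
      · simp
      · intro u _ hu
        simp [hu]
      · intro h; exact absurd hv h
    have hmon : monomial m (1 : F) = X v * monomial m' 1 := by
      rw [X, monomial_mul, one_mul, hmm]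
    apply SQ.of_congr (f := ∑ u ∈ univ \ m.support, C (-b u) * (X u * monomial m' 1))
    · apply SQ.sum
      intro u hu
      apply SQ.smul
      have hum : u ∉ m.support := (Finset.mem_sdiff.mp hu).2
      rw [X, monomial_mul, one_mul]
      have hsu : (Finsupp.single u 1 + m').support = insert u m.support := by
        ext w
        rw [Finsupp.mem_support_iff, Finset.mem_insert, ← hsupp', Finsupp.mem_support_iff,
          Finsupp.add_apply]
        by_cases hw : w = u
        · subst hw
          simp
        · simp [Finsupp.single_eq_of_ne hw, hw]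
      apply ih
      · rw [map_add, Finsupp.degree_single]
        have := congrArg Finsupp.degree hmm
        rw [map_add, Finsupp.degree_single, hm] at this
        exact this
      · rw [hsu, Finset.card_insert_of_notMem hum]
        omega
    · have h5 : monomial m (1 : F) - ∑ u ∈ univ \ m.support, C (-b u) * (X u * monomial m' 1) =
          monomial m' 1 * lin b := by
        rw [hdecomp, hmon, mul_add, Finset.mul_sum, sub_eq_add_neg, ← Finset.sum_neg_distrib]
        congr 1
        · ring
        · apply Finset.sum_congr rfl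
          intro u _
          rw [map_neg]
          ring
      rw [h5]
      exact Ideal.mul_mem_left _ _ hlinJ

theorem card_support_le_degree (m : V →₀ ℕ) : m.support.card ≤ m.degree := by
  rw [Finset.card_eq_sum_ones, Finsupp.degree]
  apply Finset.sum_le_sum
  intro v hv
  rw [Finsupp.mem_support_iff] at hv
  omega

theorem sq_hom {d n : ℕ} (ha : Ind Δ a) (hcard : ∀ G ∈ Δ, G.card ≤ d) {f : MvPolynomial V F}
    (hf : f.IsHomogeneous n) : SQ Δ a d n f := by
  classical
  rw [← support_sum_monomial_coeff f]
  apply SQ.sum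
  intro m hm
  have hdeg : m.degree = n := hf.degree_eq_sum_deg_support hm |>.symm ▸ rfl
  have h1 : monomial m (coeff m f) = C (coeff m f) * monomial m 1 := by
    rw [C_mul_monomial, mul_one]
  rw [h1]
  apply SQ.smul
  have := card_support_le_degree m
  exact sq_monomial ha hcard (n - m.support.card) m hdeg (by omega)

theorem hom_large_mem {d n : ℕ} (ha : Ind Δ a) (hcard : ∀ G ∈ Δ, G.card ≤ d) (hn : d < n)
    {f : MvPolynomial V F} (hf : f.IsHomogeneous n) : f ∈ Jid Δ a d := by
  obtain ⟨r, hr⟩ := sq_hom ha hcard hf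
  rw [Finset.sum_eq_zero, sub_zero] at hr
  · exact hr
  · intro G hG
    rw [Finset.mem_filter] at hG
    have := hcard G hG.1
    omega

end general

section nondeg

variable {F : Type*} [Field F] [CharP F 2]
variable {Δ : Finset (Finset V)} {a : ℕ → V → F}

theorem exists_monomial_notMem {d : ℕ} (hΔ : IsHomSphere Δ d) (ha : Ind Δ a) (k : ℕ) :
    ∀ i, i + k = d → ∀ f : MvPolynomial V F, f.IsHomogeneous i → f ∉ Jid Δ a d →
      ∃ g : MvPolynomial V F, g.IsHomogeneous k ∧ g * f ∉ Jid Δ a d := by
  induction k with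
  | zero =>
    intro i _ f _ hf
    exact ⟨1, isHomogeneous_one _ _, by rwa [one_mul]⟩
  | succ k ih =>
    intro i hi f hh hf
    have h1 : ∃ v, X v * f ∉ Jid Δ a d := by
      by_contra hcon
      push Not at hcon
      exact hf (socle_J hΔ ha (by omega) hh hcon)
    obtain ⟨v, hv⟩ := h1
    have hX : (X v * f).IsHomogeneous (i + 1) := by
      have := (isHomogeneous_X F v).mul hh
      rwa [add_comm] at this
    obtain ⟨g, hg1, hg2⟩ := ih (i + 1) (by omega) (X v * f) hX hv
    refine ⟨g * X v, hg1.mul (isHomogeneous_X F v), ?_⟩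
    rwa [mul_assoc]

theorem nondeg {d : ℕ} (hΔ : IsHomSphere Δ d) (ha : Ind Δ a)
    (φ : MvPolynomial V F →ₗ[F] F) (hφ : ∀ f ∈ Jid Δ a d, f.IsHomogeneous d → φ f = 0)
    (σ : Finset V) (hσ : σ.card = d) (hφσ : φ (xm F σ) ≠ 0)
    {i k : ℕ} (hi : i + k = d) {f : MvPolynomial V F} (hf : f.IsHomogeneous i)
    (h : ∀ G ∈ Δ, G.card = k → φ (xm F G * f) = 0) : f ∈ Jid Δ a d := by
  classical
  by_contra hcon
  obtain ⟨g, hg1, hg2⟩ := exists_monomial_notMem hΔ ha k i hi f hf hcon
  apply hg2
  obtain ⟨r, hr⟩ := sq_hom ha hΔ.card_le hg1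
  have h1 : ∀ G ∈ Δ.filter (fun G => G.card = k), C (r G) * xm F G * f ∈ Jid Δ a d := by
    intro G hG
    rw [Finset.mem_filter] at hG
    rw [mul_assoc]
    apply Ideal.mul_mem_left
    have hxf : (xm F G * f).IsHomogeneous d := by
      have := (xm_hom (F := F) G).mul hf
      rw [hG.2, add_comm, hi] at this
      exact this
    have hxσ : (xm F σ).IsHomogeneous d := hσ ▸ xm_hom σ
    obtain ⟨s, s', hs, hmem⟩ := topdim_J hΔ ha hxf hxσ
    have h2 : φ (C s * (xm F G * f) + C s' * xm F σ) = 0 := by
      apply hφ _ hmem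
      apply IsHomogeneous.add
      · have := (isHomogeneous_C V s).mul hxf
        rwa [zero_add] at this
      · have := (isHomogeneous_C V s').mul hxσ
        rwa [zero_add] at this
    rw [map_add, ← smul_eq_C_mul, ← smul_eq_C_mul, map_smul, map_smul, h G hG.1 hG.2,
      smul_zero, zero_add, smul_eq_mul] at h2
    have hs' : s' = 0 := (mul_eq_zero.mp h2).resolve_right hφσ
    rw [hs'] at hs hmem
    simp only [map_zero, zero_mul, add_zero] at hmem
    have hs0 : s ≠ 0 := hs.resolve_right (fun h => h rfl)
    have h3 := Ideal.mul_mem_left (Jid Δ a d) (C s⁻¹) hmem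
    rw [← mul_assoc, ← map_mul, inv_mul_cancel₀ hs0, map_one, one_mul] at h3
    exact h3
  have h2 := Ideal.add_mem _ (Ideal.mul_mem_right f _ hr) (Ideal.sum_mem _ h1)
  convert h2 using 1
  rw [sub_mul, Finset.sum_mul]
  ring

end nondeg

end CSLef
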