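import Mathlib
import Pool.Agent.Work.MP_38c61c_al.Kappa
import Pool.Agent.Work.MP_38c61c_al.DMap
import Pool.Agent.Work.MP_38c61c_al.Nondeg

/-!
The degree functional.
-/

namespace CSLef

open MvPolynomial Finset

variable {V : Type} [Fintype V] [DecidableEq V]

/-- the relation on column indices given by the involution -/
def relW (α : Equiv.Perm V) : V ⊕ Bool → V ⊕ Bool → Prop
  | .inl u, .inl v => u = v ∨ v = α u
  | .inr b, .inr b' => b = b'
  | _, _ => False

instance (α : Equiv.Perm V) : DecidableRel (relW α) := by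
  intro x y
  cases x <;> cases y <;> unfold relW <;> infer_instance

/-- the columns of a set of vertices -/
def EE (σ : Finset V) : Finset (V ⊕ Bool) := σ.map Function.Embedding.inl

theorem mem_EE {σ : Finset V} {v : V} : (Sum.inl v : V ⊕ Bool) ∈ EE σ ↔ v ∈ σ := by
  simp [EE]

theorem inr_notMem_EE {σ : Finset V} {b : Bool} : (Sum.inr b : V ⊕ Bool) ∉ EE σ := by
  simp [EE]

theorem card_EE (σ : Finset V) : (EE σ).card = σ.card := Finset.card_map _

theorem sum_EE {M : Type*} [AddCommMonoid M] (σ : Finset V) (g : V ⊕ Bool → M) :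
    ∑ w ∈ EE σ, g w = ∑ v ∈ σ, g (Sum.inl v) := by
  rw [EE, Finset.sum_map]; rfl

theorem prod_EE {M : Type*} [CommMonoid M] (σ : Finset V) (g : V ⊕ Bool → M) :
    ∏ w ∈ EE σ, g w = ∏ v ∈ σ, g (Sum.inl v) := by
  rw [EE, Finset.prod_map]; rfl

variable {Δ : Finset (Finset V)} {α : Equiv.Perm V}

theorem valid_EE (hα : IsCS Δ α) {σ : Finset V} (hσ : σ ∈ Δ) : Valid (relW α) (EE σ) := by
  intro w hw w' hw' hr
  rw [EE, Finset.mem_map] at hw hw'
  obtain ⟨u, hu, rfl⟩ := hw
  obtain ⟨v, hv, rfl⟩ := hw'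
  rcases hr with h | h
  · exact congrArg _ h
  · exact absurd (h ▸ hv) (hα.no_pair σ hσ u hu)

theorem EE_tau {σ : Finset V} : ∀ w ∈ EE σ, ¬ relW α (Sum.inr true) w := by
  intro w hw hr
  rw [EE, Finset.mem_map] at hw
  obtain ⟨u, hu, rfl⟩ := hw
  exact hr

variable {F : Type*} [Field F] {d : ℕ} {p : ℕ → V ⊕ Bool → F}
  {D : ℕ → V ⊕ Bool → Derivation ℤ F F}

/-- the distinguished column index -/
abbrev tau : V ⊕ Bool := Sum.inr true

/-- contribution of a set of columns to the degree functional -/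
noncomputable def kap (d : ℕ) (p : ℕ → V ⊕ Bool → F) (D : ℕ → V ⊕ Bool → Derivation ℤ F F)
    (E : Finset (V ⊕ Bool)) (f : MvPolynomial V F) : F :=
  varpi d p D tau E * (∏ w ∈ E, xi d p tau E w)⁻¹ * eval (fun v => xi d p tau E (Sum.inl v)) f

theorem kap_add (E : Finset (V ⊕ Bool)) (f g : MvPolynomial V F) :
    kap d p D E (f + g) = kap d p D E f + kap d p D E g := by
  unfold kap; rw [map_add, mul_add]

theorem kap_C_mul (E : Finset (V ⊕ Bool)) (b : F) (f : MvPolynomial V F) :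
    kap d p D E (C b * f) = b * kap d p D E f := by
  unfold kap; rw [map_mul, eval_C]; ring

/-- the degree functional -/
noncomputable def piF (Δ : Finset (Finset V)) (d : ℕ) (p : ℕ → V ⊕ Bool → F)
    (D : ℕ → V ⊕ Bool → Derivation ℤ F F) : MvPolynomial V F →ₗ[F] F where
  toFun f := ∑ σ ∈ Δ.filter (fun σ => σ.card = d), kap d p D (EE σ) f
  map_add' f g := by simp only [kap_add, Finset.sum_add_distrib]
  map_smul' b f := by
    simp only [smul_eq_C_mul, kap_C_mul, RingHom.id_apply, smul_eq_mul]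
    rw [Finset.mul_sum]

theorem piF_apply (f : MvPolynomial V F) :
    piF Δ d p D f = ∑ σ ∈ Δ.filter (fun σ => σ.card = d), kap d p D (EE σ) f := rfl

section facts

variable (h : Cols d (relW α) p D) (hα : IsCS Δ α)

include h hα

theorem eval_xi_rho {σ : Finset V} (hσ : σ ∈ Δ) (hd : σ.card = d) (f : MvPolynomial V F) :
    eval (fun v => xi d p tau (EE σ) (Sum.inl v)) (rho σ f) =
      eval (fun v => xi d p tau (EE σ) (Sum.inl v)) f := by
  have h1 : ∀ v, eval (fun v => xi d p tau (EE σ) (Sum.inl v))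
      (if v ∈ σ then (X v : MvPolynomial V F) else 0) = xi d p tau (EE σ) (Sum.inl v) := by
    intro v
    split_ifs with hv
    · rw [eval_X]
    · rw [map_zero, xi_notMem h (valid_EE hα hσ) ((card_EE σ).trans hd)
        (fun h' => hv (mem_EE.mp h'))]
  unfold rho
  induction f using MvPolynomial.induction_on with
  | C b => simp
  | add f g hf hg => rw [map_add, map_add, hf, hg, map_add]
  | mul_X f v hf => rw [map_mul, map_mul, hf, aeval_X, h1, map_mul, eval_X]

/-- the functional kills the Stanley-Reisner ideal -/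
theorem piF_sr (hdown : ∀ F ∈ Δ, ∀ G, G ⊆ F → G ∈ Δ) {f : MvPolynomial V F}
    (hf : f ∈ srIdeal F Δ) : piF Δ d p D f = 0 := by
  rw [piF_apply]
  apply Finset.sum_eq_zero
  intro σ hσ
  rw [Finset.mem_filter] at hσ
  have h1 := rho_eq_zero_of_mem_sr hdown hf σ hσ.1
  unfold kap
  rw [← eval_xi_rho h hα hσ.1 hσ.2, h1, map_zero, mul_zero]

theorem piF_lin_mul {l : ℕ} (hl : l < d) (f : MvPolynomial V F) :
    piF Δ d p D (lin (fun v => p l (Sum.inl v)) * f) = p l tau * piF Δ d p D f := by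
  rw [piF_apply, piF_apply, Finset.mul_sum]
  apply Finset.sum_congr rfl
  intro σ hσ
  rw [Finset.mem_filter] at hσ
  unfold kap
  have h1 : eval (fun v => xi d p tau (EE σ) (Sum.inl v)) (lin (fun v => p l (Sum.inl v))) =
      p l tau := by
    rw [← eval_xi_rho h hα hσ.1 hσ.2, rho_lin, map_sum]
    simp only [map_mul, eval_C, eval_X]
    rw [← xi_sum h (valid_EE hα hσ.1) ((card_EE σ).trans hσ.2) hl, sum_EE]
    exact Finset.sum_congr rfl (fun v _ => mul_comm _ _)
  rw [map_mul, h1]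
  ring

theorem B_ne_zero {σ : Finset V} (hσ : σ ∈ Δ) (hd : σ.card = d) :
    ∏ w ∈ EE σ, xi d p tau (EE σ) w ≠ 0 := by
  rw [Finset.prod_ne_zero_iff]
  intro w hw
  apply xi_ne_zero h (valid_EE hα hσ) ((card_EE σ).trans hd) hw
  intro w' hw'
  rw [EE, Finset.mem_map] at hw'
  obtain ⟨u, hu, rfl⟩ := hw'
  exact ⟨fun h' => h', fun h' => h'⟩

theorem piF_facet [CharP F 2] {σ : Finset V} (hσ : σ ∈ Δ) (hd : σ.card = d) :
    piF Δ d p D (xm F σ) = varpi d p D tau (EE σ) := by
  rw [piF_apply, Finset.sum_eq_single σ]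
  · unfold kap xm
    rw [map_prod]
    simp only [eval_X]
    rw [← prod_EE σ (fun w => xi d p tau (EE σ) w), mul_assoc,
      inv_mul_cancel₀ (B_ne_zero h hα hσ hd), mul_one]
  · intro σ' hσ' hne
    rw [Finset.mem_filter] at hσ'
    have hns : ¬ σ ⊆ σ' := fun h' => hne (Finset.eq_of_subset_of_card_le h'
      (by rw [hd, hσ'.2])).symm
    obtain ⟨v, hv, hv'⟩ := Finset.not_subset.mp hns
    unfold kap xm
    rw [map_prod, Finset.prod_eq_zero hv, mul_zero]
    rw [eval_X, xi_notMem h (valid_EE hα hσ'.1) ((card_EE σ').trans hσ'.2)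
      (fun h' => hv' (mem_EE.mp h'))]
  · intro h'
    exfalso
    apply h'
    rw [Finset.mem_filter]
    exact ⟨hσ, hd⟩

theorem piF_facet_ne [CharP F 2] {σ : Finset V} (hσ : σ ∈ Δ) (hd : σ.card = d) :
    piF Δ d p D (xm F σ) ≠ 0 := by
  rw [piF_facet h hα hσ hd]
  exact varpi_ne_zero h (valid_EE hα hσ) ((card_EE σ).trans hd) EE_tau

end facts

end CSLef
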