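import Mathlib
import Pool.Agent.Work.MP_38c61c_al.PiDef

/-!
Differential identities for the degree functional.
-/

namespace CSLef

open MvPolynomial Finset

variable {V : Type} [Fintype V] [DecidableEq V]
variable {Δ : Finset (Finset V)} {α : Equiv.Perm V}
variable {F : Type*} [Field F] [CharP F 2] {d : ℕ} {p : ℕ → V ⊕ Bool → F}
  {D : ℕ → V ⊕ Bool → Derivation ℤ F F}

/-- the symmetric linear form of a vertex -/
noncomputable def yy (F : Type*) [CommRing F] (α : Equiv.Perm V) (u : V) : MvPolynomial V F :=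
  X u + X (α u)

section facts

variable (h : Cols d (relW α) p D) (hα : IsCS Δ α)

include h hα

theorem theta_eq {σ : Finset V} (hσ : σ ∈ Δ) (hd : σ.card = d) (u : V) :
    ∑ w' ∈ (EE σ).filter (fun w' => relW α (Sum.inl u) w'), xi d p tau (EE σ) w' =
      eval (fun v => xi d p tau (EE σ) (Sum.inl v)) (yy F α u) := by
  rw [yy, map_add, eval_X, eval_X, Finset.sum_filter, sum_EE]
  have h0 : ∀ v, v ∉ σ → xi d p tau (EE σ) (Sum.inl v) = 0 := fun v hv =>
    xi_notMem h (valid_EE hα hσ) ((card_EE σ).trans hd) (fun h' => hv (mem_EE.mp h'))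
  have h1 : ∀ v ∈ σ, (if relW α (Sum.inl u) (Sum.inl v) then xi d p tau (EE σ) (Sum.inl v)
      else 0) = (if v = u then xi d p tau (EE σ) (Sum.inl v) else 0) +
      (if v = α u then xi d p tau (EE σ) (Sum.inl v) else 0) := by
    intro v _
    have hne := hα.fpf u
    unfold relW
    by_cases h2 : v = u
    · subst h2
      simp [hne.symm]
    · by_cases h3 : v = α u
      · subst h3
        simp [hne]
      · simp [h2, h3, Ne.symm h2]
  rw [Finset.sum_congr rfl h1, Finset.sum_add_distrib, Finset.sum_ite_eq', Finset.sum_ite_eq']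
  congr 1
  · split_ifs with h2
    · rfl
    · rw [h0 u h2]
  · split_ifs with h2
    · rfl
    · rw [h0 _ h2]

/-- first identity: derivative along a column of a vertex -/
theorem D_piF (l : ℕ) (u : V) (f : MvPolynomial V F)
    (h1 : dmap (D l (Sum.inl u)) f = 0) (h2 : dmap (D l tau) f = 0) :
    D l (Sum.inl u) (piF Δ d p D f) = D l tau (piF Δ d p D (yy F α u * f)) := by
  rw [piF_apply, piF_apply, map_sum, map_sum]
  apply Finset.sum_congr rfl
  intro σ hσ
  rw [Finset.mem_filter] at hσ
  have hE := valid_EE hα hσ.1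
  have hs := (card_EE σ).trans hσ.2
  have hu : ¬ relW α (Sum.inl u) (tau : V ⊕ Bool) := fun h' => h'
  set θ := ∑ w' ∈ (EE σ).filter (fun w' => relW α (Sum.inl u) w'), xi d p tau (EE σ) w' with hθ
  set D3 := D l (Sum.inl u) - θ • D l tau with hD3
  have h3 : ∀ w, D3 (xi d p tau (EE σ) w) = 0 := fun w => D3_xi h hE hs EE_tau l (Sum.inl u) hu w
  have hB : D3 (∏ w ∈ EE σ, xi d p tau (EE σ) w)⁻¹ = 0 := by
    have : ∀ I : Finset (V ⊕ Bool), D3 (∏ w ∈ I, xi d p tau (EE σ) w) = 0 := by
      intro I
      induction I using Finset.induction_on with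
      | empty => rw [Finset.prod_empty]; exact Derivation.map_one_eq_zero _
      | insert w I hw ih =>
        rw [Finset.prod_insert hw, Derivation.leibniz, ih, h3 w, smul_zero, smul_zero, add_zero]
    rw [Derivation.leibniz_inv, this, smul_zero]
  have hev : D3 (eval (fun v => xi d p tau (EE σ) (Sum.inl v)) f) = 0 := by
    rw [D_eval D3 _ (fun v => h3 _)]
    have h4 : dmap D3 f = 0 := by
      ext m
      have h5 := congrArg (coeff m) h1
      have h6 := congrArg (coeff m) h2
      rw [coeff_dmap, coeff_zero] at h5 h6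
      rw [coeff_dmap, coeff_zero, hD3, Derivation.sub_apply, Derivation.smul_apply, h5, h6,
        smul_zero, sub_zero]
    rw [h4, map_zero]
  have hvar := D_varpi h hE hs EE_tau l (Sum.inl u) hu
  have hcst := varpi_cst h hE hs EE_tau
  have hκ : kap d p D (EE σ) (yy F α u * f) = θ * kap d p D (EE σ) f := by
    unfold kap
    rw [map_mul, ← theta_eq h hα hσ.1 hσ.2]
    ring
  rw [hκ]
  have hDg : D l (Sum.inl u) (kap d p D (EE σ) f) =
      D3 (kap d p D (EE σ) f) + θ * D l tau (kap d p D (EE σ) f) := by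
    rw [hD3, Derivation.sub_apply, Derivation.smul_apply, smul_eq_mul, sub_add_cancel]
  have hD3ϖ : D3 (varpi d p D tau (EE σ)) = varpi d p D tau (EE σ) * D l tau θ := by
    rw [hD3, Derivation.sub_apply, Derivation.smul_apply, hvar]
    have : D l tau (varpi d p D tau (EE σ)) = 0 := hcst l
    rw [this, smul_zero, sub_zero]
  have hD3κ : D3 (kap d p D (EE σ) f) = D l tau θ * kap d p D (EE σ) f := by
    unfold kap
    rw [Derivation.leibniz, hev, smul_zero, zero_add, Derivation.leibniz, hB, smul_zero, zero_add,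
      hD3ϖ, smul_eq_mul, smul_eq_mul]
    ring
  rw [hDg, hD3κ, Derivation.leibniz, smul_eq_mul, smul_eq_mul]
  ring

/-- second identity: squares -/
theorem CC_piF_sq (Z : MvPolynomial V F) :
    CC (TT D tau) (List.range d) (piF Δ d p D (Z ^ 2)) = (piF Δ d p D Z) ^ 2 := by
  rw [piF_apply, piF_apply, CC_sum, sum_pow_char 2]
  apply Finset.sum_congr rfl
  intro σ hσ
  rw [Finset.mem_filter] at hσ
  have hE := valid_EE hα hσ.1
  have hs := (card_EE σ).trans hσ.2
  have hB := B_ne_zero h hα hσ.1 hσ.2
  unfold kap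
  set B := ∏ w ∈ EE σ, xi d p tau (EE σ) w with hBdef
  set z := eval (fun v => xi d p tau (EE σ) (Sum.inl v)) Z with hz
  have h1 : varpi d p D tau (EE σ) * B⁻¹ * eval (fun v => xi d p tau (EE σ) (Sum.inl v)) (Z ^ 2) =
      (varpi d p D tau (EE σ) * (z * B⁻¹) ^ 2) * B := by
    rw [map_pow, ← hz]
    field_simp
  rw [h1, CC_const_mul _ ((varpi_cst h hE hs EE_tau).mul (cst_sq _))]
  have h2 : CC (TT D tau) (List.range d) B = varpi d p D tau (EE σ) := rfl
  rw [h2]
  ring

/-- third identity: second derivatives vanish -/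
theorem Sq_piF (f : MvPolynomial V F) (hf : ∀ l, dmap (D l tau) f = 0) :
    Sq (TT D tau) (piF Δ d p D f) := by
  rw [piF_apply]
  apply Sq.sum
  intro σ hσ
  rw [Finset.mem_filter] at hσ
  have hE := valid_EE hα hσ.1
  have hs := (card_EE σ).trans hσ.2
  have hlin : ∀ w, Sq (TT D tau) (xi d p tau (EE σ) w) := fun w =>
    Sq.of_lin (xi_lin h hE hs EE_tau w)
  unfold kap
  refine ((Sq.of_cst (varpi_cst h hE hs EE_tau)).mul (Sq.inv (Sq.prod _ _ (fun w _ => hlin w)))).mul
    ?_
  rw [eval_eq']
  apply Sq.sum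
  intro m _
  apply Sq.mul
  · apply Sq.of_cst
    intro l
    have := congrArg (coeff m) (hf l)
    rw [coeff_dmap, coeff_zero] at this
    exact this
  · exact Sq.prod _ _ (fun v _ => (hlin _).pow _)

theorem CC_T_piF {l : ℕ} (hl : l < d) (f : MvPolynomial V F) (hf : ∀ l, dmap (D l tau) f = 0) :
    CC (TT D tau) (List.range d) (D l tau (piF Δ d p D f)) = 0 :=
  CC_T_zero' (TT_comm h) (List.range d) (List.mem_range.mpr hl) (Sq_piF h hα f hf l)

omit [CharP F 2] in
/-- other derivations commute with the functional -/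
theorem D_piF_other (δ : Derivation ℤ F F) (hδp : ∀ l w, δ (p l w) = 0)
    (hδ : ∀ l x, D l tau (δ x) = δ (D l tau x)) (f : MvPolynomial V F) :
    δ (piF Δ d p D f) = piF Δ d p D (dmap δ f) := by
  rw [piF_apply, piF_apply, map_sum]
  apply Finset.sum_congr rfl
  intro σ hσ
  rw [Finset.mem_filter] at hσ
  have hE := valid_EE hα hσ.1
  have hs := (card_EE σ).trans hσ.2
  have hξ : ∀ w, δ (xi d p tau (EE σ) w) = 0 := by
    intro w
    by_cases hw : w ∈ EE σ
    · refine cols_uniq h hE hs (fun w => δ (xi d p tau (EE σ) w)) ?_ w hw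
      intro l hl
      have h1 := congrArg δ (xi_sum h hE hs (τ := tau) hl)
      rw [map_sum, hδp] at h1
      rw [← h1]
      apply Finset.sum_congr rfl
      intro w _
      rw [Derivation.leibniz, hδp, smul_zero, zero_add, smul_eq_mul, mul_comm]
    · rw [xi_notMem h hE hs hw, map_zero]
  have hprod : ∀ I : Finset (V ⊕ Bool), δ (∏ w ∈ I, xi d p tau (EE σ) w) = 0 := by
    intro I
    induction I using Finset.induction_on with
    | empty => rw [Finset.prod_empty]; exact Derivation.map_one_eq_zero _
    | insert w I hw ih =>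
      rw [Finset.prod_insert hw, Derivation.leibniz, ih, hξ w, smul_zero, smul_zero, add_zero]
  have hϖ : δ (varpi d p D tau (EE σ)) = 0 := by
    unfold varpi
    have := (CC_comm (T := TT D tau) (fun x => δ x) (List.range d) (fun l' _ x => hδ l' x)
      (∏ w ∈ EE σ, xi d p tau (EE σ) w))
    rw [← this, hprod, CC_zero]
  unfold kap
  rw [Derivation.leibniz, Derivation.leibniz, hϖ, Derivation.leibniz_inv, hprod,
    D_eval δ _ (fun v => hξ _)]
  simp only [smul_zero, add_zero, smul_eq_mul, mul_zero]

omit [CharP F 2] in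
/-- invariance under the involution -/
theorem xi_image (hp : ∀ l v, p l (Sum.inl (α v)) = p l (Sum.inl v)) {σ : Finset V} (hσ : σ ∈ Δ)
    (hd : σ.card = d) (v : V) :
    xi d p tau (EE (σ.image α)) (Sum.inl v) = xi d p tau (EE σ) (Sum.inl (α v)) := by
  have hσ' := hα.map_mem σ hσ
  have hd' : (σ.image α).card = d := by
    rw [Finset.card_image_of_injective _ α.injective, hd]
  have h1 : (fun w : V ⊕ Bool => match w with
      | .inl v => xi d p tau (EE σ) (Sum.inl (α v))
      | .inr _ => 0) = coord d p (EE (σ.image α)) (fun l => p l tau) := by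
    apply coord_uniq h (valid_EE hα hσ') ((card_EE _).trans hd')
    · intro w hw
      rcases w with v | b
      · simp only
        apply xi_notMem h (valid_EE hα hσ) ((card_EE σ).trans hd)
        intro h'
        apply hw
        rw [mem_EE] at h' ⊢
        rw [Finset.mem_image]
        exact ⟨α v, h', hα.invol v⟩
      · rfl
    · intro l hl
      rw [sum_EE, Finset.sum_image (fun a _ b _ hab => α.injective hab)]
      simp only [hα.invol, hp]
      rw [← xi_sum h (valid_EE hα hσ) ((card_EE σ).trans hd) (τ := tau) hl, sum_EE]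
  have h2 := congrFun h1 (Sum.inl v)
  exact h2.symm

omit [CharP F 2] in
theorem kap_image (hp : ∀ l v, p l (Sum.inl (α v)) = p l (Sum.inl v)) {σ : Finset V} (hσ : σ ∈ Δ)
    (hd : σ.card = d) (f : MvPolynomial V F) :
    kap d p D (EE (σ.image α)) f = kap d p D (EE σ) (rename α f) := by
  have hB : ∏ w ∈ EE (σ.image α), xi d p tau (EE (σ.image α)) w =
      ∏ w ∈ EE σ, xi d p tau (EE σ) w := by
    rw [prod_EE, prod_EE, Finset.prod_image (fun a _ b _ hab => α.injective hab)]
    apply Finset.prod_congr rfl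
    intro v _
    rw [xi_image h hα hp hσ hd, hα.invol]
  unfold kap varpi
  rw [hB, eval_rename]
  congr 1
  congr 1
  congr 1
  funext v
  exact xi_image h hα hp hσ hd v

omit [CharP F 2] in
theorem piF_rename (hp : ∀ l v, p l (Sum.inl (α v)) = p l (Sum.inl v)) (f : MvPolynomial V F) :
    piF Δ d p D (rename α f) = piF Δ d p D f := by
  rw [piF_apply, piF_apply]
  have hinv : ∀ σ : Finset V, (σ.image α).image α = σ := by
    intro σ
    rw [Finset.image_image]
    have : (α : V → V) ∘ α = id := by funext v; exact hα.invol v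
    rw [this, Finset.image_id]
  apply Finset.sum_bij (fun σ _ => σ.image α)
  · intro σ hσ
    rw [Finset.mem_filter] at hσ ⊢
    exact ⟨hα.map_mem σ hσ.1, by rw [Finset.card_image_of_injective _ α.injective, hσ.2]⟩
  · intro σ _ σ' _ heq
    have := congrArg (fun τ => τ.image α) heq
    simpa only [hinv] using this
  · intro σ hσ
    rw [Finset.mem_filter] at hσ
    refine ⟨σ.image α, ?_, hinv σ⟩
    rw [Finset.mem_filter]
    exact ⟨hα.map_mem σ hσ.1, by rw [Finset.card_image_of_injective _ α.injective, hσ.2]⟩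
  · intro σ hσ
    rw [Finset.mem_filter] at hσ
    exact (kap_image h hα hp hσ.1 hσ.2 f).symm

end facts

end CSLef
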