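import Mathlib
import Pool.Agent.Work.MP_38c61c_al.PiDer

/-!
The degree functional vanishes in low degrees.
-/

namespace CSLef

open MvPolynomial Finset

section aux

variable {F : Type*} [Field F]

theorem lagrange_zero {ι : Type*} [DecidableEq ι] (s : Finset ι) (r : ι → F)
    (hr : Set.InjOn r s) (M : Polynomial F) (hM : M.degree < s.card) :
    M.eval 0 = ∑ i ∈ s, M.eval (r i) * ∏ j ∈ s.erase i, ((r i - r j)⁻¹ * (0 - r j)) := by
  have h1 := Lagrange.eq_interpolate hr hM
  have h2 := congrArg (Polynomial.eval 0) h1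
  rw [h2, Lagrange.interpolate_apply, Polynomial.eval_finsetSum]
  apply Finset.sum_congr rfl
  intro i _
  rw [Polynomial.eval_mul, Polynomial.eval_C, Lagrange.basis, Polynomial.eval_prod]
  congr 1
  apply Finset.prod_congr rfl
  intro j _
  simp [Lagrange.basisDivisor]

variable {T : ℕ → Derivation ℤ F F}

theorem DegLT.prod_mul {ι : Type*} (I : Finset ι) (g : ι → F) (h : ∀ i ∈ I, Lin T (g i)) {k : ℕ}
    {H : F} (hH : DegLT T k H) : DegLT T (I.card + k) ((∏ i ∈ I, g i) * H) := by
  classical
  induction I using Finset.induction_on with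
  | empty => rw [Finset.prod_empty, Finset.card_empty, zero_add, one_mul]; exact hH
  | insert i I hi ih =>
    rw [Finset.prod_insert hi, Finset.card_insert_of_notMem hi, mul_assoc]
    have := (ih (fun j hj => h j (Finset.mem_insert_of_mem hj))).lin_mul
      (h i (Finset.mem_insert_self i I))
    rwa [add_right_comm] at this

theorem Lin.const_mul {c x : F} (hc : Cst T c) (hx : Lin T x) : Lin T (c * x) := by
  intro l
  rw [Derivation.leibniz, hc l, smul_zero, add_zero, smul_eq_mul]
  exact hc.mul (hx l)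

theorem Lin.sub {x y : F} (hx : Lin T x) (hy : Lin T y) : Lin T (x - y) := by
  intro l l'
  rw [map_sub, map_sub, hx l l', hy l l', sub_zero]

theorem CC_alt [CharP F 2] (hT : ∀ l l' x, T l (T l' x) = T l' (T l x)) {ι : Type*} [DecidableEq ι]
    (L : List ℕ) (J : Finset ι) (g c : ι → F) (hg : ∀ i, Lin T (g i)) (hc : ∀ i, Cst T (c i))
    (r : F) (hr : Lin T r) :
    ∀ (k : ℕ) (H : F), DegLT T (k + 1) H → J.card + k + 1 ≤ L.length →
      CC T L (r * ((∏ i ∈ J, (g i - r * c i)) * H)) = CC T L (r * ((∏ i ∈ J, g i) * H)) := by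
  induction J using Finset.induction_on with
  | empty => intro k H _ _; rw [Finset.prod_empty, Finset.prod_empty]
  | insert j J hj ih =>
    intro k H hH hk
    rw [Finset.card_insert_of_notMem hj] at hk
    rw [Finset.prod_insert hj, Finset.prod_insert hj]
    have h1 : r * ((g j - r * c j) * (∏ i ∈ J, (g i - r * c i)) * H) =
        r * ((∏ i ∈ J, (g i - r * c i)) * (g j * H)) -
        (c j * r ^ 2) * ((∏ i ∈ J, (g i - r * c i)) * H) := by ring
    have hlin : ∀ i ∈ J, Lin T (g i - r * c i) := by
      intro i _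
      apply (hg i).sub
      rw [mul_comm]
      exact Lin.const_mul (hc i) hr
    rw [h1, CC_sub, CC_const_mul L ((hc j).mul (cst_sq r)),
      CC_degLT hT L rfl ((DegLT.prod_mul J _ hlin hH).mono (by omega)), mul_zero, sub_zero,
      ih (k + 1) (g j * H) (hH.lin_mul (hg j)) (by omega)]
    congr 1
    ring

end aux

section poly

variable {V : Type} [Fintype V] {F : Type*} [Field F]

/-- restriction of a polynomial to a line -/
noncomputable def lineP (ξ ω : V → F) (f : MvPolynomial V F) : Polynomial F :=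
  eval₂ Polynomial.C (fun v => Polynomial.C (ξ v) - Polynomial.X * Polynomial.C (ω v)) f

theorem lineP_eval (ξ ω : V → F) (f : MvPolynomial V F) (x : F) :
    (lineP ξ ω f).eval x = eval (fun v => ξ v - x * ω v) f := by
  unfold lineP
  induction f using MvPolynomial.induction_on with
  | C b => simp
  | add f g hf hg => rw [eval₂_add, Polynomial.eval_add, hf, hg, map_add]
  | mul_X f v hf =>
    rw [eval₂_mul, Polynomial.eval_mul, hf, eval₂_X, map_mul, eval_X, Polynomial.eval_sub,
      Polynomial.eval_mul, Polynomial.eval_C, Polynomial.eval_C, Polynomial.eval_X]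

theorem lineP_degree (ξ ω : V → F) {f : MvPolynomial V F} {n : ℕ} (hf : f.IsHomogeneous n) :
    (lineP ξ ω f).natDegree ≤ n := by
  unfold lineP
  rw [eval₂_eq']
  apply Polynomial.natDegree_sum_le_of_forall_le
  intro m hm
  have hdeg : m.degree = n := hf.degree_eq_sum_deg_support hm |>.symm ▸ rfl
  refine (Polynomial.natDegree_C_mul_le _ _).trans ?_
  refine (Polynomial.natDegree_prod_le _ _).trans ?_
  have h1 : ∀ v, (Polynomial.C (ξ v) - Polynomial.X * Polynomial.C (ω v)).natDegree ≤ 1 := by
    intro v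
    refine (Polynomial.natDegree_sub_le _ _).trans ?_
    rw [Polynomial.natDegree_C]
    simp only [zero_le, sup_of_le_right]
    refine (Polynomial.natDegree_mul_le).trans ?_
    rw [Polynomial.natDegree_C, add_zero]
    exact Polynomial.natDegree_X_le
  calc ∑ v, ((Polynomial.C (ξ v) - Polynomial.X * Polynomial.C (ω v)) ^ m v).natDegree
      ≤ ∑ v, m v := by
        apply Finset.sum_le_sum
        intro v _
        refine (Polynomial.natDegree_pow_le).trans ?_
        calc m v * _ ≤ m v * 1 := Nat.mul_le_mul_left _ (h1 v)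
          _ = m v := mul_one _
    _ = n := by rw [← hdeg, Finsupp.degree_eq_sum]

end poly

variable {V : Type} [Fintype V] [DecidableEq V]
variable {Δ : Finset (Finset V)} {α : Equiv.Perm V}
variable {F : Type*} [Field F] [CharP F 2] {d : ℕ} {p : ℕ → V ⊕ Bool → F}
  {D : ℕ → V ⊕ Bool → Derivation ℤ F F}

/-- the index of the cone column -/
abbrev oo : V ⊕ Bool := Sum.inr false

theorem cone_valid (hα : IsCS Δ α) {G : Finset V} (hG : G ∈ Δ) :
    Valid (relW α) (insert oo (EE G)) := by
  intro w hw w' hw' hr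
  rw [Finset.mem_insert] at hw hw'
  rcases hw with rfl | hw <;> rcases hw' with rfl | hw'
  · rfl
  · rw [EE, Finset.mem_map] at hw'
    obtain ⟨u, _, rfl⟩ := hw'
    exact absurd hr (fun h => h)
  · rw [EE, Finset.mem_map] at hw
    obtain ⟨u, _, rfl⟩ := hw
    exact absurd hr (fun h => h)
  · exact valid_EE hα hG w hw w' hw' hr

theorem cone_tau {G : Finset V} : ∀ w ∈ insert oo (EE G), ¬ relW α (Sum.inr true) w := by
  intro w hw hr
  rw [Finset.mem_insert] at hw
  rcases hw with rfl | hw
  · exact absurd hr (by unfold relW; simp)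
  · exact EE_tau w hw hr

theorem cone_card {G : Finset V} : (insert oo (EE G)).card = G.card + 1 := by
  rw [Finset.card_insert_of_notMem inr_notMem_EE, card_EE]

section facts

variable (h : Cols d (relW α) p D) (hα : IsCS Δ α) {σ : Finset V} (hσ : σ ∈ Δ)
  (hd : σ.card = d)

/-- coordinates of the cone column -/
noncomputable def om (d : ℕ) (p : ℕ → V ⊕ Bool → F) (σ : Finset V) (v : V) : F :=
  coord d p (EE σ) (fun l => p l oo) (Sum.inl v)

/-- coordinates of the generic column -/
noncomputable def xv (d : ℕ) (p : ℕ → V ⊕ Bool → F) (σ : Finset V) (v : V) : F :=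
  xi d p tau (EE σ) (Sum.inl v)

include h hα hσ hd

theorem om_notMem {v : V} (hv : v ∉ σ) : om d p σ v = 0 :=
  (coord_spec h (valid_EE hα hσ) ((card_EE σ).trans hd) _).1 _ (fun h' => hv (mem_EE.mp h'))

theorem xv_notMem {v : V} (hv : v ∉ σ) : xv d p σ v = 0 :=
  xi_notMem h (valid_EE hα hσ) ((card_EE σ).trans hd) (fun h' => hv (mem_EE.mp h'))

theorem om_sum {l : ℕ} (hl : l < d) : ∑ v ∈ σ, om d p σ v * p l (Sum.inl v) = p l oo := by
  have := (coord_spec h (valid_EE hα hσ) ((card_EE σ).trans hd) (fun l => p l oo)).2 l hl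
  rw [sum_EE] at this
  exact this

theorem xv_sum {l : ℕ} (hl : l < d) : ∑ v ∈ σ, xv d p σ v * p l (Sum.inl v) = p l tau := by
  have := xi_sum h (valid_EE hα hσ) ((card_EE σ).trans hd) (τ := tau) hl
  rw [sum_EE] at this
  exact this

theorem om_cst (v : V) : Cst (TT D tau) (om d p σ v) := by
  intro l
  change D l tau (om d p σ v) = 0
  by_cases hv : v ∈ σ
  · refine cols_uniq h (valid_EE hα hσ) ((card_EE σ).trans hd)
      (fun w => D l tau (coord d p (EE σ) (fun l => p l oo) w)) ?_ (Sum.inl v) (mem_EE.mpr hv)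
    intro l' hl'
    have h1 := congrArg (D l tau) ((coord_spec h (valid_EE hα hσ) ((card_EE σ).trans hd)
      (fun l => p l oo)).2 l' hl')
    rw [map_sum, h.D_p, if_neg (fun h3 => absurd h3.2.2 (by unfold relW; simp))] at h1
    rw [← h1]
    apply Finset.sum_congr rfl
    intro w hw
    rw [Derivation.leibniz, h.D_p, if_neg (fun h3 => EE_tau w hw h3.2.2), smul_zero, zero_add,
      smul_eq_mul, mul_comm]
  · rw [om_notMem h hα hσ hd hv, map_zero]

variable (hdown : ∀ F ∈ Δ, ∀ G, G ⊆ F → G ∈ Δ)

include hdown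

theorem om_ne_zero {v : V} (hv : v ∈ σ) : om d p σ v ≠ 0 := by
  intro h0
  have hG : σ.erase v ∈ Δ := hdown σ hσ _ (Finset.erase_subset v σ)
  have hcard : (insert oo (EE (σ.erase v))).card = d := by
    rw [cone_card, Finset.card_erase_of_mem hv, hd]
    have : 0 < σ.card := Finset.card_pos.mpr ⟨v, hv⟩
    omega
  have := cols_uniq h (cone_valid hα hG) hcard
    (fun w => match w with
      | .inl u => om d p σ u
      | .inr _ => -1) (by
    intro l hl
    rw [Finset.sum_insert inr_notMem_EE, sum_EE]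
    simp only
    rw [← om_sum h hα hσ hd hl, ← Finset.add_sum_erase σ _ hv, h0]
    ring) oo (Finset.mem_insert_self _ _)
  exact one_ne_zero (neg_eq_zero.mp this)

omit hdown in
theorem xv_ne_zero {v : V} (hv : v ∈ σ) : xv d p σ v ≠ 0 := by
  apply xi_ne_zero h (valid_EE hα hσ) ((card_EE σ).trans hd) (mem_EE.mpr hv)
  intro w' hw'
  rw [EE, Finset.mem_map] at hw'
  obtain ⟨u, hu, rfl⟩ := hw'
  exact ⟨fun h' => h', fun h' => h'⟩

theorem ratio_inj : Set.InjOn (fun v => xv d p σ v / om d p σ v) (σ : Set V) := by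
  intro u hu v hv huv
  by_contra hne
  simp only at huv
  rw [Finset.mem_coe] at hu hv
  set r := xv d p σ v / om d p σ v with hr
  have hωv := om_ne_zero h hα hσ hd hdown hv
  have hωu := om_ne_zero h hα hσ hd hdown hu
  have e1 : xv d p σ v - r * om d p σ v = 0 := by rw [hr]; field_simp; ring
  have e2 : xv d p σ u - r * om d p σ u = 0 := by rw [← huv]; field_simp; ring
  set G := (σ.erase u).erase v with hG
  have hGΔ : G ∈ Δ := hdown σ hσ _ ((Finset.erase_subset _ _).trans (Finset.erase_subset _ _))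
  have hvu : v ∈ σ.erase u := Finset.mem_erase.mpr ⟨fun h' => hne h'.symm, hv⟩
  have hτn : (tau : V ⊕ Bool) ∉ insert oo (EE G) := by
    intro h'
    rw [Finset.mem_insert] at h'
    rcases h' with h' | h'
    · exact absurd h' (by simp)
    · exact inr_notMem_EE h'
  have hcard : (insert tau (insert oo (EE G))).card = d := by
    rw [Finset.card_insert_of_notMem hτn, cone_card, hG, Finset.card_erase_of_mem hvu,
      Finset.card_erase_of_mem hu, hd]
    have h2 : 0 < (σ.erase u).card := Finset.card_pos.mpr ⟨v, hvu⟩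
    rw [Finset.card_erase_of_mem hu, hd] at h2
    omega
  have hval : Valid (relW α) (insert tau (insert oo (EE G))) := by
    intro w hw w' hw' hrel
    rw [Finset.mem_insert] at hw hw'
    rcases hw with rfl | hw <;> rcases hw' with rfl | hw'
    · rfl
    · exact absurd hrel (cone_tau w' hw')
    · exfalso
      rw [Finset.mem_insert] at hw
      rcases hw with rfl | hw
      · exact absurd hrel (by unfold relW; simp)
      · rw [EE, Finset.mem_map] at hw
        obtain ⟨u', _, rfl⟩ := hw
        exact hrel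
    · exact cone_valid hα hGΔ w hw w' hw' hrel
  have := cols_uniq h hval hcard
    (fun w => match w with
      | .inl u => xv d p σ u - r * om d p σ u
      | .inr true => -1
      | .inr false => r) (by
    intro l hl
    rw [Finset.sum_insert hτn, Finset.sum_insert inr_notMem_EE, sum_EE]
    simp only
    have h3 : ∑ u ∈ σ, (xv d p σ u - r * om d p σ u) * p l (Sum.inl u) =
        p l tau - r * p l oo := by
      simp only [sub_mul, mul_assoc]
      rw [Finset.sum_sub_distrib, ← Finset.mul_sum, xv_sum h hα hσ hd hl, om_sum h hα hσ hd hl]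
    rw [← Finset.add_sum_erase σ _ hu, ← Finset.add_sum_erase _ _ hvu, e1, e2] at h3
    rw [zero_mul, zero_mul, zero_add, zero_add] at h3
    rw [h3]
    ring) tau (Finset.mem_insert_self _ _)
  exact one_ne_zero (neg_eq_zero.mp this)

theorem xi_cone {v : V} (hv : v ∈ σ) :
    (∀ u, xi d p tau (insert oo (EE (σ.erase v))) (Sum.inl u) =
      xv d p σ u - (xv d p σ v / om d p σ v) * om d p σ u) ∧
    xi d p tau (insert oo (EE (σ.erase v))) oo = xv d p σ v / om d p σ v := by
  have hG : σ.erase v ∈ Δ := hdown σ hσ _ (Finset.erase_subset v σ)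
  have hcard : (insert oo (EE (σ.erase v))).card = d := by
    rw [cone_card, Finset.card_erase_of_mem hv, hd]
    have : 0 < σ.card := Finset.card_pos.mpr ⟨v, hv⟩
    omega
  set r := xv d p σ v / om d p σ v with hr
  have hωv := om_ne_zero h hα hσ hd hdown hv
  have e1 : xv d p σ v - r * om d p σ v = 0 := by rw [hr]; field_simp; ring
  have key : (fun w : V ⊕ Bool => match w with
      | .inl u => xv d p σ u - r * om d p σ u
      | .inr true => 0
      | .inr false => r) = coord d p (insert oo (EE (σ.erase v))) (fun l => p l tau) := by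
    apply coord_uniq h (cone_valid hα hG) hcard
    · intro w hw
      rw [Finset.mem_insert] at hw
      push Not at hw
      rcases w with u | b
      · simp only
        by_cases huv : u = v
        · rw [huv]; exact e1
        · have hu : u ∉ σ := by
            intro hu
            apply hw.2
            rw [mem_EE]
            exact Finset.mem_erase.mpr ⟨huv, hu⟩
          rw [xv_notMem h hα hσ hd hu, om_notMem h hα hσ hd hu, mul_zero, sub_zero]
      · cases b
        · exact absurd rfl hw.1
        · rfl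
    · intro l hl
      rw [Finset.sum_insert inr_notMem_EE, sum_EE]
      simp only
      have h3 : ∑ u ∈ σ, (xv d p σ u - r * om d p σ u) * p l (Sum.inl u) =
          p l tau - r * p l oo := by
        simp only [sub_mul, mul_assoc]
        rw [Finset.sum_sub_distrib, ← Finset.mul_sum, xv_sum h hα hσ hd hl, om_sum h hα hσ hd hl]
      rw [← Finset.add_sum_erase σ _ hv, e1, zero_mul, zero_add] at h3
      rw [h3]
      ring
  constructor
  · intro u
    exact (congrFun key (Sum.inl u)).symm
  · exact (congrFun key oo).symm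

theorem varpi_cone {v : V} (hv : v ∈ σ) :
    varpi d p D tau (insert oo (EE (σ.erase v))) = (om d p σ v)⁻¹ * varpi d p D tau (EE σ) := by
  obtain ⟨h1, h2⟩ := xi_cone h hα hσ hd hdown hv
  have hT := TT_comm h (τ := tau)
  have hξ : ∀ u, Lin (TT D tau) (xv d p σ u) := fun u =>
    xi_lin h (valid_EE hα hσ) ((card_EE σ).trans hd) EE_tau _
  have hω := om_cst h hα hσ hd
  have hr : Lin (TT D tau) (xv d p σ v / om d p σ v) := by
    rw [div_eq_mul_inv, mul_comm]
    exact Lin.const_mul (hω v).inv (hξ v)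
  unfold varpi
  rw [Finset.prod_insert inr_notMem_EE, prod_EE, h2]
  simp only [h1]
  have hcard : (σ.erase v).card + 0 + 1 ≤ (List.range d).length := by
    rw [Finset.card_erase_of_mem hv, hd, List.length_range]
    have : 0 < σ.card := Finset.card_pos.mpr ⟨v, hv⟩
    omega
  have h3 := CC_alt hT (List.range d) (σ.erase v) (xv d p σ) (om d p σ) hξ hω _ hr 0 1 DegLT.one
    hcard
  rw [mul_one, mul_one] at h3
  rw [h3, prod_EE]
  have h4 : (xv d p σ v / om d p σ v) * ∏ i ∈ σ.erase v, xv d p σ i =
      (om d p σ v)⁻¹ * ∏ i ∈ σ, xi d p tau (EE σ) (Sum.inl i) := by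
    rw [← Finset.mul_prod_erase σ _ hv, div_eq_mul_inv]
    unfold xv
    ring
  rw [h4, CC_const_mul _ (hω v).inv]

theorem kap_cone {n : ℕ} (hn : n < d) {f : MvPolynomial V F} (hf : f.IsHomogeneous n) :
    kap d p D (EE σ) f = ∑ v ∈ σ, kap d p D (insert oo (EE (σ.erase v))) f := by
  set M := lineP (xv d p σ) (om d p σ) f with hM
  have hdeg : M.degree < σ.card := by
    rw [hd]
    exact lt_of_le_of_lt (Polynomial.degree_le_of_natDegree_le (lineP_degree _ _ hf))
      (by exact_mod_cast hn)
  have hLag := lagrange_zero σ _ (ratio_inj h hα hσ hd hdown) M hdeg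
  have hM0 : eval (fun v => xi d p tau (EE σ) (Sum.inl v)) f = M.eval 0 := by
    rw [hM, lineP_eval]
    simp only [zero_mul, sub_zero]
    rfl
  unfold kap
  rw [hM0, hLag, Finset.mul_sum]
  apply Finset.sum_congr rfl
  intro v hv
  obtain ⟨h1, h2⟩ := xi_cone h hα hσ hd hdown hv
  have h3 : eval (fun u => xi d p tau (insert oo (EE (σ.erase v))) (Sum.inl u)) f =
      M.eval (xv d p σ v / om d p σ v) := by
    rw [hM, lineP_eval]
    simp only [h1]
  have hBc : ∏ u ∈ σ.erase v, xi d p tau (insert oo (EE (σ.erase v))) (Sum.inl u) =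
      ∏ u ∈ σ.erase v, (xv d p σ u - (xv d p σ v / om d p σ v) * om d p σ u) :=
    Finset.prod_congr rfl (fun u _ => h1 u)
  rw [h3, varpi_cone h hα hσ hd hdown hv, Finset.prod_insert inr_notMem_EE, prod_EE, prod_EE,
    h2, hBc, ← Finset.mul_prod_erase σ _ hv]
  have hωv := om_ne_zero h hα hσ hd hdown hv
  have hξv := xv_ne_zero h hα hσ hd hv
  have h4 : (∏ u ∈ σ.erase v, xi d p tau (EE σ) (Sum.inl u))⁻¹ *
      ∏ j ∈ σ.erase v, ((xv d p σ v / om d p σ v - xv d p σ j / om d p σ j)⁻¹ *
        (0 - xv d p σ j / om d p σ j)) =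
      (∏ u ∈ σ.erase v, (xv d p σ u - xv d p σ v / om d p σ v * om d p σ u))⁻¹ := by
    rw [← Finset.prod_inv_distrib, ← Finset.prod_mul_distrib, ← Finset.prod_inv_distrib]
    apply Finset.prod_congr rfl
    intro u hu
    have huσ := Finset.mem_of_mem_erase hu
    have hωu := om_ne_zero h hα hσ hd hdown huσ
    have hξu := xv_ne_zero h hα hσ hd huσ
    have hne : xv d p σ v / om d p σ v - xv d p σ u / om d p σ u ≠ 0 := by
      rw [sub_ne_zero]
      intro heq
      exact (Finset.ne_of_mem_erase hu).symm (ratio_inj h hα hσ hd hdown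
        (Finset.mem_coe.mpr hv) (Finset.mem_coe.mpr huσ) heq)
    have h5 : xv d p σ u - xv d p σ v / om d p σ v * om d p σ u =
        - (om d p σ u * (xv d p σ v / om d p σ v - xv d p σ u / om d p σ u)) := by
      field_simp
      ring
    rw [h5]
    change (xv d p σ u)⁻¹ * _ = _
    rw [zero_sub, inv_neg, mul_inv, mul_neg, mul_neg]
    congr 1
    rw [div_eq_mul_inv (xv d p σ u)]
    field_simp
  rw [mul_inv, mul_inv]
  change _ * ((xv d p σ v)⁻¹ * _) * _ = _
  have h6 : (om d p σ v)⁻¹ * (xv d p σ v / om d p σ v)⁻¹ = (xv d p σ v)⁻¹ := by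
    field_simp
  calc varpi d p D tau (EE σ) * ((xv d p σ v)⁻¹ *
        (∏ x ∈ σ.erase v, xi d p tau (EE σ) (Sum.inl x))⁻¹) *
        (Polynomial.eval (xv d p σ v / om d p σ v) M *
        ∏ j ∈ σ.erase v, ((xv d p σ v / om d p σ v - xv d p σ j / om d p σ j)⁻¹ *
        (0 - xv d p σ j / om d p σ j)))
      = varpi d p D tau (EE σ) * (xv d p σ v)⁻¹ *
        ((∏ x ∈ σ.erase v, xi d p tau (EE σ) (Sum.inl x))⁻¹ *
        ∏ j ∈ σ.erase v, ((xv d p σ v / om d p σ v - xv d p σ j / om d p σ j)⁻¹ *
        (0 - xv d p σ j / om d p σ j))) * Polynomial.eval (xv d p σ v / om d p σ v) M := by ring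
    _ = _ := by rw [h4, ← h6]; ring

end facts

theorem piF_low (h : Cols d (relW α) p D) (hα : IsCS Δ α) (hΔ : IsHomSphere Δ d) {n : ℕ}
    (hn : n < d) {f : MvPolynomial V F} (hf : f.IsHomogeneous n) : piF Δ d p D f = 0 := by
  rw [piF_apply]
  have h1 : ∀ σ ∈ Δ.filter (fun σ => σ.card = d), kap d p D (EE σ) f =
      ∑ v ∈ σ, kap d p D (insert oo (EE (σ.erase v))) f := by
    intro σ hσ
    rw [Finset.mem_filter] at hσ
    exact kap_cone h hα hσ.1 hσ.2 hΔ.down hn hf
  rw [Finset.sum_congr rfl h1]
  have h2 : ∑ σ ∈ Δ.filter (fun σ => σ.card = d),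
      ∑ v ∈ σ, kap d p D (insert oo (EE (σ.erase v))) f =
      ∑ G ∈ Δ.filter (fun G => G.card + 1 = d),
        ∑ v ∈ univ.filter (fun v => v ∉ G ∧ insert v G ∈ Δ),
          kap d p D (insert oo (EE G)) f := by
    rw [Finset.sum_sigma', Finset.sum_sigma']
    apply Finset.sum_bij' (fun x _ => (⟨x.1.erase x.2, x.2⟩ : (_ : Finset V) × V))
      (fun x _ => (⟨insert x.2 x.1, x.2⟩ : (_ : Finset V) × V))
    · rintro ⟨σ, v⟩ hx
      simp only [Finset.mem_sigma, Finset.mem_filter] at hx
      simp only [Finset.mem_sigma, Finset.mem_filter, Finset.mem_univ, true_and]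
      refine ⟨⟨hΔ.down _ hx.1.1 _ (Finset.erase_subset _ _), ?_⟩, Finset.notMem_erase _ _, ?_⟩
      · rw [Finset.card_erase_of_mem hx.2, hx.1.2]
        have : 0 < σ.card := Finset.card_pos.mpr ⟨v, hx.2⟩
        omega
      · rw [Finset.insert_erase hx.2]; exact hx.1.1
    · rintro ⟨G, v⟩ hx
      simp only [Finset.mem_sigma, Finset.mem_filter, Finset.mem_univ, true_and] at hx
      simp only [Finset.mem_sigma, Finset.mem_filter]
      exact ⟨⟨hx.2.2, by rw [Finset.card_insert_of_notMem hx.2.1]; exact hx.1.2⟩,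
        Finset.mem_insert_self _ _⟩
    · rintro ⟨σ, v⟩ hx
      simp only [Finset.mem_sigma, Finset.mem_filter] at hx
      simp only [Finset.insert_erase hx.2]
    · rintro ⟨G, v⟩ hx
      simp only [Finset.mem_sigma, Finset.mem_filter, Finset.mem_univ, true_and] at hx
      simp only [Finset.erase_insert hx.2.1]
    · rintro ⟨σ, v⟩ _
      rfl
  rw [h2]
  apply Finset.sum_eq_zero
  intro G hG
  rw [Finset.mem_filter] at hG
  rw [Finset.sum_const, nsmul_eq_mul, ridge_even hΔ G hG.1 hG.2, zero_mul]

end CSLef
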