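import Mathlib
import Pool.Agent.Work.MP_38c61c_al.Ideals

/-!
Homogeneous components and membership in the ideals.
-/

namespace CSLef

open MvPolynomial Finset

variable {V : Type} [Fintype V] [DecidableEq V] {F : Type*} [CommRing F]
variable {Δ : Finset (Finset V)} {a : ℕ → V → F}

theorem homComp_X_mul (n : ℕ) (v : V) (g : MvPolynomial V F) :
    homogeneousComponent (n + 1) (X v * g) = X v * homogeneousComponent n g := by
  classical
  ext m
  rw [coeff_homogeneousComponent, coeff_X_mul', coeff_X_mul', coeff_homogeneousComponent]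
  by_cases hv : v ∈ m.support
  · rw [if_pos hv, if_pos hv]
    have h1 : (m - Finsupp.single v 1) + Finsupp.single v 1 = m := by
      rw [Finsupp.mem_support_iff] at hv
      ext w
      by_cases hw : w = v
      · subst hw
        simp only [Finsupp.coe_add, Finsupp.coe_tsub, Pi.add_apply, Pi.sub_apply,
          Finsupp.single_eq_same]
        omega
      · simp [Finsupp.single_eq_of_ne hw]
    have h2 := congrArg Finsupp.degree h1
    rw [map_add, Finsupp.degree_single] at h2
    have h3 : (m.degree = n + 1) ↔ ((m - Finsupp.single v 1).degree = n) := by omega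
    simp only [h3]
  · rw [if_neg hv, if_neg hv, ite_self]

theorem homComp_zero_X_mul (v : V) (g : MvPolynomial V F) :
    homogeneousComponent 0 (X v * g) = 0 := by
  classical
  ext m
  rw [coeff_homogeneousComponent, coeff_X_mul', coeff_zero]
  split_ifs with h1 h2
  · rw [Finsupp.degree_eq_zero_iff] at h1
    subst h1
    simp at h2
  · rfl
  · rfl

theorem homComp_lin_mul (n : ℕ) (b : V → F) (g : MvPolynomial V F) :
    homogeneousComponent (n + 1) (lin b * g) = lin b * homogeneousComponent n g := by
  rw [lin, Finset.sum_mul, map_sum, Finset.sum_mul]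
  apply Finset.sum_congr rfl
  intro v _
  rw [mul_assoc, homogeneousComponent_C_mul, homComp_X_mul, mul_assoc]

theorem homComp_zero_lin_mul (b : V → F) (g : MvPolynomial V F) :
    homogeneousComponent 0 (lin b * g) = 0 := by
  rw [lin, Finset.sum_mul, map_sum]
  apply Finset.sum_eq_zero
  intro v _
  rw [mul_assoc, homogeneousComponent_C_mul, homComp_zero_X_mul, mul_zero]

theorem homComp_sr (hdown : ∀ F ∈ Δ, ∀ G, G ⊆ F → G ∈ Δ) (n : ℕ) {f : MvPolynomial V F}
    (hf : f ∈ srIdeal F Δ) : homogeneousComponent n f ∈ srIdeal F Δ := by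
  rw [mem_sr_iff hdown] at hf ⊢
  intro m hm
  apply hf
  intro h0
  apply hm
  rw [coeff_homogeneousComponent, h0, ite_self]

theorem homComp_self {n : ℕ} {f : MvPolynomial V F} (hf : f.IsHomogeneous n) :
    homogeneousComponent n f = f := by
  rw [homogeneousComponent_of_mem ((mem_homogeneousSubmodule n f).mpr hf), if_pos rfl]

/-- homogeneous expression of a homogeneous element of the ideal -/
theorem mem_J_hom (hdown : ∀ F ∈ Δ, ∀ G, G ⊆ F → G ∈ Δ) {j n : ℕ} {f : MvPolynomial V F}
    (hf : f ∈ Jid Δ a j) (hh : f.IsHomogeneous (n + 1)) :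
    ∃ g : ℕ → MvPolynomial V F, (∀ l, (g l).IsHomogeneous n) ∧
      f - ∑ l ∈ range j, lin (a l) * g l ∈ srIdeal F Δ := by
  obtain ⟨g, hg⟩ := (mem_J_iff j f).mp hf
  refine ⟨fun l => homogeneousComponent n (g l), fun l => homogeneousComponent_isHomogeneous _ _, ?_⟩
  have h1 := homComp_sr hdown (n + 1) hg
  rw [map_sub, homComp_self hh, map_sum] at h1
  convert h1 using 2
  apply Finset.sum_congr rfl
  intro l _
  rw [homComp_lin_mul]

theorem homComp_mem_J (hdown : ∀ F ∈ Δ, ∀ G, G ⊆ F → G ∈ Δ) {j : ℕ} (n : ℕ)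
    {f : MvPolynomial V F} (hf : f ∈ Jid Δ a j) : homogeneousComponent n f ∈ Jid Δ a j := by
  obtain ⟨g, hg⟩ := (mem_J_iff j f).mp hf
  have h1 := homComp_sr hdown n hg
  rw [map_sub, map_sum] at h1
  rcases n with _ | n
  · rw [Finset.sum_eq_zero (fun l _ => homComp_zero_lin_mul _ _), sub_zero] at h1
    exact sr_le_J j h1
  · rw [mem_J_iff]
    refine ⟨fun l => homogeneousComponent n (g l), ?_⟩
    convert h1 using 2
    apply Finset.sum_congr rfl
    intro l _
    rw [homComp_lin_mul]

theorem mem_J_of_homComp {j : ℕ} {f : MvPolynomial V F}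
    (hf : ∀ n, homogeneousComponent n f ∈ Jid Δ a j) : f ∈ Jid Δ a j := by
  rw [← sum_homogeneousComponent f]
  exact Ideal.sum_mem _ (fun n _ => hf n)

end CSLef
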