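import Mathlib
import Pool.Agent.Work.MP_38c61c_al.Cone
import Pool.Agent.Work.MP_38c61c_al.HomIdeal

/-!
The main step in characteristic 2.
-/

namespace CSLef

open MvPolynomial Finset

variable {V : Type} [Fintype V] [DecidableEq V]

/-- flip of the face `G` along the subset `T` -/
def flip (α : Equiv.Perm V) (G T : Finset V) : Finset V := (G \ T) ∪ T.image α

/-- the data in characteristic 2 -/
structure Setup {F : Type*} [Field F] (Δ : Finset (Finset V)) (d : ℕ) (α : Equiv.Perm V)
    (VP : Finset V) (p : ℕ → V ⊕ Bool → F) (D : ℕ → V ⊕ Bool → Derivation ℤ F F)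
    (μ : ℕ → F) (c : V → F) (Dm : ℕ → Derivation ℤ F F) (Dc : V → Derivation ℤ F F) :
    Prop where
  cols : Cols d (relW α) p D
  cs : IsCS Δ α
  hs : IsHomSphere Δ d
  p_inv : ∀ l v, p l (Sum.inl (α v)) = p l (Sum.inl v)
  vp : ∀ v, v ∈ VP ↔ α v ∉ VP
  Dm_p : ∀ l l' w, Dm l (p l' w) = 0
  Dc_p : ∀ v l' w, Dc v (p l' w) = 0
  Dm_comm : ∀ l l' x, D l' tau (Dm l x) = Dm l (D l' tau x)
  Dc_comm : ∀ v l' x, D l' tau (Dc v x) = Dc v (D l' tau x)
  Dm_m : ∀ l < d, ∀ l', Dm l (μ l') = if l = l' then 1 else 0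
  Dm_c : ∀ l v, Dm l (c v) = 0
  Dc_m : ∀ v l, Dc v (μ l) = 0
  Dc_c : ∀ v ∈ VP, ∀ v', Dc v (c v') = if v = v' then 1 else 0

section setup

variable {F : Type*} [Field F] [CharP F 2] {Δ : Finset (Finset V)} {d : ℕ} {α : Equiv.Perm V}
  {VP : Finset V} {p : ℕ → V ⊕ Bool → F} {D : ℕ → V ⊕ Bool → Derivation ℤ F F}
  {μ : ℕ → F} {c : V → F} {Dm : ℕ → Derivation ℤ F F} {Dc : V → Derivation ℤ F F}

/-- coefficient rows of the linear forms -/
def rows (p : ℕ → V ⊕ Bool → F) (l : ℕ) (v : V) : F := p l (Sum.inl v)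

/-- polynomials with coefficients killed by all derivations -/
def Con (g : MvPolynomial V F) : Prop := ∀ δ : Derivation ℤ F F, dmap δ g = 0

omit [CharP F 2] in
theorem Con.mul {f g : MvPolynomial V F} (hf : Con f) (hg : Con g) : Con (f * g) := by
  intro δ
  rw [dmap_mul, hf δ, hg δ, zero_mul, mul_zero, add_zero]

omit [CharP F 2] in
theorem Con.add {f g : MvPolynomial V F} (hf : Con f) (hg : Con g) : Con (f + g) := by
  intro δ
  rw [dmap_add, hf δ, hg δ, add_zero]

omit [CharP F 2] in
theorem Con.X (v : V) : Con (X v : MvPolynomial V F) := fun _ => dmap_X _ _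

theorem Con.sq (f : MvPolynomial V F) : Con (f ^ 2) := fun _ => dmap_sq _ _

omit [CharP F 2] in
theorem Con.yy (v : V) : Con (yy F α v) := (Con.X v).add (Con.X (α v))

omit [CharP F 2] in
theorem Con.one : Con (1 : MvPolynomial V F) := fun _ => dmap_one _

omit [CharP F 2] in
theorem Con.listprod (L : List V) : Con ((L.map (CSLef.yy F α)).prod) := by
  induction L with
  | nil => exact Con.one
  | cons v L ih => rw [List.map_cons, List.prod_cons]; exact (Con.yy v).mul ih

variable (S : Setup Δ d α VP p D μ c Dm Dc)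

include S

omit [CharP F 2] in
theorem ind_rows : Ind Δ (rows p) := by
  intro G hG
  obtain ⟨q, hq1, hq2⟩ := indep S.cols (valid_EE S.cs hG) rfl
    ((card_EE G).trans_le (S.hs.card_le G hG))
  rw [card_EE] at hq1 hq2
  refine ⟨fun v l => q (Sum.inl v) l, ?_, ?_⟩
  · intro u hu v hv
    have := hq1 (Sum.inl u) (mem_EE.mpr hu) (Sum.inl v) (mem_EE.mpr hv)
    simp only [Sum.inl.injEq] at this
    exact this
  · intro l hl l' hl'
    rw [← hq2 l hl l' hl', sum_EE]
    rfl

theorem piF_J (hd : 1 ≤ d) {f : MvPolynomial V F} (hf : f ∈ Jid Δ (rows p) d)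
    (hh : f.IsHomogeneous d) : piF Δ d p D f = 0 := by
  obtain ⟨n, rfl⟩ : ∃ n, d = n + 1 := ⟨d - 1, by omega⟩
  obtain ⟨g, hg1, hg2⟩ := mem_J_hom S.hs.down hf hh
  have h1 := piF_sr S.cols S.cs S.hs.down hg2
  rw [map_sub, map_sum, Finset.sum_eq_zero, sub_zero] at h1
  · exact h1
  · intro l hl
    have h2 := piF_lin_mul S.cols S.cs (Δ := Δ) (Finset.mem_range.mp hl) (g l)
    change piF Δ (n + 1) p D (lin (rows p l) * g l) = _ at h2
    rw [h2, piF_low S.cols S.cs S.hs (Nat.lt_succ_self n) (hg1 l), mul_zero]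

theorem nondeg_pi (hd : 1 ≤ d) {i k : ℕ} (hi : i + k = d) {f : MvPolynomial V F}
    (hf : f.IsHomogeneous i)
    (h : ∀ G ∈ Δ, G.card = k → piF Δ d p D (xm F G * f) = 0) : f ∈ Jid Δ (rows p) d := by
  obtain ⟨σ, hσ, _, hσd⟩ := exists_facet S.hs ∅ S.hs.empty_mem
  exact nondeg S.hs (ind_rows S) (piF Δ d p D) (fun f h1 h2 => piF_J S hd h1 h2) σ hσd
    (piF_facet_ne S.cols S.cs hσ hσd) hi hf h

theorem D_pi (l : ℕ) (u : V) {f : MvPolynomial V F} (hf : Con f) :
    D l (Sum.inl u) (piF Δ d p D f) = D l tau (piF Δ d p D (yy F α u * f)) :=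
  D_piF S.cols S.cs l u f (hf _) (hf _)

/-- iterating the first identity -/
theorem CC_pi_zero (L : List ℕ) : ∀ (vs : List V), L.length = vs.length →
    ∀ g : MvPolynomial V F, Con g → piF Δ d p D g = 0 →
      CC (TT D tau) L (piF Δ d p D ((vs.map (yy F α)).prod * g)) = 0 := by
  induction L with
  | nil =>
    intro vs hvs g _ h0
    have : vs = [] := List.eq_nil_of_length_eq_zero hvs.symm
    subst this
    rw [List.map_nil, List.prod_nil, one_mul, CC_nil]
    exact h0
  | cons l L ih =>
    intro vs hvs g hg h0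
    rcases vs with _ | ⟨v, vs⟩
    · simp at hvs
    · rw [List.map_cons, List.prod_cons, CC_cons]
      have h1 := ih vs (by simpa using hvs) g hg h0
      have h2 := congrArg (D l (Sum.inl v)) h1
      rw [map_zero] at h2
      have h3 := CC_comm (T := TT D tau) (fun x => D l (Sum.inl v) x) L
        (fun l' _ x => S.cols.comm l' tau l (Sum.inl v) x)
        (piF Δ d p D ((vs.map (yy F α)).prod * g))
      rw [h2, D_pi S l v ((Con.listprod vs).mul hg)] at h3
      have h4 := CC_comm (T := TT D tau) (fun x => D l tau x) L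
        (fun l' _ x => S.cols.comm l' tau l tau x)
        (piF Δ d p D (yy F α v * ((vs.map (yy F α)).prod * g)))
      rw [h4] at h3
      rw [mul_assoc]
      exact h3

/-- the basic consequence: from vanishing of `π (g)` to vanishing of `π (Z)` -/
theorem PP (vs : List V) (hvs : vs.length = d) {g Z : MvPolynomial V F} (hg : Con g)
    (h0 : piF Δ d p D g = 0)
    (hZ : (vs.map (yy F α)).prod * g - Z ^ 2 ∈ srIdeal F Δ) : piF Δ d p D Z = 0 := by
  have h1 := CC_pi_zero S (List.range d) vs (by rw [List.length_range, hvs]) g hg h0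
  have h2 := piF_sr S.cols S.cs S.hs.down hZ
  rw [map_sub, sub_eq_zero] at h2
  rw [h2, CC_piF_sq S.cols S.cs] at h1
  exact pow_eq_zero_iff (two_ne_zero) |>.mp h1

omit [CharP F 2] in
theorem pair_mem_sr (v : V) : (X v * X (α v) : MvPolynomial V F) ∈ srIdeal F Δ := by
  have h1 : ({v, α v} : Finset V) ∉ Δ := by
    intro h
    exact S.cs.no_pair _ h v (by simp) (by simp)
  have h2 := xm_mem_sr (F := F) h1
  rw [xm, Finset.prod_pair (S.cs.fpf v).symm] at h2
  exact h2

omit S [CharP F 2] in
theorem mul_sub_mem {I : Ideal (MvPolynomial V F)} {a b a' b' : MvPolynomial V F}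
    (h : a - b ∈ I) (h' : a' - b' ∈ I) : a * a' - b * b' ∈ I := by
  have : a * a' - b * b' = (a - b) * a' + b * (a' - b') := by ring
  rw [this]
  exact I.add_mem (I.mul_mem_right _ h) (I.mul_mem_left _ h')

omit [CharP F 2] in
theorem Xyy (v : V) : (yy F α v * X v : MvPolynomial V F) - X v ^ 2 ∈ srIdeal F Δ := by
  have : (yy F α v * X v : MvPolynomial V F) - X v ^ 2 = X v * X (α v) := by
    unfold yy; ring
  rw [this]
  exact pair_mem_sr S v

omit S [CharP F 2] in
theorem list_sq (L : List V) (f : V → MvPolynomial V F) :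
    ((L ++ L).map f).prod = ((L.map f).prod) ^ 2 := by
  rw [List.map_append, List.prod_append, pow_two]

omit S [CharP F 2] in
theorem list_hom (L : List V) : ((L.map (yy F α)).prod : MvPolynomial V F).IsHomogeneous L.length := by
  induction L with
  | nil => exact isHomogeneous_one _ _
  | cons v L ih =>
    rw [List.map_cons, List.prod_cons, List.length_cons, add_comm]
    exact ((isHomogeneous_X F v).add (isHomogeneous_X F (α v))).mul ih

/-- relation of the first kind -/
theorem rel_a {r e : ℕ} (hr : e + e + r = d) (hr1 : 1 ≤ r) {X' : MvPolynomial V F}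
    (hX1 : r = 1 → ∀ v, piF Δ d p D (X v * X' ^ 2) = 0)
    (hX2 : 2 ≤ r → ∀ u, ∀ g : MvPolynomial V F, Con g → g.IsHomogeneous (r - 1) →
      piF Δ d p D (yy F α u * (g * X' ^ 2)) = 0)
    (v : V) (gs : List V) (hgs : gs.length + 1 + e = d) :
    piF Δ d p D (X v * (gs.map (yy F α)).prod * X') = 0 := by
  set P := (gs.map (yy F α)).prod with hP
  have hfull : ((v :: (gs ++ gs)).map (yy F α)).prod = yy F α v * P ^ 2 := by
    rw [List.map_cons, List.prod_cons, list_sq]
  have hlen : (v :: (gs ++ gs)).length = d + (r - 1) := by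
    rw [List.length_cons, List.length_append]
    omega
  have hZ : (yy F α v * P ^ 2) * (X v * X' ^ 2) - (X v * P * X') ^ 2 ∈ srIdeal F Δ := by
    have : (yy F α v * P ^ 2) * (X v * X' ^ 2) - (X v * P * X') ^ 2 =
      (P ^ 2 * X' ^ 2) * (yy F α v * X v - X v ^ 2) := by ring
    rw [this]
    exact Ideal.mul_mem_left _ _ (Xyy S v)
  by_cases hr2 : 2 ≤ r
  · have hsplit := List.take_append_drop d (v :: (gs ++ gs))
    have hdl : ((v :: (gs ++ gs)).drop d).length = r - 1 := by
      rw [List.length_drop, hlen]; omega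
    have htl : ((v :: (gs ++ gs)).take d).length = d := by
      rw [List.length_take, hlen]; omega
    rcases hdrop : (v :: (gs ++ gs)).drop d with _ | ⟨u, rest⟩
    · rw [hdrop] at hdl
      simp at hdl
      omega
    rw [hdrop] at hsplit hdl
    rw [List.length_cons] at hdl
    have h1 : piF Δ d p D (yy F α u * ((X v * (rest.map (yy F α)).prod) * X' ^ 2)) = 0 := by
      apply hX2 hr2
      · exact (Con.X v).mul (Con.listprod rest)
      · have := (isHomogeneous_X F v).mul (list_hom (F := F) (α := α) rest)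
        convert this using 1
        omega
    apply PP S _ htl ((Con.yy u).mul (((Con.X v).mul (Con.listprod rest)).mul (Con.sq X'))) h1
    have h2 : (List.map (yy F α) (List.take d (v :: (gs ++ gs)))).prod *
        (yy F α u * (X v * (List.map (yy F α) rest).prod * X' ^ 2)) =
        (yy F α v * P ^ 2) * (X v * X' ^ 2) := by
      rw [← hfull, ← hsplit, List.map_append, List.prod_append, List.map_cons, List.prod_cons,
        hsplit]
      ring
    rw [h2]
    exact hZ
  · have hr' : r = 1 := by omega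
    apply PP S (v :: (gs ++ gs)) (by rw [hlen]; omega) ((Con.X v).mul (Con.sq X')) (hX1 hr' v)
    rw [hfull]
    exact hZ

/-- relation of the second kind, for `r ≥ 3` -/
theorem rel_b {r e : ℕ} (hr : e + e + r = d) (hr1 : 3 ≤ r) {X' : MvPolynomial V F}
    (hX2 : ∀ u, ∀ g : MvPolynomial V F, Con g → g.IsHomogeneous (r - 1) →
      piF Δ d p D (yy F α u * (g * X' ^ 2)) = 0)
    (v u' : V) (gs : List V) (hgs : gs.length + 2 + e = d) :
    piF Δ d p D (X v * X u' * (gs.map (yy F α)).prod * X') = 0 := by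
  set P := (gs.map (yy F α)).prod with hP
  have hfull : ((v :: u' :: (gs ++ gs)).map (yy F α)).prod = yy F α v * (yy F α u' * P ^ 2) := by
    rw [List.map_cons, List.prod_cons, List.map_cons, List.prod_cons, list_sq]
  have hlen : (v :: u' :: (gs ++ gs)).length = d + (r - 2) := by
    rw [List.length_cons, List.length_cons, List.length_append]
    omega
  have hZ : (yy F α v * (yy F α u' * P ^ 2)) * (X v * X u' * X' ^ 2) -
      (X v * X u' * P * X') ^ 2 ∈ srIdeal F Δ := by
    have : (yy F α v * (yy F α u' * P ^ 2)) * (X v * X u' * X' ^ 2) - (X v * X u' * P * X') ^ 2 =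
      (P ^ 2 * X' ^ 2) * ((yy F α v * X v) * (yy F α u' * X u') - X v ^ 2 * X u' ^ 2) := by ring
    rw [this]
    exact Ideal.mul_mem_left _ _ (mul_sub_mem (Xyy S v) (Xyy S u'))
  have hsplit := List.take_append_drop d (v :: u' :: (gs ++ gs))
  have hdl : ((v :: u' :: (gs ++ gs)).drop d).length = r - 2 := by
    rw [List.length_drop, hlen]; omega
  have htl : ((v :: u' :: (gs ++ gs)).take d).length = d := by
    rw [List.length_take, hlen]; omega
  rcases hdrop : (v :: u' :: (gs ++ gs)).drop d with _ | ⟨u, rest⟩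
  · rw [hdrop] at hdl
    simp at hdl
    omega
  rw [hdrop] at hsplit hdl
  rw [List.length_cons] at hdl
  have h1 : piF Δ d p D (yy F α u * ((X v * X u' * (rest.map (yy F α)).prod) * X' ^ 2)) = 0 := by
    apply hX2
    · exact ((Con.X v).mul (Con.X u')).mul (Con.listprod rest)
    · have := ((isHomogeneous_X F v).mul (isHomogeneous_X F u')).mul
        (list_hom (F := F) (α := α) rest)
      convert this using 1
      omega
  apply PP S _ htl ((Con.yy u).mul ((((Con.X v).mul (Con.X u')).mul
    (Con.listprod rest)).mul (Con.sq X'))) h1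
  have h2 : (List.map (yy F α) (List.take d (v :: u' :: (gs ++ gs)))).prod *
      (yy F α u * (X v * X u' * (List.map (yy F α) rest).prod * X' ^ 2)) =
      (yy F α v * (yy F α u' * P ^ 2)) * (X v * X u' * X' ^ 2) := by
    rw [← hfull, ← hsplit, List.map_append, List.prod_append, List.map_cons, List.prod_cons,
      hsplit]
    ring
  rw [h2]
  exact hZ

end setup

end CSLef
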