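import Mathlib
import Pool.Agent.Work.MP_38c61c_al.Char2

/-!
Relations in characteristic 2, second part.
-/

namespace CSLef

open MvPolynomial Finset

variable {V : Type} [Fintype V] [DecidableEq V]
variable {F : Type*} [Field F] [CharP F 2] {Δ : Finset (Finset V)} {d : ℕ} {α : Equiv.Perm V}
  {VP : Finset V} {p : ℕ → V ⊕ Bool → F} {D : ℕ → V ⊕ Bool → Derivation ℤ F F}
  {μ : ℕ → F} {c : V → F} {Dm : ℕ → Derivation ℤ F F} {Dc : V → Derivation ℤ F F}

section rel3

variable (S : Setup Δ d α VP p D μ c Dm Dc)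

include S

omit [CharP F 2] in
theorem rel_VP {u w : V} (hu : u ∈ VP) (hw : w ∈ VP) :
    relW α (Sum.inl u) (Sum.inl w) ↔ u = w := by
  unfold relW
  constructor
  · rintro (h | h)
    · exact h
    · exfalso
      rw [h] at hw
      exact (S.vp u).mp hu hw
  · exact fun h => Or.inl h

/-- derivative of a sum over row `0` -/
theorem rel3_aux {g0 : MvPolynomial V F} (hg0 : Con g0) (hd : 0 < d)
    (hE : ∑ v' ∈ VP, p 0 (Sum.inl v') * piF Δ d p D (X v' * g0) = 0) {w : V} (hw : w ∈ VP)
    (L : List ℕ) : ∀ (vs : List V), L.length = vs.length → (0 ∉ L) →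
      CC (TT D tau) L (piF Δ d p D ((vs.map (yy F α)).prod * (X w * g0))) +
        ∑ v' ∈ VP, p 0 (Sum.inl v') * CC (TT D tau) (0 :: L)
          (piF Δ d p D ((vs.map (yy F α)).prod * (yy F α w * (X v' * g0)))) = 0 := by
  induction L with
  | nil =>
    intro vs hvs _
    have : vs = [] := List.eq_nil_of_length_eq_zero hvs.symm
    subst this
    simp only [List.map_nil, List.prod_nil, one_mul, CC_nil, CC_cons]
    have h1 := congrArg (D 0 (Sum.inl w)) hE
    rw [map_sum, map_zero] at h1
    simp only [Derivation.leibniz, smul_eq_mul] at h1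
    rw [Finset.sum_add_distrib] at h1
    have h2 : ∀ v' ∈ VP, piF Δ d p D (X v' * g0) * D 0 (Sum.inl w) (p 0 (Sum.inl v')) =
        if v' = w then piF Δ d p D (X v' * g0) else 0 := by
      intro v' hv'
      rw [S.cols.D_p]
      by_cases h3 : v' = w
      · subst h3
        rw [if_pos ⟨rfl, hd, S.cols.refl _⟩, if_pos rfl, mul_one]
      · rw [if_neg h3, if_neg, mul_zero]
        rintro ⟨_, _, h4⟩
        exact h3 ((rel_VP S hw hv').mp h4).symm
    rw [Finset.sum_congr rfl h2, Finset.sum_ite_eq' VP w, if_pos hw, add_comm] at h1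
    rw [← h1]
    congr 1
    apply Finset.sum_congr rfl
    intro v' _
    rw [D_pi S 0 w ((Con.X v').mul hg0)]
    rfl
  | cons l L ih =>
    intro vs hvs h0
    rcases vs with _ | ⟨v, vs⟩
    · simp at hvs
    · have hl0 : l ≠ 0 := fun h => h0 (h ▸ List.mem_cons_self)
      have h0' : 0 ∉ L := fun h => h0 (List.mem_cons_of_mem _ h)
      have h1 := ih vs (by simpa using hvs) h0'
      have h2 := congrArg (D l (Sum.inl v)) h1
      rw [map_zero, map_add, map_sum] at h2
      have key : ∀ (L' : List ℕ) (h : MvPolynomial V F), Con h →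
          D l (Sum.inl v) (CC (TT D tau) L' (piF Δ d p D h)) =
          CC (TT D tau) (l :: L') (piF Δ d p D (yy F α v * h)) := by
        intro L' h hh
        have h3 := CC_comm (T := TT D tau) (fun x => D l (Sum.inl v) x) L'
          (fun l' _ x => S.cols.comm l' tau l (Sum.inl v) x) (piF Δ d p D h)
        rw [D_pi S l v hh] at h3
        have h4 := CC_comm (T := TT D tau) (fun x => D l tau x) L'
          (fun l' _ x => S.cols.comm l' tau l tau x) (piF Δ d p D (yy F α v * h))
        rw [h4] at h3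
        rw [CC_cons]
        exact h3.symm
      rw [key L _ ((Con.listprod vs).mul ((Con.X w).mul hg0))] at h2
      have h5 : ∀ v' ∈ VP, D l (Sum.inl v) (p 0 (Sum.inl v') * CC (TT D tau) (0 :: L)
          (piF Δ d p D ((vs.map (yy F α)).prod * (yy F α w * (X v' * g0))))) =
          p 0 (Sum.inl v') * CC (TT D tau) (0 :: (l :: L))
          (piF Δ d p D (((v :: vs).map (yy F α)).prod * (yy F α w * (X v' * g0)))) := by
        intro v' _
        rw [Derivation.leibniz, S.cols.D_p, if_neg (fun h => hl0 h.1), smul_zero, add_zero,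
          smul_eq_mul, key (0 :: L) _ ((Con.listprod vs).mul ((Con.yy w).mul ((Con.X v').mul hg0))),
          List.map_cons, List.prod_cons, mul_assoc]
        congr 1
        rw [CC_cons, CC_cons, CC_cons, CC_cons]
        exact S.cols.comm l tau 0 tau _
      rw [Finset.sum_congr rfl h5] at h2
      rw [List.map_cons, List.prod_cons, mul_assoc]
      exact h2

theorem rel3 {g0 : MvPolynomial V F} (hg0 : Con g0) {d' : ℕ} (hd : d = d' + 1)
    (hE : ∑ v' ∈ VP, p 0 (Sum.inl v') * piF Δ d p D (X v' * g0) = 0) {u w : V} (hu : u ∈ VP)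
    (hw : w ∈ VP) (vs : List V) (hvs : vs.length = d') :
    CC (TT D tau) (List.range d) (piF Δ d p D ((vs.map (yy F α)).prod *
      ((yy F α u * X w + yy F α w * X u) * g0))) = 0 := by
  have hrange : List.range d = 0 :: (List.range d').map Nat.succ := by
    rw [hd, List.range_succ_eq_map]
  set L := (List.range d').map Nat.succ with hL
  have h0L : 0 ∉ L := by
    rw [hL]; simp
  have hlen : L.length = vs.length := by
    rw [hL, List.length_map, List.length_range, hvs]
  have h1 := rel3_aux S hg0 (by omega) hE hw L vs hlen h0L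
  have h2 := congrArg (D 0 (Sum.inl u)) h1
  rw [map_zero, map_add, map_sum] at h2
  have key : ∀ (L' : List ℕ) (h : MvPolynomial V F), Con h →
      D 0 (Sum.inl u) (CC (TT D tau) L' (piF Δ d p D h)) =
      CC (TT D tau) (0 :: L') (piF Δ d p D (yy F α u * h)) := by
    intro L' h hh
    have h3 := CC_comm (T := TT D tau) (fun x => D 0 (Sum.inl u) x) L'
      (fun l' _ x => S.cols.comm l' tau 0 (Sum.inl u) x) (piF Δ d p D h)
    rw [D_pi S 0 u hh] at h3
    have h4 := CC_comm (T := TT D tau) (fun x => D 0 tau x) L'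
      (fun l' _ x => S.cols.comm l' tau 0 tau x) (piF Δ d p D (yy F α u * h))
    rw [h4] at h3
    rw [CC_cons]
    exact h3.symm
  rw [key L _ ((Con.listprod vs).mul ((Con.X w).mul hg0))] at h2
  have h5 : ∀ v' ∈ VP, D 0 (Sum.inl u) (p 0 (Sum.inl v') * CC (TT D tau) (0 :: L)
      (piF Δ d p D ((vs.map (yy F α)).prod * (yy F α w * (X v' * g0))))) =
      if v' = u then CC (TT D tau) (0 :: L)
        (piF Δ d p D ((vs.map (yy F α)).prod * (yy F α w * (X v' * g0)))) else 0 := by
    intro v' hv'
    have hcon : Con ((vs.map (yy F α)).prod * (yy F α w * (X v' * g0))) :=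
      (Con.listprod vs).mul ((Con.yy w).mul ((Con.X v').mul hg0))
    rw [Derivation.leibniz, key (0 :: L) _ hcon]
    have h6 : CC (TT D tau) (0 :: (0 :: L)) (piF Δ d p D (yy F α u *
        ((vs.map (yy F α)).prod * (yy F α w * (X v' * g0))))) = 0 := by
      rw [CC_cons]
      exact CC_T_zero (TT_comm S.cols) (0 :: L) (l := 0) List.mem_cons_self
        (Sq_piF S.cols S.cs _ (fun l => ((Con.yy u).mul hcon) _) 0)
    rw [h6, smul_zero, zero_add, S.cols.D_p, smul_eq_mul]
    by_cases h3 : v' = u
    · subst h3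
      rw [if_pos ⟨rfl, by omega, S.cols.refl _⟩, if_pos rfl, mul_one]
    · rw [if_neg h3, if_neg, mul_zero]
      rintro ⟨_, _, h4⟩
      exact h3 ((rel_VP S hu hv').mp h4).symm
  rw [Finset.sum_congr rfl h5, Finset.sum_ite_eq' VP u, if_pos hu, ← CC_add, ← map_add] at h2
  rw [hrange, ← h2]
  congr 2
  ring

/-- relation of the second kind, for `r = 2` -/
theorem rel_b2 {e : ℕ} (hr : e + e + 2 = d) {X' : MvPolynomial V F}
    (hE : ∀ v, ∑ v' ∈ VP, p 0 (Sum.inl v') * piF Δ d p D (X v' * (X v * X' ^ 2)) = 0)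
    (ha : ∀ v (gs : List V), gs.length + 1 + e = d →
      piF Δ d p D (X v * (gs.map (yy F α)).prod * X') = 0)
    (v u' : V) (gs : List V) (hgs : gs.length + 2 + e = d) :
    piF Δ d p D (X v * X u' * (gs.map (yy F α)).prod * X') = 0 := by
  have htwo : (2 : MvPolynomial V F) = 0 := by
    have h := CharP.cast_eq_zero F 2
    have h2 := congrArg (C : F → MvPolynomial V F) h
    rw [map_natCast, map_zero] at h2
    exact_mod_cast h2
  set P := (gs.map (yy F α)).prod with hP
  -- both signs are equivalent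
  have hsum : ∀ u, piF Δ d p D (X v * X u * P * X') = piF Δ d p D (X v * X (α u) * P * X') := by
    intro u
    have h1 := ha v (u :: gs) (by rw [List.length_cons]; omega)
    rw [List.map_cons, List.prod_cons, ← hP] at h1
    have h2 : X v * (yy F α u * P) * X' = X v * X u * P * X' + X v * X (α u) * P * X' := by
      unfold yy; ring
    rw [h2, map_add] at h1
    exact CharTwo.add_eq_zero.mp h1
  have key : ∀ u ∈ VP, piF Δ d p D (X v * X u * P * X') = 0 := by
    intro u hu
    obtain ⟨d', hd'⟩ : ∃ d', d = d' + 1 := ⟨d - 1, by omega⟩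
    have hlen : (u :: (gs ++ gs)).length = d' := by
      rw [List.length_cons, List.length_append]; omega
    have hfull : ((u :: (gs ++ gs)).map (yy F α)).prod = yy F α u * P ^ 2 := by
      rw [List.map_cons, List.prod_cons, list_sq]
    have hcon : Con (X v * X' ^ 2) := (Con.X v).mul (Con.sq X')
    have fin : ∀ (w : V) (Z : MvPolynomial V F), w ∈ VP →
        (yy F α u * P ^ 2) * ((yy F α u * X w + yy F α w * X u) * (X v * X' ^ 2)) - Z ^ 2 ∈
          srIdeal F Δ → piF Δ d p D Z = 0 := by
      intro w Z hw hZ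
      have h1 := rel3 S hcon hd' (hE v) hu hw _ hlen
      rw [hfull] at h1
      have h2 := piF_sr S.cols S.cs S.hs.down hZ
      rw [map_sub, sub_eq_zero] at h2
      rw [h2, CC_piF_sq S.cols S.cs] at h1
      exact pow_eq_zero_iff (two_ne_zero) |>.mp h1
    by_cases hv : v ∈ VP
    · rw [hsum]
      apply fin v _ hv
      have hmem := mul_sub_mem (Xyy S u) (Xyy S v)
      have h3 : (yy F α u * P ^ 2) * ((yy F α u * X v + yy F α v * X u) * (X v * X' ^ 2)) -
          (X v * X (α u) * P * X') ^ 2 =
          (P ^ 2 * X' ^ 2) * (yy F α u * X u * (yy F α v * X v) - X u ^ 2 * X v ^ 2) +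
          2 * ((P ^ 2 * X' ^ 2) * (X u ^ 2 * X v ^ 2 + X u * X (α u) * X v ^ 2)) := by
        unfold yy; ring
      rw [h3, htwo, zero_mul, add_zero]
      exact Ideal.mul_mem_left _ _ hmem
    · have hw : α v ∈ VP := by
        by_contra h'
        exact hv ((S.vp v).mpr h')
      apply fin (α v) _ hw
      have hmem := mul_sub_mem (Xyy S u) (Xyy S v)
      have hmem2 := pair_mem_sr (F := F) S v
      have h3 : (yy F α u * P ^ 2) * ((yy F α u * X (α v) + yy F α (α v) * X u) *
          (X v * X' ^ 2)) - (X v * X u * P * X') ^ 2 =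
          (P ^ 2 * X' ^ 2) * (yy F α u * X u * (yy F α v * X v) - X u ^ 2 * X v ^ 2) +
          (P ^ 2 * X' ^ 2 * yy F α u ^ 2) * (X v * X (α v)) := by
        unfold yy
        rw [S.cs.invol]
        ring
      rw [h3]
      exact Ideal.add_mem _ (Ideal.mul_mem_left _ _ hmem) (Ideal.mul_mem_left _ _ hmem2)
  by_cases hu' : u' ∈ VP
  · exact key u' hu'
  · have hw : α u' ∈ VP := by
      by_contra h'
      exact hu' ((S.vp u').mpr h')
    rw [hsum]
    exact key _ hw

end rel3

end CSLef
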