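import Mathlib
import Pool.Agent.Work.MP_38c61c_al.Char2b

/-!
Flips of faces and the main theorem in characteristic 2.
-/

namespace CSLef

open MvPolynomial Finset

variable {V : Type} [Fintype V] [DecidableEq V]

/-- every flip of a big face that is a face is trivial -/
def CondRigid (Δ : Finset (Finset V)) (α : Equiv.Perm V) (d : ℕ) : Prop :=
  ∀ G ∈ Δ, d < 2 * G.card → ∀ T, T ⊆ G → flip α G T ∈ Δ → T = ∅ ∨ T = G

/-- the flip sets of a big face avoiding a given vertex are affinely independent modulo 2 -/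
def CondAff (Δ : Finset (Finset V)) (α : Equiv.Perm V) (d : ℕ) : Prop :=
  ∀ G ∈ Δ, d < 2 * G.card → ∀ v ∈ G, ∀ 𝓣 : Finset (Finset V),
    (∀ T ∈ 𝓣, T ⊆ G ∧ v ∉ T ∧ flip α G T ∈ Δ) → Even 𝓣.card →
    (∀ u ∈ G, Even (𝓣.filter (fun T => u ∈ T)).card) → 𝓣 = ∅

section expand

variable {F : Type*} [CommRing F] {Δ : Finset (Finset V)} {α : Equiv.Perm V}

theorem prod_flip (hα : IsCS Δ α) {G : Finset V} (hG : G ∈ Δ) {v : V} (hv : v ∈ G)
    {T : Finset V} (hT : T ⊆ G.erase v) :
    (X v * ((∏ i ∈ T, X (α i)) * ∏ i ∈ (G.erase v) \ T, X i) : MvPolynomial V F) =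
      xm F (flip α G T) := by
  have hdisj : Disjoint (G \ T) (T.image α) := by
    rw [Finset.disjoint_left]
    intro x hx hx'
    rw [Finset.mem_image] at hx'
    obtain ⟨y, hy, rfl⟩ := hx'
    have hyG : y ∈ G := Finset.mem_of_mem_erase (hT hy)
    exact hα.no_pair G hG y hyG (Finset.mem_sdiff.mp hx).1
  have hins : G \ T = insert v ((G.erase v) \ T) := by
    ext x
    rw [Finset.mem_sdiff, Finset.mem_insert, Finset.mem_sdiff, Finset.mem_erase]
    constructor
    · rintro ⟨h1, h2⟩
      by_cases hx : x = v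
      · exact Or.inl hx
      · exact Or.inr ⟨⟨hx, h1⟩, h2⟩
    · rintro (rfl | ⟨⟨_, h1⟩, h2⟩)
      · exact ⟨hv, fun h => Finset.notMem_erase _ _ (hT h)⟩
      · exact ⟨h1, h2⟩
  have hvn : v ∉ (G.erase v) \ T := by
    rw [Finset.mem_sdiff, Finset.mem_erase]
    tauto
  unfold xm flip
  rw [Finset.prod_union hdisj, hins, Finset.prod_insert hvn,
    Finset.prod_image (fun a _ b _ hab => α.injective hab)]
  ring

theorem expand_a (hα : IsCS Δ α) {G : Finset V} (hG : G ∈ Δ) {v : V} (hv : v ∈ G) :
    X v * ((G.erase v).toList.map (yy F α)).prod =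
      ∑ T ∈ (G.erase v).powerset, xm F (flip α G T) := by
  rw [Finset.prod_map_toList]
  have h1 : ∏ i ∈ G.erase v, yy F α i = ∏ i ∈ G.erase v, (X (α i) + X i) :=
    Finset.prod_congr rfl (fun i _ => by unfold yy; ring)
  rw [h1, Finset.prod_add, Finset.mul_sum]
  apply Finset.sum_congr rfl
  intro T hT
  exact prod_flip hα hG hv (Finset.mem_powerset.mp hT)

theorem expand_b (hα : IsCS Δ α) {G : Finset V} (hG : G ∈ Δ) {v u : V} (hv : v ∈ G)
    (hu : u ∈ G.erase v) :
    X v * X (α u) * (((G.erase v).erase u).toList.map (yy F α)).prod =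
      ∑ T ∈ (G.erase v).powerset.filter (fun T => u ∈ T), xm F (flip α G T) := by
  rw [Finset.prod_map_toList]
  have h1 : ∏ i ∈ (G.erase v).erase u, yy F α i = ∏ i ∈ (G.erase v).erase u, (X (α i) + X i) :=
    Finset.prod_congr rfl (fun i _ => by unfold yy; ring)
  rw [h1, Finset.prod_add, Finset.mul_sum]
  symm
  refine Finset.sum_bij' (fun T _ => T.erase u) (fun T _ => insert u T) ?_ ?_ ?_ ?_ ?_
  · intro T hT
    rw [Finset.mem_filter, Finset.mem_powerset] at hT
    rw [Finset.mem_powerset]
    exact Finset.erase_subset_erase u hT.1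
  · intro T hT
    rw [Finset.mem_powerset] at hT
    rw [Finset.mem_filter, Finset.mem_powerset]
    refine ⟨?_, Finset.mem_insert_self _ _⟩
    rw [Finset.insert_subset_iff]
    exact ⟨hu, hT.trans (Finset.erase_subset _ _)⟩
  · intro T hT
    rw [Finset.mem_filter] at hT
    exact Finset.insert_erase hT.2
  · intro T hT
    rw [Finset.mem_powerset] at hT
    exact Finset.erase_insert (fun h => Finset.notMem_erase u _ (hT h))
  · intro T hT
    rw [Finset.mem_filter, Finset.mem_powerset] at hT
    rw [← prod_flip hα hG hv hT.1, ← Finset.mul_prod_erase T _ hT.2]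
    have h2 : (G.erase v) \ T = ((G.erase v).erase u) \ (T.erase u) := by
      ext x
      rw [Finset.mem_sdiff, Finset.mem_sdiff, Finset.mem_erase, Finset.mem_erase (a := x)
        (b := u), Finset.mem_erase (a := x) (b := u) (s := T), Finset.mem_erase]
      constructor
      · rintro ⟨h3, h4⟩
        have hxu : x ≠ u := fun h => h4 (h ▸ hT.2)
        exact ⟨⟨hxu, h3⟩, fun h => h4 h.2⟩
      · rintro ⟨⟨h3, h4⟩, h5⟩
        exact ⟨h4, fun h => h5 ⟨h3, h⟩⟩
    rw [h2]
    ring

end expand

section final

variable {F : Type*} [Field F] [CharP F 2] {Δ : Finset (Finset V)} {d : ℕ} {α : Equiv.Perm V}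
  {VP : Finset V} {p : ℕ → V ⊕ Bool → F} {D : ℕ → V ⊕ Bool → Derivation ℤ F F}
  {μ : ℕ → F} {c : V → F} {Dm : ℕ → Derivation ℤ F F} {Dc : V → Derivation ℤ F F}

/-- combinatorial conclusion from the relations: affine independence -/
theorem aff_zero {G : Finset V} {v : V} (γ : Finset V → F)
    (h0 : ∀ T ⊆ G.erase v, flip α G T ∉ Δ → γ T = 0)
    (hG : G ∈ Δ)
    (haff : ∀ 𝓣 : Finset (Finset V), (∀ T ∈ 𝓣, T ⊆ G ∧ v ∉ T ∧ flip α G T ∈ Δ) → Even 𝓣.card →
      (∀ u ∈ G, Even (𝓣.filter (fun T => u ∈ T)).card) → 𝓣 = ∅)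
    (ha : ∑ T ∈ (G.erase v).powerset, γ T = 0)
    (hb : ∀ u ∈ G.erase v, ∑ T ∈ (G.erase v).powerset.filter (fun T => u ∈ T), γ T = 0) :
    γ ∅ = 0 := by
  classical
  let _ : Algebra (ZMod 2) F := ZMod.algebra F 2
  let B := Module.Basis.ofVectorSpace (ZMod 2) F
  apply B.repr.injective
  rw [map_zero]
  ext i
  rw [Finsupp.zero_apply]
  by_contra hne
  have hz2 : ∀ z : ZMod 2, z ≠ 0 → z = 1 := by decide
  set lam : F → ZMod 2 := fun x => B.repr x i with hlam
  have hlam_sum : ∀ (I : Finset (Finset V)), lam (∑ T ∈ I, γ T) = ∑ T ∈ I, lam (γ T) := by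
    intro I
    simp [hlam, map_sum, Finsupp.finsetSum_apply]
  set 𝓣 := (G.erase v).powerset.filter (fun T => lam (γ T) ≠ 0) with h𝓣
  have hcount : ∀ I : Finset (Finset V), (∑ T ∈ I, lam (γ T)) =
      ((I.filter (fun T => lam (γ T) ≠ 0)).card : ZMod 2) := by
    intro I
    rw [← Finset.sum_filter_ne_zero, Finset.sum_congr rfl (fun T hT => hz2 _
      (Finset.mem_filter.mp hT).2)]
    simp
  have heven : ∀ n : ℕ, (n : ZMod 2) = 0 → Even n := by
    intro n hn
    exact (ZMod.natCast_eq_zero_iff_even).mp hn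
  have hempty : 𝓣 = ∅ := by
    apply haff
    · intro T hT
      rw [h𝓣, Finset.mem_filter, Finset.mem_powerset] at hT
      refine ⟨hT.1.trans (Finset.erase_subset _ _), fun h => Finset.notMem_erase v G (hT.1 h), ?_⟩
      by_contra h
      apply hT.2
      rw [h0 T hT.1 h]
      simp [hlam]
    · apply heven
      rw [h𝓣, ← hcount, ← hlam_sum, ha]
      simp [hlam]
    · intro u hu
      by_cases huv : u = v
      · have : 𝓣.filter (fun T => u ∈ T) = ∅ := by
          apply Finset.filter_eq_empty_iff.mpr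
          intro T hT hmem
          rw [h𝓣, Finset.mem_filter, Finset.mem_powerset] at hT
          exact Finset.notMem_erase v G (hT.1 (huv ▸ hmem))
        rw [this]
        simp
      · apply heven
        have : 𝓣.filter (fun T => u ∈ T) =
            ((G.erase v).powerset.filter (fun T => u ∈ T)).filter (fun T => lam (γ T) ≠ 0) := by
          rw [h𝓣, Finset.filter_comm]
        rw [this, ← hcount, ← hlam_sum, hb u (Finset.mem_erase.mpr ⟨huv, hu⟩)]
        simp [hlam]
  have hmem : ∅ ∈ 𝓣 := by
    rw [h𝓣, Finset.mem_filter]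
    exact ⟨Finset.empty_mem_powerset _, hne⟩
  rw [hempty] at hmem
  exact Finset.notMem_empty _ hmem

theorem flip_empty (G : Finset V) : flip α G ∅ = G := by
  simp [flip]

variable (S : Setup Δ d α VP p D μ c Dm Dc)

include S

/-- conclusion of one step -/
theorem conclude (hd : 1 ≤ d) {r e : ℕ} (hr : e + e + r = d) (hr1 : 1 ≤ r)
    {X' : MvPolynomial V F} (hX' : X'.IsHomogeneous e)
    (ha : ∀ v (gs : List V), gs.length + 1 + e = d →
      piF Δ d p D (X v * (gs.map (yy F α)).prod * X') = 0)
    (hflip : CondRigid Δ α d ∨ (CondAff Δ α d ∧ ∀ v u' (gs : List V), gs.length + 2 + e = d →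
      piF Δ d p D (X v * X u' * (gs.map (yy F α)).prod * X') = 0)) :
    X' ∈ Jid Δ (rows p) d := by
  apply nondeg_pi S hd (k := d - e) (by omega) hX'
  intro G hG hcard
  have hbig : d < 2 * G.card := by omega
  have hne : G.Nonempty := by
    rw [← Finset.card_pos]; omega
  obtain ⟨v, hv⟩ := hne
  have h0 : ∀ T ⊆ G.erase v, flip α G T ∉ Δ → piF Δ d p D (xm F (flip α G T) * X') = 0 := by
    intro T _ hT
    exact piF_sr S.cols S.cs S.hs.down (Ideal.mul_mem_right _ _ (xm_mem_sr hT))
  have hsum_a : ∑ T ∈ (G.erase v).powerset, piF Δ d p D (xm F (flip α G T) * X') = 0 := by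
    have h1 := ha v (G.erase v).toList (by
      rw [Finset.length_toList, Finset.card_erase_of_mem hv]
      have : 0 < G.card := Finset.card_pos.mpr ⟨v, hv⟩
      omega)
    rw [expand_a S.cs hG hv, Finset.sum_mul, map_sum] at h1
    exact h1
  rcases hflip with hrig | ⟨haff, hb⟩
  · rw [Finset.sum_eq_single ∅] at hsum_a
    · rw [flip_empty] at hsum_a
      exact hsum_a
    · intro T hT hne
      rw [Finset.mem_powerset] at hT
      apply h0 T hT
      intro hmem
      rcases hrig G hG hbig T (hT.trans (Finset.erase_subset _ _)) hmem with h | h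
      · exact hne h
      · exact Finset.notMem_erase v G (hT (h ▸ hv))
    · intro h
      exact absurd (Finset.empty_mem_powerset _) h
  · have h2 := aff_zero (fun T => piF Δ d p D (xm F (flip α G T) * X')) h0 hG
      (haff G hG hbig v hv) hsum_a (by
      intro u hu
      have h1 := hb v (α u) ((G.erase v).erase u).toList (by
        rw [Finset.length_toList, Finset.card_erase_of_mem hu, Finset.card_erase_of_mem hv]
        have : 0 < (G.erase v).card := Finset.card_pos.mpr ⟨u, hu⟩
        rw [Finset.card_erase_of_mem hv] at this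
        omega)
      rw [expand_b S.cs hG hv hu, Finset.sum_mul, map_sum] at h1
      exact h1)
    simp only [flip_empty] at h2
    exact h2

/-- the Lefschetz element -/
noncomputable def wel (d : ℕ) (α : Equiv.Perm V) (VP : Finset V) (p : ℕ → V ⊕ Bool → F)
    (μ : ℕ → F) (c : V → F) : MvPolynomial V F :=
  ∑ l ∈ range d, C (μ l) * (∑ v ∈ VP, C (p l (Sum.inl v)) * X v) + ∑ v ∈ VP, C (c v) * yy F α v

omit S [CharP F 2] in
theorem wel_hom : (wel d α VP p μ c : MvPolynomial V F).IsHomogeneous 1 := by
  unfold wel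
  apply IsHomogeneous.add
  · apply IsHomogeneous.sum
    intro l _
    rw [show 1 = 0 + 1 from rfl]
    apply (isHomogeneous_C V _).mul
    apply IsHomogeneous.sum
    intro v _
    rw [show 1 = 0 + 1 from rfl]
    exact (isHomogeneous_C V _).mul (isHomogeneous_X F v)
  · apply IsHomogeneous.sum
    intro v _
    rw [show 1 = 0 + 1 from rfl]
    exact (isHomogeneous_C V _).mul ((isHomogeneous_X F v).add (isHomogeneous_X F _))

theorem derive_c {h : MvPolynomial V F} (hh : Con h)
    (h0 : piF Δ d p D (wel d α VP p μ c * h) = 0) (u : V) :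
    piF Δ d p D (yy F α u * h) = 0 := by
  have key : ∀ u ∈ VP, piF Δ d p D (yy F α u * h) = 0 := by
    intro u hu
    have h1 := D_piF_other S.cols S.cs (Dc u) (S.Dc_p u) (fun l x => S.Dc_comm u l x)
      (wel d α VP p μ c * h) (Δ := Δ)
    rw [h0, map_zero] at h1
    have h2 : dmap (Dc u) (wel d α VP p μ c * h) = yy F α u * h := by
      rw [dmap_mul, hh (Dc u), mul_zero, add_zero]
      congr 1
      unfold wel
      rw [dmap_add, dmap_sum, dmap_sum]
      have h3 : ∀ l ∈ range d, dmap (Dc u) (C (μ l) *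
          (∑ v ∈ VP, C (p l (Sum.inl v)) * X v : MvPolynomial V F)) = 0 := by
        intro l _
        rw [dmap_mul, dmap_C, S.Dc_m, dmap_sum, map_zero, zero_mul, zero_add]
        rw [Finset.sum_eq_zero, mul_zero]
        intro v _
        rw [dmap_mul, dmap_C, S.Dc_p, dmap_X, map_zero, zero_mul, mul_zero, add_zero]
      rw [Finset.sum_eq_zero h3, zero_add]
      have h4 : ∀ v ∈ VP, dmap (Dc u) (C (c v) * yy F α v : MvPolynomial V F) =
          if u = v then yy F α v else 0 := by
        intro v _
        rw [dmap_mul, dmap_C, S.Dc_c u hu, Con.yy v (Dc u), mul_zero, add_zero]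
        split_ifs <;> simp
      rw [Finset.sum_congr rfl h4, Finset.sum_ite_eq VP u, if_pos hu]
    rw [h2] at h1
    exact h1.symm
  by_cases hu : u ∈ VP
  · exact key u hu
  · have h1 : α u ∈ VP := by
      by_contra h'
      exact hu ((S.vp u).mpr h')
    have h2 := key _ h1
    have h3 : yy F α (α u) = yy F α u := by
      unfold yy; rw [S.cs.invol]; ring
    rwa [h3] at h2

theorem derive_m {h : MvPolynomial V F} (hh : Con h)
    (h0 : piF Δ d p D (wel d α VP p μ c * h) = 0) {l : ℕ} (hl : l < d) :
    ∑ v' ∈ VP, p l (Sum.inl v') * piF Δ d p D (X v' * h) = 0 := by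
  have h1 := D_piF_other S.cols S.cs (Dm l) (S.Dm_p l) (fun l' x => S.Dm_comm l l' x)
    (wel d α VP p μ c * h) (Δ := Δ)
  rw [h0, map_zero] at h1
  have h2 : dmap (Dm l) (wel d α VP p μ c * h) = (∑ v ∈ VP, C (p l (Sum.inl v)) * X v) * h := by
    rw [dmap_mul, hh (Dm l), mul_zero, add_zero]
    congr 1
    unfold wel
    rw [dmap_add, dmap_sum, dmap_sum]
    have h4 : ∀ v ∈ VP, dmap (Dm l) (C (c v) * yy F α v : MvPolynomial V F) = 0 := by
      intro v _
      rw [dmap_mul, dmap_C, S.Dm_c, Con.yy v (Dm l), mul_zero, add_zero, map_zero, zero_mul]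
    rw [Finset.sum_eq_zero h4, add_zero]
    have h3 : ∀ l' ∈ range d, dmap (Dm l) (C (μ l') *
        (∑ v ∈ VP, C (p l' (Sum.inl v)) * X v : MvPolynomial V F)) =
        if l = l' then (∑ v ∈ VP, C (p l' (Sum.inl v)) * X v : MvPolynomial V F) else 0 := by
      intro l' _
      rw [dmap_mul, dmap_C, S.Dm_m l hl, dmap_sum]
      rw [Finset.sum_eq_zero (s := VP) (f := fun i => dmap (Dm l) (C (p l' (Sum.inl i)) * X i)),
        mul_zero, add_zero]
      · split_ifs <;> simp
      · intro v _
        rw [dmap_mul, dmap_C, S.Dm_p, dmap_X, map_zero, zero_mul, mul_zero, add_zero]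
    rw [Finset.sum_congr rfl h3, Finset.sum_ite_eq (range d) l, if_pos (Finset.mem_range.mpr hl)]
  rw [h2, Finset.sum_mul, map_sum] at h1
  refine Eq.trans ?_ h1.symm
  apply Finset.sum_congr rfl
  intro v _
  rw [mul_assoc, ← smul_eq_C_mul, map_smul, smul_eq_mul]

/-- The main theorem in characteristic 2. -/
theorem char2_main (hd : 1 ≤ d) (hflip : CondRigid Δ α d ∨ (CondAff Δ α d ∧ Even d))
    {i k : ℕ} (hik : i + i + (k + 1) = d) {x : MvPolynomial V F} (hx : x.IsHomogeneous i)
    (h : ∀ v, piF Δ d p D ((wel d α VP p μ c) ^ k * X v * x ^ 2) = 0) :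
    x ∈ Jid Δ (rows p) d := by
  set w := wel d α VP p μ c with hw
  have hwh : w.IsHomogeneous 1 := wel_hom
  have hwm : ∀ m, (w ^ m * x).IsHomogeneous (m + i) := by
    intro m
    have := (hwh.pow m).mul hx
    rwa [one_mul] at this
  have key : ∀ n m, m + n = k / 2 → w ^ m * x ∈ Jid Δ (rows p) d := by
    intro n
    induction n with
    | zero =>
      intro m hm
      rw [add_zero] at hm
      rcases Nat.even_or_odd k with hk | hk
      · -- `r = 1`
        have hk2 : k = m + m := by
          obtain ⟨t, ht⟩ := hk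
          omega
        have hr : (m + i) + (m + i) + 1 = d := by omega
        have hX1 : ∀ v, piF Δ d p D (X v * (w ^ m * x) ^ 2) = 0 := by
          intro v
          have := h v
          rw [hk2] at this
          rw [← this]
          congr 1
          ring
        apply conclude S hd hr le_rfl (hwm m)
        · intro v gs hgs
          exact rel_a S hr le_rfl (fun _ => hX1) (fun h2 => absurd h2 (by norm_num)) v gs hgs
        · rcases hflip with hf | hf
          · exact Or.inl hf
          · exfalso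
            obtain ⟨t, ht⟩ := hf.2
            omega
      · -- `r = 2`
        have hk2 : k = m + m + 1 := by
          obtain ⟨t, ht⟩ := hk
          omega
        have hr : (m + i) + (m + i) + 2 = d := by omega
        have hwX : ∀ v, piF Δ d p D (w * (X v * (w ^ m * x) ^ 2)) = 0 := by
          intro v
          have := h v
          rw [hk2] at this
          rw [← this]
          congr 1
          ring
        have hX2 : ∀ u, ∀ g : MvPolynomial V F, Con g → g.IsHomogeneous (2 - 1) →
            piF Δ d p D (yy F α u * (g * (w ^ m * x) ^ 2)) = 0 := by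
          intro u g hg hgh
          apply derive_c S (hg.mul (Con.sq _))
          obtain ⟨g', hg'1, hg'2⟩ := hom_split (i := 0) hgh
          rw [hg'2, Finset.sum_mul, Finset.mul_sum, map_sum]
          apply Finset.sum_eq_zero
          intro v _
          have hC : g' v = C (coeff 0 (g' v)) :=
            totalDegree_eq_zero_iff_eq_C.mp (Nat.le_zero.mp (hg'1 v).totalDegree_le)
          rw [hC]
          have h3 : w * (X v * C (coeff 0 (g' v)) * (w ^ m * x) ^ 2) =
            C (coeff 0 (g' v)) * (w * (X v * (w ^ m * x) ^ 2)) := by ring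
          rw [h3, ← smul_eq_C_mul, map_smul, hwX, smul_zero]
        have ha : ∀ v (gs : List V), gs.length + 1 + (m + i) = d →
            piF Δ d p D (X v * (gs.map (yy F α)).prod * (w ^ m * x)) = 0 := by
          intro v gs hgs
          exact rel_a S hr (by norm_num) (fun h1 => absurd h1 (by norm_num)) (fun _ => hX2) v gs hgs
        apply conclude S hd hr (by norm_num) (hwm m) ha
        rcases hflip with hf | hf
        · exact Or.inl hf
        · refine Or.inr ⟨hf.1, ?_⟩
          intro v u' gs hgs
          apply rel_b2 S hr _ ha v u' gs hgs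
          intro v
          exact derive_m S ((Con.X v).mul (Con.sq _)) (hwX v) (by omega)
    | succ n ih =>
      intro m hm
      have h1 := ih (m + 1) (by omega)
      have hr : (m + i) + (m + i) + (k + 1 - 2 * m) = d := by omega
      have hr3 : 3 ≤ k + 1 - 2 * m := by omega
      have hX2 : ∀ u, ∀ g : MvPolynomial V F, Con g → g.IsHomogeneous (k + 1 - 2 * m - 1) →
          piF Δ d p D (yy F α u * (g * (w ^ m * x) ^ 2)) = 0 := by
        intro u g hg hgh
        apply derive_c S (hg.mul (Con.sq _))
        apply piF_J S hd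
        · have h3 : wel d α VP p μ c * (g * (w ^ m * x) ^ 2) =
            (g * (w ^ m * x)) * (w ^ (m + 1) * x) := by
            rw [← hw]; ring
          rw [h3]
          exact Ideal.mul_mem_left _ _ h1
        · have h3 := hwh.mul (hgh.mul ((hwm m).pow 2))
          rw [← hw]
          convert h3 using 1
          omega
      apply conclude S hd hr (by omega) (hwm m)
      · intro v gs hgs
        exact rel_a S hr (by omega) (fun h1 => absurd h1 (by omega)) (fun _ => hX2) v gs hgs
      · rcases hflip with hf | hf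
        · exact Or.inl hf
        · refine Or.inr ⟨hf.1, ?_⟩
          intro v u' gs hgs
          exact rel_b S hr hr3 hX2 v u' gs hgs
  have := key (k / 2) 0 (by omega)
  rwa [pow_zero, one_mul] at this

end final

end CSLef
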