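import Mathlib
import Pool.Agent.Work.MP_38c61c_al.FlipChar2

/-!
Lifting from the residue field to the local ring.
-/

namespace CSLef

open MvPolynomial Finset

variable {V : Type} [Fintype V] [DecidableEq V]

section basic

variable {R F : Type*} [CommRing R] [Field F] (π : R →+* F)
variable {Δ : Finset (Finset V)} {a : ℕ → V → R}

theorem J_succ {j : ℕ} {f : MvPolynomial V R} :
    f ∈ Jid Δ a (j + 1) ↔ ∃ g, f - lin (a j) * g ∈ Jid Δ a j := by
  constructor
  · intro hf
    obtain ⟨g, hg⟩ := (mem_J_iff (j + 1) f).mp hf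
    refine ⟨g j, (mem_J_iff j _).mpr ⟨g, ?_⟩⟩
    rw [Finset.sum_range_succ] at hg
    convert hg using 1
    ring
  · rintro ⟨g, hg⟩
    have : f = (f - lin (a j) * g) + lin (a j) * g := by ring
    rw [this]
    exact Ideal.add_mem _ (J_mono (Nat.le_succ j) hg)
      (Ideal.mul_mem_right _ _ (lin_mem_J (Nat.lt_succ_self j)))

theorem map_lin (b : V → R) : MvPolynomial.map π (lin b) = lin (fun v => π (b v)) := by
  simp [lin, map_sum]

variable (hdown : ∀ F ∈ Δ, ∀ G, G ⊆ F → G ∈ Δ)

include hdown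

theorem map_sr {f : MvPolynomial V R} (hf : f ∈ srIdeal R Δ) :
    MvPolynomial.map π f ∈ srIdeal F Δ := by
  rw [mem_sr_iff hdown] at hf ⊢
  intro m hm
  apply hf
  intro h0
  apply hm
  rw [coeff_map, h0, map_zero]

theorem map_J {j : ℕ} {f : MvPolynomial V R} (hf : f ∈ Jid Δ a j) :
    MvPolynomial.map π f ∈ Jid Δ (fun l v => π (a l v)) j := by
  obtain ⟨g, hg⟩ := (mem_J_iff j f).mp hf
  rw [mem_J_iff]
  refine ⟨fun l => MvPolynomial.map π (g l), ?_⟩
  have h1 := map_sr π hdown hg
  rw [map_sub, map_sum] at h1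
  convert h1 using 2
  apply Finset.sum_congr rfl
  intro l _
  rw [map_mul, map_lin]

variable (hπ : Function.Surjective π) (hker : ∀ r, π r = 0 → ∃ s, r = 2 * s)

include hπ hker

omit hdown in
theorem lift_sr {f : MvPolynomial V R} (hf : ∀ m : V →₀ ℕ, m.support ∈ Δ → π (coeff m f) = 0) :
    ∃ e ∈ srIdeal R Δ, ∃ f' : MvPolynomial V R, f = e + (2 : R) • f' := by
  classical
  choose! s hs using hker
  refine ⟨∑ m ∈ f.support, (if m.support ∈ Δ then 0 else monomial m (coeff m f)), ?_,
    ∑ m ∈ f.support, (if m.support ∈ Δ then monomial m (s (coeff m f)) else 0), ?_⟩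
  · apply Ideal.sum_mem
    intro m _
    split_ifs with h
    · exact Ideal.zero_mem _
    · exact monomial_mem_sr m _ h
  · rw [Finset.smul_sum, ← Finset.sum_add_distrib]
    conv_lhs => rw [← support_sum_monomial_coeff f]
    apply Finset.sum_congr rfl
    intro m _
    split_ifs with h
    · rw [zero_add, smul_monomial, smul_eq_mul, ← hs _ (hf m h)]
    · rw [smul_zero, add_zero]

theorem lift_J {j : ℕ} {f : MvPolynomial V R}
    (hf : MvPolynomial.map π f ∈ Jid Δ (fun l v => π (a l v)) j) :
    ∃ e ∈ Jid Δ a j, ∃ f' : MvPolynomial V R, f = e + (2 : R) • f' := by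
  obtain ⟨g, hg⟩ := (mem_J_iff j _).mp hf
  have hsurj := MvPolynomial.map_surjective (σ := V) π hπ
  choose G hG using fun l => hsurj (g l)
  have h1 : MvPolynomial.map π (f - ∑ l ∈ range j, lin (a l) * G l) ∈ srIdeal F Δ := by
    rw [map_sub, map_sum]
    convert hg using 2
    apply Finset.sum_congr rfl
    intro l _
    rw [map_mul, map_lin, hG]
  rw [mem_sr_iff hdown] at h1
  obtain ⟨e, he, f', hf'⟩ := lift_sr π hπ hker (Δ := Δ) (f := f - ∑ l ∈ range j, lin (a l) * G l)
    (by
      intro m hm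
      by_contra hne
      rw [← coeff_map] at hne
      exact h1 m hne hm)
  refine ⟨e + ∑ l ∈ range j, lin (a l) * G l, ?_, f', ?_⟩
  · apply Ideal.add_mem _ (sr_le_J j he)
    apply Ideal.sum_mem
    intro l hl
    exact Ideal.mul_mem_right _ _ (lin_mem_J (Finset.mem_range.mp hl))
  · rw [sub_eq_iff_eq_add] at hf'
    rw [hf']
    ring

theorem lift_J_hom {j n : ℕ} {f : MvPolynomial V R} (hh : f.IsHomogeneous n)
    (hf : MvPolynomial.map π f ∈ Jid Δ (fun l v => π (a l v)) j) :
    ∃ e ∈ Jid Δ a j, e.IsHomogeneous n ∧ ∃ f' : MvPolynomial V R, f'.IsHomogeneous n ∧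
      f = e + (2 : R) • f' := by
  obtain ⟨e, he, f', hf'⟩ := lift_J π hdown hπ hker hf
  refine ⟨homogeneousComponent n e, homComp_mem_J hdown n he,
    homogeneousComponent_isHomogeneous _ _, homogeneousComponent n f',
    homogeneousComponent_isHomogeneous _ _, ?_⟩
  rw [← homComp_self hh]
  conv_lhs => rw [hf']
  rw [map_add, map_smul]

end basic

section local_

variable {R F : Type*} [CommRing R] [IsDomain R] [IsLocalRing R] [IsNoetherianRing R]
  [Field F] [CharP F 2] (π : R →+* F)
variable {Δ : Finset (Finset V)} {a : ℕ → V → R}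

omit [IsDomain R] in
theorem nak (hmax : IsLocalRing.maximalIdeal R = Ideal.span {2}) {n : ℕ}
    (N U : Submodule R (MvPolynomial V R)) (hU : U ≤ homogeneousSubmodule V R n)
    (h : ∀ x ∈ U, ∃ e ∈ N, ∃ x' ∈ U, x = e + (2 : R) • x') : U ≤ N := by
  apply Submodule.le_of_le_smul_of_le_jacobson_bot (I := Ideal.span {(2 : R)})
    (Submodule.FG.of_le (homogeneousSubmodule_fg _ _ n) hU)
  · rw [← hmax]
    exact IsLocalRing.maximalIdeal_le_jacobson ⊥
  · intro x hx
    obtain ⟨e, he, x', hx', rfl⟩ := h x hx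
    exact Submodule.add_mem_sup he
      (Submodule.smul_mem_smul (Ideal.mem_span_singleton_self 2) hx')

/-- hypotheses on the local ring -/
structure LocHyp (π : R →+* F) (Δ : Finset (Finset V)) (d : ℕ) (a : ℕ → V → R) : Prop where
  surj : Function.Surjective π
  ker : ∀ r, π r = 0 → ∃ s, r = 2 * s
  two : π 2 = 0
  max : IsLocalRing.maximalIdeal R = Ideal.span {2}
  two_ne : (2 : R) ≠ 0
  hs : IsHomSphere Δ d
  ind : Ind Δ (fun l v => π (a l v))

variable {d : ℕ} (H : LocHyp π Δ d a)

include H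

theorem tors_reg (j : ℕ) : j ≤ d →
    (∀ f : MvPolynomial V R, (2 : R) • f ∈ Jid Δ a j → f ∈ Jid Δ a j) ∧
    (j < d → ∀ f : MvPolynomial V R, lin (a j) * f ∈ Jid Δ a j → f ∈ Jid Δ a j) := by
  -- torsion-freeness implies regularity
  have hreg : ∀ j < d, (∀ f : MvPolynomial V R, (2 : R) • f ∈ Jid Δ a j → f ∈ Jid Δ a j) →
      ∀ f : MvPolynomial V R, lin (a j) * f ∈ Jid Δ a j → f ∈ Jid Δ a j := by
    intro j hj hT f hf
    apply mem_J_of_homComp
    intro n
    have hf' : lin (a j) * homogeneousComponent n f ∈ Jid Δ a j := by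
      rw [← homComp_lin_mul]
      exact homComp_mem_J H.hs.down _ hf
    let N : Submodule R (MvPolynomial V R) := (Jid Δ a j).restrictScalars R
    let U : Submodule R (MvPolynomial V R) :=
      { carrier := {x | x.IsHomogeneous n ∧ lin (a j) * x ∈ Jid Δ a j}
        add_mem' := by
          rintro x y ⟨h1, h2⟩ ⟨h3, h4⟩
          exact ⟨h1.add h3, by rw [mul_add]; exact Ideal.add_mem _ h2 h4⟩
        zero_mem' := ⟨isHomogeneous_zero _ _ _, by rw [mul_zero]; exact Ideal.zero_mem _⟩
        smul_mem' := by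
          rintro r x ⟨h1, h2⟩
          refine ⟨?_, ?_⟩
          · rw [smul_eq_C_mul]
            have := (isHomogeneous_C V r).mul h1
            rwa [zero_add] at this
          · rw [smul_eq_C_mul, mul_left_comm]
            exact Ideal.mul_mem_left _ _ h2 }
    have hUN : U ≤ N := by
      apply nak H.max (n := n) N U (fun x hx => (mem_homogeneousSubmodule n x).mpr hx.1)
      rintro x ⟨hx1, hx2⟩
      have h1 := map_J π H.hs.down hx2
      rw [map_mul, map_lin] at h1
      have h2 := reg_J H.hs H.ind hj h1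
      obtain ⟨e, he, he1, x', hx', hxx⟩ := lift_J_hom π H.hs.down H.surj H.ker hx1 h2
      refine ⟨e, he, x', ⟨hx', ?_⟩, hxx⟩
      apply hT
      have h3 : (2 : R) • (lin (a j) * x') = lin (a j) * x - lin (a j) * e := by
        rw [hxx, mul_add, mul_smul_comm]
        ring
      rw [h3]
      exact Ideal.sub_mem _ hx2 (Ideal.mul_mem_left _ _ he)
    exact hUN ⟨homogeneousComponent_isHomogeneous _ _, hf'⟩
  induction j with
  | zero =>
    intro _
    have hT : ∀ f : MvPolynomial V R, (2 : R) • f ∈ Jid Δ a 0 → f ∈ Jid Δ a 0 := by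
      intro f hf
      obtain ⟨_, hg⟩ := (mem_J_iff 0 _).mp hf
      rw [Finset.range_zero, Finset.sum_empty, sub_zero] at hg
      apply sr_le_J 0
      rw [mem_sr_iff H.hs.down] at hg ⊢
      intro m hm
      apply hg
      rw [coeff_smul, smul_eq_mul]
      exact mul_ne_zero H.two_ne hm
    exact ⟨hT, fun hj => hreg 0 hj hT⟩
  | succ j ih =>
    intro hj
    obtain ⟨hT, hR⟩ := ih (by omega)
    have hR := hR (by omega)
    have hT' : ∀ f : MvPolynomial V R, (2 : R) • f ∈ Jid Δ a (j + 1) → f ∈ Jid Δ a (j + 1) := by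
      intro f hf
      obtain ⟨g, hg⟩ := J_succ.mp hf
      have h1 := map_J π H.hs.down hg
      have h2 : MvPolynomial.map π ((2 : R) • f - lin (a j) * g) =
          - (lin (fun v => π (a j v)) * MvPolynomial.map π g) := by
        rw [map_sub, smul_eq_C_mul, map_mul, map_C, H.two, C_0, zero_mul, zero_sub, map_mul,
          map_lin]
      rw [h2] at h1
      have h3 := reg_J H.hs H.ind (show j < d by omega) ((Ideal.neg_mem_iff _).mp h1)
      obtain ⟨e, he, g', hg'⟩ := lift_J π H.hs.down H.surj H.ker h3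
      apply J_succ.mpr
      refine ⟨g', hT _ ?_⟩
      have h4 : (2 : R) • (f - lin (a j) * g') = ((2 : R) • f - lin (a j) * g) +
          lin (a j) * e := by
        rw [hg', smul_sub, mul_add, mul_smul_comm]
        ring
      rw [h4]
      exact Ideal.add_mem _ hg (Ideal.mul_mem_left _ _ he)
    exact ⟨hT', fun hj' => hreg (j + 1) hj' hT'⟩

theorem tors {s : R} (hs : s ≠ 0) {f : MvPolynomial V R} (hf : s • f ∈ Jid Δ a d) :
    f ∈ Jid Δ a d := by
  have hirr : Irreducible (2 : R) := by
    have hp : Prime (2 : R) := by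
      rw [← Ideal.span_singleton_prime H.two_ne, ← H.max]
      exact (IsLocalRing.maximalIdeal.isMaximal R).isPrime
    exact hp.irreducible
  obtain ⟨n, b, hb, rfl⟩ := WfDvdMonoid.max_power_factor hs hirr
  have hunit : IsUnit b := by
    by_contra h
    have h1 : b ∈ IsLocalRing.maximalIdeal R := h
    rw [H.max, Ideal.mem_span_singleton] at h1
    exact hb h1
  obtain ⟨u, rfl⟩ := hunit
  have key : ∀ n : ℕ, ∀ g : MvPolynomial V R, ((2 : R) ^ n) • g ∈ Jid Δ a d → g ∈ Jid Δ a d := by
    intro n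
    induction n with
    | zero => intro g hg; rwa [pow_zero, one_smul] at hg
    | succ n ih =>
      intro g hg
      rw [pow_succ', mul_smul] at hg
      exact ih g ((tors_reg π H d le_rfl).1 _ hg)
  rw [mul_smul] at hf
  have h1 := key n _ hf
  have h2 := Ideal.mul_mem_left (Jid Δ a d) (C (↑u⁻¹ : R)) h1
  rw [← smul_eq_C_mul, ← mul_smul, Units.inv_mul, one_smul] at h2
  exact h2

/-- top degree is generated by one facet -/
theorem top_gen {σ : Finset V} (hσd : σ.card = d)
    (hσ : xm F σ ∉ Jid Δ (fun l v => π (a l v)) d)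
    {f : MvPolynomial V R} (hf : f.IsHomogeneous d) :
    ∃ r : R, f - r • xm R σ ∈ Jid Δ a d := by
  let N : Submodule R (MvPolynomial V R) := (Jid Δ a d).restrictScalars R ⊔
    Submodule.span R {xm R σ}
  have hUN : homogeneousSubmodule V R d ≤ N := by
    apply nak H.max (n := d) N _ le_rfl
    intro x hx
    rw [mem_homogeneousSubmodule] at hx
    have hxσ : (xm R σ).IsHomogeneous d := hσd ▸ xm_hom σ
    have hxσF : (xm F σ).IsHomogeneous d := hσd ▸ xm_hom σ
    have hmapσ : MvPolynomial.map π (xm R σ) = xm F σ := by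
      simp [xm, map_prod]
    obtain ⟨r, r', hr, hmem⟩ := topdim_J H.hs H.ind (hx.map π) hxσF
    have hr0 : r ≠ 0 := by
      intro h0
      rw [h0, map_zero, zero_mul, zero_add] at hmem
      have hr' : r' ≠ 0 := hr.resolve_left (fun h => h h0)
      apply hσ
      have h3 := Ideal.mul_mem_left _ (C r'⁻¹) hmem
      rw [← mul_assoc, ← map_mul, inv_mul_cancel₀ hr', map_one, one_mul] at h3
      exact h3
    obtain ⟨s, hs⟩ := H.surj (r⁻¹ * r')
    have h1 : MvPolynomial.map π (x + s • xm R σ) ∈ Jid Δ (fun l v => π (a l v)) d := by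
      have h3 := Ideal.mul_mem_left _ (C r⁻¹) hmem
      convert h3 using 1
      rw [map_add, smul_eq_C_mul, map_mul, map_C, hs, hmapσ, mul_add, ← mul_assoc, ← mul_assoc,
        ← map_mul, ← map_mul, inv_mul_cancel₀ hr0, map_one, one_mul]
    have hhom : (x + s • xm R σ).IsHomogeneous d := by
      apply hx.add
      rw [smul_eq_C_mul]
      have := (isHomogeneous_C V s).mul hxσ
      rwa [zero_add] at this
    obtain ⟨e, he, _, x', hx', hxx⟩ := lift_J_hom π H.hs.down H.surj H.ker hhom h1
    refine ⟨e + (-s) • xm R σ, ?_, x', (mem_homogeneousSubmodule d x').mpr hx', ?_⟩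
    · exact Submodule.add_mem_sup he (Submodule.smul_mem _ _ (Submodule.mem_span_singleton_self _))
    · rw [neg_smul, add_right_comm, ← hxx]
      ring
  have := hUN ((mem_homogeneousSubmodule d f).mpr hf)
  obtain ⟨y, hy, z, hz, hyz⟩ := Submodule.mem_sup.mp this
  obtain ⟨r, rfl⟩ := Submodule.mem_span_singleton.mp hz
  refine ⟨r, ?_⟩
  rw [← hyz, add_sub_cancel_right]
  exact hy

/-- everything of large degree is in the ideal -/
theorem large_R {n : ℕ} (hn : d < n) {f : MvPolynomial V R} (hf : f.IsHomogeneous n) :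
    f ∈ Jid Δ a d := by
  let N : Submodule R (MvPolynomial V R) := (Jid Δ a d).restrictScalars R
  have hUN : homogeneousSubmodule V R n ≤ N := by
    apply nak H.max (n := n) N _ le_rfl
    intro x hx
    rw [mem_homogeneousSubmodule] at hx
    have h1 := hom_large_mem H.ind H.hs.card_le hn (hx.map π)
    obtain ⟨e, he, _, x', hx', hxx⟩ := lift_J_hom π H.hs.down H.surj H.ker hx h1
    exact ⟨e, he, x', (mem_homogeneousSubmodule n x').mpr hx', hxx⟩
  exact hUN ((mem_homogeneousSubmodule n f).mpr hf)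

/-- nondegeneracy over the local ring -/
theorem nondeg_R {i k : ℕ} (hik : i + k = d) {f : MvPolynomial V R} (hf : f.IsHomogeneous i)
    (h : ∀ g : MvPolynomial V R, g.IsHomogeneous k → g * f ∈ Jid Δ a d) : f ∈ Jid Δ a d := by
  let N : Submodule R (MvPolynomial V R) := (Jid Δ a d).restrictScalars R
  let U : Submodule R (MvPolynomial V R) :=
    { carrier := {x | x.IsHomogeneous i ∧ ∀ g : MvPolynomial V R, g.IsHomogeneous k →
        g * x ∈ Jid Δ a d}
      add_mem' := by
        rintro x y ⟨h1, h2⟩ ⟨h3, h4⟩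
        exact ⟨h1.add h3, fun g hg => by rw [mul_add]; exact Ideal.add_mem _ (h2 g hg) (h4 g hg)⟩
      zero_mem' := ⟨isHomogeneous_zero _ _ _, fun g _ => by rw [mul_zero]; exact Ideal.zero_mem _⟩
      smul_mem' := by
        rintro r x ⟨h1, h2⟩
        refine ⟨?_, ?_⟩
        · rw [smul_eq_C_mul]
          have := (isHomogeneous_C V r).mul h1
          rwa [zero_add] at this
        · intro g hg
          rw [smul_eq_C_mul, mul_left_comm]
          exact Ideal.mul_mem_left _ _ (h2 g hg) }
  have hUN : U ≤ N := by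
    apply nak H.max (n := i) N U (fun x hx => (mem_homogeneousSubmodule i x).mpr hx.1)
    rintro x ⟨hx1, hx2⟩
    have h1 : MvPolynomial.map π x ∈ Jid Δ (fun l v => π (a l v)) d := by
      by_contra hcon
      obtain ⟨g, hg1, hg2⟩ := exists_monomial_notMem H.hs H.ind k i hik _ (hx1.map π) hcon
      obtain ⟨G, hG⟩ := MvPolynomial.map_surjective (σ := V) π H.surj g
      apply hg2
      have h3 : g = MvPolynomial.map π (homogeneousComponent k G) := by
        rw [← homComp_self hg1, ← hG]
        ext m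
        simp only [coeff_homogeneousComponent, coeff_map]
        split_ifs <;> simp
      rw [h3, ← map_mul]
      exact map_J π H.hs.down (hx2 _ (homogeneousComponent_isHomogeneous _ _))
    obtain ⟨e, he, _, x', hx', hxx⟩ := lift_J_hom π H.hs.down H.surj H.ker hx1 h1
    refine ⟨e, he, x', ⟨hx', ?_⟩, hxx⟩
    intro g hg
    apply (tors_reg π H d le_rfl).1
    have h4 : (2 : R) • (g * x') = g * x - g * e := by
      rw [hxx, mul_add, mul_smul_comm]; ring
    rw [h4]
    exact Ideal.sub_mem _ (hx2 g hg) (Ideal.mul_mem_left _ _ he)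
  exact hUN ⟨hf, h⟩

end local_

end CSLef
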