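import Mathlib
import Pool.Agent.Work.MP_38c61c_al.Lattice

/-!
Injectivity of the Lefschetz maps over the local ring.
-/

namespace CSLef

open MvPolynomial Finset

variable {V : Type} [Fintype V] [DecidableEq V]

section alpha

variable {R : Type*} [CommRing R] {Δ : Finset (Finset V)} {α : Equiv.Perm V} {a : ℕ → V → R}

theorem rename_lin (hinv : ∀ v, α (α v) = v) (b : V → R) :
    rename α (lin b) = lin (fun v => b (α v)) := by
  unfold lin
  rw [map_sum]
  simp only [map_mul, rename_C, rename_X]
  rw [← Equiv.sum_comp α (fun v => C (b (α v)) * (X v : MvPolynomial V R))]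
  simp only [hinv]

theorem rename_lin_neg (hinv : ∀ v, α (α v) = v) (ha : ∀ l v, a l (α v) = - a l v) (l : ℕ) :
    rename α (lin (a l)) = - lin (a l) := by
  rw [rename_lin hinv]
  simp only [ha]
  simp [lin]

theorem image_image (hinv : ∀ v, α (α v) = v) (G : Finset V) : (G.image α).image α = G := by
  rw [Finset.image_image]
  have : (α : V → V) ∘ α = id := by funext v; exact hinv v
  rw [this, Finset.image_id]

theorem rename_sr (hα : IsCS Δ α) {f : MvPolynomial V R} (hf : f ∈ srIdeal R Δ) :
    rename α f ∈ srIdeal R Δ := by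
  have h : srIdeal R Δ ≤ (srIdeal R Δ).comap (rename (R := R) (α : V → V)) := by
    apply Ideal.span_le.mpr
    rintro f ⟨G, hG, rfl⟩
    rw [SetLike.mem_coe, Ideal.mem_comap, map_prod]
    simp only [rename_X]
    have h1 : ∏ v ∈ G, (X (α v) : MvPolynomial V R) = xm R (G.image α) := by
      unfold xm
      rw [Finset.prod_image (fun a _ b _ hab => α.injective hab)]
    rw [h1]
    apply xm_mem_sr
    intro h2
    apply hG
    have := hα.map_mem _ h2
    rwa [image_image hα.invol] at this
  exact h hf

theorem rename_J (hα : IsCS Δ α) (ha : ∀ l v, a l (α v) = - a l v) {j : ℕ}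
    {f : MvPolynomial V R} (hf : f ∈ Jid Δ a j) : rename α f ∈ Jid Δ a j := by
  obtain ⟨g, hg⟩ := (mem_J_iff j f).mp hf
  rw [mem_J_iff]
  refine ⟨fun l => - rename α (g l), ?_⟩
  have h1 := rename_sr hα hg
  rw [map_sub, map_sum] at h1
  convert h1 using 2
  apply Finset.sum_congr rfl
  intro l _
  rw [map_mul, rename_lin_neg hα.invol ha]
  ring

theorem rename_rename_inv (hinv : ∀ v, α (α v) = v) (f : MvPolynomial V R) :
    rename α (rename α f) = f := by
  rw [rename_rename]
  have : (α : V → V) ∘ α = id := by funext v; exact hinv v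
  rw [this, rename_id_apply]

theorem coeff_rename_inv (hinv : ∀ v, α (α v) = v) (m : V →₀ ℕ) (f : MvPolynomial V R) :
    coeff m (rename α f) = coeff (m.mapDomain α) f := by
  have h1 : (m.mapDomain α).mapDomain α = m := by
    rw [← Finsupp.mapDomain_comp]
    have : (α : V → V) ∘ α = id := by funext v; exact hinv v
    rw [this, Finsupp.mapDomain_id]
  conv_lhs => rw [← h1]
  rw [coeff_rename_mapDomain _ α.injective]

theorem mul_sub_mem' {I : Ideal (MvPolynomial V R)} {a b a' b' : MvPolynomial V R}
    (h : a - b ∈ I) (h' : a' - b' ∈ I) : a * a' - b * b' ∈ I := by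
  have : a * a' - b * b' = (a - b) * a' + b * (a' - b') := by ring
  rw [this]
  exact I.add_mem (I.mul_mem_right _ h) (I.mul_mem_left _ h')

theorem star_base (hα : IsCS Δ α) (hdown : ∀ F ∈ Δ, ∀ G, G ⊆ F → G ∈ Δ)
    (h2 : ∀ r : R, 2 * r = 0 → r = 0) {f : MvPolynomial V R}
    (hf : f + rename α f ∈ srIdeal R Δ) :
    ∃ g, f - (g - rename α g) ∈ srIdeal R Δ := by
  classical
  let r : (V →₀ ℕ) → (V →₀ ℕ) → Prop := WellOrderingRel
  have hr : IsWellOrder (V →₀ ℕ) r := WellOrderingRel.isWellOrder
  let g : MvPolynomial V R := ∑ m ∈ f.support, if r m (m.mapDomain α) then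
    monomial m (coeff m f) else 0
  have hg : ∀ m, coeff m g = if r m (m.mapDomain α) then coeff m f else 0 := by
    intro m
    simp only [g, coeff_sum]
    have h1 : ∀ m' ∈ f.support, coeff m (if r m' (m'.mapDomain α) then
        monomial m' (coeff m' f) else 0) =
        if m' = m then (if r m (m.mapDomain α) then coeff m f else 0) else 0 := by
      intro m' _
      by_cases hm : m' = m
      · subst hm
        rw [if_pos rfl]
        split_ifs
        · rw [coeff_monomial, if_pos rfl]
        · rw [coeff_zero]
      · rw [if_neg hm]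
        split_ifs
        · rw [coeff_monomial, if_neg hm]
        · rw [coeff_zero]
    rw [Finset.sum_congr rfl h1, Finset.sum_ite_eq' f.support m]
    split_ifs with h3 h4 h4
    · rfl
    · rfl
    · exact (notMem_support_iff.mp h3).symm
    · rfl
  refine ⟨g, ?_⟩
  rw [mem_sr_iff hdown] at hf ⊢
  intro m hm hmem
  apply hm
  have hinv := hα.invol
  have hmm : (m.mapDomain α).mapDomain α = m := by
    rw [← Finsupp.mapDomain_comp]
    have : (α : V → V) ∘ α = id := by funext v; exact hinv v
    rw [this, Finsupp.mapDomain_id]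
  have h1 : coeff m f + coeff (m.mapDomain α) f = 0 := by
    by_contra hne
    exact hf m (by rw [coeff_add, coeff_rename_inv hinv]; exact hne) hmem
  rw [coeff_sub, coeff_sub, coeff_rename_inv hinv, hg, hg, hmm]
  have htri : r m (m.mapDomain α) ∨ m = m.mapDomain α ∨ r (m.mapDomain α) m := by
    by_cases h3 : r m (m.mapDomain α)
    · exact Or.inl h3
    · by_cases h4 : r (m.mapDomain α) m
      · exact Or.inr (Or.inr h4)
      · exact Or.inr (Or.inl (hr.toTrichotomous.trichotomous m _ h3 h4))
  rcases htri with hlt | heq | hgt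
  · have hn : ¬ r (m.mapDomain α) m := fun h => asymm hlt h
    rw [if_pos hlt, if_neg hn]
    ring
  · have hirr : ¬ r m m := irrefl m
    rw [← heq, if_neg hirr]
    rw [← heq] at h1
    have : coeff m f = 0 := h2 _ (by rw [two_mul]; exact h1)
    rw [this]
    ring
  · have hn : ¬ r m (m.mapDomain α) := fun h => asymm hgt h
    rw [if_neg hn, if_pos hgt]
    linear_combination h1

end alpha

section local_

variable {R F : Type*} [CommRing R] [IsDomain R] [IsLocalRing R] [IsNoetherianRing R]
  [Field F] [CharP F 2] {π : R →+* F}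
variable {Δ : Finset (Finset V)} {a : ℕ → V → R} {d : ℕ} {α : Equiv.Perm V}

theorem star (H : LocHyp π Δ d a) (hα : IsCS Δ α) (ha : ∀ l v, a l (α v) = - a l v) (j : ℕ) :
    j ≤ d → ∀ f : MvPolynomial V R, f + rename α f ∈ Jid Δ a j →
      ∃ g, f - (g - rename α g) ∈ Jid Δ a j := by
  induction j with
  | zero =>
    intro _ f hf
    obtain ⟨_, hg⟩ := (mem_J_iff 0 _).mp hf
    rw [Finset.range_zero, Finset.sum_empty, sub_zero] at hg
    obtain ⟨g, hg'⟩ := star_base hα H.hs.down
      (fun r hr => (mul_eq_zero.mp hr).resolve_left H.two_ne) hg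
    exact ⟨g, sr_le_J 0 hg'⟩
  | succ j ih =>
    intro hj f hf
    have ih := ih (by omega)
    obtain ⟨h, hh⟩ := J_succ.mp hf
    have h1 := rename_J hα ha hh
    rw [map_sub, map_add, rename_rename_inv hα.invol, map_mul, rename_lin_neg hα.invol ha] at h1
    have h2 : lin (a j) * (h + rename α h) ∈ Jid Δ a j := by
      have := Ideal.sub_mem _ h1 hh
      convert this using 1
      ring
    have h3 := (tors_reg π H j (by omega)).2 (by omega) _ h2
    obtain ⟨g, hg⟩ := ih _ h3
    have h4 : (f - lin (a j) * g) + rename α (f - lin (a j) * g) ∈ Jid Δ a j := by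
      have := Ideal.add_mem _ hh (Ideal.mul_mem_left _ (lin (a j)) hg)
      convert this using 1
      rw [map_sub, map_mul, rename_lin_neg hα.invol ha]
      ring
    obtain ⟨g', hg'⟩ := ih _ h4
    refine ⟨g', J_succ.mpr ⟨g, ?_⟩⟩
    convert hg' using 1
    ring

/-- the Lefschetz element for general coefficient rows -/
noncomputable def welA {A : Type*} [CommRing A] (d : ℕ) (α : Equiv.Perm V) (VP : Finset V)
    (a : ℕ → V → A) (μ : ℕ → A) (c : V → A) : MvPolynomial V A :=
  ∑ l ∈ range d, C (μ l) * (∑ v ∈ VP, C (a l v) * X v) + ∑ v ∈ VP, C (c v) * yy A α v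

omit [Fintype V] [DecidableEq V] in
theorem welA_hom {A : Type*} [CommRing A] (VP : Finset V)
    (a : ℕ → V → A) (μ : ℕ → A) (c : V → A) : (welA d α VP a μ c).IsHomogeneous 1 := by
  unfold welA
  apply IsHomogeneous.add
  · apply IsHomogeneous.sum
    intro l _
    rw [show 1 = 0 + 1 from rfl]
    apply (isHomogeneous_C V _).mul
    apply IsHomogeneous.sum
    intro v _
    rw [show 1 = 0 + 1 from rfl]
    exact (isHomogeneous_C V _).mul (isHomogeneous_X A v)
  · apply IsHomogeneous.sum
    intro v _
    rw [show 1 = 0 + 1 from rfl]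
    exact (isHomogeneous_C V _).mul ((isHomogeneous_X A v).add (isHomogeneous_X A _))

theorem lin_eq_VP {A : Type*} [CommRing A] {VP : Finset V} (hinv : ∀ v, α (α v) = v)
    (hvp : ∀ v, v ∈ VP ↔ α v ∉ VP) {b : V → A} (hb : ∀ v, b (α v) = - b v) :
    lin b = ∑ v ∈ VP, C (b v) * (X v - X (α v)) := by
  unfold lin
  rw [← Finset.sum_filter_add_sum_filter_not Finset.univ (fun v => v ∈ VP)]
  have h1 : Finset.univ.filter (fun v => v ∈ VP) = VP := by ext; simp
  have h2 : Finset.univ.filter (fun v => v ∉ VP) = VP.image α := by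
    ext v
    simp only [Finset.mem_filter, Finset.mem_univ, true_and, Finset.mem_image]
    constructor
    · intro hv
      refine ⟨α v, ?_, hinv v⟩
      by_contra h
      exact hv ((hvp v).mpr h)
    · rintro ⟨u, hu, rfl⟩
      exact (hvp u).mp hu
  rw [h1, h2, Finset.sum_image (fun a _ b _ hab => α.injective hab), ← Finset.sum_add_distrib]
  apply Finset.sum_congr rfl
  intro v _
  rw [hb, map_neg]
  ring

theorem rename_welA {A : Type*} [CommRing A] {VP : Finset V} (hinv : ∀ v, α (α v) = v)
    (hvp : ∀ v, v ∈ VP ↔ α v ∉ VP) {a : ℕ → V → A} (ha : ∀ l v, a l (α v) = - a l v)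
    (μ : ℕ → A) (c : V → A) (Δ : Finset (Finset V)) :
    rename α (welA d α VP a μ c) - welA d α VP a μ c ∈ Jid Δ a d := by
  have h : rename α (welA d α VP a μ c) - welA d α VP a μ c =
      ∑ l ∈ range d, (- C (μ l)) * lin (a l) := by
    unfold welA
    simp only [map_add, map_sum, map_mul, rename_C, rename_X]
    have h1 : ∀ v, rename α (yy A α v) = yy A α v := by
      intro v
      unfold yy
      rw [map_add, rename_X, rename_X, hinv]
      ring
    simp only [h1]
    rw [add_sub_add_right_eq_sub, ← Finset.sum_sub_distrib]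
    apply Finset.sum_congr rfl
    intro l _
    rw [lin_eq_VP hinv hvp (ha l), ← mul_sub, ← Finset.sum_sub_distrib, neg_mul, ← mul_neg]
    congr 1
    rw [← Finset.sum_neg_distrib]
    apply Finset.sum_congr rfl
    intro v _
    ring
  rw [h]
  apply Ideal.sum_mem
  intro l hl
  exact Ideal.mul_mem_left _ _ (lin_mem_J (Finset.mem_range.mp hl))

omit [Fintype V] in
theorem dmap_sr {A : Type*} [CommRing A] {Δ : Finset (Finset V)} [Fintype V]
    (hdown : ∀ F ∈ Δ, ∀ G, G ⊆ F → G ∈ Δ) (δ : Derivation ℤ A A) {f : MvPolynomial V A}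
    (hf : f ∈ srIdeal A Δ) : dmap δ f ∈ srIdeal A Δ := by
  rw [mem_sr_iff hdown] at hf ⊢
  intro m hm
  apply hf
  intro h0
  apply hm
  rw [coeff_dmap, h0, map_zero]

theorem dmap_J {A : Type*} [CommRing A] {Δ : Finset (Finset V)}
    (hdown : ∀ F ∈ Δ, ∀ G, G ⊆ F → G ∈ Δ) {a : ℕ → V → A} (δ : Derivation ℤ A A)
    (hδ : ∀ l v, δ (a l v) = 0) {j : ℕ} {f : MvPolynomial V A}
    (hf : f ∈ Jid Δ a j) : dmap δ f ∈ Jid Δ a j := by
  obtain ⟨g, hg⟩ := (mem_J_iff j f).mp hf
  rw [mem_J_iff]
  refine ⟨fun l => dmap δ (g l), ?_⟩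
  have h1 := dmap_sr hdown δ hg
  have h2 : dmap δ (f - ∑ l ∈ range j, lin (a l) * g l) =
      dmap δ f - ∑ l ∈ range j, lin (a l) * dmap δ (g l) := by
    have h3 : f - ∑ l ∈ range j, lin (a l) * g l =
      f + C (-1) * ∑ l ∈ range j, lin (a l) * g l := by rw [map_neg, map_one]; ring
    rw [h3, dmap_add, dmap_mul, dmap_C, dmap_sum]
    have h4 : δ (-1 : A) = 0 := by
      have := Derivation.map_intCast δ (-1)
      exact_mod_cast this
    rw [h4, map_zero, zero_mul, zero_add, map_neg, map_one, neg_one_mul, ← sub_eq_add_neg]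
    congr 1
    apply Finset.sum_congr rfl
    intro l _
    rw [dmap_mul]
    have h5 : dmap δ (lin (a l)) = 0 := by
      unfold lin
      rw [dmap_sum]
      apply Finset.sum_eq_zero
      intro v _
      rw [dmap_mul, dmap_C, dmap_X, hδ, map_zero, zero_mul, mul_zero, add_zero]
    rw [h5, zero_mul, zero_add]
  rwa [h2] at h1

variable {VP : Finset V} {p : ℕ → V ⊕ Bool → F} {D : ℕ → V ⊕ Bool → Derivation ℤ F F}
  {μ : ℕ → F} {c : V → F} {Dm : ℕ → Derivation ℤ F F} {Dc : V → Derivation ℤ F F}

/-- injectivity over the local ring -/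
theorem inj_R (H : LocHyp π Δ d a) (S : Setup Δ d α VP p D μ c Dm Dc)
    (hp : ∀ l v, p l (Sum.inl v) = π (a l v)) {μR : ℕ → R} {cR : V → R}
    (hμ : ∀ l, μ l = π (μR l)) (hc : ∀ v, c v = π (cR v))
    (ha : ∀ l v, a l (α v) = - a l v) (δ : V → Derivation ℤ R R)
    (δa : ∀ v l u, δ v (a l u) = 0) (δμ : ∀ v l, δ v (μR l) = 0)
    (δc : ∀ v ∈ VP, ∀ v', δ v (cR v') = if v = v' then 1 else 0)
    (hchar : ∀ n : ℕ, n ≠ 0 → (n : R) ≠ 0) (hd : 1 ≤ d)
    (hflip : CondRigid Δ α d ∨ (CondAff Δ α d ∧ Even d))
    {i k : ℕ} (hik : i + i + (k + 1) = d) {x : MvPolynomial V R} (hx : x.IsHomogeneous i)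
    (hw : (welA d α VP a μR cR) ^ (k + 1) * x ∈ Jid Δ a d) : x ∈ Jid Δ a d := by
  set w := welA d α VP a μR cR with hwdef
  set J := Jid Δ a d with hJ
  have hrows : (fun l v => π (a l v)) = rows p := by
    funext l v; exact (hp l v).symm
  have hmapw : MvPolynomial.map π w = wel d α VP p μ c := by
    rw [hwdef]
    unfold welA wel
    rw [map_add, map_sum, map_sum]
    congr 1
    · apply Finset.sum_congr rfl
      intro l _
      rw [map_mul, map_C, hμ, map_sum]
      congr 1
      apply Finset.sum_congr rfl
      intro v _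
      rw [map_mul, map_C, map_X, hp]
    · apply Finset.sum_congr rfl
      intro v _
      rw [map_mul, map_C, hc]
      unfold yy
      rw [map_add, map_X, map_X]
  have hwα : rename α w - w ∈ J := rename_welA S.cs.invol S.vp ha μR cR Δ
  have hT : ∀ f : MvPolynomial V R, (2 : R) • f ∈ J → f ∈ J := (tors_reg π H d le_rfl).1
  -- the derivative of the Lefschetz element
  have hdw : ∀ u ∈ VP, dmap (δ u) w = yy R α u := by
    intro u hu
    rw [hwdef]
    unfold welA
    rw [dmap_add, dmap_sum, dmap_sum]
    have h3 : ∀ l ∈ range d, dmap (δ u) (C (μR l) *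
        (∑ v ∈ VP, C (a l v) * X v : MvPolynomial V R)) = 0 := by
      intro l _
      rw [dmap_mul, dmap_C, δμ, dmap_sum, map_zero, zero_mul, zero_add]
      rw [Finset.sum_eq_zero, mul_zero]
      intro v _
      rw [dmap_mul, dmap_C, δa, dmap_X, map_zero, zero_mul, mul_zero, add_zero]
    rw [Finset.sum_eq_zero h3, zero_add]
    have h4 : ∀ v ∈ VP, dmap (δ u) (C (cR v) * yy R α v : MvPolynomial V R) =
        if u = v then yy R α v else 0 := by
      intro v _
      have h5 : dmap (δ u) (yy R α v) = 0 := by
        unfold yy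
        rw [dmap_add, dmap_X, dmap_X, add_zero]
      rw [dmap_mul, dmap_C, δc u hu, h5, mul_zero, add_zero]
      split_ifs <;> simp
    rw [Finset.sum_congr rfl h4, Finset.sum_ite_eq VP u, if_pos hu]
  -- main claim
  have main : ∀ ε : R, ε * ε = 1 → ∀ y : MvPolynomial V R, y.IsHomogeneous i →
      w ^ (k + 1) * y ∈ J → rename α y - ε • y ∈ J → y ∈ J := by
    intro ε hε y0 hy0 hwy0 hαy0
    let N : Submodule R (MvPolynomial V R) := J.restrictScalars R
    let U : Submodule R (MvPolynomial V R) :=
      { carrier := {x | x.IsHomogeneous i ∧ w ^ (k + 1) * x ∈ J ∧ rename α x - ε • x ∈ J}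
        add_mem' := by
          rintro x y ⟨h1, h2, h3⟩ ⟨h4, h5, h6⟩
          refine ⟨h1.add h4, by rw [mul_add]; exact Ideal.add_mem _ h2 h5, ?_⟩
          have := Ideal.add_mem _ h3 h6
          convert this using 1
          rw [map_add, smul_add]
          ring
        zero_mem' := ⟨isHomogeneous_zero _ _ _, by rw [mul_zero]; exact Ideal.zero_mem _,
          by rw [map_zero, smul_zero, sub_zero]; exact Ideal.zero_mem _⟩
        smul_mem' := by
          rintro r x ⟨h1, h2, h3⟩
          refine ⟨?_, ?_, ?_⟩
          · rw [smul_eq_C_mul]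
            have := (isHomogeneous_C V r).mul h1
            rwa [zero_add] at this
          · rw [smul_eq_C_mul, mul_left_comm]
            exact Ideal.mul_mem_left _ _ h2
          · have := Ideal.mul_mem_left _ (C r) h3
            convert this using 1
            rw [map_smul, mul_sub, smul_eq_C_mul, smul_eq_C_mul, smul_eq_C_mul, smul_eq_C_mul]
            ring }
    have hUN : U ≤ N := by
      apply nak H.max (n := i) N U (fun x hx => (mem_homogeneousSubmodule i x).mpr hx.1)
      rintro y ⟨hy1, hy2, hy3⟩
      -- derivative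
      have hder : ∀ u, w ^ k * yy R α u * y ^ 2 ∈ J := by
        have key : ∀ u ∈ VP, w ^ k * yy R α u * y ^ 2 ∈ J := by
          intro u hu
          have h1 := dmap_J H.hs.down (δ u) (δa u) hy2
          rw [dmap_mul, dmap_pow, hdw u hu] at h1
          have h2 := Ideal.mul_mem_left _ y h1
          have h3 : ((k + 1 : ℕ) : R) • (w ^ k * yy R α u * y ^ 2) ∈ J := by
            have h4 := Ideal.sub_mem _ h2 (Ideal.mul_mem_right (dmap (δ u) y) _ hy2)
            convert h4 using 1
            rw [smul_eq_C_mul, map_natCast]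
            ring
          exact tors π H (hchar (k + 1) (Nat.succ_ne_zero k)) h3
        intro u
        by_cases hu : u ∈ VP
        · exact key u hu
        · have h1 : α u ∈ VP := by
            by_contra h'
            exact hu ((S.vp u).mpr h')
          have h2 := key _ h1
          have h3 : yy R α (α u) = yy R α u := by
            unfold yy; rw [S.cs.invol]; ring
          rwa [h3] at h2
      -- reduction
      have hred : MvPolynomial.map π y ∈ Jid Δ (rows p) d := by
        apply char2_main S hd hflip hik (hy1.map π)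
        intro v
        set f := w ^ k * X v * y ^ 2 with hf
        have hwpow : rename α (w ^ k) - w ^ k ∈ J := by
          have : ∀ n : ℕ, rename α (w ^ n) - w ^ n ∈ J := by
            intro n
            induction n with
            | zero => rw [pow_zero, map_one, sub_self]; exact Ideal.zero_mem _
            | succ n ihn =>
              rw [pow_succ, map_mul]
              exact mul_sub_mem' ihn hwα
          exact this k
        have hysq : rename α (y ^ 2) - y ^ 2 ∈ J := by
          have h1 : rename α (y ^ 2) - y ^ 2 =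
              (rename α y - ε • y) * (rename α y + ε • y) := by
            rw [map_pow, smul_eq_C_mul]
            have h2 : (C ε * y) * (C ε * y) = y ^ 2 := by
              have : (C ε * y) * (C ε * y) = C (ε * ε) * y ^ 2 := by rw [map_mul]; ring
              rw [this, hε, map_one, one_mul]
            linear_combination h2
          rw [h1]
          exact Ideal.mul_mem_right _ _ hy3
        have hfα : f + rename α f ∈ J := by
          have h1 : f + rename α f = w ^ k * yy R α v * y ^ 2 +
              X (α v) * (rename α (w ^ k) * rename α (y ^ 2) - w ^ k * y ^ 2) := by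
            rw [hf, map_mul, map_mul, rename_X]
            unfold yy
            ring
          rw [h1]
          exact Ideal.add_mem _ (hder v) (Ideal.mul_mem_left _ _ (mul_sub_mem' hwpow hysq))
        obtain ⟨g, hg⟩ := star H S.cs ha d le_rfl f hfα
        have hfh : f.IsHomogeneous d := by
          have h1 := (((welA_hom (d := d) (α := α) VP a μR cR).pow k).mul
            (isHomogeneous_X R v)).mul (hy1.pow 2)
          rw [← hwdef, ← hf] at h1
          convert h1 using 1
          omega
        have hg2 := homComp_mem_J H.hs.down d hg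
        rw [map_sub, map_sub, homComp_self hfh] at hg2
        have hcr : homogeneousComponent d (rename α g) = rename α (homogeneousComponent d g) := by
          ext m
          rw [coeff_homogeneousComponent, coeff_rename_inv S.cs.invol,
            coeff_rename_inv S.cs.invol, coeff_homogeneousComponent]
          have : (m.mapDomain α).degree = m.degree := Finsupp.degree_mapDomain _ _
          rw [this]
        rw [hcr] at hg2
        set g' := homogeneousComponent d g with hg'
        have hg'h : g'.IsHomogeneous d := homogeneousComponent_isHomogeneous _ _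
        have h5 := map_J π H.hs.down hg2
        rw [map_sub, map_sub, map_rename, hrows] at h5
        have h6 : (MvPolynomial.map π f - (MvPolynomial.map π g' -
            rename α (MvPolynomial.map π g'))).IsHomogeneous d :=
          (hfh.map π).sub ((hg'h.map π).sub ((hg'h.map π).rename_isHomogeneous))
        have h7 := piF_J S hd h5 h6
        rw [map_sub, map_sub, piF_rename S.cols S.cs S.p_inv, sub_self, sub_zero] at h7
        have h8 : MvPolynomial.map π f = (wel d α VP p μ c) ^ k * X v * (MvPolynomial.map π y) ^ 2 := by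
          rw [hf, map_mul, map_mul, map_pow, map_pow, map_X, hmapw]
        rw [← h8]
        exact h7
      rw [← hrows] at hred
      obtain ⟨e, he, heh, y', hy', hyy⟩ := lift_J_hom π H.hs.down H.surj H.ker hy1 hred
      refine ⟨e, he, y', ⟨hy', ?_, ?_⟩, hyy⟩
      · apply hT
        have h4 : (2 : R) • (w ^ (k + 1) * y') = w ^ (k + 1) * y - w ^ (k + 1) * e := by
          rw [hyy, mul_add, mul_smul_comm]; ring
        rw [h4]
        exact Ideal.sub_mem _ hy2 (Ideal.mul_mem_left _ _ he)
      · apply hT
        have h4 : (2 : R) • (rename α y' - ε • y') =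
            (rename α y - ε • y) - (rename α e - ε • e) := by
          rw [hyy, map_add, map_smul, smul_add, smul_sub, smul_comm (2 : R) ε y']
          ring
        rw [h4]
        apply Ideal.sub_mem _ hy3
        apply Ideal.sub_mem _ (rename_J S.cs ha he)
        rw [smul_eq_C_mul]
        exact Ideal.mul_mem_left _ _ he
    exact hUN ⟨hy0, hwy0, hαy0⟩
  -- splitting into eigenvectors
  have hwαx : w ^ (k + 1) * rename α x ∈ J := by
    have h1 := rename_J S.cs ha hw
    rw [map_mul] at h1
    have hwpow : rename α (w ^ (k + 1)) - w ^ (k + 1) ∈ J := by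
      have : ∀ n : ℕ, rename α (w ^ n) - w ^ n ∈ J := by
        intro n
        induction n with
        | zero => rw [pow_zero, map_one, sub_self]; exact Ideal.zero_mem _
        | succ n ihn =>
          rw [pow_succ, map_mul]
          exact mul_sub_mem' ihn hwα
      exact this (k + 1)
    have h2 := Ideal.sub_mem _ h1 (Ideal.mul_mem_right (rename α x) _ hwpow)
    convert h2 using 1
    ring
  have hαx : (rename α x).IsHomogeneous i := hx.rename_isHomogeneous
  have h1 : x + rename α x ∈ J := by
    apply main 1 (one_mul 1) _ (hx.add hαx)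
    · rw [mul_add]; exact Ideal.add_mem _ hw hwαx
    · rw [map_add, rename_rename_inv S.cs.invol, one_smul, add_comm, sub_self]
      exact Ideal.zero_mem _
  have h2 : x - rename α x ∈ J := by
    apply main (-1) (by ring) _ (hx.sub hαx)
    · rw [mul_sub]; exact Ideal.sub_mem _ hw hwαx
    · rw [map_sub, rename_rename_inv S.cs.invol, neg_smul, one_smul, sub_neg_eq_add,
        sub_add_sub_cancel, sub_self]
      exact Ideal.zero_mem _
  apply hT
  have h3 := Ideal.add_mem _ h1 h2
  convert h3 using 1
  rw [two_smul]
  ring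

end local_

end CSLef
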