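import Mathlib
import Pool.Agent.Work.MP_38c61c_al.HomIdeal

/-!
Graded pieces of the quotient and the passage from injectivity to bijectivity.
-/

namespace CSLef

open MvPolynomial Finset

variable {V : Type} {K : Type*} [Field K]

/-- the graded piece of degree `n` of the quotient of the polynomial ring by `J` -/
noncomputable def gr (J : Ideal (MvPolynomial V K)) (n : ℕ) :
    Submodule K (MvPolynomial V K ⧸ J) :=
  (homogeneousSubmodule V K n).map (Ideal.Quotient.mkₐ K J).toLinearMap

theorem mem_gr {J : Ideal (MvPolynomial V K)} {n : ℕ} {x : MvPolynomial V K ⧸ J} :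
    x ∈ gr J n ↔ ∃ f : MvPolynomial V K, f.IsHomogeneous n ∧ Ideal.Quotient.mk J f = x := by
  unfold gr
  rw [Submodule.mem_map]
  constructor
  · rintro ⟨f, hf, rfl⟩
    exact ⟨f, (mem_homogeneousSubmodule n f).mp hf, rfl⟩
  · rintro ⟨f, hf, rfl⟩
    exact ⟨f, (mem_homogeneousSubmodule n f).mpr hf, rfl⟩

theorem mul_mem_gr {J : Ideal (MvPolynomial V K)} {n m : ℕ} {x y : MvPolynomial V K ⧸ J}
    (hx : x ∈ gr J n) (hy : y ∈ gr J m) : x * y ∈ gr J (n + m) := by
  obtain ⟨f, hf, rfl⟩ := mem_gr.mp hx
  obtain ⟨g, hg, rfl⟩ := mem_gr.mp hy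
  exact mem_gr.mpr ⟨f * g, hf.mul hg, map_mul _ _ _⟩

theorem pow_mem_gr {J : Ideal (MvPolynomial V K)} {x : MvPolynomial V K ⧸ J}
    (hx : x ∈ gr J 1) (k : ℕ) : x ^ k ∈ gr J k := by
  obtain ⟨f, hf, rfl⟩ := mem_gr.mp hx
  have := hf.pow k
  rw [one_mul] at this
  exact mem_gr.mpr ⟨f ^ k, this, map_pow _ _ _⟩

instance gr_finite [Finite V] (J : Ideal (MvPolynomial V K)) (n : ℕ) :
    Module.Finite K (gr J n) := by
  rw [Module.Finite.iff_fg]
  exact (homogeneousSubmodule_fg _ _ n).map _

theorem surj_of_inj [Finite V] {J : Ideal (MvPolynomial V K)} {d i k : ℕ} (hik : i + k + i = d)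
    {w : MvPolynomial V K ⧸ J} (hw : w ∈ gr J 1)
    (hinj : ∀ x ∈ gr J i, w ^ k * x = 0 → x = 0)
    (hnd : ∀ y ∈ gr J (i + k), (∀ x ∈ gr J i, y * x = 0) → y = 0)
    (htop : Module.finrank K (gr J d) ≤ 1) :
    ∀ y ∈ gr J (i + k), ∃ x ∈ gr J i, w ^ k * x = y := by
  have hwk : ∀ x ∈ gr J i, w ^ k * x ∈ gr J (i + k) := by
    intro x hx
    rw [add_comm]
    exact mul_mem_gr (pow_mem_gr hw k) hx
  let W : gr J i →ₗ[K] gr J (i + k) :=
    { toFun := fun x => ⟨w ^ k * x.1, hwk x.1 x.2⟩
      map_add' := by
        intro x y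
        apply Subtype.ext
        simp [mul_add]
      map_smul' := by
        intro r x
        apply Subtype.ext
        exact mul_smul_comm r (w ^ k) x.1 }
  have hWinj : Function.Injective W := by
    rw [injective_iff_map_eq_zero]
    intro x hx
    apply Subtype.ext
    exact hinj x.1 x.2 (congrArg Subtype.val hx)
  have hmem : ∀ y ∈ gr J (i + k), ∀ x ∈ gr J i, y * x ∈ gr J d := by
    intro y hy x hx
    rw [← hik]
    exact mul_mem_gr hy hx
  let B : gr J (i + k) →ₗ[K] (gr J i →ₗ[K] gr J d) :=
    { toFun := fun y =>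
        { toFun := fun x => ⟨y.1 * x.1, hmem y.1 y.2 x.1 x.2⟩
          map_add' := by
            intro x x'
            apply Subtype.ext
            simp [mul_add]
          map_smul' := by
            intro r x
            apply Subtype.ext
            exact mul_smul_comm r y.1 x.1 }
      map_add' := by
        intro y y'
        apply LinearMap.ext
        intro x
        apply Subtype.ext
        simp [add_mul]
      map_smul' := by
        intro r y
        apply LinearMap.ext
        intro x
        apply Subtype.ext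
        exact smul_mul_assoc r y.1 x.1 }
  have hBinj : Function.Injective B := by
    rw [injective_iff_map_eq_zero]
    intro y hy
    apply Subtype.ext
    apply hnd y.1 y.2
    intro x hx
    exact congrArg Subtype.val (DFunLike.congr_fun hy ⟨x, hx⟩)
  have h1 := LinearMap.finrank_le_finrank_of_injective hBinj
  rw [Module.finrank_linearMap] at h1
  have h2 := LinearMap.finrank_le_finrank_of_injective hWinj
  have h3 : Module.finrank K (gr J i) * Module.finrank K (gr J d) ≤
      Module.finrank K (gr J i) * 1 := Nat.mul_le_mul_left _ htop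
  rw [mul_one] at h3
  have h4 : Module.finrank K (gr J i) = Module.finrank K (gr J (i + k)) := by omega
  have hsurj := (LinearMap.injective_iff_surjective_of_finrank_eq_finrank h4).mp hWinj
  intro y hy
  obtain ⟨x, hx⟩ := hsurj ⟨y, hy⟩
  exact ⟨x.1, x.2, congrArg Subtype.val hx⟩

end CSLef
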