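import Mathlib
import Pool.Agent.Work.MP_38c61c_al.Lattice
import Pool.Agent.Work.MP_38c61c_al.Dual

/-!
Passage to the field of fractions and to certificates over the polynomial ring.
-/

namespace CSLef

open MvPolynomial Finset

variable {V : Type} [Fintype V] [DecidableEq V]

/-- a domain inside a field of which every element has a denominator -/
structure Den {A K : Type*} [CommRing A] [Field K] (φ : A →+* K) : Prop where
  inj : Function.Injective φ
  den : ∀ x : K, ∃ s : A, s ≠ 0 ∧ ∃ r : A, φ s * x = φ r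

section den

variable {A K : Type*} [CommRing A] [IsDomain A] [Field K] {φ : A →+* K} (hφ : Den φ)

include hφ

theorem Den.ne {s : A} (hs : s ≠ 0) : φ s ≠ 0 := by
  intro h
  apply hs
  apply hφ.inj
  rw [h, map_zero]

theorem den_finset {ι : Type*} (I : Finset ι) (x : ι → K) :
    ∃ s : A, s ≠ 0 ∧ ∀ i ∈ I, ∃ r : A, φ s * x i = φ r := by
  classical
  induction I using Finset.induction_on with
  | empty => exact ⟨1, one_ne_zero, fun i hi => absurd hi (Finset.notMem_empty i)⟩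
  | insert i I hi ih =>
    obtain ⟨s, hs, h⟩ := ih
    obtain ⟨s', hs', r', h'⟩ := hφ.den (x i)
    refine ⟨s * s', mul_ne_zero hs hs', ?_⟩
    intro j hj
    rcases Finset.mem_insert.mp hj with rfl | hj
    · exact ⟨s * r', by rw [map_mul, map_mul, mul_assoc, h']⟩
    · obtain ⟨r, hr⟩ := h j hj
      exact ⟨s' * r, by rw [map_mul, map_mul, mul_comm (φ s), mul_assoc, hr]⟩

theorem den_poly {ι : Type*} (I : Finset ι) (f : ι → MvPolynomial V K) :
    ∃ s : A, s ≠ 0 ∧ ∀ i ∈ I, ∃ f' : MvPolynomial V A, C (φ s) * f i = MvPolynomial.map φ f' := by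
  classical
  obtain ⟨s, hs, h⟩ := den_finset hφ (I.biUnion (fun i => (f i).support.image
    (fun m => coeff m (f i)))) (fun x => x)
  refine ⟨s, hs, ?_⟩
  intro i hi
  have h1 : ∀ m, ∃ r : A, φ s * coeff m (f i) = φ r := by
    intro m
    by_cases hm : m ∈ (f i).support
    · apply h
      rw [Finset.mem_biUnion]
      exact ⟨i, hi, Finset.mem_image_of_mem _ hm⟩
    · refine ⟨0, ?_⟩
      rw [notMem_support_iff.mp hm, mul_zero, map_zero]
  choose r hr using h1
  refine ⟨∑ m ∈ (f i).support, monomial m (r m), ?_⟩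
  rw [map_sum]
  simp only [map_monomial]
  conv_lhs => rw [← support_sum_monomial_coeff (f i)]
  rw [Finset.mul_sum]
  apply Finset.sum_congr rfl
  intro m _
  rw [C_mul_monomial, hr]

theorem map_hom_iff {f' : MvPolynomial V A} {n : ℕ} (h : (MvPolynomial.map φ f').IsHomogeneous n) :
    f'.IsHomogeneous n := by
  intro m hm
  apply h
  rw [coeff_map]
  exact Den.ne hφ hm

variable {Δ : Finset (Finset V)} (hdown : ∀ F ∈ Δ, ∀ G, G ⊆ F → G ∈ Δ) {a : ℕ → V → A}

include hdown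

theorem descend_sr {f : MvPolynomial V A} (hf : MvPolynomial.map φ f ∈ srIdeal K Δ) :
    f ∈ srIdeal A Δ := by
  rw [mem_sr_iff hdown] at hf ⊢
  intro m hm
  apply hf
  rw [coeff_map]
  exact Den.ne hφ hm

theorem descend_J {j : ℕ} {f : MvPolynomial V A}
    (hf : MvPolynomial.map φ f ∈ Jid Δ (fun l v => φ (a l v)) j) :
    ∃ s : A, s ≠ 0 ∧ C s * f ∈ Jid Δ a j := by
  obtain ⟨g, hg⟩ := (mem_J_iff j _).mp hf
  obtain ⟨s, hs, h⟩ := den_poly hφ (range j) g
  have h' : ∀ l, ∃ g' : MvPolynomial V A, l ∈ range j → C (φ s) * g l = MvPolynomial.map φ g' := by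
    intro l
    by_cases hl : l ∈ range j
    · obtain ⟨g', hg'⟩ := h l hl
      exact ⟨g', fun _ => hg'⟩
    · exact ⟨0, fun h => absurd h hl⟩
  choose G hG using h'
  refine ⟨s, hs, (mem_J_iff j _).mpr ⟨G, ?_⟩⟩
  apply descend_sr hφ hdown
  have h1 := Ideal.mul_mem_left _ (C (φ s)) hg
  convert h1 using 1
  rw [map_sub, map_mul, map_C, map_sum, mul_sub, Finset.mul_sum]
  congr 1
  apply Finset.sum_congr rfl
  intro l hl
  rw [map_mul, map_lin, ← hG l hl]
  ring

theorem descend_finset {j : ℕ} {ι : Type*} (I : Finset ι) (f : ι → MvPolynomial V A)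
    (hf : ∀ i ∈ I, MvPolynomial.map φ (f i) ∈ Jid Δ (fun l v => φ (a l v)) j) :
    ∃ s : A, s ≠ 0 ∧ ∀ i ∈ I, C s * f i ∈ Jid Δ a j := by
  classical
  induction I using Finset.induction_on with
  | empty => exact ⟨1, one_ne_zero, fun i hi => absurd hi (Finset.notMem_empty i)⟩
  | insert i I hi ih =>
    obtain ⟨s, hs, h⟩ := ih (fun j hj => hf j (Finset.mem_insert_of_mem hj))
    obtain ⟨s', hs', h'⟩ := descend_J hφ hdown (hf i (Finset.mem_insert_self i I))
    refine ⟨s * s', mul_ne_zero hs hs', ?_⟩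
    intro j hj
    rcases Finset.mem_insert.mp hj with rfl | hj
    · rw [map_mul, mul_assoc]
      exact Ideal.mul_mem_left _ _ h'
    · rw [map_mul, mul_comm (C s), mul_assoc]
      exact Ideal.mul_mem_left _ _ (h j hj)

end den

section klevel

variable {R K : Type*} [CommRing R] [IsDomain R] [Field K] {φ : R →+* K} (hφ : Den φ)
  {Δ : Finset (Finset V)} (hdown : ∀ F ∈ Δ, ∀ G, G ⊆ F → G ∈ Δ) {a : ℕ → V → R} {d : ℕ}
  (htors : ∀ s : R, s ≠ 0 → ∀ f : MvPolynomial V R, s • f ∈ Jid Δ a d → f ∈ Jid Δ a d)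

include hφ hdown htors

theorem descend_tors {f : MvPolynomial V R}
    (hf : MvPolynomial.map φ f ∈ Jid Δ (fun l v => φ (a l v)) d) : f ∈ Jid Δ a d := by
  obtain ⟨s, hs, h⟩ := descend_J hφ hdown hf
  rw [← smul_eq_C_mul] at h
  exact htors s hs f h

omit hdown htors in
theorem clear_hom {n : ℕ} {f : MvPolynomial V K} (hf : f.IsHomogeneous n) :
    ∃ s : R, s ≠ 0 ∧ ∃ f' : MvPolynomial V R, f'.IsHomogeneous n ∧
      C (φ s) * f = MvPolynomial.map φ f' := by
  obtain ⟨s, hs, h⟩ := den_poly hφ {()} (fun _ => f)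
  obtain ⟨f', hf'⟩ := h () (Finset.mem_singleton_self _)
  refine ⟨s, hs, f', ?_, hf'⟩
  apply map_hom_iff hφ
  rw [← hf']
  have := (isHomogeneous_C V (φ s)).mul hf
  rwa [zero_add] at this

omit htors hdown in
theorem unscale {j : ℕ} {s : R} (hs : s ≠ 0) {f : MvPolynomial V K}
    (h : C (φ s) * f ∈ Jid Δ (fun l v => φ (a l v)) j) : f ∈ Jid Δ (fun l v => φ (a l v)) j := by
  have h1 := Ideal.mul_mem_left _ (C (φ s)⁻¹) h
  rw [← mul_assoc, ← map_mul, inv_mul_cancel₀ (Den.ne hφ hs), map_one, one_mul] at h1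
  exact h1

theorem k_inj {w : MvPolynomial V R} {i k : ℕ}
    (h : ∀ x : MvPolynomial V R, x.IsHomogeneous i → w ^ k * x ∈ Jid Δ a d → x ∈ Jid Δ a d)
    {x : MvPolynomial V K} (hx : x.IsHomogeneous i)
    (hw : (MvPolynomial.map φ w) ^ k * x ∈ Jid Δ (fun l v => φ (a l v)) d) :
    x ∈ Jid Δ (fun l v => φ (a l v)) d := by
  obtain ⟨s, hs, x', hx', hxx⟩ := clear_hom hφ hx
  apply unscale hφ hs
  rw [hxx]
  apply map_J φ hdown
  apply h x' hx'
  apply descend_tors hφ hdown htors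
  rw [map_mul, map_pow, ← hxx, mul_left_comm]
  exact Ideal.mul_mem_left _ _ hw

theorem k_nondeg {i k : ℕ}
    (h : ∀ f : MvPolynomial V R, f.IsHomogeneous i → (∀ g : MvPolynomial V R,
      g.IsHomogeneous k → g * f ∈ Jid Δ a d) → f ∈ Jid Δ a d)
    {f : MvPolynomial V K} (hf : f.IsHomogeneous i)
    (hg : ∀ g : MvPolynomial V K, g.IsHomogeneous k →
      g * f ∈ Jid Δ (fun l v => φ (a l v)) d) :
    f ∈ Jid Δ (fun l v => φ (a l v)) d := by
  obtain ⟨s, hs, f', hf', hff⟩ := clear_hom hφ hf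
  apply unscale hφ hs
  rw [hff]
  apply map_J φ hdown
  apply h f' hf'
  intro g hgh
  apply descend_tors hφ hdown htors
  rw [map_mul, ← hff, mul_left_comm]
  exact Ideal.mul_mem_left _ _ (hg _ (hgh.map φ))

omit htors in
theorem k_large {n : ℕ} (h : ∀ f : MvPolynomial V R, f.IsHomogeneous n → f ∈ Jid Δ a d)
    {f : MvPolynomial V K} (hf : f.IsHomogeneous n) : f ∈ Jid Δ (fun l v => φ (a l v)) d := by
  obtain ⟨s, hs, f', hf', hff⟩ := clear_hom hφ hf
  apply unscale hφ hs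
  rw [hff]
  exact map_J φ hdown (h f' hf')

omit htors in
theorem k_top {ξ : MvPolynomial V R}
    (h : ∀ f : MvPolynomial V R, f.IsHomogeneous d → ∃ r : R, f - r • ξ ∈ Jid Δ a d) :
    Module.finrank K (gr (Jid Δ (fun l v => φ (a l v)) d) d) ≤ 1 := by
  set J := Jid Δ (fun l v => φ (a l v)) d with hJ
  have hle : gr J d ≤ Submodule.span K {Ideal.Quotient.mk J (MvPolynomial.map φ ξ)} := by
    intro x hx
    obtain ⟨f, hf, rfl⟩ := mem_gr.mp hx
    obtain ⟨s, hs, f', hf', hff⟩ := clear_hom hφ hf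
    obtain ⟨r, hr⟩ := h f' hf'
    have h1 := map_J φ hdown hr
    rw [Submodule.mem_span_singleton]
    refine ⟨(φ s)⁻¹ * φ r, ?_⟩
    have h2 : f - C ((φ s)⁻¹ * φ r) * MvPolynomial.map φ ξ ∈ J := by
      have h3 := Ideal.mul_mem_left _ (C (φ s)⁻¹) h1
      have e1 : MvPolynomial.map φ (f' - r • ξ) = C (φ s) * f - C (φ r) * MvPolynomial.map φ ξ := by
        rw [map_sub, ← hff, smul_eq_C_mul, map_mul, map_C]
      have e2 : (C (φ s)⁻¹ * C (φ s) : MvPolynomial V K) = 1 := by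
        rw [← map_mul, inv_mul_cancel₀ (Den.ne hφ hs), map_one]
      rw [e1, mul_sub, ← mul_assoc, e2, one_mul, ← mul_assoc, ← map_mul] at h3
      exact h3
    have h3 : Ideal.Quotient.mk J f =
        Ideal.Quotient.mk J (C ((φ s)⁻¹ * φ r) * MvPolynomial.map φ ξ) :=
      (Ideal.Quotient.mk_eq_mk_iff_sub_mem _ _).mpr h2
    rw [h3, ← smul_eq_C_mul]
    rfl
  calc Module.finrank K (gr J d) ≤
      Module.finrank K (Submodule.span K {Ideal.Quotient.mk J (MvPolynomial.map φ ξ)}) :=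
        Submodule.finrank_mono hle
    _ ≤ 1 := by
        have := finrank_span_le_card (R := K) {Ideal.Quotient.mk J (MvPolynomial.map φ ξ)}
        simpa using this

end klevel

/-- surjectivity in terms of polynomials -/
theorem k_surj {K : Type*} [Field K] {J : Ideal (MvPolynomial V K)} {d i k : ℕ}
    (hik : i + k + i = d) {w : MvPolynomial V K} (hw : w.IsHomogeneous 1)
    (hinj : ∀ x : MvPolynomial V K, x.IsHomogeneous i → w ^ k * x ∈ J → x ∈ J)
    (hnd : ∀ y : MvPolynomial V K, y.IsHomogeneous (i + k) →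
      (∀ x : MvPolynomial V K, x.IsHomogeneous i → x * y ∈ J) → y ∈ J)
    (htop : Module.finrank K (gr J d) ≤ 1) (y : MvPolynomial V K) (hy : y.IsHomogeneous (i + k)) :
    ∃ x : MvPolynomial V K, x.IsHomogeneous i ∧ w ^ k * x - y ∈ J := by
  obtain ⟨x, hx, hxy⟩ := surj_of_inj (J := J) hik (w := Ideal.Quotient.mk J w)
    (mem_gr.mpr ⟨w, hw, rfl⟩) (by
      intro x hx h0
      obtain ⟨f, hf, rfl⟩ := mem_gr.mp hx
      rw [← map_pow, ← map_mul, Ideal.Quotient.eq_zero_iff_mem] at h0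
      rw [Ideal.Quotient.eq_zero_iff_mem]
      exact hinj f hf h0) (by
      intro y hy h0
      obtain ⟨f, hf, rfl⟩ := mem_gr.mp hy
      rw [Ideal.Quotient.eq_zero_iff_mem]
      apply hnd f hf
      intro x hx
      have := h0 (Ideal.Quotient.mk J x) (mem_gr.mpr ⟨x, hx, rfl⟩)
      rw [← map_mul, Ideal.Quotient.eq_zero_iff_mem, mul_comm] at this
      exact this) htop (Ideal.Quotient.mk J y) (mem_gr.mpr ⟨y, hy, rfl⟩)
  obtain ⟨f, hf, rfl⟩ := mem_gr.mp hx
  refine ⟨f, hf, ?_⟩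
  rw [← map_pow, ← map_mul] at hxy
  exact (Ideal.Quotient.mk_eq_mk_iff_sub_mem _ _).mp hxy

end CSLef
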