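import Mathlib
import Pool.Agent.Work.MP_38c61c_al.Frac

/-!
Certificates for bijectivity and their specialization.
-/

namespace CSLef

open MvPolynomial Finset

variable {V : Type} [Fintype V] [DecidableEq V]

/-- the monomials of degree `n` -/
def Mon (V : Type) [Fintype V] [DecidableEq V] (n : ℕ) : Finset (V →₀ ℕ) :=
  (Finset.univ : Finset V).finsuppAntidiag n

theorem mem_Mon {n : ℕ} {m : V →₀ ℕ} : m ∈ Mon V n ↔ m.degree = n := by
  unfold Mon
  rw [Finset.mem_finsuppAntidiag, Finsupp.degree_eq_sum]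
  simp

section general

variable {A : Type*} [CommRing A]

theorem monomial_hom {n : ℕ} {m : V →₀ ℕ} (hm : m ∈ Mon V n) (b : A) :
    (monomial m b).IsHomogeneous n := isHomogeneous_monomial b (mem_Mon.mp hm)

theorem hom_sum_Mon {n : ℕ} {f : MvPolynomial V A} (hf : f.IsHomogeneous n) :
    f = ∑ m ∈ Mon V n, C (coeff m f) * monomial m 1 := by
  ext m'
  rw [coeff_sum]
  simp only [C_mul_monomial, mul_one, coeff_monomial]
  rw [Finset.sum_ite_eq' (Mon V n) m']
  split_ifs with h
  · rfl
  · by_contra hne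
    exact h (mem_Mon.mpr (hf.degree_eq_sum_deg_support (mem_support_iff.mpr hne) |>.symm ▸ rfl))

theorem map_mon_one {B : Type*} [CommRing B] (φ : A →+* B) (n : V →₀ ℕ) :
    MvPolynomial.map φ (monomial n (1 : A)) = monomial n 1 := by
  rw [map_monomial, map_one]

/-- linear extension of a function on monomials -/
noncomputable def Lam (L : (V →₀ ℕ) → MvPolynomial V A) (n : ℕ) (f : MvPolynomial V A) :
    MvPolynomial V A := ∑ m ∈ Mon V n, C (coeff m f) * L m

theorem Lam_add (L : (V →₀ ℕ) → MvPolynomial V A) (n : ℕ) (f g : MvPolynomial V A) :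
    Lam L n (f + g) = Lam L n f + Lam L n g := by
  unfold Lam
  simp only [coeff_add, map_add, add_mul, Finset.sum_add_distrib]

theorem Lam_C_mul (L : (V →₀ ℕ) → MvPolynomial V A) (n : ℕ) (b : A) (f : MvPolynomial V A) :
    Lam L n (C b * f) = C b * Lam L n f := by
  unfold Lam
  rw [Finset.mul_sum]
  apply Finset.sum_congr rfl
  intro m _
  rw [coeff_C_mul, map_mul, mul_assoc]

theorem Lam_sum {ι : Type*} (L : (V →₀ ℕ) → MvPolynomial V A) (n : ℕ) (I : Finset ι)
    (f : ι → MvPolynomial V A) : Lam L n (∑ i ∈ I, f i) = ∑ i ∈ I, Lam L n (f i) := by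
  unfold Lam
  rw [Finset.sum_comm]
  apply Finset.sum_congr rfl
  intro m _
  rw [coeff_sum, map_sum, Finset.sum_mul]

theorem Lam_hom {L : (V →₀ ℕ) → MvPolynomial V A} {i : ℕ} (hL : ∀ n, (L n).IsHomogeneous i)
    (n : ℕ) (f : MvPolynomial V A) : (Lam L n f).IsHomogeneous i := by
  apply IsHomogeneous.sum
  intro m _
  have := (isHomogeneous_C V (coeff m f)).mul (hL m)
  rwa [zero_add] at this

theorem Lam_monomial (L : (V →₀ ℕ) → MvPolynomial V A) {n : ℕ} {m : V →₀ ℕ} (hm : m ∈ Mon V n) :
    Lam L n (monomial m 1) = L m := by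
  unfold Lam
  rw [Finset.sum_eq_single m]
  · rw [coeff_monomial, if_pos rfl, map_one, one_mul]
  · intro m' _ hne
    rw [coeff_monomial, if_neg (Ne.symm hne), map_zero, zero_mul]
  · intro h; exact absurd hm h

/-- certificate of bijectivity of multiplication by `w ^ k` in degree `i` -/
structure Cert (Δ : Finset (Finset V)) (a : ℕ → V → A) (d : ℕ) (w : MvPolynomial V A)
    (i k : ℕ) (g : A) (L : (V →₀ ℕ) → MvPolynomial V A) : Prop where
  hom : ∀ n, (L n).IsHomogeneous i
  c1 : ∀ n ∈ Mon V (i + k), w ^ k * L n - C g * monomial n 1 ∈ Jid Δ a d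
  c2 : ∀ m ∈ Mon V i, Lam L (i + k) (w ^ k * monomial m 1) - C g * monomial m 1 ∈ Jid Δ a d
  c3 : ∀ l < d, ∀ n', n' + 1 = i + k → ∀ n ∈ Mon V n',
    Lam L (i + k) (lin (a l) * monomial n 1) ∈ Jid Δ a d
  c4 : ∀ n ∈ Mon V (i + k), n.support ∉ Δ → L n ∈ Jid Δ a d

end general

section specialize

variable {A B : Type*} [CommRing A] [Field B] (ψ : A →+* B) {Δ : Finset (Finset V)}
  {a : ℕ → V → A} {d : ℕ} {w : MvPolynomial V A} {i k : ℕ} {g : A}
  {L : (V →₀ ℕ) → MvPolynomial V A}

theorem map_Lam (n : ℕ) (f : MvPolynomial V A) :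
    MvPolynomial.map ψ (Lam L n f) =
      Lam (fun m => MvPolynomial.map ψ (L m)) n (MvPolynomial.map ψ f) := by
  unfold Lam
  rw [map_sum]
  apply Finset.sum_congr rfl
  intro m _
  rw [map_mul, map_C, coeff_map]

theorem Cert.map (hdown : ∀ F ∈ Δ, ∀ G, G ⊆ F → G ∈ Δ) (h : Cert Δ a d w i k g L) :
    Cert Δ (fun l v => ψ (a l v)) d (MvPolynomial.map ψ w) i k (ψ g)
      (fun m => MvPolynomial.map ψ (L m)) where
  hom := fun n => (h.hom n).map ψ
  c1 := by
    intro n hn
    have := map_J ψ hdown (h.c1 n hn)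
    rw [map_sub, map_mul, map_mul, map_pow, map_C, map_mon_one] at this
    exact this
  c2 := by
    intro m hm
    have := map_J ψ hdown (h.c2 m hm)
    rw [map_sub, map_mul, map_Lam, map_mul, map_pow, map_C, map_mon_one] at this
    exact this
  c3 := by
    intro l hl n' hn' n hn
    have := map_J ψ hdown (h.c3 l hl n' hn' n hn)
    rw [map_Lam, map_mul, map_lin, map_mon_one] at this
    exact this
  c4 := by
    intro n hn hns
    exact map_J ψ hdown (h.c4 n hn hns)

end specialize

section field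

variable {B : Type*} [Field B] {Δ : Finset (Finset V)}
  {a : ℕ → V → B} {d : ℕ} {w : MvPolynomial V B} {i k : ℕ} {g : B}
  {L : (V →₀ ℕ) → MvPolynomial V B}

theorem Cert.surj (h : Cert Δ a d w i k g L) (hg : g ≠ 0) (y : MvPolynomial V B)
    (hy : y.IsHomogeneous (i + k)) :
    ∃ x : MvPolynomial V B, x.IsHomogeneous i ∧ w ^ k * x - y ∈ Jid Δ a d := by
  refine ⟨C g⁻¹ * Lam L (i + k) y, ?_, ?_⟩
  · have := (isHomogeneous_C V g⁻¹).mul (Lam_hom h.hom (i + k) y)
    rwa [zero_add] at this
  · have h1 : w ^ k * Lam L (i + k) y - C g * y ∈ Jid Δ a d := by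
      rw [hom_sum_Mon hy, Lam_sum, Finset.mul_sum, Finset.mul_sum, ← Finset.sum_sub_distrib]
      apply Ideal.sum_mem
      intro m hm
      rw [Lam_C_mul, Lam_monomial L hm]
      have := Ideal.mul_mem_left _ (C (coeff m y)) (h.c1 m hm)
      convert this using 1
      ring
    have h2 := Ideal.mul_mem_left _ (C g⁻¹) h1
    have e2 : (C g⁻¹ * C g : MvPolynomial V B) = 1 := by
      rw [← map_mul, inv_mul_cancel₀ hg, map_one]
    convert h2 using 1
    linear_combination y * e2

theorem Cert.inj (h : Cert Δ a d w i k g L) (hg : g ≠ 0)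
    (hdown : ∀ F ∈ Δ, ∀ G, G ⊆ F → G ∈ Δ) (hd : 1 ≤ d) (hik : i + k + i = d)
    (hw : w.IsHomogeneous 1) {x : MvPolynomial V B} (hx : x.IsHomogeneous i)
    (hwx : w ^ k * x ∈ Jid Δ a d) : x ∈ Jid Δ a d := by
  -- the certificate kills the ideal
  have hkill : ∀ y : MvPolynomial V B, y.IsHomogeneous (i + k) → y ∈ Jid Δ a d →
      Lam L (i + k) y ∈ Jid Δ a d := by
    intro y hy hyJ
    obtain ⟨n', hn'⟩ : ∃ n', n' + 1 = i + k := ⟨i + k - 1, by omega⟩
    rw [← hn'] at hy
    obtain ⟨G, hG1, hG2⟩ := mem_J_hom hdown hyJ hy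
    set h0 := y - ∑ l ∈ range d, lin (a l) * G l with hh0
    have hy2 : y = h0 + ∑ l ∈ range d, lin (a l) * G l := by rw [hh0]; ring
    rw [hy2, Lam_add, Lam_sum]
    apply Ideal.add_mem
    · unfold Lam
      apply Ideal.sum_mem
      intro m hm
      by_cases hc : coeff m h0 = 0
      · rw [hc, map_zero, zero_mul]; exact Ideal.zero_mem _
      · exact Ideal.mul_mem_left _ _ (h.c4 m hm ((mem_sr_iff hdown _).mp hG2 m hc))
    · apply Ideal.sum_mem
      intro l hl
      rw [hom_sum_Mon (hG1 l), Finset.mul_sum, Lam_sum]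
      apply Ideal.sum_mem
      intro m hm
      rw [mul_left_comm, Lam_C_mul]
      exact Ideal.mul_mem_left _ _ (h.c3 l (Finset.mem_range.mp hl) n' hn' m hm)
  have h1 : Lam L (i + k) (w ^ k * x) - C g * x ∈ Jid Δ a d := by
    rw [hom_sum_Mon hx, Finset.mul_sum, Lam_sum, Finset.mul_sum, ← Finset.sum_sub_distrib]
    apply Ideal.sum_mem
    intro m hm
    rw [mul_left_comm, Lam_C_mul]
    have := Ideal.mul_mem_left _ (C (coeff m x)) (h.c2 m hm)
    convert this using 1
    ring
  have hwxh : (w ^ k * x).IsHomogeneous (i + k) := by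
    have := (hw.pow k).mul hx
    rwa [one_mul, add_comm] at this
  have h2 := Ideal.sub_mem _ (hkill _ hwxh hwx) h1
  rw [sub_sub_cancel] at h2
  have h3 := Ideal.mul_mem_left _ (C g⁻¹) h2
  have e2 : (C g⁻¹ * C g : MvPolynomial V B) = 1 := by
    rw [← map_mul, inv_mul_cancel₀ hg, map_one]
  rw [← mul_assoc, e2, one_mul] at h3
  exact h3

end field

section construct

variable {A K : Type*} [CommRing A] [IsDomain A] [Field K] {φ : A →+* K} (hφ : Den φ)
  {Δ : Finset (Finset V)} (hdown : ∀ F ∈ Δ, ∀ G, G ⊆ F → G ∈ Δ) {a : ℕ → V → A} {d : ℕ}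
  {w : MvPolynomial V A} {i k : ℕ}

include hφ hdown

theorem cert_exists (hw : w.IsHomogeneous 1)
    (hinj : ∀ x : MvPolynomial V K, x.IsHomogeneous i →
      (MvPolynomial.map φ w) ^ k * x ∈ Jid Δ (fun l v => φ (a l v)) d →
      x ∈ Jid Δ (fun l v => φ (a l v)) d)
    (hsurj : ∀ y : MvPolynomial V K, y.IsHomogeneous (i + k) → ∃ x : MvPolynomial V K,
      x.IsHomogeneous i ∧ (MvPolynomial.map φ w) ^ k * x - y ∈ Jid Δ (fun l v => φ (a l v)) d) :
    ∃ g : A, g ≠ 0 ∧ ∃ L : (V →₀ ℕ) → MvPolynomial V A, Cert Δ a d w i k g L := by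
  classical
  set JK := Jid Δ (fun l v => φ (a l v)) d with hJK
  set wK := MvPolynomial.map φ w with hwK
  have hx : ∀ n : V →₀ ℕ, ∃ x : MvPolynomial V K, x.IsHomogeneous i ∧
      (n ∈ Mon V (i + k) → wK ^ k * x - monomial n 1 ∈ JK) := by
    intro n
    by_cases hn : n ∈ Mon V (i + k)
    · obtain ⟨x, h1, h2⟩ := hsurj (monomial n 1) (monomial_hom hn 1)
      exact ⟨x, h1, fun _ => h2⟩
    · exact ⟨0, isHomogeneous_zero _ _ _, fun h => absurd h hn⟩
  choose x hx1 hx2 using hx
  obtain ⟨s0, hs0, hL⟩ := den_poly hφ (Mon V (i + k)) x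
  have hL' : ∀ n : V →₀ ℕ, ∃ f' : MvPolynomial V A, f'.IsHomogeneous i ∧
      (n ∈ Mon V (i + k) → C (φ s0) * x n = MvPolynomial.map φ f') := by
    intro n
    by_cases hn : n ∈ Mon V (i + k)
    · obtain ⟨f', hf'⟩ := hL n hn
      refine ⟨f', ?_, fun _ => hf'⟩
      apply map_hom_iff hφ
      rw [← hf']
      have := (isHomogeneous_C V (φ s0)).mul (hx1 n)
      rwa [zero_add] at this
    · exact ⟨0, isHomogeneous_zero _ _ _, fun h => absurd h hn⟩
  choose L0 hL0 hL0' using hL'
  have hmon : ∀ n ∈ Mon V (i + k),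
      wK ^ k * MvPolynomial.map φ (L0 n) - C (φ s0) * monomial n 1 ∈ JK := by
    intro n hn
    rw [← hL0' n hn]
    have := Ideal.mul_mem_left _ (C (φ s0)) (hx2 n hn)
    convert this using 1
    ring
  have hG : ∀ f : MvPolynomial V A, f.IsHomogeneous (i + k) →
      wK ^ k * MvPolynomial.map φ (Lam L0 (i + k) f) - C (φ s0) * MvPolynomial.map φ f ∈ JK := by
    intro f hf
    have h1 : MvPolynomial.map φ f = ∑ m ∈ Mon V (i + k), C (φ (coeff m f)) * monomial m 1 := by
      conv_lhs => rw [hom_sum_Mon hf]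
      rw [map_sum]
      apply Finset.sum_congr rfl
      intro m _
      rw [map_mul, map_C, map_mon_one]
    have h2 : MvPolynomial.map φ (Lam L0 (i + k) f) =
        ∑ m ∈ Mon V (i + k), C (φ (coeff m f)) * MvPolynomial.map φ (L0 m) := by
      unfold Lam
      rw [map_sum]
      apply Finset.sum_congr rfl
      intro m _
      rw [map_mul, map_C]
    rw [h1, h2, Finset.mul_sum, Finset.mul_sum, ← Finset.sum_sub_distrib]
    apply Ideal.sum_mem
    intro m hm
    have := Ideal.mul_mem_left _ (C (φ (coeff m f))) (hmon m hm)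
    convert this using 1
    ring
  have hZ : ∀ f : MvPolynomial V A, f.IsHomogeneous (i + k) → MvPolynomial.map φ f ∈ JK →
      MvPolynomial.map φ (Lam L0 (i + k) f) ∈ JK := by
    intro f hf hfJ
    apply hinj _ ((Lam_hom hL0 (i + k) f).map φ)
    have := Ideal.add_mem _ (hG f hf) (Ideal.mul_mem_left _ (C (φ s0)) hfJ)
    rwa [sub_add_cancel] at this
  -- the four families
  obtain ⟨s1, hs1, h1⟩ := descend_finset hφ hdown (a := a) (j := d) (Mon V (i + k))
    (fun n => w ^ k * L0 n - C s0 * monomial n 1) (by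
      intro n hn
      have := hmon n hn
      rw [map_sub, map_mul, map_mul, map_pow, map_C, map_mon_one]
      exact this)
  obtain ⟨s2, hs2, h2⟩ := descend_finset hφ hdown (a := a) (j := d) (Mon V i)
    (fun m => Lam L0 (i + k) (w ^ k * monomial m 1) - C s0 * monomial m 1) (by
      intro m hm
      have hmh : (w ^ k * monomial m 1 : MvPolynomial V A).IsHomogeneous (i + k) := by
        have := (hw.pow k).mul (monomial_hom hm (1 : A))
        rwa [one_mul, add_comm] at this
      apply hinj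
      · apply IsHomogeneous.map
        apply (Lam_hom hL0 _ _).sub
        have := (isHomogeneous_C V s0).mul (monomial_hom hm (1 : A))
        rwa [zero_add] at this
      · have := hG _ hmh
        convert this using 1
        rw [map_sub, map_mul, map_mul, map_pow, map_C, map_mon_one]
        ring)
  obtain ⟨s3, hs3, h3⟩ := descend_finset hφ hdown (a := a) (j := d)
    ((range d) ×ˢ (Mon V (i + k - 1)))
    (fun q => if i + k = 0 then 0 else Lam L0 (i + k) (lin (a q.1) * monomial q.2 1)) (by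
      rintro ⟨l, n⟩ hq
      rw [Finset.mem_product] at hq
      by_cases h0 : i + k = 0
      · simp only [h0, if_true, map_zero]; exact Ideal.zero_mem _
      · simp only [h0, if_false]
        apply hZ
        · have hlin : (lin (a l)).IsHomogeneous 1 := by
            unfold lin
            apply IsHomogeneous.sum
            intro v _
            rw [show 1 = 0 + 1 from rfl]
            exact (isHomogeneous_C V _).mul (isHomogeneous_X A v)
          have := hlin.mul (monomial_hom hq.2 (1 : A))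
          convert this using 1
          omega
        · rw [map_mul]
          exact Ideal.mul_mem_right _ _ (map_J φ hdown (lin_mem_J (Finset.mem_range.mp hq.1))))
  obtain ⟨s4, hs4, h4⟩ := descend_finset hφ hdown (a := a) (j := d)
    ((Mon V (i + k)).filter (fun n => n.support ∉ Δ)) L0 (by
      intro n hn
      rw [Finset.mem_filter] at hn
      have := hZ (monomial n 1) (monomial_hom hn.1 1)
        (map_J φ hdown (sr_le_J d (monomial_mem_sr n 1 hn.2)))
      rwa [Lam_monomial L0 hn.1] at this)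
  refine ⟨s1 * s2 * s3 * s4 * s0, mul_ne_zero (mul_ne_zero (mul_ne_zero (mul_ne_zero hs1 hs2)
    hs3) hs4) hs0, fun n => C (s1 * s2 * s3 * s4) * L0 n, ?_⟩
  have hLam : ∀ f : MvPolynomial V A, Lam (fun n => C (s1 * s2 * s3 * s4) * L0 n) (i + k) f =
      C (s1 * s2 * s3 * s4) * Lam L0 (i + k) f := by
    intro f
    unfold Lam
    rw [Finset.mul_sum]
    apply Finset.sum_congr rfl
    intro m _
    ring
  constructor
  · intro n
    have := (isHomogeneous_C V (s1 * s2 * s3 * s4)).mul (hL0 n)
    rwa [zero_add] at this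
  · intro n hn
    have := Ideal.mul_mem_left _ (C (s2 * s3 * s4)) (h1 n hn)
    convert this using 1
    simp only [map_mul]
    ring
  · intro m hm
    have := Ideal.mul_mem_left _ (C (s1 * s3 * s4)) (h2 m hm)
    rw [hLam]
    convert this using 1
    simp only [map_mul]
    ring
  · intro l hl n' hn' n hn
    have hn2 : n ∈ Mon V (i + k - 1) := by
      have : n' = i + k - 1 := by omega
      rwa [← this]
    have h5 := h3 (l, n) (Finset.mem_product.mpr ⟨Finset.mem_range.mpr hl, hn2⟩)
    have h0 : ¬ (i + k = 0) := by omega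
    simp only [h0, if_false] at h5
    have := Ideal.mul_mem_left _ (C (s1 * s2 * s4)) h5
    rw [hLam]
    convert this using 1
    simp only [map_mul]
    ring
  · intro n hn hns
    have := Ideal.mul_mem_left _ (C (s1 * s2 * s3)) (h4 n (Finset.mem_filter.mpr ⟨hn, hns⟩))
    convert this using 1
    simp only [map_mul]
    ring

end construct

end CSLef
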