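import Mathlib

/-!
Lifting derivations to localizations and descending them to quotients.
-/

namespace CSLef

section lift

variable {k P R : Type*} [CommRing k] [CommRing P] [Algebra k P] [CommRing R] [Algebra P R]

/-- the ring homomorphism to the dual numbers attached to a derivation -/
noncomputable def toSq (D : Derivation k P P) : P →+* TrivSqZeroExt R R where
  toFun p := TrivSqZeroExt.inl (algebraMap P R p) + TrivSqZeroExt.inr (algebraMap P R (D p))
  map_one' := by
    rw [map_one, Derivation.map_one_eq_zero, map_zero, TrivSqZeroExt.inr_zero, add_zero,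
      TrivSqZeroExt.inl_one]
  map_mul' x y := by
    rw [Derivation.leibniz]
    apply TrivSqZeroExt.ext
    · simp
    · simp only [smul_eq_mul, map_add, map_mul, TrivSqZeroExt.snd_add, TrivSqZeroExt.snd_inl,
        TrivSqZeroExt.snd_inr, TrivSqZeroExt.snd_mul, TrivSqZeroExt.fst_add,
        TrivSqZeroExt.fst_inl, TrivSqZeroExt.fst_inr, MulOpposite.op_add, MulOpposite.op_zero,
        zero_add, add_zero, op_smul_eq_mul]
      ring
  map_zero' := by simp
  map_add' x y := by
    apply TrivSqZeroExt.ext
    · simp
    · simp only [map_add, TrivSqZeroExt.snd_add, TrivSqZeroExt.snd_inl,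
        TrivSqZeroExt.snd_inr, zero_add]

theorem toSq_fst (D : Derivation k P P) (p : P) :
    (toSq (R := R) D p).fst = algebraMap P R p := by
  simp [toSq]

theorem toSq_snd (D : Derivation k P P) (p : P) :
    (toSq (R := R) D p).snd = algebraMap P R (D p) := by
  change (TrivSqZeroExt.inl (algebraMap P R p) + TrivSqZeroExt.inr (algebraMap P R (D p))).snd = _
  rw [TrivSqZeroExt.snd_add, TrivSqZeroExt.snd_inl, TrivSqZeroExt.snd_inr, zero_add]

variable (M : Submonoid P) [IsLocalization M R]

theorem toSq_unit (D : Derivation k P P) (y : M) : IsUnit (toSq (R := R) D y) := by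
  rw [TrivSqZeroExt.isUnit_iff_isUnit_fst, toSq_fst]
  exact IsLocalization.map_units R y

/-- extension to the localization -/
noncomputable def sqLift (D : Derivation k P P) : R →+* TrivSqZeroExt R R :=
  IsLocalization.lift (M := M) (toSq_unit (R := R) M D)

theorem sqLift_algebraMap (D : Derivation k P P) (p : P) :
    sqLift (R := R) M D (algebraMap P R p) = toSq D p :=
  IsLocalization.lift_eq _ _

theorem sqLift_fst (D : Derivation k P P) (x : R) : (sqLift (R := R) M D x).fst = x := by
  have h : ((TrivSqZeroExt.fstHom R R R).toRingHom.comp (sqLift (R := R) M D)) = RingHom.id R := by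
    apply IsLocalization.ringHom_ext M
    ext p
    simp only [RingHom.comp_apply, sqLift_algebraMap, RingHom.id_apply]
    exact toSq_fst D p
  exact DFunLike.congr_fun h x

/-- extension of a derivation to the localization -/
noncomputable def liftD (D : Derivation k P P) : Derivation ℤ R R :=
  Derivation.mk' ((TrivSqZeroExt.sndHom R R).toAddMonoidHom.comp
    (sqLift (R := R) M D).toAddMonoidHom).toIntLinearMap (by
      intro a b
      simp only [AddMonoidHom.coe_toIntLinearMap, AddMonoidHom.comp_apply]
      change (sqLift (R := R) M D (a * b)).snd = a • (sqLift (R := R) M D b).snd +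
        b • (sqLift (R := R) M D a).snd
      rw [map_mul, TrivSqZeroExt.snd_mul, sqLift_fst, sqLift_fst]
      simp only [smul_eq_mul, op_smul_eq_mul]
      ring)

theorem liftD_algebraMap (D : Derivation k P P) (p : P) :
    liftD (R := R) M D (algebraMap P R p) = algebraMap P R (D p) := by
  change (sqLift (R := R) M D (algebraMap P R p)).snd = _
  rw [sqLift_algebraMap, toSq_snd]

include M in
theorem deriv_zero_of_algebraMap (δ : Derivation ℤ R R) (h : ∀ p : P, δ (algebraMap P R p) = 0)
    (x : R) : δ x = 0 := by
  obtain ⟨⟨a, s⟩, hx⟩ := IsLocalization.surj M x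
  have h1 := congrArg δ hx
  simp only at h1
  rw [Derivation.leibniz, h, h, smul_zero, zero_add, smul_eq_mul] at h1
  exact (IsLocalization.map_units R s).mul_right_eq_zero.mp h1

theorem liftD_comm (D D' : Derivation k P P) (h : ∀ x, D (D' x) = D' (D x)) (x : R) :
    liftD (R := R) M D (liftD (R := R) M D' x) = liftD (R := R) M D' (liftD (R := R) M D x) := by
  have h1 := deriv_zero_of_algebraMap M ⁅liftD (R := R) M D, liftD (R := R) M D'⁆ (by
    intro p
    rw [Derivation.commutator_apply, liftD_algebraMap, liftD_algebraMap, liftD_algebraMap,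
      liftD_algebraMap, h, sub_self]) x
  rw [Derivation.commutator_apply, sub_eq_zero] at h1
  exact h1

end lift

section descend

variable {R F : Type*} [CommRing R] [CommRing F] (π : R →+* F) (hπ : Function.Surjective π)
  (hker : ∀ r, π r = 0 → ∃ s, r = 2 * s) (h2 : π 2 = 0)

include hker h2 in
theorem desc_wd (δ : Derivation ℤ R R) {r r' : R} (h : π r = π r') : π (δ r) = π (δ r') := by
  obtain ⟨s, hs⟩ := hker (r - r') (by rw [map_sub, h, sub_self])
  have h1 : r = r' + 2 * s := by rw [← hs]; ring
  have h3 : δ (2 : R) = 0 := by
    have := Derivation.map_natCast δ 2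
    exact_mod_cast this
  rw [h1, map_add, Derivation.leibniz, h3, smul_zero, add_zero, smul_eq_mul, map_add, map_mul,
    h2, zero_mul, add_zero]

/-- the induced derivation on the quotient -/
noncomputable def descD (δ : Derivation ℤ R R) : Derivation ℤ F F :=
  Derivation.mk' (AddMonoidHom.toIntLinearMap
    { toFun := fun x => π (δ (Function.surjInv hπ x))
      map_zero' := by
        rw [desc_wd π hker h2 δ (r' := 0) (by rw [Function.surjInv_eq hπ, map_zero]), map_zero,
          map_zero]
      map_add' := by
        intro x y
        rw [← map_add, ← map_add]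
        apply desc_wd π hker h2 δ
        rw [Function.surjInv_eq hπ, map_add, Function.surjInv_eq hπ, Function.surjInv_eq hπ] }) (by
      intro x y
      change π (δ (Function.surjInv hπ (x * y))) = x • π (δ (Function.surjInv hπ y)) +
        y • π (δ (Function.surjInv hπ x))
      rw [desc_wd π hker h2 δ (r' := Function.surjInv hπ x * Function.surjInv hπ y)
        (by rw [Function.surjInv_eq hπ, map_mul, Function.surjInv_eq hπ, Function.surjInv_eq hπ])]
      rw [Derivation.leibniz, map_add, smul_eq_mul, smul_eq_mul, map_mul, map_mul,
        Function.surjInv_eq hπ, Function.surjInv_eq hπ, smul_eq_mul, smul_eq_mul])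

theorem descD_apply (δ : Derivation ℤ R R) (r : R) :
    descD π hπ hker h2 δ (π r) = π (δ r) := by
  change π (δ (Function.surjInv hπ (π r))) = _
  exact desc_wd π hker h2 δ (Function.surjInv_eq hπ _)

theorem descD_comm (δ δ' : Derivation ℤ R R) (h : ∀ x, δ (δ' x) = δ' (δ x)) (x : F) :
    descD π hπ hker h2 δ (descD π hπ hker h2 δ' x) =
      descD π hπ hker h2 δ' (descD π hπ hker h2 δ x) := by
  obtain ⟨r, rfl⟩ := hπ x
  rw [descD_apply, descD_apply, descD_apply, descD_apply, h]

end descend

end CSLef
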