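import Mathlib
import Pool.Agent.Work.MP_38c61c_al.LiftD
import Pool.Agent.Work.MP_38c61c_al.FlipChar2

/-!
The generic coefficient ring, its localization at 2, and the residue field.
-/

namespace CSLef

open MvPolynomial Finset

section rings

/-- index set of the parameters -/
abbrev Om (d : ℕ) (V : Type) : Type := (Fin d × (V ⊕ Bool)) ⊕ (Fin d ⊕ V)

/-- the generic coefficient ring -/
abbrev PR (d : ℕ) (V : Type) : Type := MvPolynomial (Om d V) ℤ

variable (d : ℕ) (V : Type)

theorem prime_two : Prime (2 : PR d V) := by
  have h : Prime (C (2 : ℤ) : PR d V) := (prime_C_iff _).mpr Int.prime_two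
  have h2 : (C (2 : ℤ) : PR d V) = 2 := by rw [map_ofNat]
  rwa [h2] at h

instance prime_span_two : (Ideal.span {(2 : PR d V)}).IsPrime :=
  (Ideal.span_singleton_prime (prime_two d V).ne_zero).mpr (prime_two d V)

/-- localization at 2 -/
def RR : Type := Localization.AtPrime (Ideal.span {(2 : PR d V)})

noncomputable instance : CommRing (RR d V) :=
  inferInstanceAs (CommRing (Localization.AtPrime (Ideal.span {(2 : PR d V)})))

noncomputable instance : Algebra (PR d V) (RR d V) :=
  inferInstanceAs (Algebra (PR d V) (Localization.AtPrime (Ideal.span {(2 : PR d V)})))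

instance : IsLocalization.AtPrime (RR d V) (Ideal.span {(2 : PR d V)}) :=
  inferInstanceAs (IsLocalization.AtPrime (Localization.AtPrime (Ideal.span {(2 : PR d V)}))
    (Ideal.span {(2 : PR d V)}))

instance : IsLocalization (Ideal.span {(2 : PR d V)}).primeCompl (RR d V) :=
  inferInstanceAs (IsLocalization (Ideal.span {(2 : PR d V)}).primeCompl
    (Localization.AtPrime (Ideal.span {(2 : PR d V)})))

instance : IsLocalRing (RR d V) :=
  inferInstanceAs (IsLocalRing (Localization.AtPrime (Ideal.span {(2 : PR d V)})))

/-- residue field -/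
def FF : Type := IsLocalRing.ResidueField (RR d V)

noncomputable instance : Field (FF d V) :=
  inferInstanceAs (Field (IsLocalRing.ResidueField (RR d V)))

theorem max_eq : IsLocalRing.maximalIdeal (RR d V) = Ideal.span {2} := by
  rw [← IsLocalization.AtPrime.map_eq_maximalIdeal (Ideal.span {(2 : PR d V)}) (RR d V),
    Ideal.map_span, Set.image_singleton, map_ofNat]

instance : IsDomain (RR d V) :=
  inferInstanceAs (IsDomain (Localization.AtPrime (Ideal.span {(2 : PR d V)})))

instance [Finite V] : IsNoetherianRing (RR d V) :=
  IsLocalization.isNoetherianRing (Ideal.span {(2 : PR d V)}).primeCompl _ inferInstance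

/-- the reduction map -/
noncomputable def red : RR d V →+* FF d V := IsLocalRing.residue (RR d V)

theorem red_surj : Function.Surjective (red d V) := IsLocalRing.residue_surjective

theorem red_ker (r : RR d V) (h : red d V r = 0) : ∃ s, r = 2 * s := by
  have h1 := (IsLocalRing.residue_eq_zero_iff r).mp h
  rw [max_eq, Ideal.mem_span_singleton] at h1
  exact h1

theorem red_two : red d V 2 = 0 := by
  apply (IsLocalRing.residue_eq_zero_iff _).mpr
  rw [max_eq]
  exact Ideal.mem_span_singleton_self 2

instance : CharP (FF d V) 2 := by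
  apply CharTwo.of_one_ne_zero_of_two_eq_zero one_ne_zero
  have := red_two d V
  rwa [map_ofNat] at this

end rings

variable {d : ℕ} {V : Type} [Fintype V] [DecidableEq V]

/-- generic columns -/
noncomputable def pP (α : Equiv.Perm V) (VP : Finset V) (l : ℕ) (w : V ⊕ Bool) : PR d V :=
  if h : l < d then
    match w with
    | .inl v => if v ∈ VP then X (Sum.inl (⟨l, h⟩, Sum.inl v))
        else - X (Sum.inl (⟨l, h⟩, Sum.inl (α v)))
    | .inr b => X (Sum.inl (⟨l, h⟩, Sum.inr b))
  else 0

/-- generic coefficients -/
noncomputable def muP (l : ℕ) : PR d V := if h : l < d then X (Sum.inr (Sum.inl ⟨l, h⟩)) else 0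

/-- generic coefficients -/
noncomputable def cP (v : V) : PR d V := X (Sum.inr (Sum.inr v))

/-- representative of a column index -/
def rep (α : Equiv.Perm V) (VP : Finset V) : V ⊕ Bool → V ⊕ Bool
  | .inl v => if v ∈ VP then .inl v else .inl (α v)
  | .inr b => .inr b

noncomputable def DP (α : Equiv.Perm V) (VP : Finset V) (l : ℕ) (w : V ⊕ Bool) :
    Derivation ℤ (PR d V) (PR d V) :=
  if h : l < d then pderiv (Sum.inl (⟨l, h⟩, rep α VP w)) else 0

noncomputable def DmP (l : ℕ) : Derivation ℤ (PR d V) (PR d V) :=
  if h : l < d then pderiv (Sum.inr (Sum.inl ⟨l, h⟩)) else 0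

noncomputable def DcP (v : V) : Derivation ℤ (PR d V) (PR d V) :=
  pderiv (Sum.inr (Sum.inr v))

/-- sign of a column -/
def sgn (VP : Finset V) : V ⊕ Bool → ℤ
  | .inl v => if v ∈ VP then 1 else -1
  | .inr _ => 1

omit [Fintype V] in
theorem rep_eq_iff {α : Equiv.Perm V} {VP : Finset V} (hinv : ∀ v, α (α v) = v)
    (hvp : ∀ v, v ∈ VP ↔ α v ∉ VP) (w w' : V ⊕ Bool) :
    rep α VP w = rep α VP w' ↔ relW α w w' := by
  have h1 : ∀ u, u ∉ VP → α u ∈ VP := by
    intro u hu
    by_contra h
    exact hu ((hvp u).mpr h)
  rcases w with u | b <;> rcases w' with v | b'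
  · unfold rep relW
    by_cases hu : u ∈ VP <;> by_cases hv : v ∈ VP
    · simp only [hu, hv, if_true, Sum.inl.injEq]
      constructor
      · exact fun h => Or.inl h
      · rintro (h | h)
        · exact h
        · exact absurd (h ▸ hv) ((hvp u).mp hu)
    · simp only [hu, hv, if_true, if_false, Sum.inl.injEq]
      constructor
      · intro h; right; rw [h, hinv]
      · rintro (h | h)
        · exact absurd (h ▸ hu) hv
        · rw [h, hinv]
    · simp only [hu, hv, if_true, if_false, Sum.inl.injEq]
      constructor
      · intro h; right; exact h.symm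
      · rintro (h | h)
        · exact absurd (h ▸ hv) hu
        · exact h.symm
    · simp only [hu, hv, if_false, Sum.inl.injEq]
      constructor
      · intro h; left; exact α.injective h
      · rintro (h | h)
        · rw [h]
        · exact absurd (h ▸ h1 u hu) hv
  · by_cases hu : u ∈ VP <;> simp [rep, relW, hu]
  · by_cases hv : v ∈ VP <;> simp [rep, relW, hv]
  · simp [rep, relW]

omit [Fintype V] in
theorem pP_eq (α : Equiv.Perm V) (VP : Finset V) (l : ℕ) (h : l < d) (w : V ⊕ Bool) :
    (pP α VP l w : PR d V) = (sgn VP w : PR d V) * X (Sum.inl (⟨l, h⟩, rep α VP w)) := by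
  unfold pP sgn rep
  rw [dif_pos h]
  rcases w with v | b
  · by_cases hv : v ∈ VP
    · simp [hv]
    · simp [hv]
  · simp

omit [Fintype V] in
theorem DP_pP {α : Equiv.Perm V} {VP : Finset V} (hinv : ∀ v, α (α v) = v)
    (hvp : ∀ v, v ∈ VP ↔ α v ∉ VP) (l : ℕ) (w : V ⊕ Bool) (l' : ℕ) (w' : V ⊕ Bool) :
    DP α VP l w (pP α VP l' w' : PR d V) =
      if l = l' ∧ l < d ∧ relW α w w' then (sgn VP w' : PR d V) else 0 := by
  by_cases hl' : l' < d
  · rw [pP_eq α VP l' hl']
    unfold DP
    split_ifs with hl h2 h3
    · rw [Derivation.leibniz, Derivation.map_intCast, smul_zero, add_zero, pderiv_X]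
      obtain ⟨h4, _, h5⟩ := h2
      subst h4
      rw [(rep_eq_iff hinv hvp w w').mpr h5, Pi.single_eq_same, smul_eq_mul, mul_one]
    · rw [Derivation.leibniz, Derivation.map_intCast, smul_zero, add_zero, pderiv_X,
        Pi.single_eq_of_ne, smul_zero]
      intro heq
      apply h2
      simp only [Sum.inl.injEq, Prod.mk.injEq, Fin.mk.injEq] at heq
      exact ⟨heq.1.symm, hl, (rep_eq_iff hinv hvp w w').mp heq.2.symm⟩
    · exact absurd h3.2.1 hl
    · simp
  · unfold pP
    rw [dif_neg hl', map_zero, if_neg]
    rintro ⟨h1, h2, _⟩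
    exact hl' (h1 ▸ h2)

omit [Fintype V] [DecidableEq V] in
theorem pderiv_comm' (i j : Om d V) (x : PR d V) :
    pderiv i (pderiv j x) = pderiv j (pderiv i x) := by
  classical
  have h : ⁅(pderiv i : Derivation ℤ (PR d V) (PR d V)),
      (pderiv j : Derivation ℤ (PR d V) (PR d V))⁆ = 0 := by
    apply MvPolynomial.derivation_ext
    intro k
    rw [Derivation.commutator_apply, pderiv_X, pderiv_X, Derivation.zero_apply]
    have h1 : ∀ (a b : Om d V),
        (pderiv a : Derivation ℤ (PR d V) (PR d V))
          ((Pi.single b (1 : PR d V) : Om d V → PR d V) k) = 0 := by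
      intro a b
      by_cases hk : k = b
      · subst hk; rw [Pi.single_eq_same]; exact Derivation.map_one_eq_zero _
      · rw [Pi.single_eq_of_ne hk, map_zero]
    rw [h1, h1, sub_self]
  have h2 := DFunLike.congr_fun h x
  rw [Derivation.commutator_apply, Derivation.zero_apply, sub_eq_zero] at h2
  exact h2

/-- derivation on the localization -/
noncomputable abbrev LD (D : Derivation ℤ (PR d V) (PR d V)) : Derivation ℤ (RR d V) (RR d V) :=
  liftD (Ideal.span {(2 : PR d V)}).primeCompl D

/-- derivation on the residue field -/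
noncomputable abbrev FD (D : Derivation ℤ (PR d V) (PR d V)) : Derivation ℤ (FF d V) (FF d V) :=
  descD (red d V) (red_surj d V) (red_ker d V) (red_two d V) (LD D)

/-- the map to the residue field -/
noncomputable def toF : PR d V →+* FF d V := (red d V).comp (algebraMap (PR d V) (RR d V))

theorem FD_toF (D : Derivation ℤ (PR d V) (PR d V)) (x : PR d V) :
    FD D (toF x) = toF (D x) := by
  unfold toF
  rw [RingHom.comp_apply, RingHom.comp_apply, descD_apply, liftD_algebraMap]

theorem FD_comm (D D' : Derivation ℤ (PR d V) (PR d V)) (h : ∀ x, D (D' x) = D' (D x))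
    (x : FF d V) : FD D (FD D' x) = FD D' (FD D x) := by
  apply descD_comm
  exact liftD_comm _ _ _ h

theorem toF_sgn (VP : Finset V) (w : V ⊕ Bool) : toF ((sgn VP w : ℤ) : PR d V) = 1 := by
  have h1 : (sgn VP w : ℤ) = 1 ∨ (sgn VP w : ℤ) = -1 := by
    unfold sgn
    rcases w with v | b
    · simp only
      split_ifs
      · exact Or.inl rfl
      · exact Or.inr rfl
    · exact Or.inl rfl
  rcases h1 with h | h
  · rw [h, Int.cast_one]; simp
  · rw [h, Int.cast_neg, Int.cast_one]
    simp only [map_neg, map_one]
    exact CharTwo.neg_eq 1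

/-- the data over the residue field -/
theorem setupF {Δ : Finset (Finset V)} {α : Equiv.Perm V} {VP : Finset V} (hΔ : IsHomSphere Δ d)
    (hα : IsCS Δ α) (hvp : ∀ v, v ∈ VP ↔ α v ∉ VP) :
    Setup (F := FF d V) Δ d α VP (fun l w => toF (pP α VP l w)) (fun l w => FD (DP α VP l w))
      (fun l => toF (muP l)) (fun v => toF (cP v)) (fun l => FD (DmP l)) (fun v => FD (DcP v)) where
  cols := {
    refl := by
      intro w
      rcases w with v | b
      · exact Or.inl rfl
      · exact rfl
    D_p := by
      intro l w l' w'
      rw [FD_toF, DP_pP hα.invol hvp]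
      split_ifs
      · exact toF_sgn VP w'
      · simp
    D_ge := by
      intro l w x hl
      obtain ⟨r, rfl⟩ := red_surj d V x
      rw [descD_apply]
      have : LD (DP α VP l w) r = (0 : RR d V) := by
        apply deriv_zero_of_algebraMap (Ideal.span {(2 : PR d V)}).primeCompl
        intro q
        rw [liftD_algebraMap]
        unfold DP
        rw [dif_neg (by omega)]
        simp
      rw [this, map_zero]
    comm := by
      intro l w l' w' x
      apply FD_comm
      intro y
      unfold DP
      split_ifs
      · exact pderiv_comm' _ _ _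
      · simp
      · simp
      · simp }
  cs := hα
  hs := hΔ
  p_inv := by
    intro l v
    by_cases hl : l < d
    · rw [pP_eq α VP l hl, pP_eq α VP l hl]
      have h1 : rep α VP (Sum.inl (α v)) = rep α VP (Sum.inl v) := by
        rw [rep_eq_iff hα.invol hvp]
        exact Or.inr (hα.invol v).symm
      rw [h1]
      rw [map_mul, map_mul, toF_sgn, toF_sgn]
    · unfold pP
      rw [dif_neg hl, dif_neg hl]
  vp := hvp
  Dm_p := by
    intro l l' w
    rw [FD_toF]
    have : DmP l (pP α VP l' w : PR d V) = 0 := by
      by_cases hl' : l' < d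
      · rw [pP_eq α VP l' hl']
        unfold DmP
        split_ifs
        · rw [Derivation.leibniz, Derivation.map_intCast, smul_zero, add_zero, pderiv_X,
            Pi.single_eq_of_ne (by simp), smul_zero]
        · simp
      · unfold pP
        rw [dif_neg hl', map_zero]
    rw [this]; simp
  Dc_p := by
    intro v l' w
    rw [FD_toF]
    have : DcP v (pP α VP l' w : PR d V) = 0 := by
      by_cases hl' : l' < d
      · rw [pP_eq α VP l' hl']
        unfold DcP
        rw [Derivation.leibniz, Derivation.map_intCast, smul_zero, add_zero, pderiv_X,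
            Pi.single_eq_of_ne (by simp), smul_zero]
      · unfold pP
        rw [dif_neg hl', map_zero]
    rw [this]; simp
  Dm_comm := by
    intro l l' x
    apply FD_comm
    intro y
    unfold DP DmP
    split_ifs
    · exact pderiv_comm' _ _ _
    · simp
    · simp
    · simp
  Dc_comm := by
    intro v l' x
    apply FD_comm
    intro y
    unfold DP DcP
    split_ifs
    · exact pderiv_comm' _ _ _
    · simp
  Dm_m := by
    intro l hl l'
    rw [FD_toF]
    by_cases hl' : l' < d
    · have : DmP l (muP l' : PR d V) = if l = l' then 1 else 0 := by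
        unfold DmP muP
        rw [dif_pos hl, dif_pos hl', pderiv_X]
        by_cases h : l = l'
        · subst h; simp
        · rw [if_neg h, Pi.single_eq_of_ne]
          intro heq
          apply h
          simp only [Sum.inr.injEq, Sum.inl.injEq, Fin.mk.injEq] at heq
          exact heq.symm
      rw [this]
      split_ifs <;> simp
    · unfold muP
      rw [dif_neg hl', map_zero, if_neg (by omega)]
      simp
  Dm_c := by
    intro l v
    rw [FD_toF]
    have : DmP l (cP v : PR d V) = 0 := by
      unfold DmP cP
      split_ifs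
      · rw [pderiv_X, Pi.single_eq_of_ne (by simp)]
      · simp
    rw [this]; simp
  Dc_m := by
    intro v l
    rw [FD_toF]
    have : DcP v (muP l : PR d V) = 0 := by
      unfold DcP muP
      split_ifs
      · rw [pderiv_X, Pi.single_eq_of_ne (by simp)]
      · simp
    rw [this]; simp
  Dc_c := by
    intro v _ v'
    rw [FD_toF]
    have : DcP v (cP v' : PR d V) = if v = v' then 1 else 0 := by
      unfold DcP cP
      rw [pderiv_X]
      by_cases h : v = v'
      · subst h; simp
      · rw [if_neg h, Pi.single_eq_of_ne]
        intro heq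
        apply h
        simp only [Sum.inr.injEq] at heq
        exact heq.symm
    rw [this]
    split_ifs <;> simp

end CSLef
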