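import Mathlib
import Pool.Agent.Work.MP_38c61c_al.RingR
import Pool.Agent.Work.MP_38c61c_al.InjR
import Pool.Agent.Work.MP_38c61c_al.Cert

/-!
Generic bijectivity of the Lefschetz maps.
-/

namespace CSLef

open MvPolynomial Finset

section dens

variable (d : ℕ) (V : Type)

theorem alg_inj : Function.Injective (algebraMap (PR d V) (RR d V)) :=
  IsLocalization.injective (RR d V)
    (Ideal.primeCompl_le_nonZeroDivisors (Ideal.span {(2 : PR d V)}))

/-- the fraction field -/
abbrev KK : Type := FractionRing (RR d V)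

theorem den_R : Den (algebraMap (RR d V) (KK d V)) where
  inj := IsFractionRing.injective _ _
  den := by
    intro x
    obtain ⟨⟨a, s⟩, hx⟩ := IsLocalization.surj (nonZeroDivisors (RR d V)) x
    refine ⟨s, nonZeroDivisors.coe_ne_zero s, a, ?_⟩
    rw [mul_comm]
    exact hx

/-- the map from the polynomial ring to the fraction field -/
noncomputable def phiP : PR d V →+* KK d V :=
  (algebraMap (RR d V) (KK d V)).comp (algebraMap (PR d V) (RR d V))

theorem den_P : Den (phiP d V) where
  inj := (den_R d V).inj.comp (alg_inj d V)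
  den := by
    intro x
    obtain ⟨s, hs, r, hr⟩ := (den_R d V).den x
    obtain ⟨⟨a, t⟩, ha⟩ := IsLocalization.surj (Ideal.span {(2 : PR d V)}).primeCompl s
    obtain ⟨⟨b, u⟩, hb⟩ := IsLocalization.surj (Ideal.span {(2 : PR d V)}).primeCompl r
    simp only at ha hb
    have hane : a ≠ 0 := by
      rintro rfl
      rw [map_zero] at ha
      have ht : algebraMap (PR d V) (RR d V) t ≠ 0 := by
        intro h0
        have := IsLocalization.map_units (RR d V) t
        rw [h0] at this
        exact not_isUnit_zero this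
      exact (mul_ne_zero hs ht) ha
    have hune : (u : PR d V) ≠ 0 := by
      intro h0
      apply u.2
      rw [h0]
      exact Ideal.zero_mem _
    refine ⟨a * u, mul_ne_zero hane hune, b * t, ?_⟩
    unfold phiP
    simp only [RingHom.comp_apply, map_mul]
    rw [← ha, ← hb, map_mul, map_mul, ← hr]
    ring

end dens

variable {V : Type} [Fintype V] [DecidableEq V] {d : ℕ} {Δ : Finset (Finset V)}
  {α : Equiv.Perm V} {VP : Finset V}

/-- generic rows over the polynomial ring -/
noncomputable def aP (d : ℕ) (α : Equiv.Perm V) (VP : Finset V) (l : ℕ) (v : V) : PR d V :=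
  pP α VP l (Sum.inl v)

omit [Fintype V] in
theorem aP_inv (hinv : ∀ v, α (α v) = v) (hvp : ∀ v, v ∈ VP ↔ α v ∉ VP) (l : ℕ) (v : V) :
    aP d α VP l (α v) = - aP d α VP l v := by
  unfold aP
  by_cases hl : l < d
  · rw [pP_eq α VP l hl, pP_eq α VP l hl]
    have h1 : rep α VP (Sum.inl (α v)) = rep α VP (Sum.inl v) := by
      rw [rep_eq_iff hinv hvp]
      exact Or.inr (hinv v).symm
    have h2 : (sgn VP (Sum.inl (α v)) : ℤ) = - sgn VP (Sum.inl v) := by
      unfold sgn
      by_cases hv : v ∈ VP
      · simp [hv, (hvp v).mp hv]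
      · have : α v ∈ VP := by
          by_contra h
          exact hv ((hvp v).mpr h)
        simp [hv, this]
    rw [h1, h2]
    push_cast
    ring
  · unfold pP
    rw [dif_neg hl, dif_neg hl, neg_zero]

theorem locHyp (hΔ : IsHomSphere Δ d) (hα : IsCS Δ α) (hvp : ∀ v, v ∈ VP ↔ α v ∉ VP) :
    LocHyp (red d V) Δ d (fun l v => algebraMap (PR d V) (RR d V) (aP d α VP l v)) where
  surj := red_surj d V
  ker := red_ker d V
  two := red_two d V
  max := max_eq d V
  two_ne := by
    intro h0
    have h1 : algebraMap (PR d V) (RR d V) 2 = algebraMap (PR d V) (RR d V) 0 := by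
      rw [map_ofNat, map_zero]; exact h0
    exact (prime_two d V).ne_zero (alg_inj d V h1)
  hs := hΔ
  ind := ind_rows (setupF hΔ hα hvp)

theorem map_welA {A B : Type*} [CommRing A] [CommRing B] (ψ : A →+* B) (a : ℕ → V → A)
    (μ : ℕ → A) (c : V → A) : MvPolynomial.map ψ (welA d α VP a μ c) =
      welA d α VP (fun l v => ψ (a l v)) (fun l => ψ (μ l)) (fun v => ψ (c v)) := by
  unfold welA yy
  simp only [map_add, map_sum, map_mul, map_C, map_X]

/-- injectivity over the local ring for the generic rows -/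
theorem inj_generic (hΔ : IsHomSphere Δ d) (hα : IsCS Δ α) (hvp : ∀ v, v ∈ VP ↔ α v ∉ VP)
    (hd : 1 ≤ d) (hflip : CondRigid Δ α d ∨ (CondAff Δ α d ∧ Even d)) {i k : ℕ}
    (hik : i + k + i = d) (x : MvPolynomial V (RR d V)) (hx : x.IsHomogeneous i)
    (hw : (welA d α VP (fun l v => algebraMap (PR d V) (RR d V) (aP d α VP l v))
      (fun l => algebraMap (PR d V) (RR d V) (muP l))
      (fun v => algebraMap (PR d V) (RR d V) (cP v))) ^ k * x ∈
      Jid Δ (fun l v => algebraMap (PR d V) (RR d V) (aP d α VP l v)) d) :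
    x ∈ Jid Δ (fun l v => algebraMap (PR d V) (RR d V) (aP d α VP l v)) d := by
  rcases k with _ | k
  · rwa [pow_zero, one_mul] at hw
  · apply inj_R (locHyp hΔ hα hvp) (setupF hΔ hα hvp) (μR := fun l => algebraMap _ _ (muP l))
      (cR := fun v => algebraMap _ _ (cP v)) (fun l v => rfl) (fun l => rfl) (fun v => rfl)
      _ (fun v => LD (DcP v)) _ _ _ _ hd hflip (by omega) hx hw
    · intro l v
      rw [aP_inv hα.invol hvp, map_neg]
    · intro v l u
      rw [liftD_algebraMap]
      have : DcP v (pP α VP l (Sum.inl u) : PR d V) = 0 := by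
        by_cases hl' : l < d
        · rw [pP_eq α VP l hl']
          unfold DcP
          rw [Derivation.leibniz, Derivation.map_intCast, smul_zero, add_zero, pderiv_X,
              Pi.single_eq_of_ne (by simp), smul_zero]
        · unfold pP
          rw [dif_neg hl', map_zero]
      unfold aP
      rw [this, map_zero]
    · intro v l
      rw [liftD_algebraMap]
      have : DcP v (muP l : PR d V) = 0 := by
        unfold DcP muP
        split_ifs
        · rw [pderiv_X, Pi.single_eq_of_ne (by simp)]
        · simp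
      rw [this, map_zero]
    · intro v _ v'
      rw [liftD_algebraMap]
      have : DcP v (cP v' : PR d V) = if v = v' then 1 else 0 := by
        unfold DcP cP
        rw [pderiv_X]
        by_cases h : v = v'
        · subst h; simp
        · rw [if_neg h, Pi.single_eq_of_ne]
          intro heq
          apply h
          simp only [Sum.inr.injEq] at heq
          exact heq.symm
      rw [this]
      split_ifs <;> simp
    · intro n hn h0
      have h1 : algebraMap (PR d V) (RR d V) (n : PR d V) = algebraMap (PR d V) (RR d V) 0 := by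
        rw [map_natCast, map_zero]; exact h0
      have h2 := alg_inj d V h1
      exact hn (Nat.cast_eq_zero.mp h2)

/-- the generic Lefschetz element over the polynomial ring -/
noncomputable def wP (d : ℕ) (α : Equiv.Perm V) (VP : Finset V) : MvPolynomial V (PR d V) :=
  welA d α VP (aP d α VP) muP cP

theorem cert_generic (hΔ : IsHomSphere Δ d) (hα : IsCS Δ α) (hvp : ∀ v, v ∈ VP ↔ α v ∉ VP)
    (hd : 1 ≤ d) (hflip : CondRigid Δ α d ∨ (CondAff Δ α d ∧ Even d)) {i k : ℕ}
    (hik : i + k + i = d) :
    ∃ g : PR d V, g ≠ 0 ∧ ∃ L : (V →₀ ℕ) → MvPolynomial V (PR d V),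
      Cert Δ (aP d α VP) d (wP d α VP) i k g L := by
  set aR : ℕ → V → RR d V := fun l v => algebraMap (PR d V) (RR d V) (aP d α VP l v) with haR
  set wR : MvPolynomial V (RR d V) := welA d α VP aR
      (fun l => algebraMap (PR d V) (RR d V) (muP l))
      (fun v => algebraMap (PR d V) (RR d V) (cP v)) with hwR
  have H := locHyp hΔ hα hvp
  have S := setupF hΔ hα hvp
  have htors : ∀ s : RR d V, s ≠ 0 → ∀ f : MvPolynomial V (RR d V), s • f ∈ Jid Δ aR d →
      f ∈ Jid Δ aR d := fun s hs f hf => tors (red d V) H hs hf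
  have hwKmap : MvPolynomial.map (phiP d V) (wP d α VP) =
      MvPolynomial.map (algebraMap (RR d V) (KK d V)) wR := by
    rw [hwR, map_welA]
    unfold wP
    rw [map_welA]
    rfl
  have hinjK : ∀ x : MvPolynomial V (KK d V), x.IsHomogeneous i →
      (MvPolynomial.map (phiP d V) (wP d α VP)) ^ k * x ∈
        Jid Δ (fun l v => phiP d V (aP d α VP l v)) d →
      x ∈ Jid Δ (fun l v => phiP d V (aP d α VP l v)) d := by
    intro x hx hw
    rw [hwKmap] at hw
    exact k_inj (den_R d V) hΔ.down htors
      (fun x hx hw => inj_generic hΔ hα hvp hd hflip hik x hx hw) hx hw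
  obtain ⟨σ, hσ, _, hσd⟩ := exists_facet hΔ ∅ hΔ.empty_mem
  have htopR : ∀ f : MvPolynomial V (RR d V), f.IsHomogeneous d →
      ∃ r : RR d V, f - r • xm (RR d V) σ ∈ Jid Δ aR d := by
    intro f hf
    apply top_gen (red d V) H hσd _ hf
    intro hmem
    have hxσ : (xm (FF d V) σ).IsHomogeneous d := hσd ▸ xm_hom σ
    exact piF_facet_ne S.cols S.cs hσ hσd (piF_J S hd hmem hxσ)
  apply cert_exists (den_P d V) hΔ.down (welA_hom _ _ _ _) hinjK
  apply k_surj hik ((welA_hom (d := d) (α := α) VP (aP d α VP) muP cP).map (phiP d V)) hinjK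
  · intro y hy h0
    exact k_nondeg (den_R d V) hΔ.down htors
      (fun f hf hg => nondeg_R (red d V) H hik hf hg) hy h0
  · exact k_top (den_R d V) hΔ.down htopR

/-- generic bijectivity, in a form that specializes to every field -/
theorem generic_bij (hΔ : IsHomSphere Δ d) (hα : IsCS Δ α) (hvp : ∀ v, v ∈ VP ↔ α v ∉ VP)
    (hd : 1 ≤ d) (hflip : CondRigid Δ α d ∨ (CondAff Δ α d ∧ Even d)) :
    ∃ g : PR d V, g ≠ 0 ∧ ∀ {k : Type*} [Field k] (ψ : PR d V →+* k), ψ g ≠ 0 →
      (∀ i e, i + e + i = d →
        (∀ x : MvPolynomial V k, x.IsHomogeneous i →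
          (MvPolynomial.map ψ (wP d α VP)) ^ e * x ∈ Jid Δ (fun l v => ψ (aP d α VP l v)) d →
          x ∈ Jid Δ (fun l v => ψ (aP d α VP l v)) d) ∧
        (∀ y : MvPolynomial V k, y.IsHomogeneous (i + e) → ∃ x : MvPolynomial V k,
          x.IsHomogeneous i ∧ (MvPolynomial.map ψ (wP d α VP)) ^ e * x - y ∈
            Jid Δ (fun l v => ψ (aP d α VP l v)) d)) ∧
      (∀ n, d < n → ∀ f : MvPolynomial V k, f.IsHomogeneous n →
        f ∈ Jid Δ (fun l v => ψ (aP d α VP l v)) d) := by
  classical
  have hcert : ∀ i, ∃ g : PR d V, g ≠ 0 ∧ (∀ e, i + e + i = d →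
      ∃ L : (V →₀ ℕ) → MvPolynomial V (PR d V),
        Cert Δ (aP d α VP) d (wP d α VP) i e g L) := by
    intro i
    by_cases h : i + i ≤ d
    · obtain ⟨g, hg, L, hL⟩ := cert_generic hΔ hα hvp hd hflip
        (show i + (d - (i + i)) + i = d by omega)
      refine ⟨g, hg, ?_⟩
      intro e he
      have : e = d - (i + i) := by omega
      subst this
      exact ⟨L, hL⟩
    · exact ⟨1, one_ne_zero, fun e he => by omega⟩
  choose g hg hL using hcert
  obtain ⟨s, hs, hlarge⟩ := descend_finset (den_P d V) hΔ.down (a := aP d α VP) (j := d)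
    (Mon V (d + 1)) (fun n => monomial n 1) (by
      intro n hn
      apply k_large (den_R d V) hΔ.down (a := fun l v =>
        algebraMap (PR d V) (RR d V) (aP d α VP l v)) (n := d + 1)
      · intro f hf
        exact large_R (red d V) (locHyp hΔ hα hvp) (Nat.lt_succ_self d) hf
      · exact (monomial_hom hn 1).map _)
  refine ⟨(∏ i ∈ range (d + 1), g i) * s,
    mul_ne_zero (Finset.prod_ne_zero_iff.mpr (fun i _ => hg i)) hs, ?_⟩
  intro k _ ψ hψ
  rw [map_mul, map_prod] at hψ
  have hψs : ψ s ≠ 0 := right_ne_zero_of_mul hψ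
  have hψg : ∀ i ∈ range (d + 1), ψ (g i) ≠ 0 :=
    Finset.prod_ne_zero_iff.mp (left_ne_zero_of_mul hψ)
  constructor
  · intro i e hie
    obtain ⟨L, hLc⟩ := hL i e hie
    have hc := hLc.map ψ hΔ.down
    have hgi := hψg i (Finset.mem_range.mpr (by omega))
    constructor
    · intro x hx hw
      exact hc.inj hgi hΔ.down hd hie ((welA_hom _ _ _ _).map ψ) hx hw
    · intro y hy
      exact hc.surj hgi y hy
  · have hbase : ∀ f : MvPolynomial V k, f.IsHomogeneous (d + 1) →
        f ∈ Jid Δ (fun l v => ψ (aP d α VP l v)) d := by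
      intro f hf
      rw [hom_sum_Mon hf]
      apply Ideal.sum_mem
      intro m hm
      apply Ideal.mul_mem_left
      have h1 := map_J ψ hΔ.down (hlarge m hm)
      rw [map_mul, map_C, map_mon_one] at h1
      have h2 := Ideal.mul_mem_left _ (C (ψ s)⁻¹) h1
      rw [← mul_assoc, ← map_mul, inv_mul_cancel₀ hψs, map_one, one_mul] at h2
      exact h2
    intro n hn
    obtain ⟨m, rfl⟩ : ∃ m, n = d + 1 + m := ⟨n - (d + 1), by omega⟩
    clear hn
    induction m with
    | zero => intro f hf; exact hbase f hf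
    | succ m ih =>
      intro f hf
      obtain ⟨f', hf'1, hf'2⟩ := hom_split hf
      rw [hf'2]
      apply Ideal.sum_mem
      intro v _
      exact Ideal.mul_mem_left _ _ (ih _ (hf'1 v))

end CSLef
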