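import Mathlib
import Pool.Agent.Work.MP_38c61c_al.Generic

/-!
Transfer of the generic statement to generic antisymmetric linear forms over a field of
characteristic zero.
-/

namespace CSLef

open MvPolynomial Finset

variable {V : Type} [Fintype V] [DecidableEq V] {d : ℕ} {Δ : Finset (Finset V)}
  {α : Equiv.Perm V} {VP : Finset V}

section scale

variable {k : Type*} [Field k]

/-- rescaling of the variables -/
noncomputable def scale (s : V → k) : MvPolynomial V k →ₐ[k] MvPolynomial V k :=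
  aeval (fun v => C (s v) * X v)

theorem scale_X (s : V → k) (v : V) : scale s (X v) = C (s v) * X v := by
  unfold scale; rw [aeval_X]

theorem scale_C (s : V → k) (c : k) : scale s (C c) = C c := by
  unfold scale; rw [aeval_C]; rfl

theorem scale_scale (s t : V → k) (h : ∀ v, s v * t v = 1) (f : MvPolynomial V k) :
    scale s (scale t f) = f := by
  have h1 : (scale s).comp (scale t) = AlgHom.id k _ := by
    apply MvPolynomial.algHom_ext
    intro v
    rw [AlgHom.comp_apply, scale_X, map_mul, scale_C, scale_X, ← mul_assoc, ← map_mul,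
      mul_comm (t v), h, map_one, one_mul]
    rfl
  exact DFunLike.congr_fun h1 f

theorem scale_hom (s : V → k) {n : ℕ} {f : MvPolynomial V k} (hf : f.IsHomogeneous n) :
    (scale s f).IsHomogeneous n := by
  have := hf.aeval (n := 1) (fun v => C (s v) * X v) (by
    intro v
    have := (isHomogeneous_C V (s v)).mul (isHomogeneous_X k v)
    rwa [zero_add] at this)
  rw [one_mul] at this
  exact this

theorem scale_lin (s : V → k) (b : V → k) : scale s (lin b) = lin (fun v => b v * s v) := by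
  unfold lin
  rw [map_sum]
  apply Finset.sum_congr rfl
  intro v _
  rw [map_mul, scale_C, scale_X, ← mul_assoc, ← map_mul]

theorem scale_sr (s : V → k) {f : MvPolynomial V k} (hf : f ∈ srIdeal k Δ) :
    scale s f ∈ srIdeal k Δ := by
  have h : srIdeal k Δ ≤ (srIdeal k Δ).comap (scale s) := by
    apply Ideal.span_le.mpr
    rintro f ⟨G, hG, rfl⟩
    rw [SetLike.mem_coe, Ideal.mem_comap, map_prod]
    have : ∏ v ∈ G, scale s (X v) = (∏ v ∈ G, C (s v)) * ∏ v ∈ G, X v := by
      rw [← Finset.prod_mul_distrib]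
      exact Finset.prod_congr rfl (fun v _ => scale_X s v)
    rw [this]
    exact Ideal.mul_mem_left _ _ (Ideal.subset_span ⟨G, hG, rfl⟩)
  exact h hf

theorem scale_J (s : V → k) {a : ℕ → V → k} {j : ℕ} {f : MvPolynomial V k}
    (hf : f ∈ Jid Δ a j) : scale s f ∈ Jid Δ (fun l v => a l v * s v) j := by
  rw [mem_J_iff] at hf ⊢
  obtain ⟨g, hg⟩ := hf
  refine ⟨fun l => scale s (g l), ?_⟩
  have h1 := scale_sr s hg
  rw [map_sub, map_sum] at h1
  convert h1 using 2
  apply Finset.sum_congr rfl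
  intro l _
  rw [map_mul, scale_lin]

theorem scale_J_iff (s : V → k) (hs : ∀ v, s v ≠ 0) {a : ℕ → V → k} {j : ℕ}
    {f : MvPolynomial V k} :
    scale s f ∈ Jid Δ (fun l v => a l v * s v) j ↔ f ∈ Jid Δ a j := by
  constructor
  · intro h
    have h1 := scale_J (fun v => (s v)⁻¹) h
    rw [scale_scale _ _ (fun v => inv_mul_cancel₀ (hs v))] at h1
    have h2 : (fun (l : ℕ) (v : V) => a l v * s v * (s v)⁻¹) = a := by
      funext l v
      rw [mul_assoc, mul_inv_cancel₀ (hs v), mul_one]
    rwa [h2] at h1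
  · exact scale_J s

end scale

section slp

variable {k : Type*} [Field k]

/-- the sum of all variables -/
noncomputable def wsum (V : Type) [Fintype V] (k : Type*) [Field k] : MvPolynomial V k :=
  ∑ v, X v

theorem wsum_hom : (wsum V k).IsHomogeneous 1 :=
  IsHomogeneous.sum _ _ _ (fun v _ => isHomogeneous_X k v)

/-- bijectivity of the middle powers gives all maximal rank statements -/
theorem slp_of_bij {J : Ideal (MvPolynomial V k)} {w : MvPolynomial V k}
    (hw : w.IsHomogeneous 1)
    (hinj : ∀ i e, i + e + i = d → ∀ x : MvPolynomial V k, x.IsHomogeneous i →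
      w ^ e * x ∈ J → x ∈ J)
    (hsurj : ∀ i e, i + e + i = d → ∀ y : MvPolynomial V k, y.IsHomogeneous (i + e) →
      ∃ x : MvPolynomial V k, x.IsHomogeneous i ∧ w ^ e * x - y ∈ J)
    (hbig : ∀ n, d < n → ∀ f : MvPolynomial V k, f.IsHomogeneous n → f ∈ J) (i e : ℕ) :
    (∀ x ∈ gr J i, Ideal.Quotient.mk J w ^ e * x = 0 → x = 0) ∨
    (∀ y ∈ gr J (i + e), ∃ x ∈ gr J i, Ideal.Quotient.mk J w ^ e * x = y) := by
  by_cases h1 : i + e + i ≤ d
  · left
    intro x hx h
    obtain ⟨f, hf, rfl⟩ := mem_gr.mp hx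
    rw [← map_pow, ← map_mul, Ideal.Quotient.eq_zero_iff_mem] at h
    rw [Ideal.Quotient.eq_zero_iff_mem]
    obtain ⟨m, hm⟩ : ∃ m, i + (m + e) + i = d := ⟨d - (i + e + i), by omega⟩
    apply hinj i (m + e) hm f hf
    rw [pow_add, mul_assoc]
    exact Ideal.mul_mem_left _ _ h
  · right
    intro y hy
    obtain ⟨g, hg, rfl⟩ := mem_gr.mp hy
    by_cases h2 : d < i + e
    · refine ⟨0, Submodule.zero_mem _, ?_⟩
      rw [mul_zero]
      symm
      rw [Ideal.Quotient.eq_zero_iff_mem]
      exact hbig _ h2 g hg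
    · obtain ⟨m, hm⟩ : ∃ m, (d - (i + e)) + m = i := ⟨i - (d - (i + e)), by omega⟩
      obtain ⟨x, hx1, hx2⟩ := hsurj (d - (i + e)) (e + m) (by omega) g (by
        have : d - (i + e) + (e + m) = i + e := by omega
        rw [this]; exact hg)
      refine ⟨Ideal.Quotient.mk J (w ^ m * x), mem_gr.mpr ⟨w ^ m * x, ?_, rfl⟩, ?_⟩
      · have := (hw.pow m).mul hx1
        rw [one_mul, add_comm, hm] at this
        exact this
      · rw [← map_pow, ← map_mul, Ideal.Quotient.mk_eq_mk_iff_sub_mem, ← mul_assoc, ← pow_add]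
        exact hx2

end slp

section transfer

variable {k : Type*} [Field k]

/-- scaling numbers -/
noncomputable def s1 (p : Om d V → k) (v : V) : k :=
  2 * p (Sum.inr (Sum.inr v)) + ∑ l : Fin d, p (Sum.inr (Sum.inl l)) * p (Sum.inl (l, Sum.inl v))

/-- images of the parameters -/
noncomputable def imP (VP : Finset V) (p : Om d V → k) : Om d V → MvPolynomial (Fin d × V) k
  | .inl (l, .inl v) => if v ∈ VP then C (s1 p v) * X (l, v) else C (p (Sum.inl (l, Sum.inl v)))
  | .inl (l, .inr b) => C (p (Sum.inl (l, Sum.inr b)))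
  | .inr (.inl l) => C (p (Sum.inr (Sum.inl l)))
  | .inr (.inr v) => if v ∈ VP then C 2⁻¹ * (C (s1 p v) - ∑ l : Fin d,
      C (p (Sum.inr (Sum.inl l))) * (C (s1 p v) * X (l, v))) else C (p (Sum.inr (Sum.inr v)))

/-- the substitution -/
noncomputable def PsiP (VP : Finset V) (p : Om d V → k) : PR d V →+* MvPolynomial (Fin d × V) k :=
  eval₂Hom (Int.castRingHom _) (imP VP p)

/-- the specialization at a matrix -/
noncomputable def psiA (VP : Finset V) (p : Om d V → k) (A : Fin d → V → k) : PR d V →+* k :=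
  (eval (fun q : Fin d × V => A q.1 q.2)).comp (PsiP VP p)

theorem PsiP_X (VP : Finset V) (p : Om d V → k) (o : Om d V) : PsiP VP p (X o) = imP VP p o := by
  unfold PsiP
  rw [coe_eval₂Hom, eval₂_X]

/-- rows indexed by natural numbers -/
def rowN (A : Fin d → V → k) (l : ℕ) (v : V) : k := if h : l < d then A ⟨l, h⟩ v else 0

omit [Fintype V] [DecidableEq V] in
theorem rowN_anti {A : Fin d → V → k} (hA : ∀ l v, A l (α v) = - A l v) (l : ℕ) (v : V) :
    rowN A l (α v) = - rowN A l v := by
  unfold rowN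
  split_ifs
  · exact hA _ _
  · rw [neg_zero]

/-- the symmetric scaling numbers -/
noncomputable def s0 (α : Equiv.Perm V) (VP : Finset V) (p : Om d V → k) (v : V) : k :=
  if v ∈ VP then s1 p v else s1 p (α v)

theorem s0_inv (hinv : ∀ v, α (α v) = v) (hvp : ∀ v, v ∈ VP ↔ α v ∉ VP) (p : Om d V → k) (v : V) :
    s0 α VP p (α v) = s0 α VP p v := by
  unfold s0
  by_cases hv : v ∈ VP
  · rw [if_pos hv, if_neg ((hvp v).mp hv), hinv]
  · have : α v ∈ VP := by
      by_contra h
      exact hv ((hvp v).mpr h)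
    rw [if_neg hv, if_pos this]

theorem psiA_aP (hvp : ∀ v, v ∈ VP ↔ α v ∉ VP) (p : Om d V → k)
    {A : Fin d → V → k} (hA : ∀ l v, A l (α v) = - A l v) (l : ℕ) (v : V) :
    psiA VP p A (aP d α VP l v) = rowN A l v * s0 α VP p v := by
  unfold aP pP rowN s0
  by_cases hl : l < d
  · rw [dif_pos hl, dif_pos hl]
    by_cases hv : v ∈ VP
    · simp only [hv, if_true]
      unfold psiA
      rw [RingHom.comp_apply, PsiP_X, imP, if_pos hv, map_mul, eval_C, eval_X, mul_comm]
    · have hv' : α v ∈ VP := by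
        by_contra h
        exact hv ((hvp v).mpr h)
      simp only [hv, if_false]
      unfold psiA
      rw [RingHom.comp_apply, map_neg, PsiP_X, imP, if_pos hv', map_neg, map_mul, eval_C, eval_X,
        hA]
      ring
  · rw [dif_neg hl, dif_neg hl, map_zero, zero_mul]

theorem psiA_cP (p : Om d V → k) (A : Fin d → V → k) {v : V} (hv : v ∈ VP) :
    psiA VP p A (cP v) = 2⁻¹ * (s0 α VP p v -
      ∑ l : Fin d, p (Sum.inr (Sum.inl l)) * (s0 α VP p v * A l v)) := by
  unfold psiA cP s0
  rw [RingHom.comp_apply, PsiP_X, imP, if_pos hv, if_pos hv]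
  simp only [map_mul, map_sub, map_sum, eval_C, eval_X]

theorem psiA_muP (p : Om d V → k) (A : Fin d → V → k) (l : ℕ) :
    psiA VP p A (muP l) = if h : l < d then p (Sum.inr (Sum.inl ⟨l, h⟩)) else 0 := by
  unfold psiA muP
  rw [RingHom.comp_apply]
  split_ifs with h
  · rw [PsiP_X, imP, eval_C]
  · rw [map_zero, map_zero]

theorem two_wP [NeZero (2 : k)] (hinv : ∀ v, α (α v) = v) (hvp : ∀ v, v ∈ VP ↔ α v ∉ VP)
    (p : Om d V → k) {A : Fin d → V → k} (hA : ∀ l v, A l (α v) = - A l v) :
    C 2 * MvPolynomial.map (psiA VP p A) (wP d α VP) - scale (s0 α VP p) (wsum V k) ∈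
      Jid Δ (fun l v => rowN A l v * s0 α VP p v) d := by
  have h2 : (2 : k) ≠ 0 := NeZero.ne 2
  have hscale : scale (s0 α VP p) (wsum V k) = ∑ v ∈ VP, C (s0 α VP p v) * (X v + X (α v)) := by
    have h1 : Finset.univ.filter (fun v => v ∈ VP) = VP := by ext; simp
    have h2 : Finset.univ.filter (fun v => v ∉ VP) = VP.image α := by
      ext v
      simp only [Finset.mem_filter, Finset.mem_univ, true_and, Finset.mem_image]
      constructor
      · intro hv
        refine ⟨α v, ?_, hinv v⟩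
        by_contra h
        exact hv ((hvp v).mpr h)
      · rintro ⟨u, hu, rfl⟩
        exact (hvp u).mp hu
    unfold wsum
    rw [map_sum, ← Finset.sum_filter_add_sum_filter_not Finset.univ (fun v => v ∈ VP), h1, h2,
      Finset.sum_image (fun a _ b _ hab => α.injective hab), ← Finset.sum_add_distrib]
    apply Finset.sum_congr rfl
    intro v _
    rw [scale_X, scale_X, s0_inv hinv hvp]
    ring
  have hw : MvPolynomial.map (psiA VP p A) (wP d α VP) =
      ∑ l : Fin d, C (p (Sum.inr (Sum.inl l))) * (∑ v ∈ VP, C (A l v * s0 α VP p v) * X v) +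
      ∑ v ∈ VP, C (2⁻¹ * (s0 α VP p v -
        ∑ l : Fin d, p (Sum.inr (Sum.inl l)) * (s0 α VP p v * A l v))) * (X v + X (α v)) := by
    unfold wP
    rw [map_welA]
    unfold welA yy
    rw [← Fin.sum_univ_eq_sum_range (fun l => C (psiA VP p A (muP l)) *
      ∑ v ∈ VP, C (psiA VP p A (aP d α VP l v)) * X v) d]
    congr 1
    · apply Finset.sum_congr rfl
      intro l _
      rw [psiA_muP, dif_pos l.2]
      congr 1
      apply Finset.sum_congr rfl
      intro v _
      rw [psiA_aP hvp p hA, rowN, dif_pos l.2]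
    · apply Finset.sum_congr rfl
      intro v hv
      beta_reduce
      rw [psiA_cP (α := α) p A hv]
  have key : C 2 * MvPolynomial.map (psiA VP p A) (wP d α VP) - scale (s0 α VP p) (wsum V k) =
      ∑ l : Fin d, C (p (Sum.inr (Sum.inl l))) * lin (fun v => rowN A l v * s0 α VP p v) := by
    rw [hscale, hw]
    have hlin : ∀ l : Fin d, lin (fun v => rowN A l v * s0 α VP p v) =
        ∑ v ∈ VP, C (A l v * s0 α VP p v) * (X v - X (α v)) := by
      intro l
      rw [lin_eq_VP hinv hvp (b := fun v => rowN A l v * s0 α VP p v) (by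
        intro v
        beta_reduce
        rw [rowN_anti hA, s0_inv hinv hvp]
        ring)]
      apply Finset.sum_congr rfl
      intro v _
      rw [rowN, dif_pos l.2]
    simp only [hlin]
    rw [mul_add, Finset.mul_sum, Finset.mul_sum]
    have e1 : ∀ v ∈ VP, C 2 * (C (2⁻¹ * (s0 α VP p v -
        ∑ l : Fin d, p (Sum.inr (Sum.inl l)) * (s0 α VP p v * A l v))) * (X v + X (α v))) =
        C (s0 α VP p v) * (X v + X (α v)) - ∑ l : Fin d, C (p (Sum.inr (Sum.inl l))) *
          (C (A l v * s0 α VP p v) * (X v + X (α v))) := by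
      intro v _
      rw [← mul_assoc, ← map_mul, ← mul_assoc, mul_inv_cancel₀ h2, one_mul, map_sub, sub_mul,
        map_sum, Finset.sum_mul]
      congr 1
      apply Finset.sum_congr rfl
      intro l _
      simp only [map_mul]
      ring
    rw [Finset.sum_congr rfl e1, Finset.sum_sub_distrib]
    rw [Finset.sum_comm]
    have e2 : ∀ (P Q R : MvPolynomial V k), P + (Q - R) - Q = P - R := by intro P Q R; ring
    rw [e2, ← Finset.sum_sub_distrib]
    apply Finset.sum_congr rfl
    intro l _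
    rw [Finset.mul_sum, Finset.mul_sum, Finset.mul_sum, ← Finset.sum_sub_distrib]
    apply Finset.sum_congr rfl
    intro v _
    have : (C 2 : MvPolynomial V k) = 2 := by rw [map_ofNat]
    rw [this]
    ring
  rw [key]
  apply Ideal.sum_mem
  intro l _
  exact Ideal.mul_mem_left _ _ (lin_mem_J l.2)

/-- nonvanishing parameters -/
theorem exists_param [CharZero k] (VP : Finset V) {g : PR d V} (hg : g ≠ 0) :
    ∃ p : Om d V → k, eval₂Hom (Int.castRingHom k) p g ≠ 0 ∧ ∀ v ∈ VP, s1 p v ≠ 0 := by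
  classical
  set q : V → PR d V := fun v => 2 * X (Sum.inr (Sum.inr v)) +
    ∑ l : Fin d, X (Sum.inr (Sum.inl l)) * X (Sum.inl (l, Sum.inl v)) with hq
  have hq0 : ∀ v, q v ≠ 0 := by
    intro v h0
    have h1 := congrArg (eval₂Hom (Int.castRingHom ℤ) (fun o : Om d V =>
      if o = Sum.inr (Sum.inr v) then 1 else 0)) h0
    rw [map_zero, hq] at h1
    simp only [map_add, map_mul, map_sum, coe_eval₂Hom, eval₂_X, map_ofNat] at h1
    simp at h1
  have hprod : g * ∏ v ∈ VP, q v ≠ 0 :=
    mul_ne_zero hg (Finset.prod_ne_zero_iff.mpr (fun v _ => hq0 v))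
  have hmap : MvPolynomial.map (Int.castRingHom k) (g * ∏ v ∈ VP, q v) ≠ 0 := by
    intro h0
    apply hprod
    apply MvPolynomial.map_injective (Int.castRingHom k) (RingHom.injective_int _)
    rw [h0, map_zero]
  obtain ⟨p, hp⟩ : ∃ p : Om d V → k,
      eval p (MvPolynomial.map (Int.castRingHom k) (g * ∏ v ∈ VP, q v)) ≠ 0 := by
    by_contra hno
    push Not at hno
    apply hmap
    apply MvPolynomial.funext
    intro x
    rw [hno x, map_zero]
  rw [eval_map] at hp
  change eval₂Hom (Int.castRingHom k) p (g * ∏ v ∈ VP, q v) ≠ 0 at hp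
  rw [map_mul, map_prod] at hp
  refine ⟨p, left_ne_zero_of_mul hp, ?_⟩
  intro v hv
  have h1 := Finset.prod_ne_zero_iff.mp (right_ne_zero_of_mul hp) v hv
  have h2 : eval₂Hom (Int.castRingHom k) p (q v) = s1 p v := by
    rw [hq]
    unfold s1
    simp only [map_add, map_mul, map_sum, coe_eval₂Hom, eval₂_X, map_ofNat]
  rwa [h2] at h1

/-- the special antisymmetric matrix -/
noncomputable def A0 (α : Equiv.Perm V) (VP : Finset V) (p : Om d V → k) (l : Fin d) (v : V) : k :=
  if v ∈ VP then p (Sum.inl (l, Sum.inl v)) / s1 p v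
  else - (p (Sum.inl (l, Sum.inl (α v))) / s1 p (α v))

theorem A0_anti (hinv : ∀ v, α (α v) = v) (hvp : ∀ v, v ∈ VP ↔ α v ∉ VP) (p : Om d V → k)
    (l : Fin d) (v : V) : A0 α VP p l (α v) = - A0 α VP p l v := by
  unfold A0
  by_cases hv : v ∈ VP
  · rw [if_pos hv, if_neg ((hvp v).mp hv), hinv]
  · have : α v ∈ VP := by
      by_contra h
      exact hv ((hvp v).mpr h)
    rw [if_neg hv, if_pos this, neg_neg]

theorem psiA_A0 [NeZero (2 : k)] (p : Om d V → k)
    (hs : ∀ v ∈ VP, s1 p v ≠ 0) : psiA VP p (A0 α VP p) = eval₂Hom (Int.castRingHom k) p := by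
  have h2 : (2 : k) ≠ 0 := NeZero.ne 2
  apply MvPolynomial.ringHom_ext
  · intro r
    simp
  · intro o
    rw [coe_eval₂Hom, eval₂_X]
    unfold psiA
    rw [RingHom.comp_apply, PsiP_X]
    have hmul : ∀ v ∈ VP, ∀ l : Fin d, s1 p v * A0 α VP p l v = p (Sum.inl (l, Sum.inl v)) := by
      intro v hv l
      unfold A0
      rw [if_pos hv, mul_div_cancel₀ _ (hs v hv)]
    rcases o with ⟨l, v | b⟩ | l | v
    · unfold imP
      by_cases hv : v ∈ VP
      · simp only [hv, if_true, map_mul, eval_C, eval_X]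
        exact hmul v hv l
      · simp only [hv, if_false, eval_C]
    · unfold imP
      simp only [eval_C]
    · unfold imP
      simp only [eval_C]
    · unfold imP
      by_cases hv : v ∈ VP
      · simp only [hv, if_true, map_mul, map_sub, map_sum, eval_C, eval_X]
        have h3 : ∑ l : Fin d, p (Sum.inr (Sum.inl l)) * (s1 p v * A0 α VP p l v) =
            ∑ l : Fin d, p (Sum.inr (Sum.inl l)) * p (Sum.inl (l, Sum.inl v)) :=
          Finset.sum_congr rfl (fun l _ => by rw [hmul v hv l])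
        rw [h3]
        unfold s1
        rw [add_sub_cancel_right, ← mul_assoc, inv_mul_cancel₀ h2, one_mul]
      · simp only [hv, if_false, eval_C]

/-- main transfer -/
theorem transfer [CharZero k] (hΔ : IsHomSphere Δ d) (hα : IsCS Δ α)
    (hvp : ∀ v, v ∈ VP ↔ α v ∉ VP) {g : PR d V} (hg : g ≠ 0)
    (H : ∀ ψ : PR d V →+* k, ψ g ≠ 0 →
      (∀ i e, i + e + i = d →
        (∀ x : MvPolynomial V k, x.IsHomogeneous i →
          (MvPolynomial.map ψ (wP d α VP)) ^ e * x ∈ Jid Δ (fun l v => ψ (aP d α VP l v)) d →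
          x ∈ Jid Δ (fun l v => ψ (aP d α VP l v)) d) ∧
        (∀ y : MvPolynomial V k, y.IsHomogeneous (i + e) → ∃ x : MvPolynomial V k,
          x.IsHomogeneous i ∧ (MvPolynomial.map ψ (wP d α VP)) ^ e * x - y ∈
            Jid Δ (fun l v => ψ (aP d α VP l v)) d)) ∧
      (∀ n, d < n → ∀ f : MvPolynomial V k, f.IsHomogeneous n →
        f ∈ Jid Δ (fun l v => ψ (aP d α VP l v)) d)) :
    ∃ Φ : MvPolynomial (Fin d × V) k,
      (∃ A : Fin d → V → k, (∀ l v, A l (α v) = - A l v) ∧ eval (fun q => A q.1 q.2) Φ ≠ 0) ∧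
      ∀ A : Fin d → V → k, (∀ l v, A l (α v) = - A l v) → eval (fun q => A q.1 q.2) Φ ≠ 0 →
        (∀ i e, (∀ x ∈ gr (Jid Δ (rowN A) d) i,
            Ideal.Quotient.mk _ (wsum V k) ^ e * x = 0 → x = 0) ∨
          (∀ y ∈ gr (Jid Δ (rowN A) d) (i + e), ∃ x ∈ gr (Jid Δ (rowN A) d) i,
            Ideal.Quotient.mk _ (wsum V k) ^ e * x = y)) ∧
        (∀ n, d < n → ∀ f : MvPolynomial V k, f.IsHomogeneous n → f ∈ Jid Δ (rowN A) d) := by
  have hinv := hα.invol
  obtain ⟨p, hpg, hps⟩ := exists_param (k := k) VP hg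
  have hs0 : ∀ v, s0 α VP p v ≠ 0 := by
    intro v
    unfold s0
    split_ifs with hv
    · exact hps v hv
    · apply hps
      by_contra h
      exact hv ((hvp v).mpr h)
  refine ⟨PsiP VP p g, ⟨A0 α VP p, A0_anti hinv hvp p, ?_⟩, ?_⟩
  · have h1 := psiA_A0 (α := α) p hps
    have h2 := RingHom.congr_fun h1 g
    unfold psiA at h2
    rw [RingHom.comp_apply] at h2
    rw [h2]
    exact hpg
  · intro A hA hne
    have h1 := H (psiA VP p A) hne
    have hJ : Jid Δ (fun l v => psiA VP p A (aP d α VP l v)) d =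
        Jid Δ (fun l v => rowN A l v * s0 α VP p v) d := by
      congr 1
      funext l v
      exact psiA_aP hvp p hA l v
    rw [hJ] at h1
    obtain ⟨h1, h2⟩ := h1
    have hbig : ∀ n, d < n → ∀ f : MvPolynomial V k, f.IsHomogeneous n →
        f ∈ Jid Δ (rowN A) d := by
      intro n hn f hf
      rw [← scale_J_iff (s0 α VP p) hs0]
      exact h2 n hn _ (scale_hom _ hf)
    refine ⟨?_, hbig⟩
    set J' := Jid Δ (fun l v => rowN A l v * s0 α VP p v) d with hJ'
    set w' := MvPolynomial.map (psiA VP p A) (wP d α VP) with hw'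
    have hcmp : ∀ e (x : MvPolynomial V k),
        C 2 ^ e * (w' ^ e * x) - (scale (s0 α VP p) (wsum V k)) ^ e * x ∈ J' := by
      intro e x
      rw [← mul_assoc, ← mul_pow, ← sub_mul]
      apply Ideal.mul_mem_right
      obtain ⟨c, hc⟩ := sub_dvd_pow_sub_pow (C 2 * w') (scale (s0 α VP p) (wsum V k)) e
      rw [hc]
      exact Ideal.mul_mem_right _ _ (two_wP hinv hvp p hA)
    have hC2 : ∀ e, (C 2 : MvPolynomial V k) ^ e * C (2⁻¹ ^ e) = 1 := by
      intro e
      rw [← map_pow, ← map_mul, ← mul_pow, mul_inv_cancel₀ two_ne_zero, one_pow, map_one]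
    intro i e
    apply slp_of_bij wsum_hom _ _ hbig
    · intro i e hie x hx hw
      rw [← scale_J_iff (s0 α VP p) hs0] at hw ⊢
      apply (h1 i e hie).1 _ (scale_hom _ hx)
      rw [map_mul, map_pow] at hw
      have h3 := Ideal.add_mem _ (hcmp e (scale (s0 α VP p) x)) hw
      rw [sub_add_cancel] at h3
      have h4 := Ideal.mul_mem_left _ (C (2⁻¹ ^ e)) h3
      rw [← mul_assoc, mul_comm (C (2⁻¹ ^ e)), hC2, one_mul] at h4
      exact h4
    · intro i e hie y hy
      obtain ⟨x', hx'1, hx'2⟩ := (h1 i e hie).2 _ (scale_hom (s0 α VP p) hy)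
      have hssi : ∀ f : MvPolynomial V k, scale (s0 α VP p) (scale (fun v => (s0 α VP p v)⁻¹) f) = f :=
        scale_scale _ _ (fun v => mul_inv_cancel₀ (hs0 v))
      refine ⟨scale (fun v => (s0 α VP p v)⁻¹) (C (2⁻¹ ^ e) * x'), ?_, ?_⟩
      · apply scale_hom
        have := (isHomogeneous_C V ((2⁻¹ : k) ^ e)).mul hx'1
        rwa [zero_add] at this
      · rw [← scale_J_iff (s0 α VP p) hs0, map_sub, map_mul, map_pow, hssi]
        have h3 := Ideal.add_mem _ hx'2
          ((Ideal.neg_mem_iff _).mpr (hcmp e (C (2⁻¹ ^ e) * x')))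
        convert h3 using 1
        have h4 : C 2 ^ e * (w' ^ e * (C (2⁻¹ ^ e) * x')) = w' ^ e * x' := by
          have h5 : C 2 ^ e * (w' ^ e * (C (2⁻¹ ^ e) * x')) =
            (C 2 ^ e * C (2⁻¹ ^ e)) * (w' ^ e * x') := by ring
          rw [h5, hC2, one_mul]
        rw [h4]
        ring

end transfer

end CSLef
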